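import Pool.Agent.Lib.MP_af3a4a_an.P1.H74.LocB

set_option autoImplicit false

/-!
# The corner: no counterexample with `|c - conj m| ≤ 3/20` and `|m| ≥ 19/20` (`49/50` for `N = 4`)
(council 2, helper74)
-/

namespace Pool.Agent.Lib.MP_af3a4a_an.P1.H74.Loc

open Finset MeasureTheory ComplexConjugate
open Pool.Agent.Lib.MP_af3a4a_an.SV (uu av EE XX JJ hh I1 I2)
open Pool.Agent.Lib.MP_af3a4a_an.P1.H80

/-- crude upper bound of `kap` -/
theorem kap_sub_le {a : ℝ} (h0 : 0 ≤ a) (h1 : a ≤ 3 / 20) : kap a - a ≤ 3 / 5 * a ^ 2 := by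
  unfold kap
  have e1 : Real.log (1 + a) ≤ a := by
    have := Real.log_le_sub_one_of_pos (show 0 < 1 + a by linarith)
    linarith
  have e2 : -Real.log (1 - a) ≤ a / (1 - a) := by
    have := Real.one_sub_inv_le_log_of_pos (show 0 < 1 - a by linarith)
    have e3 : a / (1 - a) = (1 - a)⁻¹ - 1 := by
      have : 1 - a ≠ 0 := by linarith
      field_simp
      ring
    linarith
  have e3 : a / (1 - a) ≤ a + 6 / 5 * a ^ 2 := by
    rw [div_le_iff₀ (by linarith)]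
    linarith [mul_nonneg h0 h0, mul_nonneg (mul_nonneg h0 h0) (sub_nonneg.2 h1)]
  linarith

/-- the main inequality of the certificate at `y = c = R` -/
theorem certR {N : ℕ} {z w : Fin N → ℂ} {R : ℝ} {σ : Fin N → ℂ} (hC : H80.Cfg2 N z w R σ)
    (hN : 4 ≤ N) {m : ℂ} {δ : ℝ} (hm : av (uu w) = m) (hδ : ‖(R : ℂ) - conj m‖ = δ)
    (hδ1 : δ ≤ 3 / 20) (hR : R ≤ 2) (hf : fI w (R : ℂ) ≠ 0) :
    N / 2 * Real.log (1 - δ ^ 2) + ((N : ℝ) + 1) * δ ^ 2 - (kap δ - δ) - δ * |1 - R| + (R - 1)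
      + Real.log (((N : ℝ) + 1) * ‖fI w (R : ℂ)‖) < 0 := by
  have hδ0 : 0 ≤ δ := hδ ▸ norm_nonneg _
  have hR0 := hC.hR
  have hNr : (4 : ℝ) ≤ N := by exact_mod_cast hN
  -- the direction
  obtain ⟨e, he, heδ⟩ : ∃ e : ℂ, ‖e‖ = 1 ∧ (conj e * ((R : ℂ) - conj m)).re = δ := by
    rcases eq_or_ne δ 0 with h | h
    · refine ⟨1, norm_one, ?_⟩
      rw [h] at hδ
      rw [norm_eq_zero.1 hδ, h]
      simp
    · have h' : (δ : ℂ) ≠ 0 := by exact_mod_cast h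
      refine ⟨((R : ℂ) - conj m) / δ, ?_, ?_⟩
      · rw [norm_div, hδ, Complex.norm_real, Real.norm_of_nonneg hδ0, div_self h]
      · have h1 : conj (((R : ℂ) - conj m) / δ) * ((R : ℂ) - conj m) = ((δ : ℝ) : ℂ) := by
          rw [map_div₀, Complex.conj_ofReal, div_mul_eq_mul_div, mul_comm (conj _),
            Complex.mul_conj, Complex.normSq_eq_norm_sq, hδ]
          push_cast
          field_simp
        rw [h1, Complex.ofReal_re]
  have hcert : CertAt δ 0 e ((R - R : ℝ) : ℂ) := by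
    refine ⟨hδ0, by linarith, Or.inl ⟨by simp, le_rfl⟩⟩
  have h := hC.cert (y := R) he hcert (by
      rw [mul_div_assoc', div_le_iff₀ (by linarith)]
      nlinarith) hR0.le le_rfl (by norm_num) (by linarith)
    (by nlinarith) hf
  rw [hm] at h
  have h1 : R * e.re - (conj e * conj m).re = δ := by
    rw [← heδ]
    simp only [Complex.mul_re, Complex.sub_re, Complex.sub_im, Complex.conj_re,
      Complex.conj_im, Complex.ofReal_re, Complex.ofReal_im]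
    ring
  have h2 : (conj e * conj m).re = R * e.re - δ := by linarith
  rw [h2] at h
  -- `|e.re| ≤ 1`
  have h3 : |e.re| ≤ 1 := he ▸ Complex.abs_re_le_norm e
  have hk := le_kap hδ0 (by linarith : δ < 1)
  have h4 : -((kap δ - δ) + δ * |1 - R|) ≤ e.re * (kap δ - δ * R) := by
    have e1 : kap δ - δ * R = (kap δ - δ) + δ * (1 - R) := by ring
    have e2 : |kap δ - δ * R| ≤ (kap δ - δ) + δ * |1 - R| := by
      rw [e1]
      refine (abs_add_le _ _).trans ?_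
      rw [abs_of_nonneg (by linarith : 0 ≤ kap δ - δ), abs_mul, abs_of_nonneg hδ0]
    have e3 : |e.re * (kap δ - δ * R)| ≤ (kap δ - δ) + δ * |1 - R| := by
      rw [abs_mul]
      calc |e.re| * |kap δ - δ * R| ≤ 1 * |kap δ - δ * R| :=
            mul_le_mul_of_nonneg_right h3 (abs_nonneg _)
        _ ≤ _ := by rw [one_mul]; exact e2
    exact (abs_le.1 e3).1
  linarith [h, h4]

/-- `R - 1 - log R` -/
theorem log_gap {R : ℝ} (h0 : 0 < R) (h1 : R ≤ 23 / 20) :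
    29 / 125 * (R - 1) ^ 2 ≤ R - 1 - Real.log R := by
  obtain ⟨v, hv⟩ : ∃ v, v = Real.sqrt R := ⟨_, rfl⟩
  have hv0 : 0 < v := hv ▸ Real.sqrt_pos.2 h0
  have hv2 : v ^ 2 = R := by rw [hv]; exact Real.sq_sqrt h0.le
  have h2 : Real.log R = 2 * Real.log v := by
    rw [← hv2, Real.log_pow]
    push_cast
    ring
  have h3 := Real.log_le_sub_one_of_pos hv0
  have hv1 : v ≤ 1073 / 1000 := by
    by_contra hcon
    push Not at hcon
    have h0 := pow_lt_pow_left₀ hcon (by norm_num) two_ne_zero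
    norm_num at h0
    linarith
  have h4 : 29 / 125 * (v + 1) ^ 2 ≤ 1 := by
    have h0 := pow_le_pow_left₀ (by linarith) (by linarith : v + 1 ≤ 2073 / 1000) 2
    norm_num at h0
    linarith
  have h5 : 29 / 125 * (R - 1) ^ 2 ≤ (v - 1) ^ 2 := by
    have e1 : 29 / 125 * (R - 1) ^ 2 = (29 / 125 * (v + 1) ^ 2) * (v - 1) ^ 2 := by
      rw [← hv2]; ring
    rw [e1]
    have := mul_le_mul_of_nonneg_right h4 (sq_nonneg (v - 1))
    linarith
  rw [h2]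
  linarith

/-- the gain of the certificate -/
theorem gain {N : ℕ} (hN : 4 ≤ N) {δ R : ℝ} (hδ0 : 0 ≤ δ) (hδ1 : δ ≤ 3 / 20) (hR0 : 0 < R)
    (hR : R ≤ 23 / 20) :
    5 / 4 * δ ^ 2 ≤ N / 2 * Real.log (1 - δ ^ 2) + ((N : ℝ) + 1) * δ ^ 2 - (kap δ - δ)
      - δ * |1 - R| + (R - 1) - Real.log R := by
  have hNr : (4 : ℝ) ≤ N := by exact_mod_cast hN
  have h1 := kap_sub_le hδ0 hδ1
  have h2 := log_gap hR0 hR
  have hδ2 : δ ^ 2 ≤ 9 / 400 := by
    have h0 := pow_le_pow_left₀ hδ0 hδ1 2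
    norm_num at h0
    linarith
  have h3 : -(64 / 125 * 2) * δ ^ 2 ≤ Real.log (1 - δ ^ 2) := by
    have e1 := Real.one_sub_inv_le_log_of_pos (show 0 < 1 - δ ^ 2 by linarith)
    have e2 : (1 - δ ^ 2)⁻¹ ≤ 1 + 128 / 125 * δ ^ 2 := by
      rw [inv_le_iff_one_le_mul₀ (by linarith)]
      linarith [sq_nonneg δ, mul_nonneg (sq_nonneg δ) (sub_nonneg.2 hδ2)]
    linarith
  have h4 : -(64 / 125) * N * δ ^ 2 ≤ N / 2 * Real.log (1 - δ ^ 2) := by
    have := mul_le_mul_of_nonneg_left h3 (show 0 ≤ (N : ℝ) / 2 by linarith)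
    linarith
  have h5 : 4 * δ ^ 2 ≤ N * δ ^ 2 := mul_le_mul_of_nonneg_right hNr (sq_nonneg _)
  have h6 : δ * |1 - R| ≤ 29 / 125 * (R - 1) ^ 2 + 125 / 116 * δ ^ 2 := by
    have e1 : (R - 1) ^ 2 = |1 - R| ^ 2 := by
      rw [sq_abs]; ring
    rw [e1]
    linarith [sq_nonneg (|1 - R| - 125 / 58 * δ)]
  linarith [show -(64 / 125) * (N : ℝ) * δ ^ 2 = -(64 / 125) * (N * δ ^ 2) by ring, sq_nonneg δ]

/-- **The corner.** -/
theorem loc {N : ℕ} {z w : Fin N → ℂ} {R : ℝ} {σ : Fin N → ℂ} (hC : H80.Cfg2 N z w R σ)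
    (hN : 4 ≤ N) (h4 : N = 4 → 49 / 50 ≤ ‖av (uu w)‖) (hr : 19 / 20 ≤ ‖av (uu w)‖)
    (hδ : ‖(R : ℂ) - conj (av (uu w))‖ ≤ 3 / 20) : False := by
  have hr1 := hC.av_le
  have hu := hC.u_le
  have hR0 := hC.hR
  obtain ⟨m, hm⟩ : ∃ m, av (uu w) = m := ⟨_, rfl⟩
  obtain ⟨δ, hδd⟩ : ∃ δ, ‖(R : ℂ) - conj m‖ = δ := ⟨_, rfl⟩
  obtain ⟨r, hrd⟩ : ∃ r, ‖m‖ = r := ⟨_, rfl⟩
  obtain ⟨p, hpd⟩ : ∃ p, m.re = p := ⟨_, rfl⟩
  rw [hm] at h4 hr hδ hr1
  rw [hrd] at h4 hr hr1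
  rw [hδd] at hδ
  have hδ0 : 0 ≤ δ := hδd ▸ norm_nonneg _
  have hNr : (4 : ℝ) ≤ N := by exact_mod_cast hN
  -- coordinates
  have e1 : δ ^ 2 = (R - p) ^ 2 + m.im ^ 2 := by
    rw [← hδd, norm_sq_re_im]
    simp [hpd]
  have e2 : r ^ 2 = p ^ 2 + m.im ^ 2 := by
    rw [← hrd, norm_sq_re_im, hpd]
  have hRp : |R - p| ≤ δ := by
    apply abs_le_of_sq_le_sq _ hδ0
    rw [e1]
    linarith [sq_nonneg m.im]
  have hRp' := abs_le.1 hRp
  have hpr : |p| ≤ r := by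
    apply abs_le_of_sq_le_sq _ (by linarith)
    rw [e2]
    linarith [sq_nonneg m.im]
  have hpr' := abs_le.1 hpr
  have hRr : |R - r| ≤ δ := by
    have a1 := abs_norm_sub_norm_le (R : ℂ) (conj m)
    rw [Complex.norm_conj, hrd, Complex.norm_real, Real.norm_of_nonneg hR0.le, hδd] at a1
    exact a1
  have hRr' := abs_le.1 hRr
  have hp0 : 0 ≤ p := by linarith [hRp'.1, hRp'.2, hRr'.1]
  have hR1 : R ≤ 23 / 20 := by linarith [hRr'.2]
  obtain ⟨s, hs⟩ : ∃ s, s = 1 - r ^ 2 := ⟨_, rfl⟩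
  obtain ⟨η, hη⟩ : ∃ η, η = Real.sqrt (1 - 2 * R * p + R ^ 2) := ⟨_, rfl⟩
  have hs0 : 0 ≤ s := by
    rw [hs]
    have := pow_le_one₀ (by linarith : 0 ≤ r) hr1 (n := 2)
    linarith
  have hη0 : 0 ≤ η := hη ▸ Real.sqrt_nonneg _
  have e3 : 1 - 2 * R * p + R ^ 2 = δ ^ 2 + s := by
    rw [e1, hs, e2]; ring
  have hη2 : η ^ 2 = δ ^ 2 + s := by
    rw [hη, e3]
    exact Real.sq_sqrt (by positivity)
  obtain ⟨ρ, hρ⟩ : ∃ ρ, ρ = max 0 (R - 1) := ⟨_, rfl⟩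
  have hρ0 : 0 ≤ ρ := by rw [hρ]; exact le_max_left _ _
  have hρδ : ρ ≤ δ := by
    rw [hρ]
    exact max_le hδ0 (by linarith [hRr'.2])
  have hρs : ρ * s ≤ 2 * δ ^ 2 := by
    rcases le_total R 1 with h | h
    · have : ρ = 0 := by rw [hρ]; exact max_eq_left (by linarith)
      rw [this, zero_mul]
      positivity
    · have h1 : s ≤ 2 * δ := by
        rw [hs]
        have e0 : (1 - r) * (1 + r) ≤ δ * 2 :=
          mul_le_mul (by linarith [hRr'.2]) (by linarith) (by linarith) hδ0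
        linarith
      calc ρ * s ≤ δ * (2 * δ) := mul_le_mul hρδ h1 hs0 hδ0
        _ = _ := by ring
  have hlow := low2 w (by omega) hu hR0.le (by rw [hm]; exact hrd) (by rw [hm]; exact hpd) hr1
    (by linarith [hpr'.2]) hη
  rw [← hρ, ← hs] at hlow
  have herr := err hN hδ0 hδ hr hr1 h4 hs hη0 hη2 hp0 hpr'.2 (by
    have : m.im ^ 2 ≤ δ ^ 2 := by rw [e1]; linarith [sq_nonneg (R - p)]
    rw [e2]; linarith) hρ0 hρδ hρs
  obtain ⟨X, hX⟩ : ∃ X, X = η ^ (N + 1) + s * JJ N p 1 1 + ρ * (((N : ℝ) + 1) * η ^ N) :=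
    ⟨_, rfl⟩
  rw [← hX] at hlow herr
  have hs1 : s ≤ 39 / 400 := by
    rw [hs]
    have h0 := pow_le_pow_left₀ (by norm_num : (0 : ℝ) ≤ 19 / 20) hr 2
    norm_num at h0
    linarith
  have hδ2 : δ ^ 2 ≤ 9 / 400 := by
    have h0 := pow_le_pow_left₀ hδ0 hδ 2
    norm_num at h0
    linarith
  have hX1 : X ≤ 1 / 10 := by linarith
  have hrp : 0 < r := by linarith
  have hN1 : (0 : ℝ) < (N : ℝ) + 1 := by linarith
  -- the integral is positive
  have hI : 0 < ‖∫ x in (0 : ℝ)..R, qq (uu w) x‖ := by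
    by_contra hcon
    have h1 : ‖∫ x in (0 : ℝ)..R, qq (uu w) x‖ = 0 := le_antisymm (not_lt.1 hcon) (norm_nonneg _)
    rw [h1, mul_zero] at hlow
    linarith
  have hfI := Cfg2.fI_eq w hR0.le
  have hf0 : 0 < ‖fI w (R : ℂ)‖ := by
    rw [← hfI] at hI
    exact pos_of_mul_pos_right hI hR0.le
  have hcert := certR hC hN hm hδd hδ (by linarith) (norm_pos_iff.1 hf0)
  have hgain := gain hN hδ0 hδ hR0 hR1
  -- logarithms
  have hlog : Real.log (1 - X) - Real.log r - Real.log R ≤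
      Real.log (((N : ℝ) + 1) * ‖fI w (R : ℂ)‖) := by
    have h1 : 1 - X ≤ (((N : ℝ) + 1) * ‖fI w (R : ℂ)‖) * (r * R) := by
      calc 1 - X ≤ ((N : ℝ) + 1) * r * ‖∫ x in (0 : ℝ)..R, qq (uu w) x‖ := hlow
        _ = _ := by rw [← hfI]; ring
    have h2 := Real.log_le_log (by linarith) h1
    rw [Real.log_mul (mul_pos hN1 hf0).ne' (mul_pos hrp hR0).ne',
      Real.log_mul hrp.ne' hR0.ne'] at h2
    linarith
  have hfin : Real.log r ≤ Real.log (1 - X) + 5 / 4 * δ ^ 2 := by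
    have h1 : Real.log (1 + 5 / 4 * δ ^ 2) ≤ 5 / 4 * δ ^ 2 := by
      have := Real.log_le_sub_one_of_pos (show 0 < 1 + 5 / 4 * δ ^ 2 by positivity)
      linarith
    have h2 : r ≤ (1 - X) * (1 + 5 / 4 * δ ^ 2) := by
      have a1 : r ≤ 1 - s / 2 := by rw [hs]; linarith [sq_nonneg (1 - r)]
      have a2 : 9 / 10 * (5 / 4 * δ ^ 2) ≤ (1 - X) * (5 / 4 * δ ^ 2) :=
        mul_le_mul_of_nonneg_right (by linarith) (by positivity)
      have a3 := sq_nonneg δ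
      linarith [show (1 - X) * (1 + 5 / 4 * δ ^ 2) = 1 - X + (1 - X) * (5 / 4 * δ ^ 2) by ring]
    have h3 := Real.log_le_log hrp h2
    rw [Real.log_mul (by linarith) (by positivity)] at h3
    linarith
  linarith

end Pool.Agent.Lib.MP_af3a4a_an.P1.H74.Loc
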