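import Pool.Agent.Lib.MP_af3a4a_an.P1.H74.NearF1
import Pool.Agent.Lib.MP_af3a4a_an.P1.H74.NearF2
import Pool.Agent.Lib.MP_af3a4a_an.P1.H74.NearF3
import Pool.Agent.Lib.MP_af3a4a_an.P1.H74.NearF4
import Pool.Agent.Lib.MP_af3a4a_an.P1.H74.NearF5
import Pool.Agent.Lib.MP_af3a4a_an.P1.H74.NearF6

set_option autoImplicit false

/-!
# Council 2, near region: one theorem for all `N ≥ 7` (helper74)

`near`: a configuration (`Cfg2`) with `N ≥ 7`, `Re m ≥ nearP N / 10000` and `|R - conj m| ≤ 1/4`
does not exist.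
-/

namespace Pool.Agent.Lib.MP_af3a4a_an.P1.H74.Near

open Finset MeasureTheory ComplexConjugate
open Pool.Agent.Lib.MP_af3a4a_an.SV (uu av)
open Pool.Agent.Lib.MP_af3a4a_an.P1

/-- The threshold for `Re m`, in units of `1/10000`. -/
def nearP (N : ℕ) : ℕ :=
  if N < 8 then 8650 else
  if N < 9 then 8250 else
  if N < 10 then 7900 else
  if N < 11 then 7550 else
  if N < 12 then 7250 else
  if N < 13 then 7000 else
  if N < 14 then 6750 else
  if N < 15 then 6550 else
  if N < 16 then 6350 else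
  if N < 17 then 6150 else
  if N < 18 then 6050 else
  if N < 19 then 5900 else
  if N < 20 then 5800 else
  if N < 21 then 5650 else
  if N < 22 then 5600 else
  if N < 23 then 5500 else
  if N < 24 then 5400 else
  if N < 25 then 5300 else
  if N < 26 then 5200 else
  if N < 27 then 5200 else
  if N < 28 then 5100 else
  if N < 29 then 5000 else
  if N < 30 then 4900 else
  if N < 31 then 4900 else
  if N < 32 then 4800 else
  if N < 33 then 4800 else
  if N < 34 then 4700 else
  if N < 35 then 4700 else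
  if N < 36 then 4600 else
  if N < 37 then 4600 else
  if N < 38 then 4500 else
  if N < 39 then 4500 else
  if N < 40 then 4400 else
  if N < 45 then 4400 else
  if N < 50 then 4300 else
  if N < 60 then 4100 else
  if N < 80 then 3900 else
  if N < 100 then 3600 else
  if N < 150 then 3500 else
  if N < 200 then 3200 else
  if N < 300 then 3100 else
  if N < 400 then 3000 else
  2900

/-- **The near region for all `N ≥ 7`.** -/
theorem near {N : ℕ} (hN : 7 ≤ N) {zz w : Fin N → ℂ} {R : ℝ} {σ : Fin N → ℂ}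
    (hC : H80.Cfg2 N zz w R σ) (hp : (nearP N : ℝ) / 10000 ≤ (av (uu w)).re)
    (hδ : ‖(R : ℂ) - conj (av (uu w))‖ ≤ 1 / 4) : False := by
  by_cases h0 : N < 8
  · refine near_7 hN hC ?_ hδ
    rw [nearP, if_pos h0] at hp
    exact_mod_cast hp
  by_cases h1 : N < 9
  · refine near_8 (not_lt.1 h0) hC ?_ hδ
    rw [nearP, if_neg h0, if_pos h1] at hp
    exact_mod_cast hp
  by_cases h2 : N < 10
  · refine near_9 (not_lt.1 h1) hC ?_ hδ
    rw [nearP, if_neg h0, if_neg h1, if_pos h2] at hp
    exact_mod_cast hp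
  by_cases h3 : N < 11
  · refine near_10 (not_lt.1 h2) hC ?_ hδ
    rw [nearP, if_neg h0, if_neg h1, if_neg h2, if_pos h3] at hp
    exact_mod_cast hp
  by_cases h4 : N < 12
  · refine near_11 (not_lt.1 h3) hC ?_ hδ
    rw [nearP, if_neg h0, if_neg h1, if_neg h2, if_neg h3, if_pos h4] at hp
    exact_mod_cast hp
  by_cases h5 : N < 13
  · refine near_12 (not_lt.1 h4) hC ?_ hδ
    rw [nearP, if_neg h0, if_neg h1, if_neg h2, if_neg h3, if_neg h4, if_pos h5] at hp
    exact_mod_cast hp
  by_cases h6 : N < 14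
  · refine near_13 (not_lt.1 h5) hC ?_ hδ
    rw [nearP, if_neg h0, if_neg h1, if_neg h2, if_neg h3, if_neg h4, if_neg h5, if_pos h6] at hp
    exact_mod_cast hp
  by_cases h7 : N < 15
  · refine near_14 (not_lt.1 h6) hC ?_ hδ
    rw [nearP, if_neg h0, if_neg h1, if_neg h2, if_neg h3, if_neg h4, if_neg h5, if_neg h6, if_pos h7] at hp
    exact_mod_cast hp
  by_cases h8 : N < 16
  · refine near_15 (not_lt.1 h7) hC ?_ hδ
    rw [nearP, if_neg h0, if_neg h1, if_neg h2, if_neg h3, if_neg h4, if_neg h5, if_neg h6, if_neg h7, if_pos h8] at hp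
    exact_mod_cast hp
  by_cases h9 : N < 17
  · refine near_16 (not_lt.1 h8) hC ?_ hδ
    rw [nearP, if_neg h0, if_neg h1, if_neg h2, if_neg h3, if_neg h4, if_neg h5, if_neg h6, if_neg h7, if_neg h8, if_pos h9] at hp
    exact_mod_cast hp
  by_cases h10 : N < 18
  · refine near_17 (not_lt.1 h9) hC ?_ hδ
    rw [nearP, if_neg h0, if_neg h1, if_neg h2, if_neg h3, if_neg h4, if_neg h5, if_neg h6, if_neg h7, if_neg h8, if_neg h9, if_pos h10] at hp
    exact_mod_cast hp
  by_cases h11 : N < 19
  · refine near_18 (not_lt.1 h10) hC ?_ hδ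
    rw [nearP, if_neg h0, if_neg h1, if_neg h2, if_neg h3, if_neg h4, if_neg h5, if_neg h6, if_neg h7, if_neg h8, if_neg h9, if_neg h10, if_pos h11] at hp
    exact_mod_cast hp
  by_cases h12 : N < 20
  · refine near_19 (not_lt.1 h11) hC ?_ hδ
    rw [nearP, if_neg h0, if_neg h1, if_neg h2, if_neg h3, if_neg h4, if_neg h5, if_neg h6, if_neg h7, if_neg h8, if_neg h9, if_neg h10, if_neg h11, if_pos h12] at hp
    exact_mod_cast hp
  by_cases h13 : N < 21
  · refine near_20 (not_lt.1 h12) hC ?_ hδ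
    rw [nearP, if_neg h0, if_neg h1, if_neg h2, if_neg h3, if_neg h4, if_neg h5, if_neg h6, if_neg h7, if_neg h8, if_neg h9, if_neg h10, if_neg h11, if_neg h12, if_pos h13] at hp
    exact_mod_cast hp
  by_cases h14 : N < 22
  · refine near_21 (not_lt.1 h13) hC ?_ hδ
    rw [nearP, if_neg h0, if_neg h1, if_neg h2, if_neg h3, if_neg h4, if_neg h5, if_neg h6, if_neg h7, if_neg h8, if_neg h9, if_neg h10, if_neg h11, if_neg h12, if_neg h13, if_pos h14] at hp
    exact_mod_cast hp
  by_cases h15 : N < 23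
  · refine near_22 (not_lt.1 h14) hC ?_ hδ
    rw [nearP, if_neg h0, if_neg h1, if_neg h2, if_neg h3, if_neg h4, if_neg h5, if_neg h6, if_neg h7, if_neg h8, if_neg h9, if_neg h10, if_neg h11, if_neg h12, if_neg h13, if_neg h14, if_pos h15] at hp
    exact_mod_cast hp
  by_cases h16 : N < 24
  · refine near_23 (not_lt.1 h15) hC ?_ hδ
    rw [nearP, if_neg h0, if_neg h1, if_neg h2, if_neg h3, if_neg h4, if_neg h5, if_neg h6, if_neg h7, if_neg h8, if_neg h9, if_neg h10, if_neg h11, if_neg h12, if_neg h13, if_neg h14, if_neg h15, if_pos h16] at hp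
    exact_mod_cast hp
  by_cases h17 : N < 25
  · refine near_24 (not_lt.1 h16) hC ?_ hδ
    rw [nearP, if_neg h0, if_neg h1, if_neg h2, if_neg h3, if_neg h4, if_neg h5, if_neg h6, if_neg h7, if_neg h8, if_neg h9, if_neg h10, if_neg h11, if_neg h12, if_neg h13, if_neg h14, if_neg h15, if_neg h16, if_pos h17] at hp
    exact_mod_cast hp
  by_cases h18 : N < 26
  · refine near_25 (not_lt.1 h17) hC ?_ hδ
    rw [nearP, if_neg h0, if_neg h1, if_neg h2, if_neg h3, if_neg h4, if_neg h5, if_neg h6, if_neg h7, if_neg h8, if_neg h9, if_neg h10, if_neg h11, if_neg h12, if_neg h13, if_neg h14, if_neg h15, if_neg h16, if_neg h17, if_pos h18] at hp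
    exact_mod_cast hp
  by_cases h19 : N < 27
  · refine near_26 (not_lt.1 h18) hC ?_ hδ
    rw [nearP, if_neg h0, if_neg h1, if_neg h2, if_neg h3, if_neg h4, if_neg h5, if_neg h6, if_neg h7, if_neg h8, if_neg h9, if_neg h10, if_neg h11, if_neg h12, if_neg h13, if_neg h14, if_neg h15, if_neg h16, if_neg h17, if_neg h18, if_pos h19] at hp
    exact_mod_cast hp
  by_cases h20 : N < 28
  · refine near_27 (not_lt.1 h19) hC ?_ hδ
    rw [nearP, if_neg h0, if_neg h1, if_neg h2, if_neg h3, if_neg h4, if_neg h5, if_neg h6, if_neg h7, if_neg h8, if_neg h9, if_neg h10, if_neg h11, if_neg h12, if_neg h13, if_neg h14, if_neg h15, if_neg h16, if_neg h17, if_neg h18, if_neg h19, if_pos h20] at hp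
    exact_mod_cast hp
  by_cases h21 : N < 29
  · refine near_28 (not_lt.1 h20) hC ?_ hδ
    rw [nearP, if_neg h0, if_neg h1, if_neg h2, if_neg h3, if_neg h4, if_neg h5, if_neg h6, if_neg h7, if_neg h8, if_neg h9, if_neg h10, if_neg h11, if_neg h12, if_neg h13, if_neg h14, if_neg h15, if_neg h16, if_neg h17, if_neg h18, if_neg h19, if_neg h20, if_pos h21] at hp
    exact_mod_cast hp
  by_cases h22 : N < 30
  · refine near_29 (not_lt.1 h21) hC ?_ hδ
    rw [nearP, if_neg h0, if_neg h1, if_neg h2, if_neg h3, if_neg h4, if_neg h5, if_neg h6, if_neg h7, if_neg h8, if_neg h9, if_neg h10, if_neg h11, if_neg h12, if_neg h13, if_neg h14, if_neg h15, if_neg h16, if_neg h17, if_neg h18, if_neg h19, if_neg h20, if_neg h21, if_pos h22] at hp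
    exact_mod_cast hp
  by_cases h23 : N < 31
  · refine near_30 (not_lt.1 h22) hC ?_ hδ
    rw [nearP, if_neg h0, if_neg h1, if_neg h2, if_neg h3, if_neg h4, if_neg h5, if_neg h6, if_neg h7, if_neg h8, if_neg h9, if_neg h10, if_neg h11, if_neg h12, if_neg h13, if_neg h14, if_neg h15, if_neg h16, if_neg h17, if_neg h18, if_neg h19, if_neg h20, if_neg h21, if_neg h22, if_pos h23] at hp
    exact_mod_cast hp
  by_cases h24 : N < 32
  · refine near_31 (not_lt.1 h23) hC ?_ hδ
    rw [nearP, if_neg h0, if_neg h1, if_neg h2, if_neg h3, if_neg h4, if_neg h5, if_neg h6, if_neg h7, if_neg h8, if_neg h9, if_neg h10, if_neg h11, if_neg h12, if_neg h13, if_neg h14, if_neg h15, if_neg h16, if_neg h17, if_neg h18, if_neg h19, if_neg h20, if_neg h21, if_neg h22, if_neg h23, if_pos h24] at hp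
    exact_mod_cast hp
  by_cases h25 : N < 33
  · refine near_32 (not_lt.1 h24) hC ?_ hδ
    rw [nearP, if_neg h0, if_neg h1, if_neg h2, if_neg h3, if_neg h4, if_neg h5, if_neg h6, if_neg h7, if_neg h8, if_neg h9, if_neg h10, if_neg h11, if_neg h12, if_neg h13, if_neg h14, if_neg h15, if_neg h16, if_neg h17, if_neg h18, if_neg h19, if_neg h20, if_neg h21, if_neg h22, if_neg h23, if_neg h24, if_pos h25] at hp
    exact_mod_cast hp
  by_cases h26 : N < 34
  · refine near_33 (not_lt.1 h25) hC ?_ hδ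
    rw [nearP, if_neg h0, if_neg h1, if_neg h2, if_neg h3, if_neg h4, if_neg h5, if_neg h6, if_neg h7, if_neg h8, if_neg h9, if_neg h10, if_neg h11, if_neg h12, if_neg h13, if_neg h14, if_neg h15, if_neg h16, if_neg h17, if_neg h18, if_neg h19, if_neg h20, if_neg h21, if_neg h22, if_neg h23, if_neg h24, if_neg h25, if_pos h26] at hp
    exact_mod_cast hp
  by_cases h27 : N < 35
  · refine near_34 (not_lt.1 h26) hC ?_ hδ
    rw [nearP, if_neg h0, if_neg h1, if_neg h2, if_neg h3, if_neg h4, if_neg h5, if_neg h6, if_neg h7, if_neg h8, if_neg h9, if_neg h10, if_neg h11, if_neg h12, if_neg h13, if_neg h14, if_neg h15, if_neg h16, if_neg h17, if_neg h18, if_neg h19, if_neg h20, if_neg h21, if_neg h22, if_neg h23, if_neg h24, if_neg h25, if_neg h26, if_pos h27] at hp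
    exact_mod_cast hp
  by_cases h28 : N < 36
  · refine near_35 (not_lt.1 h27) hC ?_ hδ
    rw [nearP, if_neg h0, if_neg h1, if_neg h2, if_neg h3, if_neg h4, if_neg h5, if_neg h6, if_neg h7, if_neg h8, if_neg h9, if_neg h10, if_neg h11, if_neg h12, if_neg h13, if_neg h14, if_neg h15, if_neg h16, if_neg h17, if_neg h18, if_neg h19, if_neg h20, if_neg h21, if_neg h22, if_neg h23, if_neg h24, if_neg h25, if_neg h26, if_neg h27, if_pos h28] at hp
    exact_mod_cast hp
  by_cases h29 : N < 37
  · refine near_36 (not_lt.1 h28) hC ?_ hδ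
    rw [nearP, if_neg h0, if_neg h1, if_neg h2, if_neg h3, if_neg h4, if_neg h5, if_neg h6, if_neg h7, if_neg h8, if_neg h9, if_neg h10, if_neg h11, if_neg h12, if_neg h13, if_neg h14, if_neg h15, if_neg h16, if_neg h17, if_neg h18, if_neg h19, if_neg h20, if_neg h21, if_neg h22, if_neg h23, if_neg h24, if_neg h25, if_neg h26, if_neg h27, if_neg h28, if_pos h29] at hp
    exact_mod_cast hp
  by_cases h30 : N < 38
  · refine near_37 (not_lt.1 h29) hC ?_ hδ
    rw [nearP, if_neg h0, if_neg h1, if_neg h2, if_neg h3, if_neg h4, if_neg h5, if_neg h6, if_neg h7, if_neg h8, if_neg h9, if_neg h10, if_neg h11, if_neg h12, if_neg h13, if_neg h14, if_neg h15, if_neg h16, if_neg h17, if_neg h18, if_neg h19, if_neg h20, if_neg h21, if_neg h22, if_neg h23, if_neg h24, if_neg h25, if_neg h26, if_neg h27, if_neg h28, if_neg h29, if_pos h30] at hp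
    exact_mod_cast hp
  by_cases h31 : N < 39
  · refine near_38 (not_lt.1 h30) hC ?_ hδ
    rw [nearP, if_neg h0, if_neg h1, if_neg h2, if_neg h3, if_neg h4, if_neg h5, if_neg h6, if_neg h7, if_neg h8, if_neg h9, if_neg h10, if_neg h11, if_neg h12, if_neg h13, if_neg h14, if_neg h15, if_neg h16, if_neg h17, if_neg h18, if_neg h19, if_neg h20, if_neg h21, if_neg h22, if_neg h23, if_neg h24, if_neg h25, if_neg h26, if_neg h27, if_neg h28, if_neg h29, if_neg h30, if_pos h31] at hp
    exact_mod_cast hp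
  by_cases h32 : N < 40
  · refine near_39 (not_lt.1 h31) hC ?_ hδ
    rw [nearP, if_neg h0, if_neg h1, if_neg h2, if_neg h3, if_neg h4, if_neg h5, if_neg h6, if_neg h7, if_neg h8, if_neg h9, if_neg h10, if_neg h11, if_neg h12, if_neg h13, if_neg h14, if_neg h15, if_neg h16, if_neg h17, if_neg h18, if_neg h19, if_neg h20, if_neg h21, if_neg h22, if_neg h23, if_neg h24, if_neg h25, if_neg h26, if_neg h27, if_neg h28, if_neg h29, if_neg h30, if_neg h31, if_pos h32] at hp
    exact_mod_cast hp
  by_cases h33 : N < 45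
  · refine near_40 (not_lt.1 h32) hC ?_ hδ
    rw [nearP, if_neg h0, if_neg h1, if_neg h2, if_neg h3, if_neg h4, if_neg h5, if_neg h6, if_neg h7, if_neg h8, if_neg h9, if_neg h10, if_neg h11, if_neg h12, if_neg h13, if_neg h14, if_neg h15, if_neg h16, if_neg h17, if_neg h18, if_neg h19, if_neg h20, if_neg h21, if_neg h22, if_neg h23, if_neg h24, if_neg h25, if_neg h26, if_neg h27, if_neg h28, if_neg h29, if_neg h30, if_neg h31, if_neg h32, if_pos h33] at hp
    exact_mod_cast hp
  by_cases h34 : N < 50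
  · refine near_45 (not_lt.1 h33) hC ?_ hδ
    rw [nearP, if_neg h0, if_neg h1, if_neg h2, if_neg h3, if_neg h4, if_neg h5, if_neg h6, if_neg h7, if_neg h8, if_neg h9, if_neg h10, if_neg h11, if_neg h12, if_neg h13, if_neg h14, if_neg h15, if_neg h16, if_neg h17, if_neg h18, if_neg h19, if_neg h20, if_neg h21, if_neg h22, if_neg h23, if_neg h24, if_neg h25, if_neg h26, if_neg h27, if_neg h28, if_neg h29, if_neg h30, if_neg h31, if_neg h32, if_neg h33, if_pos h34] at hp
    exact_mod_cast hp
  by_cases h35 : N < 60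
  · refine near_50 (not_lt.1 h34) hC ?_ hδ
    rw [nearP, if_neg h0, if_neg h1, if_neg h2, if_neg h3, if_neg h4, if_neg h5, if_neg h6, if_neg h7, if_neg h8, if_neg h9, if_neg h10, if_neg h11, if_neg h12, if_neg h13, if_neg h14, if_neg h15, if_neg h16, if_neg h17, if_neg h18, if_neg h19, if_neg h20, if_neg h21, if_neg h22, if_neg h23, if_neg h24, if_neg h25, if_neg h26, if_neg h27, if_neg h28, if_neg h29, if_neg h30, if_neg h31, if_neg h32, if_neg h33, if_neg h34, if_pos h35] at hp
    exact_mod_cast hp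
  by_cases h36 : N < 80
  · refine near_60 (not_lt.1 h35) hC ?_ hδ
    rw [nearP, if_neg h0, if_neg h1, if_neg h2, if_neg h3, if_neg h4, if_neg h5, if_neg h6, if_neg h7, if_neg h8, if_neg h9, if_neg h10, if_neg h11, if_neg h12, if_neg h13, if_neg h14, if_neg h15, if_neg h16, if_neg h17, if_neg h18, if_neg h19, if_neg h20, if_neg h21, if_neg h22, if_neg h23, if_neg h24, if_neg h25, if_neg h26, if_neg h27, if_neg h28, if_neg h29, if_neg h30, if_neg h31, if_neg h32, if_neg h33, if_neg h34, if_neg h35, if_pos h36] at hp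
    exact_mod_cast hp
  by_cases h37 : N < 100
  · refine near_80 (not_lt.1 h36) hC ?_ hδ
    rw [nearP, if_neg h0, if_neg h1, if_neg h2, if_neg h3, if_neg h4, if_neg h5, if_neg h6, if_neg h7, if_neg h8, if_neg h9, if_neg h10, if_neg h11, if_neg h12, if_neg h13, if_neg h14, if_neg h15, if_neg h16, if_neg h17, if_neg h18, if_neg h19, if_neg h20, if_neg h21, if_neg h22, if_neg h23, if_neg h24, if_neg h25, if_neg h26, if_neg h27, if_neg h28, if_neg h29, if_neg h30, if_neg h31, if_neg h32, if_neg h33, if_neg h34, if_neg h35, if_neg h36, if_pos h37] at hp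
    exact_mod_cast hp
  by_cases h38 : N < 150
  · refine near_100 (not_lt.1 h37) hC ?_ hδ
    rw [nearP, if_neg h0, if_neg h1, if_neg h2, if_neg h3, if_neg h4, if_neg h5, if_neg h6, if_neg h7, if_neg h8, if_neg h9, if_neg h10, if_neg h11, if_neg h12, if_neg h13, if_neg h14, if_neg h15, if_neg h16, if_neg h17, if_neg h18, if_neg h19, if_neg h20, if_neg h21, if_neg h22, if_neg h23, if_neg h24, if_neg h25, if_neg h26, if_neg h27, if_neg h28, if_neg h29, if_neg h30, if_neg h31, if_neg h32, if_neg h33, if_neg h34, if_neg h35, if_neg h36, if_neg h37, if_pos h38] at hp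
    exact_mod_cast hp
  by_cases h39 : N < 200
  · refine near_150 (not_lt.1 h38) hC ?_ hδ
    rw [nearP, if_neg h0, if_neg h1, if_neg h2, if_neg h3, if_neg h4, if_neg h5, if_neg h6, if_neg h7, if_neg h8, if_neg h9, if_neg h10, if_neg h11, if_neg h12, if_neg h13, if_neg h14, if_neg h15, if_neg h16, if_neg h17, if_neg h18, if_neg h19, if_neg h20, if_neg h21, if_neg h22, if_neg h23, if_neg h24, if_neg h25, if_neg h26, if_neg h27, if_neg h28, if_neg h29, if_neg h30, if_neg h31, if_neg h32, if_neg h33, if_neg h34, if_neg h35, if_neg h36, if_neg h37, if_neg h38, if_pos h39] at hp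
    exact_mod_cast hp
  by_cases h40 : N < 300
  · refine near_200 (not_lt.1 h39) hC ?_ hδ
    rw [nearP, if_neg h0, if_neg h1, if_neg h2, if_neg h3, if_neg h4, if_neg h5, if_neg h6, if_neg h7, if_neg h8, if_neg h9, if_neg h10, if_neg h11, if_neg h12, if_neg h13, if_neg h14, if_neg h15, if_neg h16, if_neg h17, if_neg h18, if_neg h19, if_neg h20, if_neg h21, if_neg h22, if_neg h23, if_neg h24, if_neg h25, if_neg h26, if_neg h27, if_neg h28, if_neg h29, if_neg h30, if_neg h31, if_neg h32, if_neg h33, if_neg h34, if_neg h35, if_neg h36, if_neg h37, if_neg h38, if_neg h39, if_pos h40] at hp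
    exact_mod_cast hp
  by_cases h41 : N < 400
  · refine near_300 (not_lt.1 h40) hC ?_ hδ
    rw [nearP, if_neg h0, if_neg h1, if_neg h2, if_neg h3, if_neg h4, if_neg h5, if_neg h6, if_neg h7, if_neg h8, if_neg h9, if_neg h10, if_neg h11, if_neg h12, if_neg h13, if_neg h14, if_neg h15, if_neg h16, if_neg h17, if_neg h18, if_neg h19, if_neg h20, if_neg h21, if_neg h22, if_neg h23, if_neg h24, if_neg h25, if_neg h26, if_neg h27, if_neg h28, if_neg h29, if_neg h30, if_neg h31, if_neg h32, if_neg h33, if_neg h34, if_neg h35, if_neg h36, if_neg h37, if_neg h38, if_neg h39, if_neg h40, if_pos h41] at hp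
    exact_mod_cast hp
  refine near_400 (not_lt.1 h41) hC ?_ hδ
  rw [nearP, if_neg h0, if_neg h1, if_neg h2, if_neg h3, if_neg h4, if_neg h5, if_neg h6, if_neg h7, if_neg h8, if_neg h9, if_neg h10, if_neg h11, if_neg h12, if_neg h13, if_neg h14, if_neg h15, if_neg h16, if_neg h17, if_neg h18, if_neg h19, if_neg h20, if_neg h21, if_neg h22, if_neg h23, if_neg h24, if_neg h25, if_neg h26, if_neg h27, if_neg h28, if_neg h29, if_neg h30, if_neg h31, if_neg h32, if_neg h33, if_neg h34, if_neg h35, if_neg h36, if_neg h37, if_neg h38, if_neg h39, if_neg h40, if_neg h41] at hp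
  exact_mod_cast hp

end Pool.Agent.Lib.MP_af3a4a_an.P1.H74.Near
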