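import Pool.Agent.Lib.MP_af3a4a_an.P1.H74.Theta
import Mathlib.Analysis.Convex.Deriv

/-!
# The certificate M5 free of the product of the `|w_k|` (helper74)

`a' = a (N+1)/N`. On the axis (`c - y = t e`, `0 ≤ t ≤ kap a`) the product `E = ∏ |w_k|` is paid
for as soon as `a' (X₀ - 1/X₀) ≤ (1 - c₀) log X₀`, `X₀ = |y| + log (1+a)/a`
(this allows `a' = 0.44` for `|y| ≤ 3/2`), and a power `E ^ c₀` is kept in reserve.
-/

namespace Pool.Agent.Lib.MP_af3a4a_an.P1.H74

open Finset MeasureTheory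
open ComplexConjugate
open Pool.Agent.Lib.MP_af3a4a_an.SV (uu av sq EE)
open Pool.Agent.Lib.MP_af3a4a_an.P1.H80

/-- `t - α (exp t - exp (-t))` is concave for `t ≥ 0` -/
theorem conc {α : ℝ} (hα : 0 ≤ α) :
    ConcaveOn ℝ (Set.Ici 0) fun t : ℝ => t - α * (Real.exp t - Real.exp (-t)) := by
  have d1 : ∀ t : ℝ, HasDerivAt (fun t : ℝ => t - α * (Real.exp t - Real.exp (-t)))
      (1 - α * (Real.exp t + Real.exp (-t))) t := by
    intro t
    have h1 : HasDerivAt (fun t : ℝ => Real.exp (-t)) (-Real.exp (-t)) t := by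
      have := (hasDerivAt_neg t).exp
      simpa using this
    have h2 := (hasDerivAt_id t).sub (((Real.hasDerivAt_exp t).sub h1).const_mul α)
    refine h2.congr_deriv ?_
    ring
  have d2 : ∀ t : ℝ, HasDerivAt (fun t : ℝ => 1 - α * (Real.exp t + Real.exp (-t)))
      (-(α * (Real.exp t - Real.exp (-t)))) t := by
    intro t
    have h1 : HasDerivAt (fun t : ℝ => Real.exp (-t)) (-Real.exp (-t)) t := by
      have := (hasDerivAt_neg t).exp
      simpa using this
    have h2 := ((hasDerivAt_const t (1 : ℝ)).sub (((Real.hasDerivAt_exp t).add h1).const_mul α))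
    refine h2.congr_deriv ?_
    ring
  apply concaveOn_of_hasDerivWithinAt2_nonpos (convex_Ici 0)
    (f' := fun t => 1 - α * (Real.exp t + Real.exp (-t)))
    (f'' := fun t => -(α * (Real.exp t - Real.exp (-t))))
  · exact fun t _ => (d1 t).continuousAt.continuousWithinAt
  · exact fun t _ => (d1 t).hasDerivWithinAt
  · exact fun t _ => (d2 t).hasDerivWithinAt
  · intro t ht
    rw [interior_Ici, Set.mem_Ioi] at ht
    have : Real.exp (-t) ≤ Real.exp t := Real.exp_le_exp.2 (by linarith)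
    have := mul_nonneg hα (sub_nonneg.2 this)
    linarith

/-- the inequality `log X ≥ α (X - 1/X)` descends -/
theorem log_ge_of_le {α X X₀ : ℝ} (hα : 0 ≤ α) (hX : 1 ≤ X) (hX0 : X ≤ X₀)
    (h : α * (X₀ - 1 / X₀) ≤ Real.log X₀) : α * (X - 1 / X) ≤ Real.log X := by
  have hXp : 0 < X := by linarith
  have hX0p : 0 < X₀ := by linarith
  have hl0 : 0 ≤ Real.log X := Real.log_nonneg hX
  have hll : Real.log X ≤ Real.log X₀ := Real.log_le_log hXp hX0
  have hc := conc hα
  have key : ∀ Y : ℝ, 0 < Y → Real.exp (Real.log Y) - Real.exp (-Real.log Y) = Y - 1 / Y := by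
    intro Y hY
    rw [Real.exp_neg, Real.exp_log hY, one_div]
  rcases hll.eq_or_lt with he | hlt
  · have : X = X₀ := Real.log_injOn_pos hXp hX0p he
    rw [this]
    exact h
  · have hT0 : 0 < Real.log X₀ := lt_of_le_of_lt hl0 hlt
    obtain ⟨μ, hμ⟩ : ∃ μ, μ = Real.log X / Real.log X₀ := ⟨_, rfl⟩
    have hμ0 : 0 ≤ μ := by rw [hμ]; positivity
    have hμ1 : μ ≤ 1 := by rw [hμ, div_le_one hT0]; exact hll
    have h1 := hc.2 (Set.mem_Ici.2 le_rfl) (Set.mem_Ici.2 hT0.le) (sub_nonneg.2 hμ1) hμ0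
      (by ring)
    have e1 : (1 - μ) • (0 : ℝ) + μ • Real.log X₀ = Real.log X := by
      rw [smul_zero, zero_add, smul_eq_mul, hμ]
      field_simp
    rw [e1] at h1
    simp only [smul_eq_mul, neg_zero, sub_self, mul_zero, zero_add] at h1
    rw [key X hXp, key X₀ hX0p] at h1
    have h2 : 0 ≤ μ * (Real.log X₀ - α * (X₀ - 1 / X₀)) := mul_nonneg hμ0 (sub_nonneg.2 h)
    linarith

/-- the core inequality of one real variable -/
theorem core {α c₀ X X₀ : ℝ} (hα : 0 ≤ α) (hc : c₀ < 1) (hX : 1 ≤ X) (hX0 : 1 ≤ X₀)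
    (h : α * (X₀ - 1 / X₀) ≤ (1 - c₀) * Real.log X₀) (hα' : α ≤ (1 - c₀) * X₀) :
    0 ≤ (1 - c₀) * Real.log X - α * (X - 1 / X) + α * max (X - X₀) 0 := by
  have hc' : 0 < 1 - c₀ := by linarith
  rcases le_or_gt X X₀ with hle | hgt
  · have h1 := log_ge_of_le (α := α / (1 - c₀)) (div_nonneg hα hc'.le) hX hle (by
      rw [div_mul_eq_mul_div, div_le_iff₀ hc']
      linarith)
    rw [div_mul_eq_mul_div, div_le_iff₀ hc'] at h1
    rw [max_eq_right (by linarith), mul_zero, add_zero]
    linarith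
  · rw [max_eq_left (by linarith)]
    have hXp : 0 < X := by linarith
    have hX0p : 0 < X₀ := by linarith
    have h1 : 1 - X₀ / X ≤ Real.log X - Real.log X₀ := by
      have := Real.log_le_sub_one_of_pos (div_pos hX0p hXp)
      rw [Real.log_div hX0p.ne' hXp.ne'] at this
      linarith
    have h2 := mul_le_mul_of_nonneg_left h1 hc'.le
    have h3 : 0 ≤ (X - X₀) / (X * X₀) * ((1 - c₀) * X₀ - α) :=
      mul_nonneg (div_nonneg (by linarith) (by positivity)) (by linarith)
    have e1 : (X - X₀) / (X * X₀) * ((1 - c₀) * X₀ - α) =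
        (1 - c₀) * (1 - X₀ / X) + α * (1 / X) - α * (1 / X₀) := by
      field_simp
      ring
    rw [e1] at h3
    nlinarith

section facts

variable {N : ℕ} {z w : Fin N → ℂ} {c : ℂ} {σ : Fin N → ℂ} {σ₀ : ℂ}

theorem sum_reserve (hC : Cfg1 N z w c σ σ₀) (c₀ : ℝ) :
    Real.exp (∑ k, c₀ * Real.log ‖w k‖) = EE w ^ c₀ := by
  have hpos : ∀ k, 0 < ‖w k‖ := fun k => lt_of_lt_of_le one_pos (hC.far k)
  have hE : EE w = Real.exp (∑ k, Real.log ‖w k‖) := by
    rw [Real.exp_sum]
    unfold EE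
    exact Finset.prod_congr rfl fun k _ => (Real.exp_log (hpos k)).symm
  rw [hE, ← Real.exp_mul, ← Finset.mul_sum, mul_comm]

/-- `E` against the mean of the `|u_k|²` -/
theorem E_ge (hN : 1 ≤ N) (hC : Cfg1 N z w c σ σ₀) :
    Real.exp (N / 2 * (1 - SV.sq (uu w))) ≤ EE w := by
  have hNpos : (0 : ℝ) < N := by exact_mod_cast hN
  have hpos : ∀ k, 0 < ‖w k‖ := fun k => lt_of_lt_of_le one_pos (hC.far k)
  have hE : EE w = Real.exp (∑ k, Real.log ‖w k‖) := by
    rw [Real.exp_sum]
    unfold EE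
    exact Finset.prod_congr rfl fun k _ => (Real.exp_log (hpos k)).symm
  rw [hE]
  apply Real.exp_le_exp.2
  have h1 : ∀ k, (1 - ‖uu w k‖ ^ 2) / 2 ≤ Real.log ‖w k‖ := by
    intro k
    have h2 := Real.log_le_sub_one_of_pos (x := ‖uu w k‖ ^ 2) (by
      unfold uu
      rw [norm_inv]
      have := hpos k
      positivity)
    have h3 : Real.log (‖uu w k‖ ^ 2) = -2 * Real.log ‖w k‖ := by
      unfold uu
      rw [norm_inv, Real.log_pow, Real.log_inv]
      push_cast
      ring
    linarith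
  refine le_trans (le_of_eq ?_) (Finset.sum_le_sum fun k _ => h1 k)
  rw [← Finset.sum_div, Finset.sum_sub_distrib]
  simp only [Finset.sum_const, Finset.card_univ, Fintype.card_fin, nsmul_eq_mul, mul_one]
  unfold SV.sq
  field_simp

/-- **E-free form on the axis**: `c - y = t e`, `0 ≤ t ≤ kap a`, no loss, `a' = a (N+1)/N`. -/
theorem efree_axis (hN : 1 ≤ N) (hC : Cfg1 N z w c σ σ₀) {a t c₀ X₀ : ℝ} {e y : ℂ}
    (he : ‖e‖ = 1) (a0 : 0 ≤ a) (a1 : a < 1) (hcy : c - y = (t : ℂ) * e) (ht0 : 0 ≤ t)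
    (ht : t ≤ kap a) (hc1 : c₀ < 1)
    (hy0 : a * (‖y‖ - a * (conj e * y).re) ≤ (1 + a) * Real.log (1 + a))
    (hX1 : 1 ≤ X₀) (hX2 : 1 + a ≤ X₀ ^ 2) (hX3 : a * ‖y‖ + Real.log (1 + a) ≤ a * X₀)
    (hX : a * (((N : ℝ) + 1) / N) * (X₀ - 1 / X₀) ≤ (1 - c₀) * Real.log X₀)
    (hα : a * (((N : ℝ) + 1) / N) ≤ (1 - c₀) * X₀) :
    ((N : ℝ) + 1) * ‖fI w y‖ * EE w ^ c₀ < Real.exp (((N : ℝ) + 1)
      - N * (1 + Real.log (1 - a ^ 2) / 2)
      - a * N * (conj e * y).re + a * ((N : ℝ) + 1) * (e * av (uu w)).re + (conj σ₀ * y).re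
      + kap a * (conj e * σ₀).re) := by
  have hNpos : (0 : ℝ) < N := by exact_mod_cast hN
  have hPW : PW a 0 e ((c - y) / ((1 : ℝ) : ℂ)) (lin a e) := by
    rw [Complex.ofReal_one, div_one, hcy]
    exact PW_lin he a0 a1 ht0 ht
  have h1a : (0 : ℝ) < 1 + a := by linarith
  have hy0' : lin a e ((0 - y) / ((1 : ℝ) : ℂ)) ≤ 0 := by
    unfold lin
    rw [Complex.ofReal_one, div_one, zero_sub, norm_neg]
    apply max_le _ le_rfl
    have e1 : (conj e * -y).re = -(conj e * y).re := by rw [mul_neg, Complex.neg_re]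
    rw [e1, sub_nonpos, div_mul_eq_mul_div, div_le_iff₀ h1a]
    linarith
  have h := m5g hN hC (b := 1) one_pos (lin_convex a0 e) hPW hy0' (g := fun x => c₀ * Real.log ‖x‖)
    (by
      intro x hx
      obtain ⟨X, hXx⟩ : ∃ X, X = ‖x‖ := ⟨_, rfl⟩
      rw [← hXx] at hx
      have hXp : 0 < X := by linarith
      obtain ⟨α, hαd⟩ : ∃ α, α = a * (((N : ℝ) + 1) / N) := ⟨_, rfl⟩
      have hα0 : 0 ≤ α := by rw [hαd]; positivity
      rw [← hαd] at hX hα
      have hcore := core hα0 hc1 hx hX1 hX hα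
      obtain ⟨P, hP⟩ : ∃ P, P = (conj e * x).re := ⟨_, rfl⟩
      have e1 : (e * x⁻¹).re = P / X ^ 2 := by
        rw [hP, hXx, Complex.inv_def, Complex.normSq_eq_norm_sq, ← mul_assoc, mul_comm,
          Complex.re_ofReal_mul, inv_mul_eq_div]
        congr 1
        simp only [Complex.mul_re, Complex.conj_re, Complex.conj_im]
        ring
      have hPX : P ≤ X := by
        rw [hP, hXx]
        exact (abs_le.1 (norm_conj_mul_re he)).2
      have hs0 : 0 ≤ 1 - 1 / X ^ 2 := by
        rw [sub_nonneg, div_le_one (by positivity)]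
        nlinarith
      have e2 : X * (1 - 1 / X ^ 2) = X - 1 / X := by field_simp
      have e3 : P - P / X ^ 2 = P * (1 - 1 / X ^ 2) := by ring
      have hPX2 := mul_le_mul_of_nonneg_right hPX hs0
      rw [← hXx, ← hαd, ← hP, e1, e3, Complex.ofReal_one, div_one, div_one]
      rw [e2] at hPX2
      have hlin0 : 0 ≤ lin a e (x - y) := le_max_right _ _
      have hfac : 0 ≤ ((N : ℝ) + 1) / N := by positivity
      rcases le_or_gt X X₀ with hle | hgt
      · rw [max_eq_right (by linarith)] at hcore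
        have h5 := mul_le_mul_of_nonneg_left hPX2 hα0
        have h6 := mul_nonneg hfac hlin0
        linarith
      · rw [max_eq_left (by linarith)] at hcore
        have h5 : a / (1 + a) * (‖x - y‖ + a * (conj e * (x - y)).re) - Real.log (1 + a) ≤
            lin a e (x - y) := le_max_left _ _
        have h6 : X - ‖y‖ ≤ ‖x - y‖ := by rw [hXx]; exact norm_sub_norm_le x y
        have h7 : (conj e * (x - y)).re = P - (conj e * y).re := by
          rw [mul_sub, Complex.sub_re, hP]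
        have h8 : (conj e * y).re ≤ ‖y‖ := (abs_le.1 (norm_conj_mul_re he)).2
        rw [h7] at h5
        -- lower bound of the gain
        have h9 : a / (1 + a) * (X + a * P) - a * ‖y‖ - Real.log (1 + a) ≤ lin a e (x - y) := by
          refine le_trans ?_ h5
          have h10 : a / (1 + a) * (X + a * P) - a * ‖y‖ =
              a / (1 + a) * ((X - ‖y‖) + a * (P - ‖y‖)) := by
            field_simp
            ring
          rw [h10]
          have h11 : a / (1 + a) * ((X - ‖y‖) + a * (P - ‖y‖)) ≤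
              a / (1 + a) * (‖x - y‖ + a * (P - (conj e * y).re)) := by
            apply mul_le_mul_of_nonneg_left _ (div_nonneg a0 h1a.le)
            have := mul_le_mul_of_nonneg_left h8 a0
            linarith
          linarith
        have h12 : a / (1 + a) * (X + a * P) - a * X₀ ≤ lin a e (x - y) := by linarith
        have h13 := mul_le_mul_of_nonneg_left h12 hfac
        -- replace `P` by `X`
        have h14 : 0 ≤ (X - P) * (1 / (1 + a) - 1 / X ^ 2) := by
          apply mul_nonneg (by linarith)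
          rw [sub_nonneg]
          apply one_div_le_one_div_of_le h1a
          nlinarith
        have h15 := mul_nonneg hα0 h14
        have e4 : ((N : ℝ) + 1) / N * (a / (1 + a) * (X + a * P) - a * X₀) =
            α * ((X + a * P) / (1 + a) - X₀) := by
          rw [hαd]
          ring
        rw [e4] at h13
        have e5 : (X + a * P) / (1 + a) = X - (X - P) * (a / (1 + a)) := by
          field_simp
          ring
        have e6 : (1 : ℝ) / (1 + a) = 1 - a / (1 + a) := by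
          field_simp
          ring
        rw [e5] at h13
        rw [e6] at h15
        have e7 : α * (X - (X - P) * (a / (1 + a)) - X₀) =
          α * (X - X₀) - α * ((X - P) * (a / (1 + a))) := by ring
        have e8 : α * ((X - P) * (1 - a / (1 + a) - 1 / X ^ 2)) =
          α * (X * (1 - 1 / X ^ 2)) - α * (P * (1 - 1 / X ^ 2))
            - α * ((X - P) * (a / (1 + a))) := by ring
        rw [e8, e2] at h15
        rw [e7] at h13
        linarith)
  rw [sum_reserve hC, Real.log_one, div_one] at h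
  refine h.trans_le (le_of_eq ?_)
  congr 1
  ring

/-- **E-free form, radial extension**: any certificate, `a' = a (N+1)/N`, `2 a + 1/L ≤ 1`. -/
theorem efree_rad (hN : 1 ≤ N) (hC : Cfg1 N z w c σ σ₀) {a l L c₀ X₀ : ℝ} {e y : ℂ}
    (he : ‖e‖ = 1) (hc : CertAt a l e (c - y)) (hL0 : 0 < L) (hL : 2 * a + 1 / L ≤ 1)
    (hs : ‖c - y‖ ≤ L) (hy0 : ‖y‖ ≤ L) (hc1 : c₀ < 1)
    (hX1 : 1 ≤ X₀) (hX3 : ‖y‖ + L ≤ X₀)
    (hX : a * (((N : ℝ) + 1) / N) * (X₀ - 1 / X₀) ≤ (1 - c₀) * Real.log X₀)
    (hα : a * (((N : ℝ) + 1) / N) ≤ (1 - c₀) * X₀) :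
    ((N : ℝ) + 1) * ‖fI w y‖ * EE w ^ c₀ < Real.exp (((N : ℝ) + 1)
      - N * (1 + Real.log (1 - a ^ 2) / 2 - l)
      - a * N * (conj e * y).re + a * ((N : ℝ) + 1) * (e * av (uu w)).re + (conj σ₀ * y).re
      + kap a * (conj e * σ₀).re) := by
  have hNpos : (0 : ℝ) < N := by exact_mod_cast hN
  have a0 : 0 ≤ a := hc.1
  have hPW : PW a l e ((c - y) / ((1 : ℝ) : ℂ)) (th a L) := by
    rw [Complex.ofReal_one, div_one]
    exact PW_th he hc hL0 hs a0 (by linarith)
  have hy0' : th a L ((0 - y) / ((1 : ℝ) : ℂ)) ≤ 0 := by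
    unfold th
    rw [Complex.ofReal_one, div_one, zero_sub, norm_neg, max_eq_right (by linarith), mul_zero]
  have h := m5g hN hC (b := 1) one_pos (th_convex (L := L) a0) hPW hy0'
    (g := fun x => c₀ * Real.log ‖x‖)
    (by
      intro x hx
      have h5 := re_w_le he hx
      obtain ⟨X, hXx⟩ : ∃ X, X = ‖x‖ := ⟨_, rfl⟩
      rw [← hXx] at hx h5
      obtain ⟨α, hαd⟩ : ∃ α, α = a * (((N : ℝ) + 1) / N) := ⟨_, rfl⟩
      have hα0 : 0 ≤ α := by rw [hαd]; positivity
      rw [← hαd] at hX hα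
      have hcore := core hα0 hc1 hx hX1 hX hα
      have h6 : α * ((conj e * x).re - (e * x⁻¹).re) ≤ α * (X - 1 / X) :=
        mul_le_mul_of_nonneg_left (by linarith) hα0
      have h7 : α * max (X - X₀) 0 ≤ ((N : ℝ) + 1) / N * th a L (x - y) := by
        unfold th
        rw [hαd, show ((N : ℝ) + 1) / N * (a * max (‖x - y‖ - L) 0) =
          a * (((N : ℝ) + 1) / N) * max (‖x - y‖ - L) 0 by ring]
        apply mul_le_mul_of_nonneg_left _ (by positivity)
        apply max_le_max _ le_rfl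
        have : X - ‖y‖ ≤ ‖x - y‖ := by rw [hXx]; exact norm_sub_norm_le x y
        linarith
      rw [← hXx, ← hαd, Complex.ofReal_one, div_one, div_one]
      linarith)
  rw [sum_reserve hC, Real.log_one, div_one] at h
  refine h.trans_le (le_of_eq ?_)
  congr 1
  ring

end facts

end Pool.Agent.Lib.MP_af3a4a_an.P1.H74
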