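import Pool.Agent.Lib.MP_af3a4a_an.P1.H80.Normal

/-!
# The majorant V2* of `log |q(x)|` on the segment `[0, R]` (helper74, council 2)

`x = l R`, `h = x - log (1+x)`, `K = h / R²`, `γ = l (1-l)/(1+x)² - 2 K`, `α = l - γ`:
for `|w| ≥ 1`, `R ≤ 4/5`, `0 ≤ l ≤ 1`,
`log |1 - x/w| ≤ α (|w - R| - 1) - γ R Re (1/w) - h`.
-/

namespace Pool.Agent.Lib.MP_af3a4a_an.P1.H74

open Finset MeasureTheory
open ComplexConjugate
open Pool.Agent.Lib.MP_af3a4a_an.SV (uu av EE)
open Pool.Agent.Lib.MP_af3a4a_an.P1.H80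

/-! ## Dual triples -/

/-- a dual triple: a pointwise majorant of `log |1 - x/w|` -/
structure Dual (R x α γ h : ℝ) : Prop where
  nonneg : 0 ≤ α
  le : ∀ v : ℂ, 1 ≤ ‖v‖ →
    ‖1 - (x : ℂ) * v⁻¹‖ ≤ Real.exp (α * (‖v - R‖ - 1) - γ * R * (v⁻¹).re - h)

/-- the mean version -/
theorem Dual.qq_le {N : ℕ} (hN : 1 ≤ N) {w : Fin N → ℂ} {R x α γ h : ℝ} (hD : Dual R x α γ h)
    (hw : ∀ k, 1 ≤ ‖w k‖) (ht : ∑ k, ‖w k - (R : ℂ)‖ ≤ N) :
    ‖qq (uu w) x‖ ≤ Real.exp (-(N * (h + γ * R * (av (uu w)).re))) := by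
  have hNpos : (0 : ℝ) < N := by exact_mod_cast hN
  have h1 : ‖qq (uu w) x‖ ≤
      Real.exp (∑ k, (α * (‖w k - R‖ - 1) - γ * R * (uu w k).re - h)) := by
    unfold qq
    rw [norm_prod, Real.exp_sum]
    exact Finset.prod_le_prod (fun _ _ => norm_nonneg _) fun k _ => hD.le (w k) (hw k)
  refine h1.trans (Real.exp_le_exp.2 ?_)
  have hm : ∑ k, (uu w k).re = N * (av (uu w)).re := by
    unfold av
    rw [← Complex.re_sum, show (N : ℝ) * (1 / (N : ℂ) * ∑ k, uu w k).re =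
      (((N : ℝ) : ℂ) * (1 / (N : ℂ) * ∑ k, uu w k)).re by rw [Complex.re_ofReal_mul]]
    congr 1
    have : (N : ℂ) ≠ 0 := by exact_mod_cast hNpos.ne'
    push_cast
    field_simp
  rw [Finset.sum_sub_distrib, Finset.sum_sub_distrib, ← Finset.mul_sum, ← Finset.mul_sum, hm,
    Finset.sum_sub_distrib]
  simp only [Finset.sum_const, Finset.card_univ, Fintype.card_fin, nsmul_eq_mul, mul_one]
  have h2 : α * (∑ k, ‖w k - (R : ℂ)‖ - N) ≤ 0 :=
    mul_nonpos_of_nonneg_of_nonpos hD.nonneg (by linarith)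
  linarith

/-! ## Elementary logarithm bounds -/

theorem log_one_add_ge {x : ℝ} (hx : 0 ≤ x) :
    x - x ^ 2 / 2 + x ^ 3 / 3 - x ^ 4 / 4 ≤ Real.log (1 + x) := by
  have key : ∀ t ∈ Set.Icc (0 : ℝ) x, HasDerivAt
      (fun t => Real.log (1 + t) - (t - t ^ 2 / 2 + t ^ 3 / 3 - t ^ 4 / 4)) (t ^ 4 / (1 + t)) t := by
    intro t ht
    have h1 : (0 : ℝ) < 1 + t := by linarith [ht.1]
    have e1 : HasDerivAt (fun t : ℝ => Real.log (1 + t)) (1 / (1 + t)) t := by
      have := ((hasDerivAt_id t).const_add 1).log (by simp only [id]; linarith)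
      simpa using this
    have e2 : HasDerivAt (fun t : ℝ => t - t ^ 2 / 2 + t ^ 3 / 3 - t ^ 4 / 4)
        (1 - t + t ^ 2 - t ^ 3) t := by
      have := (((hasDerivAt_id t).sub ((hasDerivAt_pow 2 t).div_const 2)).add
        ((hasDerivAt_pow 3 t).div_const 3)).sub ((hasDerivAt_pow 4 t).div_const 4)
      refine this.congr_deriv ?_
      norm_num
    refine (e1.sub e2).congr_deriv ?_
    field_simp
    ring
  have hmono : MonotoneOn
      (fun t : ℝ => Real.log (1 + t) - (t - t ^ 2 / 2 + t ^ 3 / 3 - t ^ 4 / 4)) (Set.Icc 0 x) := by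
    apply monotoneOn_of_deriv_nonneg (convex_Icc 0 x)
    · exact fun t ht => (key t ht).continuousAt.continuousWithinAt
    · exact fun t ht => (key t (interior_subset ht)).differentiableAt.differentiableWithinAt
    · intro t ht
      have ht' := interior_subset ht
      rw [(key t ht').deriv]
      have : (0 : ℝ) < 1 + t := by linarith [ht'.1]
      positivity
  have := hmono (Set.left_mem_Icc.2 hx) (Set.right_mem_Icc.2 hx) hx
  simp only [add_zero, Real.log_one] at this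
  norm_num at this
  linarith

theorem log_one_sub_le {t : ℝ} (ht : 0 ≤ t) (ht1 : t < 1) :
    Real.log (1 - t) ≤ -t - t ^ 2 / 2 - t ^ 3 / 3 := by
  have h := Real.hasSum_pow_div_log_of_abs_lt_one (x := t) (by rw [abs_of_nonneg ht]; exact ht1)
  have := sum_le_hasSum (Finset.range 3) (fun i _ => by positivity) h
  simp only [Finset.sum_range_succ, Finset.sum_range_zero] at this
  norm_num at this
  linarith

theorem log_ge_aux {y : ℝ} (hy : 1 ≤ y) : Real.log y ≤ (y - 1 / y) / 2 := by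
  have h := Real.self_le_sinh_iff.2 (Real.log_nonneg hy)
  have hy0 : 0 < y := by linarith
  rw [Real.sinh_eq, Real.exp_neg, Real.exp_log hy0, ← one_div] at h
  exact h

/-- `(t - log (1+t))/t²` decreases -/
theorem quad_log {t x : ℝ} (ht : 0 ≤ t) (htx : t ≤ x) (hx : 0 < x) :
    Real.log (1 + t) ≤ t - (x - Real.log (1 + x)) / x ^ 2 * t ^ 2 := by
  rcases ht.eq_or_lt with h0 | h0
  · rw [← h0]; simp
  have key : ∀ s ∈ Set.Icc t x, HasDerivAt (fun s => (s - Real.log (1 + s)) / s ^ 2)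
      (((1 - 1 / (1 + s)) * s ^ 2 - (s - Real.log (1 + s)) * (2 * s)) / (s ^ 2) ^ 2) s := by
    intro s hs
    have hs0 : 0 < s := lt_of_lt_of_le h0 hs.1
    have e1 : HasDerivAt (fun s : ℝ => Real.log (1 + s)) (1 / (1 + s)) s := by
      have := ((hasDerivAt_id s).const_add 1).log (by simp only [id]; linarith)
      simpa using this
    have e2 := (hasDerivAt_id s).sub e1
    have e3 : HasDerivAt (fun s : ℝ => s ^ 2) (2 * s) s := by
      simpa using hasDerivAt_pow 2 s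
    exact e2.div e3 (by positivity)
  -- `log (1+s) ≤ s (2+s)/(2 (1+s))`
  have key2 : ∀ s : ℝ, 0 ≤ s → Real.log (1 + s) ≤ s * (2 + s) / (2 * (1 + s)) := by
    intro s hs
    have h1 : (0 : ℝ) < 1 + s := by linarith
    -- `log y ≤ (y - 1/y)/2` for `y ≥ 1`
    have h2 := log_ge_aux (y := 1 + s) (by linarith)
    refine h2.trans (le_of_eq ?_)
    field_simp
    ring
  have hanti : AntitoneOn (fun s : ℝ => (s - Real.log (1 + s)) / s ^ 2) (Set.Icc t x) := by
    apply antitoneOn_of_deriv_nonpos (convex_Icc t x)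
    · exact fun s hs => (key s hs).continuousAt.continuousWithinAt
    · exact fun s hs => (key s (interior_subset hs)).differentiableAt.differentiableWithinAt
    · intro s hs
      have hs' := interior_subset hs
      have hs0 : 0 < s := lt_of_lt_of_le h0 hs'.1
      rw [(key s hs').deriv]
      apply div_nonpos_of_nonpos_of_nonneg _ (by positivity)
      have h3 := key2 s hs0.le
      have h1 : (0 : ℝ) < 1 + s := by linarith
      have h4 : s * (2 + s) / (2 * (1 + s)) = s - (1 - 1 / (1 + s)) * s / 2 := by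
        field_simp
        ring
      rw [h4] at h3
      have h5 : (s - (1 - 1 / (1 + s)) * s / 2 - Real.log (1 + s)) * (2 * s) =
        -((1 - 1 / (1 + s)) * s ^ 2 - (s - Real.log (1 + s)) * (2 * s)) := by ring
      have h6 : 0 ≤ (s - (1 - 1 / (1 + s)) * s / 2 - Real.log (1 + s)) * (2 * s) :=
        mul_nonneg (by linarith) (by linarith)
      linarith
  have h7 := hanti (Set.left_mem_Icc.2 htx) (Set.right_mem_Icc.2 htx) htx
  simp only at h7
  rw [le_div_iff₀ (by positivity)] at h7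
  linarith

/-! ## The scaled inequality -/

/-- the case of negative `b = -β`, everything divided by `l²` -/
theorem core_neg {R x l κ α' β v : ℝ} (hR : 0 < R) (hR1 : R ≤ 4 / 5) (hl0 : 0 ≤ l)
    (hx : x = l * R) (hx0 : 0 ≤ x) (hxR : x ≤ R)
    (hκ0 : 0 ≤ κ) (hκ1 : κ ≤ 1 / 2) (hκ2 : κ ≤ 1 / 2 - x / 3 + x ^ 2 / 4)
    (hα : α' = (1 + 2 * R + R * x) / (1 + x) ^ 2 + 2 * κ)
    (hv0 : 0 < v) (hv1 : v ≤ 1) (hβ0 : 0 ≤ β) (hβ : β ≤ R * v) :
    0 ≤ β ^ 2 / 2 + l * β ^ 3 / 3 - κ * β ^ 2 + α' * (1 - β) * (1 - v) / v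
      - κ * R ^ 2 * (1 - v ^ 2) := by
  have hx1 : 0 < 1 + x := by linarith
  have hα1 : 1 + 2 * κ ≤ α' := by
    rw [hα]
    have : 1 ≤ (1 + 2 * R + R * x) / (1 + x) ^ 2 := by
      rw [le_div_iff₀ (by positivity)]
      linarith [mul_nonneg hx0 (sub_nonneg.2 hxR)]
    linarith
  have hβR : β ≤ R := hβ.trans (mul_le_of_le_one_right hR.le hv1)
  have hβ1 : 0 < 1 - β := by linarith
  have hα0 : 0 < α' := by linarith
  -- reduction to the bracket
  have hfac : α' * (1 - β) * (1 - v) / v - κ * R ^ 2 * (1 - v ^ 2) =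
      (1 - v) * (α' * (1 - β) / v - κ * R ^ 2 * (1 + v)) := by
    field_simp
    ring
  have hS : 0 ≤ β ^ 2 / 2 + l * β ^ 3 / 3 - κ * β ^ 2 := by
    have h1 : 0 ≤ (1 / 2 - κ) * β ^ 2 := mul_nonneg (by linarith) (sq_nonneg _)
    have h2 : 0 ≤ l * β ^ 3 / 3 := by positivity
    linarith
  rcases le_or_gt (κ * R ^ 2 * (1 + v)) (α' * (1 - β) / v) with hc | hc
  · have := mul_nonneg (sub_nonneg.2 hv1) (sub_nonneg.2 hc)
    linarith
  rcases le_or_gt x (1 / 10) with hx10 | hx10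
  · -- no deficit
    exfalso
    have h1 : α' * (1 - β) < κ * R ^ 2 * (1 + v) * v := by
      rw [div_lt_iff₀ hv0] at hc
      exact hc
    have h2 : α' * (1 - R * v) ≤ α' * (1 - β) := by
      apply mul_le_mul_of_nonneg_left _ hα0.le
      linarith
    have h3 : κ * R ^ 2 * (1 + v) * v ≤ κ * R ^ 2 * 2 * v := by
      have : 0 ≤ κ * R ^ 2 * (1 - v) * v := by
        have := mul_nonneg hκ0 (sq_nonneg R)
        exact mul_nonneg (mul_nonneg this (by linarith)) hv0.le
      linarith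
    have h4 : α' * (1 - R) ≤ α' * (1 - R * v) - (α' * R) * (1 - v) := by
      apply le_of_eq; ring
    have h5 : α' * (1 - R) < 2 * κ * R ^ 2 := by
      have e1 : 0 ≤ (α' * R) * (1 - v) := mul_nonneg (by positivity) (by linarith)
      have e2 : κ * R ^ 2 * 2 * v ≤ κ * R ^ 2 * 2 := by
        have : 0 ≤ κ * R ^ 2 * 2 := by positivity
        exact mul_le_of_le_one_right this hv1
      linarith
    rw [hα] at h5
    have h6 : (1 + 2 * R + R * x) / (1 + x) ^ 2 * (1 - R) < 2 * κ * (R ^ 2 + R - 1) := by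
      linarith
    rcases le_or_gt (R ^ 2 + R - 1) 0 with h7 | h7
    · have h8 : 0 ≤ (1 + 2 * R + R * x) / (1 + x) ^ 2 * (1 - R) :=
        mul_nonneg (by positivity) (by linarith)
      have h9 : 2 * κ * (R ^ 2 + R - 1) ≤ 0 :=
        mul_nonpos_of_nonneg_of_nonpos (by linarith) h7
      linarith
    · have h8 : 2 * κ * (R ^ 2 + R - 1) ≤ R ^ 2 + R - 1 :=
        mul_le_of_le_one_left h7.le (by linarith)
      have h9 : (1 + 2 * R + R * x) / (1 + x) ^ 2 * (1 - R) < R ^ 2 + R - 1 := by linarith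
      rw [div_mul_eq_mul_div, div_lt_iff₀ (by positivity)] at h9
      have hRR : R ^ 2 ≤ 16 / 25 := by
        have := pow_le_pow_left₀ hR.le hR1 2
        norm_num at this
        linarith
      have h10 : 0 ≤ (R ^ 2 + R - 1) * (x * (1 / 10 - x)) :=
        mul_nonneg h7.le (mul_nonneg hx0 (by linarith))
      have h11 : 0 ≤ x * (21 / 10 - 11 / 10 * R - 31 / 10 * R ^ 2 + 764 / 1000) :=
        mul_nonneg hx0 (by linarith)
      linarith
  · -- the slack of the logarithm pays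
    have h1 : α' * (1 - β) ≤ α' * (1 - β) / v := by
      rw [le_div_iff₀ hv0]
      have : 0 ≤ α' * (1 - β) := by positivity
      exact mul_le_of_le_one_right this hv1
    have h2 : κ * R ^ 2 * (1 + v) ≤ 2 * κ * R ^ 2 := by
      have e0 : 0 ≤ κ * R ^ 2 := by positivity
      have e1 : κ * R ^ 2 * (1 + v) ≤ κ * R ^ 2 * 2 :=
        mul_le_mul_of_nonneg_left (by linarith) e0
      linarith
    have h3 : (1 + 2 * κ) * (1 - β) ≤ α' * (1 - β) :=
      mul_le_mul_of_nonneg_right hα1 hβ1.le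
    have h4 : 0 < 2 * κ * (R ^ 2 - 1 + β) - (1 - β) := by
      have : (1 + 2 * κ) * (1 - β) < 2 * κ * R ^ 2 := by linarith
      linarith
    have h5 : 0 < R ^ 2 - 1 + β := by
      by_contra hn
      push Not at hn
      have : 2 * κ * (R ^ 2 - 1 + β) ≤ 0 := mul_nonpos_of_nonneg_of_nonpos (by linarith) hn
      linarith
    have h6 : 2 * κ * (R ^ 2 - 1 + β) ≤ R ^ 2 - 1 + β :=
      mul_le_of_le_one_left h5.le (by linarith)
    have hR2 : R ^ 2 ≤ 16 / 25 := by
      have := pow_le_pow_left₀ hR.le hR1 2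
      norm_num at this
      linarith
    have h7 : (17 : ℝ) / 25 < β := by linarith
    -- the deficit is at most `(1 - v) (2β - 34/25)`
    have h8 : κ * R ^ 2 * (1 + v) - α' * (1 - β) / v ≤ 2 * β - 34 / 25 := by linarith
    have h9 : 1 - v ≤ 1 - β * (5 / 4) := by
      have : β * (5 / 4) ≤ v := by
        have h10 : β ≤ 4 / 5 * v := hβ.trans (mul_le_mul_of_nonneg_right hR1 hv0.le)
        linarith
      linarith
    have h10 : (1 - v) * (κ * R ^ 2 * (1 + v) - α' * (1 - β) / v) ≤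
        (1 - β * (5 / 4)) * (2 * β - 34 / 25) := by
      have e1 : (1 - v) * (κ * R ^ 2 * (1 + v) - α' * (1 - β) / v) ≤
          (1 - v) * (2 * β - 34 / 25) := mul_le_mul_of_nonneg_left h8 (by linarith)
      have e2 : (1 - v) * (2 * β - 34 / 25) ≤ (1 - β * (5 / 4)) * (2 * β - 34 / 25) :=
        mul_le_mul_of_nonneg_right h9 (by linarith)
      linarith
    have h11 : (1 - β * (5 / 4)) * (2 * β - 34 / 25) ≤ 9 / 1000 := by
      linarith [sq_nonneg (β - 37 / 50)]
    have hx8 : x ≤ 4 / 5 := by linarith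
    have h12 : (3 : ℝ) / 100 ≤ 1 / 2 - κ := by
      have : (3 : ℝ) / 100 ≤ x / 3 - x ^ 2 / 4 := by
        linarith [mul_nonneg (sub_nonneg.2 hx10.le) (sub_nonneg.2 hx8)]
      linarith
    have h13 : (9 : ℝ) / 1000 ≤ (1 / 2 - κ) * β ^ 2 := by
      have e1 : (9 : ℝ) / 20 ≤ β ^ 2 := by
        have := pow_le_pow_left₀ (by norm_num : (0 : ℝ) ≤ 17 / 25) h7.le 2
        norm_num at this
        linarith
      have e2 := mul_le_mul h12 e1 (by norm_num) (by linarith)
      linarith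
    have h14 : 0 ≤ l * β ^ 3 / 3 := by positivity
    have e3 : (1 - v) * (α' * (1 - β) / v - κ * R ^ 2 * (1 + v)) =
      -((1 - v) * (κ * R ^ 2 * (1 + v) - α' * (1 - β) / v)) := by ring
    rw [e3] at hfac
    linarith

/-- the constants of V2* -/
noncomputable def hV (x : ℝ) : ℝ := x - Real.log (1 + x)

noncomputable def gV (R l : ℝ) : ℝ :=
  l * (1 - l) / (1 + l * R) ^ 2 - 2 * (hV (l * R) / R ^ 2)

/-- the inequality in the variables `B = |1 - R u|`, `A = 1 - R Re u`, `v = |u|` -/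
theorem core_AB {R l A B v : ℝ} (hR : 0 < R) (hR1 : R ≤ 4 / 5) (hl0 : 0 ≤ l) (hl1 : l ≤ 1)
    (hv0 : 0 < v) (hv1 : v ≤ 1) (hAB : A ≤ B) (hB0 : 1 - R * v ≤ B) (hB1 : B ≤ 1 + R * v)
    (hBA : B ^ 2 = 2 * A - 1 + R ^ 2 * v ^ 2)
    (hQ : 0 < (1 - l) ^ 2 + 2 * l * (1 - l) * A + l ^ 2 * B ^ 2) :
    Real.log ((1 - l) ^ 2 + 2 * l * (1 - l) * A + l ^ 2 * B ^ 2) / 2 ≤
      (l - gV R l) * (B / v - 1) - gV R l * (1 - A) - hV (l * R) := by
  rcases hl0.eq_or_lt with h0 | hlpos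
  · subst h0
    unfold gV hV
    simp
  obtain ⟨x, hx⟩ : ∃ x, x = l * R := ⟨_, rfl⟩
  have hx0 : 0 < x := by rw [hx]; positivity
  have hxR : x ≤ R := by rw [hx]; exact mul_le_of_le_one_left hR.le hl1
  obtain ⟨κ, hκ⟩ : ∃ κ, κ = (x - Real.log (1 + x)) / x ^ 2 := ⟨_, rfl⟩
  have hκx : κ * x ^ 2 = x - Real.log (1 + x) := by rw [hκ]; field_simp
  have hlog := log_one_add_ge hx0.le
  have hκ2 : κ ≤ 1 / 2 - x / 3 + x ^ 2 / 4 := by
    rw [hκ, div_le_iff₀ (by positivity)]
    linarith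
  have hκ0 : 0 ≤ κ := by
    rw [hκ]
    apply div_nonneg _ (sq_nonneg x)
    have := Real.log_le_sub_one_of_pos (x := 1 + x) (by linarith)
    linarith
  have hκ1 : κ ≤ 1 / 2 := by
    linarith [mul_nonneg hx0.le (by linarith : (0 : ℝ) ≤ 4 / 5 - x)]
  have hK : hV (l * R) / R ^ 2 = l ^ 2 * κ := by
    unfold hV
    rw [← hx, ← hκx, hx]
    field_simp
  have hh : hV (l * R) = l ^ 2 * κ * R ^ 2 := by
    rw [← hK]; field_simp
  obtain ⟨b, hb⟩ : ∃ b, b = B - 1 := ⟨_, rfl⟩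
  have hRv : R * v ≤ R := mul_le_of_le_one_right hR.le hv1
  have hBpos : 0 < B := by linarith
  have hP : 0 < 1 + l * b := by
    rw [hb]
    linarith [mul_pos hlpos hBpos]
  have hP1 : 1 + l * b ≤ 1 + x := by
    rw [hb, hx]
    have : B - 1 ≤ R := by linarith
    linarith [mul_le_mul_of_nonneg_left this hl0]
  -- step 1
  obtain ⟨Q, hQd⟩ : ∃ Q, Q = (1 - l) ^ 2 + 2 * l * (1 - l) * A + l ^ 2 * B ^ 2 := ⟨_, rfl⟩
  have hQP : Q = (1 + l * b) ^ 2 - 2 * l * (1 - l) * (B - A) := by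
    rw [hQd, hb]; ring
  have hτ : 0 < 1 - 2 * l * (1 - l) * (B - A) / (1 + l * b) ^ 2 := by
    rw [sub_pos, div_lt_one (by positivity)]
    rw [← hQd, hQP] at hQ
    linarith
  have hQ2 : Q = (1 + l * b) ^ 2 * (1 - 2 * l * (1 - l) * (B - A) / (1 + l * b) ^ 2) := by
    rw [hQP]
    field_simp
  have step1 : Real.log Q / 2 ≤ Real.log (1 + l * b) - l * (1 - l) / (1 + x) ^ 2 * (B - A) := by
    rw [hQ2, Real.log_mul (by positivity) hτ.ne', Real.log_pow]
    have h1 := Real.log_le_sub_one_of_pos hτ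
    have h2 : l * (1 - l) / (1 + x) ^ 2 * (B - A) ≤ l * (1 - l) * (B - A) / (1 + l * b) ^ 2 := by
      rw [div_mul_eq_mul_div]
      apply div_le_div_of_nonneg_left _ (by positivity)
      · exact pow_le_pow_left₀ hP.le hP1 2
      · exact mul_nonneg (mul_nonneg hl0 (by linarith)) (by linarith)
    have h3 : 2 * l * (1 - l) * (B - A) / (1 + l * b) ^ 2 =
      2 * (l * (1 - l) * (B - A) / (1 + l * b) ^ 2) := by ring
    push_cast
    linarith
  rw [← hQd]
  refine step1.trans ?_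
  -- step 2
  have hα' : l - gV R l = l ^ 2 * ((1 + 2 * R + R * x) / (1 + x) ^ 2 + 2 * κ) := by
    unfold gV
    rw [hK, ← hx]
    have hx1 : (1 + x) ≠ 0 := by linarith
    field_simp
    rw [hx]
    ring
  have step2 : Real.log (1 + l * b) ≤ l * b - l ^ 2 * κ * b ^ 2 +
      (l - gV R l) * B * (1 - v) / v - l ^ 2 * κ * R ^ 2 * (1 - v ^ 2) := by
    rw [hα']
    obtain ⟨α', hα'd⟩ : ∃ α', α' = (1 + 2 * R + R * x) / (1 + x) ^ 2 + 2 * κ := ⟨_, rfl⟩
    rw [← hα'd]
    have hα1 : 2 * κ ≤ α' := by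
      rw [hα'd]
      have : 0 ≤ (1 + 2 * R + R * x) / (1 + x) ^ 2 := by positivity
      linarith
    rcases le_or_gt 0 b with hb0 | hb0
    · have h1 := quad_log (t := l * b) (by positivity) (by linarith) hx0
      rw [← hκ] at h1
      have h2 : 0 ≤ l ^ 2 * ((1 - v) * (α' * B / v - κ * R ^ 2 * (1 + v))) := by
        apply mul_nonneg (sq_nonneg l)
        apply mul_nonneg (by linarith)
        have h3 : 2 * κ ≤ α' * B / v := by
          rw [le_div_iff₀ hv0]
          have hB1' : 1 ≤ B := by linarith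
          have f1 : 2 * κ * v ≤ 2 * κ := mul_le_of_le_one_right (by linarith) hv1
          have f2 : α' ≤ α' * B := le_mul_of_one_le_right (by linarith) hB1'
          linarith
        have h4 : κ * R ^ 2 * (1 + v) ≤ 2 * κ := by
          have e1 : R ^ 2 ≤ 1 := pow_le_one₀ hR.le (by linarith)
          have e2 : κ * R ^ 2 ≤ κ := mul_le_of_le_one_right hκ0 e1
          have e3 : κ * R ^ 2 * (1 + v) ≤ κ * R ^ 2 * 2 :=
            mul_le_mul_of_nonneg_left (by linarith) (by positivity)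
          linarith
        linarith
      have e1 : l ^ 2 * ((1 - v) * (α' * B / v - κ * R ^ 2 * (1 + v))) =
          l ^ 2 * α' * B * (1 - v) / v - l ^ 2 * κ * R ^ 2 * (1 - v ^ 2) := by
        field_simp
        ring
      rw [e1] at h2
      have e2 : κ * (l * b) ^ 2 = l ^ 2 * κ * b ^ 2 := by ring
      rw [e2] at h1
      linarith
    · obtain ⟨β, hβ⟩ : ∃ β, β = -b := ⟨_, rfl⟩
      have hβ0 : 0 < β := by linarith
      have hβ1 : β ≤ R * v := by rw [hβ, hb]; linarith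
      have hc := core_neg hR hR1 hl0 hx hx0.le hxR hκ0 hκ1 hκ2 hα'd hv0 hv1 hβ0.le hβ1
      have h1 := log_one_sub_le (t := l * β) (by positivity) (by
        have h0 : β ≤ R := by linarith
        have h00 := mul_le_of_le_one_left hβ0.le hl1
        linarith)
      have h2 := mul_nonneg (sq_nonneg l) hc
      have hB' : B = 1 - β := by rw [hβ, hb]; ring
      have hb' : b = -β := by rw [hβ]; ring
      have e0 : 1 + l * b = 1 - l * β := by rw [hb']; ring
      rw [e0, hB', hb']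
      have e1 : l ^ 2 * (β ^ 2 / 2 + l * β ^ 3 / 3 - κ * β ^ 2 + α' * (1 - β) * (1 - v) / v
          - κ * R ^ 2 * (1 - v ^ 2)) = (l * β) ^ 2 / 2 + (l * β) ^ 3 / 3 - l ^ 2 * κ * (-β) ^ 2
          + l ^ 2 * α' * (1 - β) * (1 - v) / v - l ^ 2 * κ * R ^ 2 * (1 - v ^ 2) := by
        field_simp
      rw [e1] at h2
      linarith
  -- conclusion
  have hg : gV R l = l * (1 - l) / (1 + x) ^ 2 - 2 * (l ^ 2 * κ) := by
    unfold gV
    rw [hK, ← hx]
  have e3 : (l - gV R l) * (B / v - 1) = (l - gV R l) * B * (1 - v) / v +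
      (l - gV R l) * (B - 1) := by
    field_simp
    ring
  rw [e3, hh]
  have e4 : (l - gV R l) * (B - 1) - gV R l * (1 - A) - l ^ 2 * κ * R ^ 2 =
      l * b - l ^ 2 * κ * b ^ 2 - l ^ 2 * κ * R ^ 2 * (1 - v ^ 2)
        - l * (1 - l) / (1 + x) ^ 2 * (B - A) := by
    rw [hg, hb]
    linear_combination (l ^ 2 * κ) * hBA
  linarith

/-- **V2***: the dual triple for `R ≤ 4/5` -/
theorem dual_V2 {R l : ℝ} (hR : 0 < R) (hR1 : R ≤ 4 / 5) (hl0 : 0 ≤ l) (hl1 : l ≤ 1) :
    Dual R (l * R) (l - gV R l) (gV R l) (hV (l * R)) := by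
  refine ⟨?_, ?_⟩
  · -- nonnegativity
    rcases hl0.eq_or_lt with h0 | hlpos
    · subst h0
      unfold gV hV
      simp
    have hx0 : 0 < l * R := by positivity
    have h1 : 0 ≤ hV (l * R) := by
      unfold hV
      have := Real.log_le_sub_one_of_pos (x := 1 + l * R) (by linarith)
      linarith
    have h2 : l * (1 - l) / (1 + l * R) ^ 2 ≤ l := by
      rw [div_le_iff₀ (by positivity)]
      have e1 : 1 ≤ (1 + l * R) ^ 2 := one_le_pow₀ (by linarith)
      have e2 : 0 ≤ l * ((1 + l * R) ^ 2 - 1 + l) := mul_nonneg hl0 (by linarith)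
      linarith
    have h3 : 0 ≤ hV (l * R) / R ^ 2 := by positivity
    unfold gV
    linarith
  · intro w hw
    have hw0 : w ≠ 0 := by
      intro h
      rw [h, norm_zero] at hw
      linarith
    have hwn : 0 < ‖w‖ := norm_pos_iff.2 hw0
    rcases eq_or_ne (1 - ((l * R : ℝ) : ℂ) * w⁻¹) 0 with hz | hz
    · rw [hz, norm_zero]
      exact (Real.exp_pos _).le
    have hzn : 0 < ‖1 - ((l * R : ℝ) : ℂ) * w⁻¹‖ := norm_pos_iff.2 hz
    rw [← Real.log_le_iff_le_exp hzn]
    obtain ⟨u, hu⟩ : ∃ u, u = w⁻¹ := ⟨_, rfl⟩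
    obtain ⟨v, hv⟩ : ∃ v, v = ‖u‖ := ⟨_, rfl⟩
    have hvw : v * ‖w‖ = 1 := by
      rw [hv, hu, norm_inv]
      field_simp
    have hv0 : 0 < v := by
      rw [hv, hu, norm_inv]
      positivity
    have hv1 : v ≤ 1 := by
      have := mul_le_mul_of_nonneg_left hw hv0.le
      linarith
    obtain ⟨A, hA⟩ : ∃ A, A = (1 - (R : ℂ) * u).re := ⟨_, rfl⟩
    obtain ⟨B, hB⟩ : ∃ B, B = ‖1 - (R : ℂ) * u‖ := ⟨_, rfl⟩
    have hAu : u.re * R = 1 - A := by
      rw [hA]
      simp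
      ring
    have hRu : ‖(R : ℂ) * u‖ = R * v := by
      rw [norm_mul, Complex.norm_real, Real.norm_of_nonneg hR.le, hv]
    have hB0 : 1 - R * v ≤ B := by
      have := norm_sub_norm_le (1 : ℂ) ((R : ℂ) * u)
      rw [norm_one, hRu, ← hB] at this
      exact this
    have hB1 : B ≤ 1 + R * v := by
      have := norm_sub_le (1 : ℂ) ((R : ℂ) * u)
      rw [norm_one, hRu, ← hB] at this
      exact this
    have hAB : A ≤ B := by rw [hA, hB]; exact Complex.re_le_norm _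
    have hv2 : v ^ 2 = u.re ^ 2 + u.im ^ 2 := by rw [hv]; exact norm_sq_re_im u
    have hBA : B ^ 2 = 2 * A - 1 + R ^ 2 * v ^ 2 := by
      rw [hB, hA, norm_sq_re_im, hv2]
      simp only [Complex.sub_re, Complex.sub_im, Complex.one_re, Complex.one_im, Complex.mul_re,
        Complex.mul_im, Complex.ofReal_re, Complex.ofReal_im]
      ring
    have hQ : ‖1 - ((l * R : ℝ) : ℂ) * u‖ ^ 2 =
        (1 - l) ^ 2 + 2 * l * (1 - l) * A + l ^ 2 * B ^ 2 := by
      rw [hBA, hA, norm_sq_re_im, hv2]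
      simp only [Complex.sub_re, Complex.sub_im, Complex.one_re, Complex.one_im, Complex.mul_re,
        Complex.mul_im, Complex.ofReal_re, Complex.ofReal_im]
      ring
    have hD : ‖w - (R : ℂ)‖ = B / v := by
      have h1 : w - (R : ℂ) = w * (1 - (R : ℂ) * u) := by
        rw [hu]
        field_simp
      rw [h1, norm_mul, ← hB, eq_div_iff hv0.ne']
      linear_combination B * hvw
    have h1 := core_AB hR hR1 hl0 hl1 hv0 hv1 hAB hB0 hB1 hBA (by
      rw [← hQ, hu]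
      positivity)
    rw [← hQ, Real.log_pow, Nat.cast_ofNat, hu] at h1
    rw [hD, ← hu]
    rw [← hu] at h1
    have e1 : gV R l * R * u.re = gV R l * (1 - A) := by rw [← hAu]; ring
    rw [e1]
    linarith

end Pool.Agent.Lib.MP_af3a4a_an.P1.H74
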