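import Pool.Agent.Lib.MP_af3a4a_an.P1.H74.V3

/-!
# The majorant V3, part 2: the dual triple (council 2; dual found by helper58)
-/

set_option autoImplicit false

namespace Pool.Agent.Lib.MP_af3a4a_an.P1.H74

open Finset MeasureTheory
open ComplexConjugate
open Pool.Agent.Lib.MP_af3a4a_an.SV (uu av EE)
open Pool.Agent.Lib.MP_af3a4a_an.P1.H80

/-- the constants of V3 -/
noncomputable def A3 (l : ℝ) : ℝ := |l ^ 2 - 4 / 3 * l ^ 3|

noncomputable def gV3 (R l v : ℝ) : ℝ := l * (1 - 2 * l) + 2 * A3 l * R * (1 - 2 * v)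

noncomputable def hV3 (R l v : ℝ) : ℝ := R ^ 2 * (l ^ 2 / 2 - A3 l * R * (1 - v) ^ 2)

noncomputable def aV3 (R l v : ℝ) : ℝ :=
  -gV3 R l v + l + l ^ 2 * (1 - l) * R ^ 2 - (l ^ 2 - 4 / 3 * l ^ 3) * R ^ 2 * (v * (2 - v))

namespace V3

theorem ident_pos {R l v b ν a : ℝ} (hν : ν ≠ 0) (ha : a = 1 - 4 / 3 * l) :
    (-(l * (1 - 2 * l) + 2 * (l ^ 2 * a) * R * (1 - 2 * v)) + l + l ^ 2 * (1 - l) * R ^ 2 -
      (l ^ 2 * a) * R ^ 2 * (v * (2 - v))) * ((1 + b) / ν - 1) -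
      (l * (1 - 2 * l) + 2 * (l ^ 2 * a) * R * (1 - 2 * v)) * (-b - (b ^ 2 - R ^ 2 * ν ^ 2) / 2) -
      R ^ 2 * (l ^ 2 / 2 - (l ^ 2 * a) * R * (1 - v) ^ 2) -
      (l * b - l ^ 2 * b ^ 2 / 2 + l ^ 3 * b ^ 3 / 3 -
        l * (1 - l) * (1 - 2 * (l * b)) * ((R ^ 2 * ν ^ 2 - b ^ 2) / 2)) =
    l ^ 2 * (a * (b + R) * (b - v * R) ^ 2 + (1 - ν) *
      ((2 - 2 * a * R * (1 - 2 * v) + (1 - l) * R ^ 2 - a * R ^ 2 * v * (2 - v)) * (1 + b) / ν -
        (1 + ν) * (R ^ 2 / 2) * (1 - 2 * a * R * (1 - 2 * v) - 2 * (1 - l) * b))) := by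
  subst ha
  field_simp
  ring

theorem ident_neg {R l v b ν a : ℝ} (hν : ν ≠ 0) (ha : a = 4 / 3 * l - 1) :
    (-(l * (1 - 2 * l) + 2 * (l ^ 2 * a) * R * (1 - 2 * v)) + l + l ^ 2 * (1 - l) * R ^ 2 +
      (l ^ 2 * a) * R ^ 2 * (v * (2 - v))) * ((1 + b) / ν - 1) -
      (l * (1 - 2 * l) + 2 * (l ^ 2 * a) * R * (1 - 2 * v)) * (-b - (b ^ 2 - R ^ 2 * ν ^ 2) / 2) -
      R ^ 2 * (l ^ 2 / 2 - (l ^ 2 * a) * R * (1 - v) ^ 2) -
      (l * b - l ^ 2 * b ^ 2 / 2 + l ^ 3 * b ^ 3 / 3 -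
        l * (1 - l) * (1 - 2 * (l * b)) * ((R ^ 2 * ν ^ 2 - b ^ 2) / 2)) =
    l ^ 2 * (a * (R - b) * (b + v * R) ^ 2 + (1 - ν) *
      ((2 - 2 * a * R * (1 - 2 * v) + (1 - l) * R ^ 2 + a * R ^ 2 * v * (2 - v)) * (1 + b) / ν -
        (1 + ν) * (R ^ 2 / 2) * (1 - 2 * a * R * (1 - 2 * v) - 2 * (1 - l) * b))) := by
  subst ha
  field_simp
  ring

/-- the right side in the two cases -/
theorem rhs_ge {R l v b ν : ℝ} (hR : 0 < R) (hR1 : R ≤ 3 / 4) (hl0 : 0 ≤ l) (hl1 : l ≤ 1)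
    (hv0 : 0 ≤ v) (hv1 : v ≤ 1) (hν0 : 0 < ν) (hν1 : ν ≤ 1) (hb : -(R * ν) ≤ b) (hb1 : b ≤ R * ν) :
    l * b - l ^ 2 * b ^ 2 / 2 + l ^ 3 * b ^ 3 / 3 -
        l * (1 - l) * (1 - 2 * (l * b)) * ((R ^ 2 * ν ^ 2 - b ^ 2) / 2) -
        (if b < 0 then l ^ 4 * b ^ 4 / 4 else 0) ≤
      aV3 R l v * ((1 + b) / ν - 1) - gV3 R l v * (-b - (b ^ 2 - R ^ 2 * ν ^ 2) / 2) -
        hV3 R l v := by
  have hRν : R * ν ≤ R := mul_le_of_le_one_right hR.le hν1
  rcases le_total l (3 / 4) with hl | hl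
  · obtain ⟨a, ha⟩ : ∃ a, a = 1 - 4 / 3 * l := ⟨_, rfl⟩
    have ha0 : 0 ≤ a := by linarith
    have ha1 : a ≤ 1 := by linarith
    have hA : A3 l = l ^ 2 * a := by
      unfold A3
      have e : l ^ 2 - 4 / 3 * l ^ 3 = l ^ 2 * a := by rw [ha]; ring
      rw [e, abs_of_nonneg (by positivity)]
    have hX : l ^ 2 - 4 / 3 * l ^ 3 = l ^ 2 * a := by rw [ha]; ring
    unfold aV3 hV3 gV3
    rw [hA, hX]
    have hid := ident_pos (R := R) (v := v) (b := b) hν0.ne' ha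
    rcases lt_or_ge b 0 with hb0 | hb0
    · rw [if_pos hb0]
      obtain ⟨β, hβ⟩ : ∃ β, β = -b := ⟨_, rfl⟩
      have hbβ : b = -β := by linarith
      have h1 := neg_pos hR hR1 ha0 ha1 (l := l) (v := v) (ν := ν) (β := β)
        (by rw [ha]; ring) hv0 hν0 hν1 (by linarith) (by linarith)
      have h2 := mul_nonneg (sq_nonneg l) h1
      have e : l ^ 2 * (a * (b + R) * (b - v * R) ^ 2 + (1 - ν) *
          ((2 - 2 * a * R * (1 - 2 * v) + (1 - l) * R ^ 2 - a * R ^ 2 * v * (2 - v)) *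
            (1 + b) / ν -
          (1 + ν) * (R ^ 2 / 2) * (1 - 2 * a * R * (1 - 2 * v) - 2 * (1 - l) * b))) +
          l ^ 4 * b ^ 4 / 4 =
          l ^ 2 * (a * (R - β) * (β + v * R) ^ 2 + l ^ 2 * β ^ 4 / 4 + (1 - ν) *
          ((2 - 2 * a * R * (1 - 2 * v) + (1 - l) * R ^ 2 - a * R ^ 2 * v * (2 - v)) *
            (1 - β) / ν -
          (1 + ν) * (R ^ 2 / 2) * (1 - 2 * a * R * (1 - 2 * v) + 2 * (1 - l) * β))) := by
        rw [hbβ]
        ring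
      rw [← e] at h2
      linarith
    · rw [if_neg (not_lt.2 hb0)]
      have h1 := pos_Z hR hR1 ha0 ha1 (l := l) (s := a) (v := v) (ν := ν) (b := b) hl1
        (by rw [ha]; linarith) hv0 hv1 hν0 hν1 hb0
      have h2 : 0 ≤ a * (b + R) * (b - v * R) ^ 2 := by positivity
      have h3 := mul_nonneg (sub_nonneg.2 hν1) h1
      have h4 := mul_nonneg (sq_nonneg l) (add_nonneg h2 h3)
      linarith
  · obtain ⟨a, ha⟩ : ∃ a, a = 4 / 3 * l - 1 := ⟨_, rfl⟩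
    have ha0 : 0 ≤ a := by linarith
    have ha1 : a ≤ 1 / 3 := by linarith
    have hA : A3 l = l ^ 2 * a := by
      unfold A3
      have e : l ^ 2 - 4 / 3 * l ^ 3 = -(l ^ 2 * a) := by rw [ha]; ring
      rw [e, abs_neg, abs_of_nonneg (by positivity)]
    have hX : l ^ 2 - 4 / 3 * l ^ 3 = -(l ^ 2 * a) := by rw [ha]; ring
    unfold aV3 hV3 gV3
    rw [hA, hX]
    have hid := ident_neg (R := R) (v := v) (b := b) hν0.ne' ha
    have hneg : ∀ t : ℝ, t - -(l ^ 2 * a) * R ^ 2 * (v * (2 - v)) =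
        t + (l ^ 2 * a) * R ^ 2 * (v * (2 - v)) := fun t => by ring
    rw [hneg]
    rcases lt_or_ge b 0 with hb0 | hb0
    · rw [if_pos hb0]
      obtain ⟨β, hβ⟩ : ∃ β, β = -b := ⟨_, rfl⟩
      have hbβ : b = -β := by linarith
      have h1 := neg_neg hR hR1 ha0 ha1 (l := l) (v := v) (ν := ν) (β := β)
        (by rw [ha]; ring) hv0 hv1 hν0 hν1 (by linarith) (by linarith)
      have h2 := mul_nonneg (sq_nonneg l) h1
      have e : l ^ 2 * (a * (R - b) * (b + v * R) ^ 2 + (1 - ν) *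
          ((2 - 2 * a * R * (1 - 2 * v) + (1 - l) * R ^ 2 + a * R ^ 2 * v * (2 - v)) *
            (1 + b) / ν -
          (1 + ν) * (R ^ 2 / 2) * (1 - 2 * a * R * (1 - 2 * v) - 2 * (1 - l) * b))) +
          l ^ 4 * b ^ 4 / 4 =
          l ^ 2 * (a * (R + β) * (v * R - β) ^ 2 + l ^ 2 * β ^ 4 / 4 + (1 - ν) *
          ((2 - 2 * a * R * (1 - 2 * v) + (1 - l) * R ^ 2 + a * R ^ 2 * v * (2 - v)) *
            (1 - β) / ν -
          (1 + ν) * (R ^ 2 / 2) * (1 - 2 * a * R * (1 - 2 * v) + 2 * (1 - l) * β))) := by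
        rw [hbβ]
        ring
      rw [← e] at h2
      linarith
    · rw [if_neg (not_lt.2 hb0)]
      have h1 := pos_Z hR hR1 ha0 (by linarith) (l := l) (s := -a) (v := v) (ν := ν) (b := b) hl1
        (by rw [ha]; linarith) hv0 hv1 hν0 hν1 hb0
      have e : ∀ t : ℝ, t - -a * R ^ 2 * v * (2 - v) = t + a * R ^ 2 * v * (2 - v) :=
        fun t => by ring
      rw [e] at h1
      have h2 : 0 ≤ a * (R - b) * (b + v * R) ^ 2 := by
        have : 0 ≤ R - b := by linarith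
        positivity
      have h3 := mul_nonneg (sub_nonneg.2 hν1) h1
      have h4 := mul_nonneg (sq_nonneg l) (add_nonneg h2 h3)
      linarith

end V3

open V3

/-- the inequality in the variables `B = |1 - R u|`, `A = 1 - R Re u`, `ν = |u|` -/
theorem core_AB3 {R l v A B ν : ℝ} (hR : 0 < R) (hR1 : R ≤ 3 / 4) (hl0 : 0 ≤ l) (hl1 : l ≤ 1)
    (hv0 : 0 ≤ v) (hv1 : v ≤ 1) (hν0 : 0 < ν) (hν1 : ν ≤ 1) (hAB : A ≤ B) (hB0 : 1 - R * ν ≤ B)
    (hB1 : B ≤ 1 + R * ν) (hBA : B ^ 2 = 2 * A - 1 + R ^ 2 * ν ^ 2)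
    (hQ : 0 < (1 - l) ^ 2 + 2 * l * (1 - l) * A + l ^ 2 * B ^ 2) :
    Real.log ((1 - l) ^ 2 + 2 * l * (1 - l) * A + l ^ 2 * B ^ 2) / 2 ≤
      aV3 R l v * (B / ν - 1) - gV3 R l v * (1 - A) - hV3 R l v := by
  obtain ⟨b, hb⟩ : ∃ b, b = B - 1 := ⟨_, rfl⟩
  have hRν : R * ν ≤ R := mul_le_of_le_one_right hR.le hν1
  have hb1 : b ≤ R * ν := by linarith
  have hb2 : -(R * ν) ≤ b := by linarith
  have hP : 0 < 1 + l * b := by
    have h1 : -(3 / 4) ≤ b := by linarith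
    have h2 : l * -(3 / 4) ≤ l * b := mul_le_mul_of_nonneg_left h1 hl0
    linarith
  obtain ⟨Q, hQd⟩ : ∃ Q, Q = (1 - l) ^ 2 + 2 * l * (1 - l) * A + l ^ 2 * B ^ 2 := ⟨_, rfl⟩
  have hQP : Q = (1 + l * b) ^ 2 - 2 * l * (1 - l) * (B - A) := by
    rw [hQd, hb]; ring
  have hτ : 0 < 1 - 2 * l * (1 - l) * (B - A) / (1 + l * b) ^ 2 := by
    rw [sub_pos, div_lt_one (by positivity)]
    rw [← hQd, hQP] at hQ
    linarith
  have hQ2 : Q = (1 + l * b) ^ 2 * (1 - 2 * l * (1 - l) * (B - A) / (1 + l * b) ^ 2) := by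
    rw [hQP]
    field_simp
  have hBAd : B - A = (R ^ 2 * ν ^ 2 - b ^ 2) / 2 := by
    rw [hb]
    linarith
  have hm : 0 ≤ l * (1 - l) * (B - A) := mul_nonneg (mul_nonneg hl0 (by linarith)) (by linarith)
  have step1 : Real.log Q / 2 ≤ Real.log (1 + l * b) -
      l * (1 - l) * (1 - 2 * (l * b)) * (B - A) := by
    rw [hQ2, Real.log_mul (by positivity) hτ.ne', Real.log_pow]
    have h1 := Real.log_le_sub_one_of_pos hτ
    have h2 : l * (1 - l) * (1 - 2 * (l * b)) * (B - A) ≤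
        l * (1 - l) * (B - A) / (1 + l * b) ^ 2 := by
      rw [le_div_iff₀ (by positivity)]
      have h3 : (1 - 2 * (l * b)) * (1 + l * b) ^ 2 ≤ 1 := by
        have h4 : 0 ≤ (l * b) ^ 2 * (3 + 2 * (l * b)) :=
          mul_nonneg (sq_nonneg _) (by linarith)
        linarith
      have h5 := mul_le_mul_of_nonneg_left h3 hm
      linarith
    have h3 : 2 * l * (1 - l) * (B - A) / (1 + l * b) ^ 2 =
      2 * (l * (1 - l) * (B - A) / (1 + l * b) ^ 2) := by ring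
    push_cast
    linarith
  have step2 : Real.log (1 + l * b) ≤ l * b - l ^ 2 * b ^ 2 / 2 + l ^ 3 * b ^ 3 / 3 -
      (if b < 0 then l ^ 4 * b ^ 4 / 4 else 0) := by
    rcases lt_or_ge b 0 with hb0 | hb0
    · rw [if_pos hb0]
      have h1 := log_le_quartic (t := -(l * b))
        (by have := mul_nonneg hl0 (by linarith : 0 ≤ -b); linarith) (by linarith)
      have e : 1 - -(l * b) = 1 + l * b := by ring
      rw [e] at h1
      refine h1.trans (le_of_eq ?_)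
      ring
    · rw [if_neg (not_lt.2 hb0)]
      have h1 := log_le_cubic (y := l * b) (by positivity)
      refine h1.trans (le_of_eq ?_)
      ring
  have h1 := rhs_ge (v := v) hR hR1 hl0 hl1 hv0 hv1 hν0 hν1 hb2 hb1
  rw [← hQd]
  have e1 : B / ν = (1 + b) / ν := by rw [hb]; ring
  have e2 : 1 - A = -b - (b ^ 2 - R ^ 2 * ν ^ 2) / 2 := by
    rw [hb]
    linarith
  rw [e1, e2]
  rw [hBAd] at step1
  linarith

/-- **V3**: the dual triple for `R ≤ 3/4` -/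
theorem dual_V3 {R l v : ℝ} (hR : 0 < R) (hR1 : R ≤ 3 / 4) (hl0 : 0 ≤ l) (hl1 : l ≤ 1)
    (hv0 : 0 ≤ v) (hv1 : v ≤ 1) :
    Dual R (l * R) (aV3 R l v) (gV3 R l v) (hV3 R l v) := by
  refine ⟨?_, ?_⟩
  · -- nonnegativity
    obtain ⟨X, hX⟩ : ∃ X, X = 1 - 4 / 3 * l := ⟨_, rfl⟩
    have hX1 : |X| ≤ 1 := by
      rw [hX, abs_le]
      constructor <;> linarith
    have hA : A3 l = l ^ 2 * |X| := by
      unfold A3
      have e : l ^ 2 - 4 / 3 * l ^ 3 = l ^ 2 * X := by rw [hX]; ring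
      rw [e, abs_mul, abs_of_nonneg (sq_nonneg l)]
    have e : aV3 R l v = l ^ 2 * ((2 - 2 * (|X| * R * (1 - 2 * v))) +
        R ^ 2 * ((1 - l) - X * (v * (2 - v)))) := by
      unfold aV3 gV3
      rw [hA, hX]
      ring
    rw [e]
    refine mul_nonneg (sq_nonneg l) ?_
    have h1 : |X| * R ≤ 1 * (3 / 4) := mul_le_aux hX1 hR1 (abs_nonneg X) (by norm_num)
    have h2 : |X| * R * (1 - 2 * v) ≤ |X| * R * 1 :=
      mul_le_mul_of_nonneg_left (by linarith) (by positivity)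
    have h3 : 0 ≤ (1 - l) - X * (v * (2 - v)) := by
      have h4 : 0 ≤ v * (2 - v) := mul_nonneg hv0 (by linarith)
      have h5 := vv_aux v
      rcases le_total 0 X with h | h
      · have : X * (v * (2 - v)) ≤ X * 1 := mul_le_mul_of_nonneg_left h5 h
        linarith
      · have := mul_nonpos_of_nonpos_of_nonneg h h4
        linarith
    have h6 : 0 ≤ R ^ 2 * ((1 - l) - X * (v * (2 - v))) := mul_nonneg (sq_nonneg R) h3
    linarith
  · intro w hw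
    have hw0 : w ≠ 0 := by
      intro h
      rw [h, norm_zero] at hw
      linarith
    have hwn : 0 < ‖w‖ := norm_pos_iff.2 hw0
    rcases eq_or_ne (1 - ((l * R : ℝ) : ℂ) * w⁻¹) 0 with hz | hz
    · rw [hz, norm_zero]
      exact (Real.exp_pos _).le
    have hzn : 0 < ‖1 - ((l * R : ℝ) : ℂ) * w⁻¹‖ := norm_pos_iff.2 hz
    rw [← Real.log_le_iff_le_exp hzn]
    obtain ⟨u, hu⟩ : ∃ u, u = w⁻¹ := ⟨_, rfl⟩
    obtain ⟨ν, hν⟩ : ∃ ν, ν = ‖u‖ := ⟨_, rfl⟩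
    have hνw : ν * ‖w‖ = 1 := by
      rw [hν, hu, norm_inv]
      field_simp
    have hν0 : 0 < ν := by
      rw [hν, hu, norm_inv]
      positivity
    have hν1 : ν ≤ 1 := by nlinarith
    obtain ⟨A, hA⟩ : ∃ A, A = (1 - (R : ℂ) * u).re := ⟨_, rfl⟩
    obtain ⟨B, hB⟩ : ∃ B, B = ‖1 - (R : ℂ) * u‖ := ⟨_, rfl⟩
    have hAu : u.re * R = 1 - A := by
      rw [hA]
      simp
      ring
    have hRu : ‖(R : ℂ) * u‖ = R * ν := by
      rw [norm_mul, Complex.norm_real, Real.norm_of_nonneg hR.le, hν]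
    have hB0 : 1 - R * ν ≤ B := by
      have := norm_sub_norm_le (1 : ℂ) ((R : ℂ) * u)
      rw [norm_one, hRu, ← hB] at this
      exact this
    have hB1 : B ≤ 1 + R * ν := by
      have := norm_sub_le (1 : ℂ) ((R : ℂ) * u)
      rw [norm_one, hRu, ← hB] at this
      exact this
    have hAB : A ≤ B := by rw [hA, hB]; exact Complex.re_le_norm _
    have hν2 : ν ^ 2 = u.re ^ 2 + u.im ^ 2 := by rw [hν]; exact norm_sq_re_im u
    have hBA : B ^ 2 = 2 * A - 1 + R ^ 2 * ν ^ 2 := by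
      rw [hB, hA, norm_sq_re_im, hν2]
      simp only [Complex.sub_re, Complex.sub_im, Complex.one_re, Complex.one_im, Complex.mul_re,
        Complex.mul_im, Complex.ofReal_re, Complex.ofReal_im]
      ring
    have hQ : ‖1 - ((l * R : ℝ) : ℂ) * u‖ ^ 2 =
        (1 - l) ^ 2 + 2 * l * (1 - l) * A + l ^ 2 * B ^ 2 := by
      rw [hBA, hA, norm_sq_re_im, hν2]
      simp only [Complex.sub_re, Complex.sub_im, Complex.one_re, Complex.one_im, Complex.mul_re,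
        Complex.mul_im, Complex.ofReal_re, Complex.ofReal_im]
      ring
    have hD : ‖w - (R : ℂ)‖ = B / ν := by
      have h1 : w - (R : ℂ) = w * (1 - (R : ℂ) * u) := by
        rw [hu]
        field_simp
      rw [h1, norm_mul, ← hB, eq_div_iff hν0.ne']
      linear_combination B * hνw
    have h1 := core_AB3 hR hR1 hl0 hl1 hv0 hv1 hν0 hν1 hAB hB0 hB1 hBA (by
      rw [← hQ, hu]
      positivity)
    rw [← hQ, Real.log_pow, Nat.cast_ofNat, hu] at h1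
    rw [hD, ← hu]
    rw [← hu] at h1
    have e1 : gV3 R l v * R * u.re = gV3 R l v * (1 - A) := by rw [← hAu]; ring
    rw [e1]
    linarith

end Pool.Agent.Lib.MP_af3a4a_an.P1.H74
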