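import Pool.Agent.Lib.MP_af3a4a_an.P1.H74.C0b

set_option autoImplicit false

/-!
# The certificate at `y = 0` for `40 ≤ N` and `R ≤ 1/2` (council 2, helper74)

`c0_box`: for `N₀ ≤ N ≤ N₁`, `R ≤ R₁`, `Re m ≤ M` from three rational side conditions.
-/

namespace Pool.Agent.Lib.MP_af3a4a_an.P1.H74.C0

open Finset MeasureTheory ComplexConjugate
open Pool.Agent.Lib.MP_af3a4a_an.SV (uu av EE)
open Pool.Agent.Lib.MP_af3a4a_an.P1.H80

theorem kap_upper3 {a : ℝ} (a0 : 0 ≤ a) (a1 : a < 1) : kap a ≤ (a + a / (1 - a)) / 2 := by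
  unfold kap
  have h1 : Real.log (1 + a) ≤ a := by
    have := Real.log_le_sub_one_of_pos (show 0 < 1 + a by linarith)
    linarith
  have h2 : -(a / (1 - a)) ≤ Real.log (1 - a) := by
    have h3 := Real.one_sub_inv_le_log_of_pos (show 0 < 1 - a by linarith)
    have h4 := one_sub_inv (show 0 < 1 - a by linarith)
    linarith
  linarith

/-- a convex quartic -/
theorem quartic_le {α β a s R R1 : ℝ} (hα : 0 ≤ α) (hβ : 0 ≤ β) (hs : 0 ≤ s) (h0 : 0 ≤ R)
    (h1 : R ≤ R1) (h : α * R1 ^ 2 + β * R1 ^ 4 ≤ s + a * R1) :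
    α * R ^ 2 + β * R ^ 4 ≤ s + a * R := by
  rcases (h0.trans h1).eq_or_lt with hz | hpos
  · have : R = 0 := by linarith
    rw [this]
    simpa using hs
  · have e : R1 * (s + a * R - (α * R ^ 2 + β * R ^ 4)) = (R1 - R) * s +
        R * (s + a * R1 - (α * R1 ^ 2 + β * R1 ^ 4)) +
        R * (R1 - R) * R1 * (α + β * (R ^ 2 + R1 * R + R1 ^ 2)) := by ring
    have h2 : 0 ≤ R1 * (s + a * R - (α * R ^ 2 + β * R ^ 4)) := by
      rw [e]
      have t1 := mul_nonneg (sub_nonneg.2 h1) hs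
      have t2 := mul_nonneg h0 (sub_nonneg.2 h)
      have t3 : 0 ≤ R * (R1 - R) * R1 * (α + β * (R ^ 2 + R1 * R + R1 ^ 2)) :=
        mul_nonneg (mul_nonneg (mul_nonneg h0 (sub_nonneg.2 h1)) hpos.le) (by positivity)
      linarith
    have := nonneg_of_mul_nonneg_right h2 hpos
    linarith

theorem certAt_real3 {a l R R1 lr : ℝ} (a0 : 0 ≤ a) (a1 : a ≤ 29 / 100) (hR : 0 < R)
    (hRu : R ≤ R1) (hR1 : R1 ≤ 1 / 2) (hl : 0 ≤ l)
    (hA : (1 / 2 + (1 + a) ^ 2 * R1 ^ 2 / 2) * (1 + a) ^ 2 * R1 ^ 2 ≤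
      a ^ 2 / (2 * (1 + a)) + a * R1 + l)
    (hlr : Real.log R1 ≤ lr) (hk : (a + a / (1 - a)) / 2 + a ≤ 2 * R1)
    (hB : 1 + lr + (R1 - a) - a * R1 - a ^ 2 / 2 ≤ l) : CertAt a l 1 ((R : ℝ) : ℂ) := by
  have hR1p : 0 < R1 := hR.trans_le hRu
  have hka := kap_upper3 a0 (by linarith)
  have hk0 := le_kap a0 (by linarith)
  have hw := ww_lower a0 (by linarith)
  have hlog1 : Real.log (1 - a ^ 2) ≤ -a ^ 2 := by
    have := Real.log_le_sub_one_of_pos (show 0 < 1 - a ^ 2 by nlinarith)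
    linarith
  have hA' : (1 / 2 + (1 + a) ^ 2 * R ^ 2 / 2) * (1 + a) ^ 2 * R ^ 2 ≤
      a ^ 2 / (2 * (1 + a)) + a * R + l := by
    have h := quartic_le (α := (1 + a) ^ 2 / 2) (β := (1 + a) ^ 4 / 2) (a := a)
      (s := a ^ 2 / (2 * (1 + a)) + l) (R := R) (R1 := R1) (by positivity) (by positivity)
      (by positivity) hR.le hRu (by linarith)
    linarith
  refine ⟨a0, by linarith, Or.inr ⟨by exact_mod_cast hR.ne', 1 / 2 + (1 + a) ^ 2 * R ^ 2 / 2, ?_⟩⟩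
  have e1 : (conj (1 : ℂ) * (R : ℂ)).re = R := by simp
  have e2 : (conj (1 : ℂ) * (R : ℂ)).im = 0 := by simp
  rw [e1, e2]
  have hAA : 0 ≤ ww a + a * R - (1 / 2 + (1 + a) ^ 2 * R ^ 2 / 2) * (1 + a) ^ 2 * R ^ 2 + l := by
    linarith
  refine ⟨a0, by linarith, ?_, ?_, hAA, ?_, ?_⟩
  · have := min_le_right (1 / 4 : ℝ) ((1 + a) ^ 2 * (R ^ 2 + 0 ^ 2))
    have h2 : (1 + a) ^ 2 * (R ^ 2 + 0 ^ 2) = (1 + a) ^ 2 * R ^ 2 := by ring
    rw [h2] at this ⊢
    linarith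
  · rw [show ((0 : ℝ)) ^ 2 = 0 by norm_num, mul_zero]
    exact hl
  · rw [mul_zero, show ((0 : ℝ)) ^ 2 = 0 by norm_num, mul_zero, sub_zero]
    exact mul_nonneg (mul_nonneg (by norm_num) hAA) hl
  · have h1 : Real.sqrt ((R - kap a) ^ 2 + 0 ^ 2) ≤ (R1 - a) + (R1 - R) := by
      rw [show (R - kap a) ^ 2 + (0 : ℝ) ^ 2 = (R - kap a) ^ 2 by ring, Real.sqrt_sq_eq_abs]
      exact abs_le.2 ⟨by linarith, by linarith⟩
    have h2 : Real.log (R ^ 2 + 0 ^ 2) = 2 * Real.log R := by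
      rw [show R ^ 2 + (0 : ℝ) ^ 2 = R ^ 2 by ring, Real.log_pow]
      norm_num
    have h3 : Real.log R + (1 + a) * (R1 - R) ≤ Real.log R1 := by
      have h4 := Real.log_le_sub_one_of_pos (show 0 < R / R1 by positivity)
      rw [Real.log_div hR.ne' hR1p.ne'] at h4
      have h5 : R / R1 - 1 = -((R1 - R) / R1) := by
        field_simp
        ring
      have h6 : (1 + a) * (R1 - R) ≤ (R1 - R) / R1 := by
        rw [le_div_iff₀ hR1p]
        have h7 : (1 + a) * R1 ≤ 1 := by nlinarith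
        have h8 := mul_le_mul_of_nonneg_left h7 (sub_nonneg.2 hRu)
        linarith
      linarith
    rw [h2]
    have h9 : a * R - ((R1 - a) + (R1 - R)) - 2 * Real.log R / 2 ≤
        a * R - Real.sqrt ((R - kap a) ^ 2 + 0 ^ 2) - 2 * Real.log R / 2 :=
      sub_le_sub_right (sub_le_sub_left h1 _) _
    refine le_trans ?_ h9
    linarith

/-- concavity of the final inequality in `N` -/
theorem log_interp {N0 N1 n D b : ℝ} (h0 : 0 < N0) (h1 : N0 ≤ n) (h2 : n ≤ N1)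
    (f0 : D * N0 + b ≤ Real.log (N0 + 1)) (f1 : D * N1 + b ≤ Real.log (N1 + 1)) :
    D * n + b ≤ Real.log (n + 1) := by
  rcases (h1.trans h2).eq_or_lt with h | h
  · have : n = N0 := by linarith
    rw [this]
    exact f0
  · have m0 : N0 + 1 ∈ Set.Ioi (0 : ℝ) := Set.mem_Ioi.2 (by linarith)
    have m1 : N1 + 1 ∈ Set.Ioi (0 : ℝ) := Set.mem_Ioi.2 (by linarith)
    have c0 : 0 ≤ (N1 - n) / (N1 - N0) := div_nonneg (by linarith) (by linarith)
    have c1 : 0 ≤ (n - N0) / (N1 - N0) := div_nonneg (by linarith) (by linarith)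
    have c2 : (N1 - n) / (N1 - N0) + (n - N0) / (N1 - N0) = 1 := by
      rw [← add_div, div_eq_one_iff_eq (by linarith)]
      ring
    have hc := strictConcaveOn_log_Ioi.concaveOn.2 m0 m1 c0 c1 c2
    have hd : N1 - N0 ≠ 0 := by linarith
    have e : ((N1 - n) / (N1 - N0)) • (N0 + 1) + ((n - N0) / (N1 - N0)) • (N1 + 1) = n + 1 := by
      simp only [smul_eq_mul]
      field_simp
      ring
    rw [e] at hc
    simp only [smul_eq_mul] at hc
    have t0 := mul_le_mul_of_nonneg_left f0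
      (show 0 ≤ (N1 - n) / (N1 - N0) from div_nonneg (by linarith) (by linarith))
    have t1 := mul_le_mul_of_nonneg_left f1
      (show 0 ≤ (n - N0) / (N1 - N0) from div_nonneg (by linarith) (by linarith))
    have e2 : (N1 - n) / (N1 - N0) * (D * N0 + b) + (n - N0) / (N1 - N0) * (D * N1 + b) =
        D * n + b := by
      field_simp
      ring
    linarith

/-- **the certificate at `y = 0`** for a box -/
theorem c0_box {N : ℕ} {z w : Fin N → ℂ} {R : ℝ} {σ : Fin N → ℂ} (hC : Cfg2 N z w R σ)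
    {a l R1 lr N0 N1 L0 L1 M : ℝ} (a0 : 0 ≤ a) (a1 : a ≤ 29 / 100) (hN40 : 40 ≤ N0)
    (hN0 : N0 ≤ N) (hN1 : (N : ℝ) ≤ N1) (hRu : R ≤ R1) (hR1 : R1 ≤ 1 / 2) (hl : 0 ≤ l)
    (hA : (1 / 2 + (1 + a) ^ 2 * R1 ^ 2 / 2) * (1 + a) ^ 2 * R1 ^ 2 ≤
      a ^ 2 / (2 * (1 + a)) + a * R1 + l)
    (hlr : Real.log R1 ≤ lr) (hk : (a + a / (1 - a)) / 2 + a ≤ 2 * R1)
    (hB : 1 + lr + (R1 - a) - a * R1 - a ^ 2 / 2 ≤ l)
    (hM : a = 0 ∨ (av (uu w)).re ≤ M) (hL0 : L0 ≤ Real.log (N0 + 1))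
    (hL1 : L1 ≤ Real.log (N1 + 1))
    (f0 : N0 * (a ^ 2 / (2 * (1 - a ^ 2)) + l) + a * (N0 + 1) * M + 1 - a ≤ L0)
    (f1 : N1 * (a ^ 2 / (2 * (1 - a ^ 2)) + l) + a * (N1 + 1) * M + 1 - a ≤ L1) : False := by
  have hN := hC.hN
  have hN3 : (3 : ℝ) ≤ N := by exact_mod_cast hN
  have hNp : (0 : ℝ) < N := by linarith
  have hR := hC.hR
  have hcert := certAt_real3 a0 a1 hR hRu hR1 hl hA hlr hk hB
  have h1 : fI w ((0 : ℝ) : ℂ) = 1 := by
    unfold fI
    simp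
  have ha : a * ((N + 1) / N) ≤ 3 / 10 := by
    have h2 : ((N : ℝ) + 1) / N ≤ 41 / 40 := by
      rw [div_le_iff₀ (by linarith)]
      linarith
    calc a * (((N : ℝ) + 1) / N) ≤ 29 / 100 * (41 / 40) :=
          mul_le_mul a1 h2 (by positivity) (by norm_num)
      _ ≤ 3 / 10 := by norm_num
  have h := hC.cert (e := 1) (y := 0) (a := a) (l := l) (by simp) (by simpa using hcert) ha le_rfl
    hR.le (by rw [sub_zero]; nlinarith) (by linarith) (by nlinarith) (by rw [h1]; exact one_ne_zero)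
  rw [h1, norm_one, mul_one] at h
  have e1 : (conj (1 : ℂ) * conj (av (uu w))).re = (av (uu w)).re := by simp
  rw [e1] at h
  have hka := le_kap a0 (show a < 1 by linarith)
  simp only [Complex.one_re, mul_one, mul_zero, zero_sub, add_zero] at h
  have ha2 : a ^ 2 < 1 := by nlinarith
  have hlog : -(a ^ 2 / (1 - a ^ 2)) ≤ Real.log (1 - a ^ 2) := by
    have h2 := Real.one_sub_inv_le_log_of_pos (show 0 < 1 - a ^ 2 by linarith)
    have h3 := one_sub_inv (show 0 < 1 - a ^ 2 by linarith)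
    linarith
  have hD : a ^ 2 / (2 * (1 - a ^ 2)) = a ^ 2 / (1 - a ^ 2) / 2 := by
    rw [div_div, mul_comm (1 - a ^ 2) 2]
  have hmm : a * (((N : ℝ) + 1) * (av (uu w)).re) ≤ a * (((N : ℝ) + 1) * M) := by
    rcases hM with h0 | hM
    · rw [h0, zero_mul, zero_mul]
    · exact mul_le_mul_of_nonneg_left (mul_le_mul_of_nonneg_left hM (by linarith)) a0
  have hi := log_interp (N0 := N0) (N1 := N1) (n := N)
    (D := a ^ 2 / (2 * (1 - a ^ 2)) + l + a * M) (b := a * M + 1 - a) (by linarith) hN0 hN1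
    (by linarith) (by linarith)
  have h4 : (N : ℝ) * (-(a ^ 2 / (1 - a ^ 2)) / 2 - l) ≤
      N * (Real.log (1 - a ^ 2) / 2 - l) :=
    mul_le_mul_of_nonneg_left (by linarith) hNp.le
  rw [hD] at hi
  linarith

end Pool.Agent.Lib.MP_af3a4a_an.P1.H74.C0
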