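import Pool.Agent.Lib.MP_af3a4a_an.P1.H74.C0c

set_option autoImplicit false

/-!
# Staircases for the certificate at `y = 0` (council 2, helper74)

`c0_60_k` (`60 ≤ N ≤ 80`), `c0_80_k` (`80 ≤ N ≤ 100`), `c0_100_k` (`100 ≤ N ≤ 125`), `c0_125_k`
(`125 ≤ N ≤ 150`), `c0_150_k` (`150 ≤ N ≤ 200`), `c0_200_k` (`200 ≤ N ≤ 250`): `R ≤ R_k`, `Re m ≤ k/8 R_k` is impossible.
-/

namespace Pool.Agent.Lib.MP_af3a4a_an.P1.H74.C0

open Finset MeasureTheory ComplexConjugate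
open Pool.Agent.Lib.MP_af3a4a_an.SV (uu av EE)
open Pool.Agent.Lib.MP_af3a4a_an.P1.H80

theorem frac_le_log {x : ℝ} (p q : ℕ) (hx : 0 < x) (hp : p ≠ 0) (hq : 0 < q)
    (h : (27182818286 / 10000000000 : ℝ) ^ p ≤ x ^ q) : (p : ℝ) / q ≤ Real.log x := by
  have h1 := exp_pow_lt p hp
  have h2 : Real.log (Real.exp p) ≤ Real.log (x ^ q) :=
    Real.log_le_log (Real.exp_pos _) (h1.le.trans h)
  rw [Real.log_exp, Real.log_pow] at h2
  rw [div_le_iff₀ (by exact_mod_cast hq)]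
  linarith

theorem log_le_frac {x : ℝ} (p q : ℕ) (hx : 0 < x) (hp : p ≠ 0) (hq : 0 < q)
    (h : (27182818286 / 10000000000 : ℝ) ^ p ≤ (1 / x) ^ q) : Real.log x ≤ -((p : ℝ) / q) := by
  have h1 := frac_le_log p q (x := 1 / x) (by positivity) hp hq h
  rw [one_div, Real.log_inv] at h1
  linarith

theorem lg_60 : (226 / 55 : ℝ) ≤ Real.log (60 + 1) := by
  have h := frac_le_log (x := (60 : ℝ) + 1) 226 55 (by norm_num) (by norm_num) (by norm_num) (by norm_num)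
  norm_num at h ⊢
  exact h

theorem lg_80 : (145 / 33 : ℝ) ≤ Real.log (80 + 1) := by
  have h := frac_le_log (x := (80 : ℝ) + 1) 145 33 (by norm_num) (by norm_num) (by norm_num) (by norm_num)
  norm_num at h ⊢
  exact h

/-- `R ≤ 37 / 100`, `Re m ≤ 0/8 * 37 / 100` -/
theorem c0_60_0 {N : ℕ} {z w : Fin N → ℂ} {R : ℝ} {σ : Fin N → ℂ} (hC : Cfg2 N z w R σ)
    (h0 : 60 ≤ N) (h1 : N ≤ 80) (hR : R ≤ 37 / 100) (hm : (av (uu w)).re ≤ 0) : False := by
  have hN0 : (60 : ℝ) ≤ N := by exact_mod_cast h0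
  have hN1 : (N : ℝ) ≤ 80 := by exact_mod_cast h1
  have hl := log_le_frac (x := (37 / 100 : ℝ)) 59 60 (by norm_num) (by norm_num) (by norm_num)
    (by norm_num)
  exact c0_box hC (a := 27 / 100) (l := 31 / 5000) (R1 := 37 / 100) (lr := -(59 / 60)) (N0 := 60) (N1 := 80)
    (L0 := 226 / 55) (L1 := 145 / 33) (M := 0) (by norm_num) (by norm_num) (by norm_num) hN0 hN1
    hR (by norm_num) (by norm_num) (by norm_num) (by norm_num at hl ⊢; exact hl) (by norm_num)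
    (by norm_num) (Or.inr hm) lg_60 lg_80 (by norm_num) (by norm_num)

/-- `R ≤ 349 / 1000`, `Re m ≤ 1/8 * 349 / 1000` -/
theorem c0_60_1 {N : ℕ} {z w : Fin N → ℂ} {R : ℝ} {σ : Fin N → ℂ} (hC : Cfg2 N z w R σ)
    (h0 : 60 ≤ N) (h1 : N ≤ 80) (hR : R ≤ 349 / 1000) (hm : (av (uu w)).re ≤ 349 / 8000) : False := by
  have hN0 : (60 : ℝ) ≤ N := by exact_mod_cast h0
  have hN1 : (N : ℝ) ≤ 80 := by exact_mod_cast h1
  have hl := log_le_frac (x := (349 / 1000 : ℝ)) 20 19 (by norm_num) (by norm_num) (by norm_num)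
    (by norm_num)
  exact c0_box hC (a := 6 / 25) (l := 21 / 5000) (R1 := 349 / 1000) (lr := -(20 / 19)) (N0 := 60) (N1 := 80)
    (L0 := 226 / 55) (L1 := 145 / 33) (M := 349 / 8000) (by norm_num) (by norm_num) (by norm_num) hN0 hN1
    hR (by norm_num) (by norm_num) (by norm_num) (by norm_num at hl ⊢; exact hl) (by norm_num)
    (by norm_num) (Or.inr hm) lg_60 lg_80 (by norm_num) (by norm_num)

/-- `R ≤ 329 / 1000`, `Re m ≤ 2/8 * 329 / 1000` -/
theorem c0_60_2 {N : ℕ} {z w : Fin N → ℂ} {R : ℝ} {σ : Fin N → ℂ} (hC : Cfg2 N z w R σ)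
    (h0 : 60 ≤ N) (h1 : N ≤ 80) (hR : R ≤ 329 / 1000) (hm : (av (uu w)).re ≤ 329 / 4000) : False := by
  have hN0 : (60 : ℝ) ≤ N := by exact_mod_cast h0
  have hN1 : (N : ℝ) ≤ 80 := by exact_mod_cast h1
  have hl := log_le_frac (x := (329 / 1000 : ℝ)) 10 9 (by norm_num) (by norm_num) (by norm_num)
    (by norm_num)
  exact c0_box hC (a := 11 / 50) (l := 7 / 5000) (R1 := 329 / 1000) (lr := -(10 / 9)) (N0 := 60) (N1 := 80)
    (L0 := 226 / 55) (L1 := 145 / 33) (M := 329 / 4000) (by norm_num) (by norm_num) (by norm_num) hN0 hN1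
    hR (by norm_num) (by norm_num) (by norm_num) (by norm_num at hl ⊢; exact hl) (by norm_num)
    (by norm_num) (Or.inr hm) lg_60 lg_80 (by norm_num) (by norm_num)

/-- `R ≤ 31 / 100`, `Re m ≤ 3/8 * 31 / 100` -/
theorem c0_60_3 {N : ℕ} {z w : Fin N → ℂ} {R : ℝ} {σ : Fin N → ℂ} (hC : Cfg2 N z w R σ)
    (h0 : 60 ≤ N) (h1 : N ≤ 80) (hR : R ≤ 31 / 100) (hm : (av (uu w)).re ≤ 93 / 800) : False := by
  have hN0 : (60 : ℝ) ≤ N := by exact_mod_cast h0
  have hN1 : (N : ℝ) ≤ 80 := by exact_mod_cast h1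
  have hl := log_le_frac (x := (31 / 100 : ℝ)) 48 41 (by norm_num) (by norm_num) (by norm_num)
    (by norm_num)
  exact c0_box hC (a := 37 / 200) (l := 3 / 625) (R1 := 31 / 100) (lr := -(48 / 41)) (N0 := 60) (N1 := 80)
    (L0 := 226 / 55) (L1 := 145 / 33) (M := 93 / 800) (by norm_num) (by norm_num) (by norm_num) hN0 hN1
    hR (by norm_num) (by norm_num) (by norm_num) (by norm_num at hl ⊢; exact hl) (by norm_num)
    (by norm_num) (Or.inr hm) lg_60 lg_80 (by norm_num) (by norm_num)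

/-- `R ≤ 59 / 200`, `Re m ≤ 4/8 * 59 / 200` -/
theorem c0_60_4 {N : ℕ} {z w : Fin N → ℂ} {R : ℝ} {σ : Fin N → ℂ} (hC : Cfg2 N z w R σ)
    (h0 : 60 ≤ N) (h1 : N ≤ 80) (hR : R ≤ 59 / 200) (hm : (av (uu w)).re ≤ 59 / 400) : False := by
  have hN0 : (60 : ℝ) ≤ N := by exact_mod_cast h0
  have hN1 : (N : ℝ) ≤ 80 := by exact_mod_cast h1
  have hl := log_le_frac (x := (59 / 200 : ℝ)) 72 59 (by norm_num) (by norm_num) (by norm_num)
    (by norm_num)
  exact c0_box hC (a := 29 / 200) (l := 29 / 2500) (R1 := 59 / 200) (lr := -(72 / 59)) (N0 := 60) (N1 := 80)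
    (L0 := 226 / 55) (L1 := 145 / 33) (M := 59 / 400) (by norm_num) (by norm_num) (by norm_num) hN0 hN1
    hR (by norm_num) (by norm_num) (by norm_num) (by norm_num at hl ⊢; exact hl) (by norm_num)
    (by norm_num) (Or.inr hm) lg_60 lg_80 (by norm_num) (by norm_num)

/-- `R ≤ 71 / 250`, `Re m ≤ 5/8 * 71 / 250` -/
theorem c0_60_5 {N : ℕ} {z w : Fin N → ℂ} {R : ℝ} {σ : Fin N → ℂ} (hC : Cfg2 N z w R σ)
    (h0 : 60 ≤ N) (h1 : N ≤ 80) (hR : R ≤ 71 / 250) (hm : (av (uu w)).re ≤ 71 / 400) : False := by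
  have hN0 : (60 : ℝ) ≤ N := by exact_mod_cast h0
  have hN1 : (N : ℝ) ≤ 80 := by exact_mod_cast h1
  have hl := log_le_frac (x := (71 / 250 : ℝ)) 73 58 (by norm_num) (by norm_num) (by norm_num)
    (by norm_num)
  exact c0_box hC (a := 2 / 25) (l := 129 / 5000) (R1 := 71 / 250) (lr := -(73 / 58)) (N0 := 60) (N1 := 80)
    (L0 := 226 / 55) (L1 := 145 / 33) (M := 71 / 400) (by norm_num) (by norm_num) (by norm_num) hN0 hN1
    hR (by norm_num) (by norm_num) (by norm_num) (by norm_num at hl ⊢; exact hl) (by norm_num)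
    (by norm_num) (Or.inr hm) lg_60 lg_80 (by norm_num) (by norm_num)

/-- `R ≤ 7 / 25` -/
theorem c0_60_6 {N : ℕ} {z w : Fin N → ℂ} {R : ℝ} {σ : Fin N → ℂ} (hC : Cfg2 N z w R σ)
    (h0 : 60 ≤ N) (h1 : N ≤ 80) (hR : R ≤ 7 / 25) : False := by
  have hN0 : (60 : ℝ) ≤ N := by exact_mod_cast h0
  have hN1 : (N : ℝ) ≤ 80 := by exact_mod_cast h1
  have hl := log_le_frac (x := (7 / 25 : ℝ)) 14 11 (by norm_num) (by norm_num) (by norm_num)
    (by norm_num)
  exact c0_box hC (a := 0) (l := 53 / 1250) (R1 := 7 / 25) (lr := -(14 / 11)) (N0 := 60) (N1 := 80)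
    (L0 := 226 / 55) (L1 := 145 / 33) (M := 21 / 100) (by norm_num) (by norm_num) (by norm_num) hN0 hN1
    hR (by norm_num) (by norm_num) (by norm_num) (by norm_num at hl ⊢; exact hl) (by norm_num)
    (by norm_num) (Or.inl rfl) lg_60 lg_80 (by norm_num) (by norm_num)

theorem lg_100 : (203 / 44 : ℝ) ≤ Real.log (100 + 1) := by
  have h := frac_le_log (x := (100 : ℝ) + 1) 203 44 (by norm_num) (by norm_num) (by norm_num) (by norm_num)
  norm_num at h ⊢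
  exact h

/-- `R ≤ 179 / 500`, `Re m ≤ 0/8 * 179 / 500` -/
theorem c0_80_0 {N : ℕ} {z w : Fin N → ℂ} {R : ℝ} {σ : Fin N → ℂ} (hC : Cfg2 N z w R σ)
    (h0 : 80 ≤ N) (h1 : N ≤ 100) (hR : R ≤ 179 / 500) (hm : (av (uu w)).re ≤ 0) : False := by
  have hN0 : (80 : ℝ) ≤ N := by exact_mod_cast h0
  have hN1 : (N : ℝ) ≤ 100 := by exact_mod_cast h1
  have hl := log_le_frac (x := (179 / 500 : ℝ)) 38 37 (by norm_num) (by norm_num) (by norm_num)
    (by norm_num)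
  exact c0_box hC (a := 53 / 200) (l := 1 / 1000) (R1 := 179 / 500) (lr := -(38 / 37)) (N0 := 80) (N1 := 100)
    (L0 := 145 / 33) (L1 := 203 / 44) (M := 0) (by norm_num) (by norm_num) (by norm_num) hN0 hN1
    hR (by norm_num) (by norm_num) (by norm_num) (by norm_num at hl ⊢; exact hl) (by norm_num)
    (by norm_num) (Or.inr hm) lg_80 lg_100 (by norm_num) (by norm_num)

/-- `R ≤ 167 / 500`, `Re m ≤ 1/8 * 167 / 500` -/
theorem c0_80_1 {N : ℕ} {z w : Fin N → ℂ} {R : ℝ} {σ : Fin N → ℂ} (hC : Cfg2 N z w R σ)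
    (h0 : 80 ≤ N) (h1 : N ≤ 100) (hR : R ≤ 167 / 500) (hm : (av (uu w)).re ≤ 167 / 4000) : False := by
  have hN0 : (80 : ℝ) ≤ N := by exact_mod_cast h0
  have hN1 : (N : ℝ) ≤ 100 := by exact_mod_cast h1
  have hl := log_le_frac (x := (167 / 500 : ℝ)) 57 52 (by norm_num) (by norm_num) (by norm_num)
    (by norm_num)
  exact c0_box hC (a := 23 / 100) (l := 1 / 2500) (R1 := 167 / 500) (lr := -(57 / 52)) (N0 := 80) (N1 := 100)
    (L0 := 145 / 33) (L1 := 203 / 44) (M := 167 / 4000) (by norm_num) (by norm_num) (by norm_num) hN0 hN1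
    hR (by norm_num) (by norm_num) (by norm_num) (by norm_num at hl ⊢; exact hl) (by norm_num)
    (by norm_num) (Or.inr hm) lg_80 lg_100 (by norm_num) (by norm_num)

/-- `R ≤ 313 / 1000`, `Re m ≤ 2/8 * 313 / 1000` -/
theorem c0_80_2 {N : ℕ} {z w : Fin N → ℂ} {R : ℝ} {σ : Fin N → ℂ} (hC : Cfg2 N z w R σ)
    (h0 : 80 ≤ N) (h1 : N ≤ 100) (hR : R ≤ 313 / 1000) (hm : (av (uu w)).re ≤ 313 / 4000) : False := by
  have hN0 : (80 : ℝ) ≤ N := by exact_mod_cast h0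
  have hN1 : (N : ℝ) ≤ 100 := by exact_mod_cast h1
  have hl := log_le_frac (x := (313 / 1000 : ℝ)) 36 31 (by norm_num) (by norm_num) (by norm_num)
    (by norm_num)
  exact c0_box hC (a := 39 / 200) (l := 7 / 2500) (R1 := 313 / 1000) (lr := -(36 / 31)) (N0 := 80) (N1 := 100)
    (L0 := 145 / 33) (L1 := 203 / 44) (M := 313 / 4000) (by norm_num) (by norm_num) (by norm_num) hN0 hN1
    hR (by norm_num) (by norm_num) (by norm_num) (by norm_num at hl ⊢; exact hl) (by norm_num)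
    (by norm_num) (Or.inr hm) lg_80 lg_100 (by norm_num) (by norm_num)

/-- `R ≤ 147 / 500`, `Re m ≤ 3/8 * 147 / 500` -/
theorem c0_80_3 {N : ℕ} {z w : Fin N → ℂ} {R : ℝ} {σ : Fin N → ℂ} (hC : Cfg2 N z w R σ)
    (h0 : 80 ≤ N) (h1 : N ≤ 100) (hR : R ≤ 147 / 500) (hm : (av (uu w)).re ≤ 441 / 4000) : False := by
  have hN0 : (80 : ℝ) ≤ N := by exact_mod_cast h0
  have hN1 : (N : ℝ) ≤ 100 := by exact_mod_cast h1
  have hl := log_le_frac (x := (147 / 500 : ℝ)) 71 58 (by norm_num) (by norm_num) (by norm_num)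
    (by norm_num)
  exact c0_box hC (a := 9 / 50) (l := 1 / 1250) (R1 := 147 / 500) (lr := -(71 / 58)) (N0 := 80) (N1 := 100)
    (L0 := 145 / 33) (L1 := 203 / 44) (M := 441 / 4000) (by norm_num) (by norm_num) (by norm_num) hN0 hN1
    hR (by norm_num) (by norm_num) (by norm_num) (by norm_num at hl ⊢; exact hl) (by norm_num)
    (by norm_num) (Or.inr hm) lg_80 lg_100 (by norm_num) (by norm_num)

/-- `R ≤ 139 / 500`, `Re m ≤ 4/8 * 139 / 500` -/
theorem c0_80_4 {N : ℕ} {z w : Fin N → ℂ} {R : ℝ} {σ : Fin N → ℂ} (hC : Cfg2 N z w R σ)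
    (h0 : 80 ≤ N) (h1 : N ≤ 100) (hR : R ≤ 139 / 500) (hm : (av (uu w)).re ≤ 139 / 1000) : False := by
  have hN0 : (80 : ℝ) ≤ N := by exact_mod_cast h0
  have hN1 : (N : ℝ) ≤ 100 := by exact_mod_cast h1
  have hl := log_le_frac (x := (139 / 500 : ℝ)) 32 25 (by norm_num) (by norm_num) (by norm_num)
    (by norm_num)
  exact c0_box hC (a := 33 / 200) (l := 1 / 2500) (R1 := 139 / 500) (lr := -(32 / 25)) (N0 := 80) (N1 := 100)
    (L0 := 145 / 33) (L1 := 203 / 44) (M := 139 / 1000) (by norm_num) (by norm_num) (by norm_num) hN0 hN1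
    hR (by norm_num) (by norm_num) (by norm_num) (by norm_num at hl ⊢; exact hl) (by norm_num)
    (by norm_num) (Or.inr hm) lg_80 lg_100 (by norm_num) (by norm_num)

/-- `R ≤ 53 / 200`, `Re m ≤ 5/8 * 53 / 200` -/
theorem c0_80_5 {N : ℕ} {z w : Fin N → ℂ} {R : ℝ} {σ : Fin N → ℂ} (hC : Cfg2 N z w R σ)
    (h0 : 80 ≤ N) (h1 : N ≤ 100) (hR : R ≤ 53 / 200) (hm : (av (uu w)).re ≤ 53 / 320) : False := by
  have hN0 : (80 : ℝ) ≤ N := by exact_mod_cast h0
  have hN1 : (N : ℝ) ≤ 100 := by exact_mod_cast h1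
  have hl := log_le_frac (x := (53 / 200 : ℝ)) 77 58 (by norm_num) (by norm_num) (by norm_num)
    (by norm_num)
  exact c0_box hC (a := 21 / 200) (l := 69 / 5000) (R1 := 53 / 200) (lr := -(77 / 58)) (N0 := 80) (N1 := 100)
    (L0 := 145 / 33) (L1 := 203 / 44) (M := 53 / 320) (by norm_num) (by norm_num) (by norm_num) hN0 hN1
    hR (by norm_num) (by norm_num) (by norm_num) (by norm_num at hl ⊢; exact hl) (by norm_num)
    (by norm_num) (Or.inr hm) lg_80 lg_100 (by norm_num) (by norm_num)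

/-- `R ≤ 259 / 1000` -/
theorem c0_80_6 {N : ℕ} {z w : Fin N → ℂ} {R : ℝ} {σ : Fin N → ℂ} (hC : Cfg2 N z w R σ)
    (h0 : 80 ≤ N) (h1 : N ≤ 100) (hR : R ≤ 259 / 1000) : False := by
  have hN0 : (80 : ℝ) ≤ N := by exact_mod_cast h0
  have hN1 : (N : ℝ) ≤ 100 := by exact_mod_cast h1
  have hl := log_le_frac (x := (259 / 1000 : ℝ)) 77 57 (by norm_num) (by norm_num) (by norm_num)
    (by norm_num)
  exact c0_box hC (a := 0) (l := 179 / 5000) (R1 := 259 / 1000) (lr := -(77 / 57)) (N0 := 80) (N1 := 100)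
    (L0 := 145 / 33) (L1 := 203 / 44) (M := 777 / 4000) (by norm_num) (by norm_num) (by norm_num) hN0 hN1
    hR (by norm_num) (by norm_num) (by norm_num) (by norm_num at hl ⊢; exact hl) (by norm_num)
    (by norm_num) (Or.inl rfl) lg_80 lg_100 (by norm_num) (by norm_num)

theorem lg_125 : (29 / 6 : ℝ) ≤ Real.log (125 + 1) := by
  have h := frac_le_log (x := (125 : ℝ) + 1) 29 6 (by norm_num) (by norm_num) (by norm_num) (by norm_num)
  norm_num at h ⊢
  exact h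

/-- `R ≤ 43 / 125`, `Re m ≤ 0/8 * 43 / 125` -/
theorem c0_100_0 {N : ℕ} {z w : Fin N → ℂ} {R : ℝ} {σ : Fin N → ℂ} (hC : Cfg2 N z w R σ)
    (h0 : 100 ≤ N) (h1 : N ≤ 125) (hR : R ≤ 43 / 125) (hm : (av (uu w)).re ≤ 0) : False := by
  have hN0 : (100 : ℝ) ≤ N := by exact_mod_cast h0
  have hN1 : (N : ℝ) ≤ 125 := by exact_mod_cast h1
  have hl := log_le_frac (x := (43 / 125 : ℝ)) 16 15 (by norm_num) (by norm_num) (by norm_num)
    (by norm_num)
  exact c0_box hC (a := 49 / 200) (l := 1 / 5000) (R1 := 43 / 125) (lr := -(16 / 15)) (N0 := 100) (N1 := 125)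
    (L0 := 203 / 44) (L1 := 29 / 6) (M := 0) (by norm_num) (by norm_num) (by norm_num) hN0 hN1
    hR (by norm_num) (by norm_num) (by norm_num) (by norm_num at hl ⊢; exact hl) (by norm_num)
    (by norm_num) (Or.inr hm) lg_100 lg_125 (by norm_num) (by norm_num)

/-- `R ≤ 8 / 25`, `Re m ≤ 1/8 * 8 / 25` -/
theorem c0_100_1 {N : ℕ} {z w : Fin N → ℂ} {R : ℝ} {σ : Fin N → ℂ} (hC : Cfg2 N z w R σ)
    (h0 : 100 ≤ N) (h1 : N ≤ 125) (hR : R ≤ 8 / 25) (hm : (av (uu w)).re ≤ 1 / 25) : False := by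
  have hN0 : (100 : ℝ) ≤ N := by exact_mod_cast h0
  have hN1 : (N : ℝ) ≤ 125 := by exact_mod_cast h1
  have hl := log_le_frac (x := (8 / 25 : ℝ)) 41 36 (by norm_num) (by norm_num) (by norm_num)
    (by norm_num)
  exact c0_box hC (a := 21 / 100) (l := 1 / 1250) (R1 := 8 / 25) (lr := -(41 / 36)) (N0 := 100) (N1 := 125)
    (L0 := 203 / 44) (L1 := 29 / 6) (M := 1 / 25) (by norm_num) (by norm_num) (by norm_num) hN0 hN1
    hR (by norm_num) (by norm_num) (by norm_num) (by norm_num at hl ⊢; exact hl) (by norm_num)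
    (by norm_num) (Or.inr hm) lg_100 lg_125 (by norm_num) (by norm_num)

/-- `R ≤ 297 / 1000`, `Re m ≤ 2/8 * 297 / 1000` -/
theorem c0_100_2 {N : ℕ} {z w : Fin N → ℂ} {R : ℝ} {σ : Fin N → ℂ} (hC : Cfg2 N z w R σ)
    (h0 : 100 ≤ N) (h1 : N ≤ 125) (hR : R ≤ 297 / 1000) (hm : (av (uu w)).re ≤ 297 / 4000) : False := by
  have hN0 : (100 : ℝ) ≤ N := by exact_mod_cast h0
  have hN1 : (N : ℝ) ≤ 125 := by exact_mod_cast h1
  have hl := log_le_frac (x := (297 / 1000 : ℝ)) 57 47 (by norm_num) (by norm_num) (by norm_num)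
    (by norm_num)
  exact c0_box hC (a := 37 / 200) (l := 1 / 2500) (R1 := 297 / 1000) (lr := -(57 / 47)) (N0 := 100) (N1 := 125)
    (L0 := 203 / 44) (L1 := 29 / 6) (M := 297 / 4000) (by norm_num) (by norm_num) (by norm_num) hN0 hN1
    hR (by norm_num) (by norm_num) (by norm_num) (by norm_num at hl ⊢; exact hl) (by norm_num)
    (by norm_num) (Or.inr hm) lg_100 lg_125 (by norm_num) (by norm_num)

/-- `R ≤ 139 / 500`, `Re m ≤ 3/8 * 139 / 500` -/
theorem c0_100_3 {N : ℕ} {z w : Fin N → ℂ} {R : ℝ} {σ : Fin N → ℂ} (hC : Cfg2 N z w R σ)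
    (h0 : 100 ≤ N) (h1 : N ≤ 125) (hR : R ≤ 139 / 500) (hm : (av (uu w)).re ≤ 417 / 4000) : False := by
  have hN0 : (100 : ℝ) ≤ N := by exact_mod_cast h0
  have hN1 : (N : ℝ) ≤ 125 := by exact_mod_cast h1
  have hl := log_le_frac (x := (139 / 500 : ℝ)) 32 25 (by norm_num) (by norm_num) (by norm_num)
    (by norm_num)
  exact c0_box hC (a := 33 / 200) (l := 1 / 2500) (R1 := 139 / 500) (lr := -(32 / 25)) (N0 := 100) (N1 := 125)
    (L0 := 203 / 44) (L1 := 29 / 6) (M := 417 / 4000) (by norm_num) (by norm_num) (by norm_num) hN0 hN1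
    hR (by norm_num) (by norm_num) (by norm_num) (by norm_num at hl ⊢; exact hl) (by norm_num)
    (by norm_num) (Or.inr hm) lg_100 lg_125 (by norm_num) (by norm_num)

/-- `R ≤ 261 / 1000`, `Re m ≤ 4/8 * 261 / 1000` -/
theorem c0_100_4 {N : ℕ} {z w : Fin N → ℂ} {R : ℝ} {σ : Fin N → ℂ} (hC : Cfg2 N z w R σ)
    (h0 : 100 ≤ N) (h1 : N ≤ 125) (hR : R ≤ 261 / 1000) (hm : (av (uu w)).re ≤ 261 / 2000) : False := by
  have hN0 : (100 : ℝ) ≤ N := by exact_mod_cast h0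
  have hN1 : (N : ℝ) ≤ 125 := by exact_mod_cast h1
  have hl := log_le_frac (x := (261 / 1000 : ℝ)) 47 35 (by norm_num) (by norm_num) (by norm_num)
    (by norm_num)
  exact c0_box hC (a := 3 / 20) (l := 1 / 5000) (R1 := 261 / 1000) (lr := -(47 / 35)) (N0 := 100) (N1 := 125)
    (L0 := 203 / 44) (L1 := 29 / 6) (M := 261 / 2000) (by norm_num) (by norm_num) (by norm_num) hN0 hN1
    hR (by norm_num) (by norm_num) (by norm_num) (by norm_num at hl ⊢; exact hl) (by norm_num)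
    (by norm_num) (Or.inr hm) lg_100 lg_125 (by norm_num) (by norm_num)

/-- `R ≤ 31 / 125`, `Re m ≤ 5/8 * 31 / 125` -/
theorem c0_100_5 {N : ℕ} {z w : Fin N → ℂ} {R : ℝ} {σ : Fin N → ℂ} (hC : Cfg2 N z w R σ)
    (h0 : 100 ≤ N) (h1 : N ≤ 125) (hR : R ≤ 31 / 125) (hm : (av (uu w)).re ≤ 31 / 200) : False := by
  have hN0 : (100 : ℝ) ≤ N := by exact_mod_cast h0
  have hN1 : (N : ℝ) ≤ 125 := by exact_mod_cast h1
  have hl := log_le_frac (x := (31 / 125 : ℝ)) 46 33 (by norm_num) (by norm_num) (by norm_num)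
    (by norm_num)
  exact c0_box hC (a := 3 / 25) (l := 27 / 5000) (R1 := 31 / 125) (lr := -(46 / 33)) (N0 := 100) (N1 := 125)
    (L0 := 203 / 44) (L1 := 29 / 6) (M := 31 / 200) (by norm_num) (by norm_num) (by norm_num) hN0 hN1
    hR (by norm_num) (by norm_num) (by norm_num) (by norm_num at hl ⊢; exact hl) (by norm_num)
    (by norm_num) (Or.inr hm) lg_100 lg_125 (by norm_num) (by norm_num)

/-- `R ≤ 6 / 25`, `Re m ≤ 6/8 * 6 / 25` -/
theorem c0_100_6 {N : ℕ} {z w : Fin N → ℂ} {R : ℝ} {σ : Fin N → ℂ} (hC : Cfg2 N z w R σ)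
    (h0 : 100 ≤ N) (h1 : N ≤ 125) (hR : R ≤ 6 / 25) (hm : (av (uu w)).re ≤ 9 / 50) : False := by
  have hN0 : (100 : ℝ) ≤ N := by exact_mod_cast h0
  have hN1 : (N : ℝ) ≤ 125 := by exact_mod_cast h1
  have hl := log_le_frac (x := (6 / 25 : ℝ)) 77 54 (by norm_num) (by norm_num) (by norm_num)
    (by norm_num)
  exact c0_box hC (a := 1 / 40) (l := 129 / 5000) (R1 := 6 / 25) (lr := -(77 / 54)) (N0 := 100) (N1 := 125)
    (L0 := 203 / 44) (L1 := 29 / 6) (M := 9 / 50) (by norm_num) (by norm_num) (by norm_num) hN0 hN1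
    hR (by norm_num) (by norm_num) (by norm_num) (by norm_num at hl ⊢; exact hl) (by norm_num)
    (by norm_num) (Or.inr hm) lg_100 lg_125 (by norm_num) (by norm_num)

theorem lg_150 : (5 / 1 : ℝ) ≤ Real.log (150 + 1) := by
  have h := frac_le_log (x := (150 : ℝ) + 1) 5 1 (by norm_num) (by norm_num) (by norm_num) (by norm_num)
  norm_num at h ⊢
  exact h

/-- `R ≤ 333 / 1000`, `Re m ≤ 0/8 * 333 / 1000` -/
theorem c0_125_0 {N : ℕ} {z w : Fin N → ℂ} {R : ℝ} {σ : Fin N → ℂ} (hC : Cfg2 N z w R σ)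
    (h0 : 125 ≤ N) (h1 : N ≤ 150) (hR : R ≤ 333 / 1000) (hm : (av (uu w)).re ≤ 0) : False := by
  have hN0 : (125 : ℝ) ≤ N := by exact_mod_cast h0
  have hN1 : (N : ℝ) ≤ 150 := by exact_mod_cast h1
  have hl := log_le_frac (x := (333 / 1000 : ℝ)) 56 51 (by norm_num) (by norm_num) (by norm_num)
    (by norm_num)
  exact c0_box hC (a := 23 / 100) (l := 0) (R1 := 333 / 1000) (lr := -(56 / 51)) (N0 := 125) (N1 := 150)
    (L0 := 29 / 6) (L1 := 5 / 1) (M := 0) (by norm_num) (by norm_num) (by norm_num) hN0 hN1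
    hR (by norm_num) (by norm_num) (by norm_num) (by norm_num at hl ⊢; exact hl) (by norm_num)
    (by norm_num) (Or.inr hm) lg_125 lg_150 (by norm_num) (by norm_num)

/-- `R ≤ 307 / 1000`, `Re m ≤ 1/8 * 307 / 1000` -/
theorem c0_125_1 {N : ℕ} {z w : Fin N → ℂ} {R : ℝ} {σ : Fin N → ℂ} (hC : Cfg2 N z w R σ)
    (h0 : 125 ≤ N) (h1 : N ≤ 150) (hR : R ≤ 307 / 1000) (hm : (av (uu w)).re ≤ 307 / 8000) : False := by
  have hN0 : (125 : ℝ) ≤ N := by exact_mod_cast h0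
  have hN1 : (N : ℝ) ≤ 150 := by exact_mod_cast h1
  have hl := log_le_frac (x := (307 / 1000 : ℝ)) 59 50 (by norm_num) (by norm_num) (by norm_num)
    (by norm_num)
  exact c0_box hC (a := 39 / 200) (l := 3 / 5000) (R1 := 307 / 1000) (lr := -(59 / 50)) (N0 := 125) (N1 := 150)
    (L0 := 29 / 6) (L1 := 5 / 1) (M := 307 / 8000) (by norm_num) (by norm_num) (by norm_num) hN0 hN1
    hR (by norm_num) (by norm_num) (by norm_num) (by norm_num at hl ⊢; exact hl) (by norm_num)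
    (by norm_num) (Or.inr hm) lg_125 lg_150 (by norm_num) (by norm_num)

/-- `R ≤ 283 / 1000`, `Re m ≤ 2/8 * 283 / 1000` -/
theorem c0_125_2 {N : ℕ} {z w : Fin N → ℂ} {R : ℝ} {σ : Fin N → ℂ} (hC : Cfg2 N z w R σ)
    (h0 : 125 ≤ N) (h1 : N ≤ 150) (hR : R ≤ 283 / 1000) (hm : (av (uu w)).re ≤ 283 / 4000) : False := by
  have hN0 : (125 : ℝ) ≤ N := by exact_mod_cast h0
  have hN1 : (N : ℝ) ≤ 150 := by exact_mod_cast h1
  have hl := log_le_frac (x := (283 / 1000 : ℝ)) 53 42 (by norm_num) (by norm_num) (by norm_num)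
    (by norm_num)
  exact c0_box hC (a := 17 / 100) (l := 1 / 2500) (R1 := 283 / 1000) (lr := -(53 / 42)) (N0 := 125) (N1 := 150)
    (L0 := 29 / 6) (L1 := 5 / 1) (M := 283 / 4000) (by norm_num) (by norm_num) (by norm_num) hN0 hN1
    hR (by norm_num) (by norm_num) (by norm_num) (by norm_num at hl ⊢; exact hl) (by norm_num)
    (by norm_num) (Or.inr hm) lg_125 lg_150 (by norm_num) (by norm_num)

/-- `R ≤ 33 / 125`, `Re m ≤ 3/8 * 33 / 125` -/
theorem c0_125_3 {N : ℕ} {z w : Fin N → ℂ} {R : ℝ} {σ : Fin N → ℂ} (hC : Cfg2 N z w R σ)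
    (h0 : 125 ≤ N) (h1 : N ≤ 150) (hR : R ≤ 33 / 125) (hm : (av (uu w)).re ≤ 99 / 1000) : False := by
  have hN0 : (125 : ℝ) ≤ N := by exact_mod_cast h0
  have hN1 : (N : ℝ) ≤ 150 := by exact_mod_cast h1
  have hl := log_le_frac (x := (33 / 125 : ℝ)) 77 58 (by norm_num) (by norm_num) (by norm_num)
    (by norm_num)
  exact c0_box hC (a := 3 / 20) (l := 1 / 1000) (R1 := 33 / 125) (lr := -(77 / 58)) (N0 := 125) (N1 := 150)
    (L0 := 29 / 6) (L1 := 5 / 1) (M := 99 / 1000) (by norm_num) (by norm_num) (by norm_num) hN0 hN1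
    hR (by norm_num) (by norm_num) (by norm_num) (by norm_num at hl ⊢; exact hl) (by norm_num)
    (by norm_num) (Or.inr hm) lg_125 lg_150 (by norm_num) (by norm_num)

/-- `R ≤ 31 / 125`, `Re m ≤ 4/8 * 31 / 125` -/
theorem c0_125_4 {N : ℕ} {z w : Fin N → ℂ} {R : ℝ} {σ : Fin N → ℂ} (hC : Cfg2 N z w R σ)
    (h0 : 125 ≤ N) (h1 : N ≤ 150) (hR : R ≤ 31 / 125) (hm : (av (uu w)).re ≤ 31 / 250) : False := by
  have hN0 : (125 : ℝ) ≤ N := by exact_mod_cast h0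
  have hN1 : (N : ℝ) ≤ 150 := by exact_mod_cast h1
  have hl := log_le_frac (x := (31 / 125 : ℝ)) 46 33 (by norm_num) (by norm_num) (by norm_num)
    (by norm_num)
  exact c0_box hC (a := 7 / 50) (l := 0) (R1 := 31 / 125) (lr := -(46 / 33)) (N0 := 125) (N1 := 150)
    (L0 := 29 / 6) (L1 := 5 / 1) (M := 31 / 250) (by norm_num) (by norm_num) (by norm_num) hN0 hN1
    hR (by norm_num) (by norm_num) (by norm_num) (by norm_num at hl ⊢; exact hl) (by norm_num)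
    (by norm_num) (Or.inr hm) lg_125 lg_150 (by norm_num) (by norm_num)

/-- `R ≤ 117 / 500`, `Re m ≤ 5/8 * 117 / 500` -/
theorem c0_125_5 {N : ℕ} {z w : Fin N → ℂ} {R : ℝ} {σ : Fin N → ℂ} (hC : Cfg2 N z w R σ)
    (h0 : 125 ≤ N) (h1 : N ≤ 150) (hR : R ≤ 117 / 500) (hm : (av (uu w)).re ≤ 117 / 800) : False := by
  have hN0 : (125 : ℝ) ≤ N := by exact_mod_cast h0
  have hN1 : (N : ℝ) ≤ 150 := by exact_mod_cast h1
  have hl := log_le_frac (x := (117 / 500 : ℝ)) 61 42 (by norm_num) (by norm_num) (by norm_num)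
    (by norm_num)
  exact c0_box hC (a := 3 / 25) (l := 11 / 5000) (R1 := 117 / 500) (lr := -(61 / 42)) (N0 := 125) (N1 := 150)
    (L0 := 29 / 6) (L1 := 5 / 1) (M := 117 / 800) (by norm_num) (by norm_num) (by norm_num) hN0 hN1
    hR (by norm_num) (by norm_num) (by norm_num) (by norm_num at hl ⊢; exact hl) (by norm_num)
    (by norm_num) (Or.inr hm) lg_125 lg_150 (by norm_num) (by norm_num)

/-- `R ≤ 9 / 40`, `Re m ≤ 6/8 * 9 / 40` -/
theorem c0_125_6 {N : ℕ} {z w : Fin N → ℂ} {R : ℝ} {σ : Fin N → ℂ} (hC : Cfg2 N z w R σ)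
    (h0 : 125 ≤ N) (h1 : N ≤ 150) (hR : R ≤ 9 / 40) (hm : (av (uu w)).re ≤ 27 / 160) : False := by
  have hN0 : (125 : ℝ) ≤ N := by exact_mod_cast h0
  have hN1 : (N : ℝ) ≤ 150 := by exact_mod_cast h1
  have hl := log_le_frac (x := (9 / 40 : ℝ)) 88 59 (by norm_num) (by norm_num) (by norm_num)
    (by norm_num)
  exact c0_box hC (a := 11 / 200) (l := 2 / 125) (R1 := 9 / 40) (lr := -(88 / 59)) (N0 := 125) (N1 := 150)
    (L0 := 29 / 6) (L1 := 5 / 1) (M := 27 / 160) (by norm_num) (by norm_num) (by norm_num) hN0 hN1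
    hR (by norm_num) (by norm_num) (by norm_num) (by norm_num at hl ⊢; exact hl) (by norm_num)
    (by norm_num) (Or.inr hm) lg_125 lg_150 (by norm_num) (by norm_num)

theorem lg_200 : (175 / 33 : ℝ) ≤ Real.log (200 + 1) := by
  have h := frac_le_log (x := (200 : ℝ) + 1) 175 33 (by norm_num) (by norm_num) (by norm_num) (by norm_num)
  norm_num at h ⊢
  exact h

/-- `R ≤ 63 / 200`, `Re m ≤ 0/8 * 63 / 200` -/
theorem c0_150_0 {N : ℕ} {z w : Fin N → ℂ} {R : ℝ} {σ : Fin N → ℂ} (hC : Cfg2 N z w R σ)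
    (h0 : 150 ≤ N) (h1 : N ≤ 200) (hR : R ≤ 63 / 200) (hm : (av (uu w)).re ≤ 0) : False := by
  have hN0 : (150 : ℝ) ≤ N := by exact_mod_cast h0
  have hN1 : (N : ℝ) ≤ 200 := by exact_mod_cast h1
  have hl := log_le_frac (x := (63 / 200 : ℝ)) 67 58 (by norm_num) (by norm_num) (by norm_num)
    (by norm_num)
  exact c0_box hC (a := 41 / 200) (l := 3 / 5000) (R1 := 63 / 200) (lr := -(67 / 58)) (N0 := 150) (N1 := 200)
    (L0 := 5 / 1) (L1 := 175 / 33) (M := 0) (by norm_num) (by norm_num) (by norm_num) hN0 hN1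
    hR (by norm_num) (by norm_num) (by norm_num) (by norm_num at hl ⊢; exact hl) (by norm_num)
    (by norm_num) (Or.inr hm) lg_150 lg_200 (by norm_num) (by norm_num)

/-- `R ≤ 287 / 1000`, `Re m ≤ 1/8 * 287 / 1000` -/
theorem c0_150_1 {N : ℕ} {z w : Fin N → ℂ} {R : ℝ} {σ : Fin N → ℂ} (hC : Cfg2 N z w R σ)
    (h0 : 150 ≤ N) (h1 : N ≤ 200) (hR : R ≤ 287 / 1000) (hm : (av (uu w)).re ≤ 287 / 8000) : False := by
  have hN0 : (150 : ℝ) ≤ N := by exact_mod_cast h0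
  have hN1 : (N : ℝ) ≤ 200 := by exact_mod_cast h1
  have hl := log_le_frac (x := (287 / 1000 : ℝ)) 71 57 (by norm_num) (by norm_num) (by norm_num)
    (by norm_num)
  exact c0_box hC (a := 7 / 40) (l := 1 / 5000) (R1 := 287 / 1000) (lr := -(71 / 57)) (N0 := 150) (N1 := 200)
    (L0 := 5 / 1) (L1 := 175 / 33) (M := 287 / 8000) (by norm_num) (by norm_num) (by norm_num) hN0 hN1
    hR (by norm_num) (by norm_num) (by norm_num) (by norm_num at hl ⊢; exact hl) (by norm_num)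
    (by norm_num) (Or.inr hm) lg_150 lg_200 (by norm_num) (by norm_num)

/-- `R ≤ 263 / 1000`, `Re m ≤ 2/8 * 263 / 1000` -/
theorem c0_150_2 {N : ℕ} {z w : Fin N → ℂ} {R : ℝ} {σ : Fin N → ℂ} (hC : Cfg2 N z w R σ)
    (h0 : 150 ≤ N) (h1 : N ≤ 200) (hR : R ≤ 263 / 1000) (hm : (av (uu w)).re ≤ 263 / 4000) : False := by
  have hN0 : (150 : ℝ) ≤ N := by exact_mod_cast h0
  have hN1 : (N : ℝ) ≤ 200 := by exact_mod_cast h1
  have hl := log_le_frac (x := (263 / 1000 : ℝ)) 4 3 (by norm_num) (by norm_num) (by norm_num)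
    (by norm_num)
  exact c0_box hC (a := 3 / 20) (l := 1 / 1250) (R1 := 263 / 1000) (lr := -(4 / 3)) (N0 := 150) (N1 := 200)
    (L0 := 5 / 1) (L1 := 175 / 33) (M := 263 / 4000) (by norm_num) (by norm_num) (by norm_num) hN0 hN1
    hR (by norm_num) (by norm_num) (by norm_num) (by norm_num at hl ⊢; exact hl) (by norm_num)
    (by norm_num) (Or.inr hm) lg_150 lg_200 (by norm_num) (by norm_num)

/-- `R ≤ 61 / 250`, `Re m ≤ 3/8 * 61 / 250` -/
theorem c0_150_3 {N : ℕ} {z w : Fin N → ℂ} {R : ℝ} {σ : Fin N → ℂ} (hC : Cfg2 N z w R σ)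
    (h0 : 150 ≤ N) (h1 : N ≤ 200) (hR : R ≤ 61 / 250) (hm : (av (uu w)).re ≤ 183 / 2000) : False := by
  have hN0 : (150 : ℝ) ≤ N := by exact_mod_cast h0
  have hN1 : (N : ℝ) ≤ 200 := by exact_mod_cast h1
  have hl := log_le_frac (x := (61 / 250 : ℝ)) 55 39 (by norm_num) (by norm_num) (by norm_num)
    (by norm_num)
  exact c0_box hC (a := 27 / 200) (l := 1 / 2500) (R1 := 61 / 250) (lr := -(55 / 39)) (N0 := 150) (N1 := 200)
    (L0 := 5 / 1) (L1 := 175 / 33) (M := 183 / 2000) (by norm_num) (by norm_num) (by norm_num) hN0 hN1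
    hR (by norm_num) (by norm_num) (by norm_num) (by norm_num at hl ⊢; exact hl) (by norm_num)
    (by norm_num) (Or.inr hm) lg_150 lg_200 (by norm_num) (by norm_num)

/-- `R ≤ 57 / 250`, `Re m ≤ 4/8 * 57 / 250` -/
theorem c0_150_4 {N : ℕ} {z w : Fin N → ℂ} {R : ℝ} {σ : Fin N → ℂ} (hC : Cfg2 N z w R σ)
    (h0 : 150 ≤ N) (h1 : N ≤ 200) (hR : R ≤ 57 / 250) (hm : (av (uu w)).re ≤ 57 / 500) : False := by
  have hN0 : (150 : ℝ) ≤ N := by exact_mod_cast h0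
  have hN1 : (N : ℝ) ≤ 200 := by exact_mod_cast h1
  have hl := log_le_frac (x := (57 / 250 : ℝ)) 34 23 (by norm_num) (by norm_num) (by norm_num)
    (by norm_num)
  exact c0_box hC (a := 3 / 25) (l := 1 / 1000) (R1 := 57 / 250) (lr := -(34 / 23)) (N0 := 150) (N1 := 200)
    (L0 := 5 / 1) (L1 := 175 / 33) (M := 57 / 500) (by norm_num) (by norm_num) (by norm_num) hN0 hN1
    hR (by norm_num) (by norm_num) (by norm_num) (by norm_num at hl ⊢; exact hl) (by norm_num)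
    (by norm_num) (Or.inr hm) lg_150 lg_200 (by norm_num) (by norm_num)

/-- `R ≤ 43 / 200`, `Re m ≤ 5/8 * 43 / 200` -/
theorem c0_150_5 {N : ℕ} {z w : Fin N → ℂ} {R : ℝ} {σ : Fin N → ℂ} (hC : Cfg2 N z w R σ)
    (h0 : 150 ≤ N) (h1 : N ≤ 200) (hR : R ≤ 43 / 200) (hm : (av (uu w)).re ≤ 43 / 320) : False := by
  have hN0 : (150 : ℝ) ≤ N := by exact_mod_cast h0
  have hN1 : (N : ℝ) ≤ 200 := by exact_mod_cast h1
  have hl := log_le_frac (x := (43 / 200 : ℝ)) 83 54 (by norm_num) (by norm_num) (by norm_num)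
    (by norm_num)
  exact c0_box hC (a := 11 / 100) (l := 1 / 1000) (R1 := 43 / 200) (lr := -(83 / 54)) (N0 := 150) (N1 := 200)
    (L0 := 5 / 1) (L1 := 175 / 33) (M := 43 / 320) (by norm_num) (by norm_num) (by norm_num) hN0 hN1
    hR (by norm_num) (by norm_num) (by norm_num) (by norm_num at hl ⊢; exact hl) (by norm_num)
    (by norm_num) (Or.inr hm) lg_150 lg_200 (by norm_num) (by norm_num)

/-- `R ≤ 51 / 250`, `Re m ≤ 6/8 * 51 / 250` -/
theorem c0_150_6 {N : ℕ} {z w : Fin N → ℂ} {R : ℝ} {σ : Fin N → ℂ} (hC : Cfg2 N z w R σ)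
    (h0 : 150 ≤ N) (h1 : N ≤ 200) (hR : R ≤ 51 / 250) (hm : (av (uu w)).re ≤ 153 / 1000) : False := by
  have hN0 : (150 : ℝ) ≤ N := by exact_mod_cast h0
  have hN1 : (N : ℝ) ≤ 200 := by exact_mod_cast h1
  have hl := log_le_frac (x := (51 / 250 : ℝ)) 89 56 (by norm_num) (by norm_num) (by norm_num)
    (by norm_num)
  exact c0_box hC (a := 7 / 100) (l := 21 / 2500) (R1 := 51 / 250) (lr := -(89 / 56)) (N0 := 150) (N1 := 200)
    (L0 := 5 / 1) (L1 := 175 / 33) (M := 153 / 1000) (by norm_num) (by norm_num) (by norm_num) hN0 hN1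
    hR (by norm_num) (by norm_num) (by norm_num) (by norm_num at hl ⊢; exact hl) (by norm_num)
    (by norm_num) (Or.inr hm) lg_150 lg_200 (by norm_num) (by norm_num)

theorem lg_250 : (221 / 40 : ℝ) ≤ Real.log (250 + 1) := by
  have h := frac_le_log (x := (250 : ℝ) + 1) 221 40 (by norm_num) (by norm_num) (by norm_num) (by norm_num)
  norm_num at h ⊢
  exact h

/-- `R ≤ 3 / 10`, `Re m ≤ 0/8 * 3 / 10` -/
theorem c0_200_0 {N : ℕ} {z w : Fin N → ℂ} {R : ℝ} {σ : Fin N → ℂ} (hC : Cfg2 N z w R σ)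
    (h0 : 200 ≤ N) (h1 : N ≤ 250) (hR : R ≤ 3 / 10) (hm : (av (uu w)).re ≤ 0) : False := by
  have hN0 : (200 : ℝ) ≤ N := by exact_mod_cast h0
  have hN1 : (N : ℝ) ≤ 250 := by exact_mod_cast h1
  have hl := log_le_frac (x := (3 / 10 : ℝ)) 65 54 (by norm_num) (by norm_num) (by norm_num)
    (by norm_num)
  exact c0_box hC (a := 19 / 100) (l := 0) (R1 := 3 / 10) (lr := -(65 / 54)) (N0 := 200) (N1 := 250)
    (L0 := 175 / 33) (L1 := 221 / 40) (M := 0) (by norm_num) (by norm_num) (by norm_num) hN0 hN1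
    hR (by norm_num) (by norm_num) (by norm_num) (by norm_num at hl ⊢; exact hl) (by norm_num)
    (by norm_num) (Or.inr hm) lg_200 lg_250 (by norm_num) (by norm_num)

/-- `R ≤ 271 / 1000`, `Re m ≤ 1/8 * 271 / 1000` -/
theorem c0_200_1 {N : ℕ} {z w : Fin N → ℂ} {R : ℝ} {σ : Fin N → ℂ} (hC : Cfg2 N z w R σ)
    (h0 : 200 ≤ N) (h1 : N ≤ 250) (hR : R ≤ 271 / 1000) (hm : (av (uu w)).re ≤ 271 / 8000) : False := by
  have hN0 : (200 : ℝ) ≤ N := by exact_mod_cast h0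
  have hN1 : (N : ℝ) ≤ 250 := by exact_mod_cast h1
  have hl := log_le_frac (x := (271 / 1000 : ℝ)) 47 36 (by norm_num) (by norm_num) (by norm_num)
    (by norm_num)
  exact c0_box hC (a := 4 / 25) (l := 0) (R1 := 271 / 1000) (lr := -(47 / 36)) (N0 := 200) (N1 := 250)
    (L0 := 175 / 33) (L1 := 221 / 40) (M := 271 / 8000) (by norm_num) (by norm_num) (by norm_num) hN0 hN1
    hR (by norm_num) (by norm_num) (by norm_num) (by norm_num at hl ⊢; exact hl) (by norm_num)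
    (by norm_num) (Or.inr hm) lg_200 lg_250 (by norm_num) (by norm_num)

/-- `R ≤ 123 / 500`, `Re m ≤ 2/8 * 123 / 500` -/
theorem c0_200_2 {N : ℕ} {z w : Fin N → ℂ} {R : ℝ} {σ : Fin N → ℂ} (hC : Cfg2 N z w R σ)
    (h0 : 200 ≤ N) (h1 : N ≤ 250) (hR : R ≤ 123 / 500) (hm : (av (uu w)).re ≤ 123 / 2000) : False := by
  have hN0 : (200 : ℝ) ≤ N := by exact_mod_cast h0
  have hN1 : (N : ℝ) ≤ 250 := by exact_mod_cast h1
  have hl := log_le_frac (x := (123 / 500 : ℝ)) 7 5 (by norm_num) (by norm_num) (by norm_num)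
    (by norm_num)
  exact c0_box hC (a := 27 / 200) (l := 1 / 1250) (R1 := 123 / 500) (lr := -(7 / 5)) (N0 := 200) (N1 := 250)
    (L0 := 175 / 33) (L1 := 221 / 40) (M := 123 / 2000) (by norm_num) (by norm_num) (by norm_num) hN0 hN1
    hR (by norm_num) (by norm_num) (by norm_num) (by norm_num at hl ⊢; exact hl) (by norm_num)
    (by norm_num) (Or.inr hm) lg_200 lg_250 (by norm_num) (by norm_num)

/-- `R ≤ 227 / 1000`, `Re m ≤ 3/8 * 227 / 1000` -/
theorem c0_200_3 {N : ℕ} {z w : Fin N → ℂ} {R : ℝ} {σ : Fin N → ℂ} (hC : Cfg2 N z w R σ)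
    (h0 : 200 ≤ N) (h1 : N ≤ 250) (hR : R ≤ 227 / 1000) (hm : (av (uu w)).re ≤ 681 / 8000) : False := by
  have hN0 : (200 : ℝ) ≤ N := by exact_mod_cast h0
  have hN1 : (N : ℝ) ≤ 250 := by exact_mod_cast h1
  have hl := log_le_frac (x := (227 / 1000 : ℝ)) 43 29 (by norm_num) (by norm_num) (by norm_num)
    (by norm_num)
  exact c0_box hC (a := 3 / 25) (l := 1 / 1250) (R1 := 227 / 1000) (lr := -(43 / 29)) (N0 := 200) (N1 := 250)
    (L0 := 175 / 33) (L1 := 221 / 40) (M := 681 / 8000) (by norm_num) (by norm_num) (by norm_num) hN0 hN1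
    hR (by norm_num) (by norm_num) (by norm_num) (by norm_num at hl ⊢; exact hl) (by norm_num)
    (by norm_num) (Or.inr hm) lg_200 lg_250 (by norm_num) (by norm_num)

/-- `R ≤ 53 / 250`, `Re m ≤ 4/8 * 53 / 250` -/
theorem c0_200_4 {N : ℕ} {z w : Fin N → ℂ} {R : ℝ} {σ : Fin N → ℂ} (hC : Cfg2 N z w R σ)
    (h0 : 200 ≤ N) (h1 : N ≤ 250) (hR : R ≤ 53 / 250) (hm : (av (uu w)).re ≤ 53 / 500) : False := by
  have hN0 : (200 : ℝ) ≤ N := by exact_mod_cast h0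
  have hN1 : (N : ℝ) ≤ 250 := by exact_mod_cast h1
  have hl := log_le_frac (x := (53 / 250 : ℝ)) 76 49 (by norm_num) (by norm_num) (by norm_num)
    (by norm_num)
  exact c0_box hC (a := 11 / 100) (l := 3 / 5000) (R1 := 53 / 250) (lr := -(76 / 49)) (N0 := 200) (N1 := 250)
    (L0 := 175 / 33) (L1 := 221 / 40) (M := 53 / 500) (by norm_num) (by norm_num) (by norm_num) hN0 hN1
    hR (by norm_num) (by norm_num) (by norm_num) (by norm_num at hl ⊢; exact hl) (by norm_num)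
    (by norm_num) (Or.inr hm) lg_200 lg_250 (by norm_num) (by norm_num)

/-- `R ≤ 199 / 1000`, `Re m ≤ 5/8 * 199 / 1000` -/
theorem c0_200_5 {N : ℕ} {z w : Fin N → ℂ} {R : ℝ} {σ : Fin N → ℂ} (hC : Cfg2 N z w R σ)
    (h0 : 200 ≤ N) (h1 : N ≤ 250) (hR : R ≤ 199 / 1000) (hm : (av (uu w)).re ≤ 199 / 1600) : False := by
  have hN0 : (200 : ℝ) ≤ N := by exact_mod_cast h0
  have hN1 : (N : ℝ) ≤ 250 := by exact_mod_cast h1
  have hl := log_le_frac (x := (199 / 1000 : ℝ)) 92 57 (by norm_num) (by norm_num) (by norm_num)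
    (by norm_num)
  exact c0_box hC (a := 1 / 10) (l := 1 / 1250) (R1 := 199 / 1000) (lr := -(92 / 57)) (N0 := 200) (N1 := 250)
    (L0 := 175 / 33) (L1 := 221 / 40) (M := 199 / 1600) (by norm_num) (by norm_num) (by norm_num) hN0 hN1
    hR (by norm_num) (by norm_num) (by norm_num) (by norm_num at hl ⊢; exact hl) (by norm_num)
    (by norm_num) (Or.inr hm) lg_200 lg_250 (by norm_num) (by norm_num)

/-- `R ≤ 189 / 1000`, `Re m ≤ 6/8 * 189 / 1000` -/
theorem c0_200_6 {N : ℕ} {z w : Fin N → ℂ} {R : ℝ} {σ : Fin N → ℂ} (hC : Cfg2 N z w R σ)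
    (h0 : 200 ≤ N) (h1 : N ≤ 250) (hR : R ≤ 189 / 1000) (hm : (av (uu w)).re ≤ 567 / 4000) : False := by
  have hN0 : (200 : ℝ) ≤ N := by exact_mod_cast h0
  have hN1 : (N : ℝ) ≤ 250 := by exact_mod_cast h1
  have hl := log_le_frac (x := (189 / 1000 : ℝ)) 98 59 (by norm_num) (by norm_num) (by norm_num)
    (by norm_num)
  exact c0_box hC (a := 9 / 100) (l := 7 / 5000) (R1 := 189 / 1000) (lr := -(98 / 59)) (N0 := 200) (N1 := 250)
    (L0 := 175 / 33) (L1 := 221 / 40) (M := 567 / 4000) (by norm_num) (by norm_num) (by norm_num) hN0 hN1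
    hR (by norm_num) (by norm_num) (by norm_num) (by norm_num at hl ⊢; exact hl) (by norm_num)
    (by norm_num) (Or.inr hm) lg_200 lg_250 (by norm_num) (by norm_num)

end Pool.Agent.Lib.MP_af3a4a_an.P1.H74.C0
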