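import Pool.Agent.Lib.MP_af3a4a_an.P1.H74.Cost2A

set_option autoImplicit false

/-!
# The cost inequality with an excess of `1/50`, second part: small `C` (council 2, helper74)
-/

namespace Pool.Agent.Lib.MP_af3a4a_an.P1.H74.Cost2

open Pool.Agent.Lib.MP_af3a4a_an.P1.H74.Cost (Q)

/-- small `C` -/
theorem region1 {R C p : ℝ} (hR : 19 / 10 ≤ R) (hC0 : 0 ≤ C) (h2 : C ≤ R - 1)
    (hp1 : (R ^ 2 - 1) - (R - 1) * C ≤ p) (hp0 : p ≤ (R ^ 2 - 1) + (R + 1) * C) :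
    0 ≤ G2 R C p := by
  have hD : 0 ≤ R ^ 2 - 1 := by nlinarith
  rcases hC0.eq_or_lt with hz | hC
  · have hpe : p = R ^ 2 - 1 := by
      rw [← hz] at hp1 hp0
      linarith
    have e : G2 R C p = (R ^ 2 - 1) ^ 3 * R ^ 2 := by
      rw [← hz, hpe]
      unfold G2 Q
      ring
    rw [e]
    exact mul_nonneg (pow_nonneg hD 3) (sq_nonneg R)
  obtain ⟨g, hg⟩ : ∃ g, g = R - 1 - C := ⟨_, rfl⟩
  obtain ⟨a, ha⟩ : ∃ a, a = (p - ((R ^ 2 - 1) - (R - 1) * C)) / C := ⟨_, rfl⟩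
  obtain ⟨b, hb⟩ : ∃ b, b = 2 * R - a := ⟨_, rfl⟩
  have haC : a * C = p - ((R ^ 2 - 1) - (R - 1) * C) := by
    rw [ha, div_mul_cancel₀ _ hC.ne']
  have hg0 : 0 ≤ g := by linarith
  have ha0 : 0 ≤ a := by
    rw [ha]
    exact div_nonneg (by linarith) hC.le
  have hb0 : 0 ≤ b := by
    have : a ≤ 2 * R := by
      rw [ha, div_le_iff₀ hC]
      linarith
    linarith
  have eR : R = 1 + C + g := by linarith
  have ep : p = (R ^ 2 - 1) - (R - 1) * C + a * C := by linarith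
  have hCg : 9 / 10 ≤ C + g := by linarith
  have hB1 := B1_nonneg hC.le hg0 hCg
  have hB2 := B2_nonneg hC.le hg0 hCg
  have hB3 := B3_nonneg hR hC.le
  have hRC : 1 ≤ R - C := by linarith
  have s1 : 0 ≤ R * (R - C) - 1 := by nlinarith
  have v1 : 0 ≤ 25 * (C * (2 * (R ^ 2 - 1) * (R - C) * (R - 1) * (R - C - 1) *
      (R * (R - C) - 1))) + (R ^ 2 - 1) ^ 2 * ((R - 1) * (R + 1 - C)) * (R - C) ^ 2 := by
    have u1 : 0 ≤ 2 * (R ^ 2 - 1) * (R - C) * (R - 1) * (R - C - 1) * (R * (R - C) - 1) := by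
      refine mul_nonneg (mul_nonneg (mul_nonneg (mul_nonneg (mul_nonneg ?_ ?_) ?_) ?_) ?_) s1 <;>
        linarith
    have u2 : 0 ≤ (R ^ 2 - 1) ^ 2 * ((R - 1) * (R + 1 - C)) * (R - C) ^ 2 :=
      mul_nonneg (mul_nonneg (sq_nonneg _) (mul_nonneg (by linarith) (by linarith)))
        (sq_nonneg _)
    have := mul_nonneg hC.le u1
    linarith
  have v2 : 0 ≤ 2 * (R ^ 2 - 1) * (R + C) * (R + 1) * (25 * (C * ((R - 1) *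
      (R ^ 2 - 2 * R - 1) + C * ((2 * R - 1) * (R - 1)) + R * C ^ 2)) +
      (R ^ 2 - 1) * ((R - 1 + C) * (R + C)) / 2) := by
    refine mul_nonneg (mul_nonneg (mul_nonneg ?_ ?_) ?_) hB3 <;> linarith
  -- the coefficients of the cubic in `a`
  obtain ⟨b0, hb0'⟩ : ∃ b0, b0 = 25 * (C * (2 * (R ^ 2 - 1) * (R - C) * (R - 1) * (R - C - 1) *
      (R * (R - C) - 1))) + (R ^ 2 - 1) ^ 2 * ((R - 1) * (R + 1 - C)) * (R - C) ^ 2 := ⟨_, rfl⟩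
  obtain ⟨b1, hb1'⟩ : ∃ b1, b1 = 24*g^3 + 84*g^4 + 114*g^5 + 75*g^6 + 24*g^7 + 3*g^8 + -320*C*g^2 + -460*C*g^3 + 644*C*g^4 +
      1513*C*g^5 + 900*C*g^6 + 171*C*g^7 + -112*C^2*g + -616*C^2*g^2 + 2372*C^2*g^3 +
      6138*C^2*g^4 + 4326*C^2*g^5 + 960*C^2*g^6 + 232*C^3 + 184*C^3*g + 3008*C^3*g^2 +
      9396*C^3*g^3 + 8234*C^3*g^4 + 2190*C^3*g^5 + 256*C^4 + 1306*C^4*g + 6165*C^4*g^2 +
      7386*C^4*g^3 + 2475*C^4*g^4 + 140*C^5 + 1579*C^5*g + 3018*C^5*g^2 + 1383*C^5*g^3 + 110*C^6 +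
      416*C^6*g + 306*C^6*g^2 := ⟨_, rfl⟩
  obtain ⟨b2, hb2'⟩ : ∃ b2, b2 = 24*g^3 + 84*g^4 + 114*g^5 + 75*g^6 + 24*g^7 + 3*g^8 + -712*C*g^2 + -1196*C*g^3 + 274*C*g^4 +
      1523*C*g^5 + 942*C*g^6 + 177*C*g^7 + -896*C^2*g + -3008*C^2*g^2 + 1624*C^2*g^3 +
      8208*C^2*g^4 + 5982*C^2*g^5 + 1302*C^2*g^6 + 40*C^3 + -1608*C^3*g + 4236*C^3*g^2 +
      18420*C^3*g^3 + 16054*C^3*g^4 + 4110*C^3*g^5 + -280*C^4 + 3126*C^4*g + 19017*C^4*g^2 +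
      21746*C^4*g^3 + 6855*C^4*g^4 + 354*C^5 + 8441*C^5*g + 15108*C^5*g^2 + 6333*C^5*g^3 +
      1084*C^6 + 4768*C^6*g + 3072*C^6*g^2 + 416*C^7 + 612*C^7*g := ⟨_, rfl⟩
  obtain ⟨b3, hb3'⟩ : ∃ b3, b3 = 2 * (R ^ 2 - 1) * (R + C) * (R + 1) * (25 * (C * ((R - 1) *
      (R ^ 2 - 2 * R - 1) + C * ((2 * R - 1) * (R - 1)) + R * C ^ 2)) +
      (R ^ 2 - 1) * ((R - 1 + C) * (R + C)) / 2) := ⟨_, rfl⟩
  rw [← hb0'] at v1
  rw [← hb3'] at v2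
  rw [← hb1'] at hB1
  rw [← hb2'] at hB2
  -- Taylor coefficients
  have q0 : G2 R C ((R ^ 2 - 1) - (R - 1) * C) = b0 := by
    rw [hb0', eR]
    unfold G2 Q
    ring
  have q1 : 2 * R * C * (3 * (25 * (2 * R * C - 1) + (R ^ 2 - 1)) *
      ((R ^ 2 - 1) - (R - 1) * C) ^ 2 +
      2 * (-50 * C * ((2 * R * C - 1) + 2 * (R ^ 2 - 1)) - 2 * C * (R ^ 2 - 1)) *
      ((R ^ 2 - 1) - (R - 1) * C) +
      (25 * (R ^ 2 - 1) * ((R ^ 2 - 1) + 2 * R * C + 7 * C ^ 2) + (R ^ 2 - 1) ^ 2)) =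
      b1 - 3 * b0 := by
    rw [hb0', hb1', eR]
    ring
  have q2 : (2 * R) ^ 2 * C ^ 2 * (3 * (25 * (2 * R * C - 1) + (R ^ 2 - 1)) *
      ((R ^ 2 - 1) - (R - 1) * C) +
      (-50 * C * ((2 * R * C - 1) + 2 * (R ^ 2 - 1)) - 2 * C * (R ^ 2 - 1))) =
      b2 - 2 * b1 + 3 * b0 := by
    rw [hb0', hb1', hb2', eR]
    ring
  have q3 : (2 * R) ^ 3 * C ^ 3 * (25 * (2 * R * C - 1) + (R ^ 2 - 1)) =
      b3 - b2 + b1 - b0 := by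
    rw [hb0', hb1', hb2', hb3', eR]
    ring
  have key : (2 * R) ^ 3 * G2 R C p =
      b0 * b ^ 3 + b1 * (b ^ 2 * a) + b2 * (b * a ^ 2) + b3 * a ^ 3 := by
    have e1 : G2 R C p = G2 R C ((R ^ 2 - 1) - (R - 1) * C) +
        (3 * (25 * (2 * R * C - 1) + (R ^ 2 - 1)) * ((R ^ 2 - 1) - (R - 1) * C) ^ 2 +
      2 * (-50 * C * ((2 * R * C - 1) + 2 * (R ^ 2 - 1)) - 2 * C * (R ^ 2 - 1)) *
      ((R ^ 2 - 1) - (R - 1) * C) +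
      (25 * (R ^ 2 - 1) * ((R ^ 2 - 1) + 2 * R * C + 7 * C ^ 2) + (R ^ 2 - 1) ^ 2)) * (a * C) +
      (3 * (25 * (2 * R * C - 1) + (R ^ 2 - 1)) * ((R ^ 2 - 1) - (R - 1) * C) +
      (-50 * C * ((2 * R * C - 1) + 2 * (R ^ 2 - 1)) - 2 * C * (R ^ 2 - 1))) * (a * C) ^ 2 +
      (25 * (2 * R * C - 1) + (R ^ 2 - 1)) * (a * C) ^ 3 := by
      rw [ep]
      unfold G2 Q
      ring
    rw [e1, q0, hb]
    linear_combination ((2 * R) ^ 2 * a) * q1 + (2 * R * a ^ 2) * q2 + a ^ 3 * q3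
  have h1 : 0 ≤ (2 * R) ^ 3 * G2 R C p := by
    rw [key]
    have w1 := mul_nonneg v1 (pow_nonneg hb0 3)
    have w2 := mul_nonneg hB1 (mul_nonneg (sq_nonneg b) ha0)
    have w3 := mul_nonneg hB2 (mul_nonneg hb0 (sq_nonneg a))
    have w4 := mul_nonneg v2 (pow_nonneg ha0 3)
    linarith
  have h3 : 0 < (2 * R) ^ 3 := by
    have : 0 < R := by linarith
    positivity
  exact nonneg_of_mul_nonneg_right h1 h3

end Pool.Agent.Lib.MP_af3a4a_an.P1.H74.Cost2
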