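import Pool.Agent.Lib.MP_af3a4a_an.P1.H28.Cost
import Pool.Agent.Lib.MP_af3a4a_an.P1.H74.Cost2B

set_option autoImplicit false

/-!
# The cost inequality with an excess of `1/50`, for `R ≥ 19/10` (council 2, helper74)

`om R w⁻¹ = 2 C/(|R w - 1| + C) ≤ R/(R² - 1) (C + Re (1/w) - 1/R) + 1/50`, `C = |w - R|`,
`|w| ≥ 1`, and the sum form for `Cfg2`.
-/

namespace Pool.Agent.Lib.MP_af3a4a_an.P1.H74.Cost2

open Finset ComplexConjugate
open Pool.Agent.Lib.MP_af3a4a_an.SV (uu av sq EE)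
open Pool.Agent.Lib.MP_af3a4a_an.P1.H80
open Pool.Agent.Lib.MP_af3a4a_an.P1.CHK.H80
open Pool.Agent.Lib.MP_af3a4a_an.P1.H32
open Pool.Agent.Lib.MP_af3a4a_an.P1.H74.Cost (Q)

/-- real form: `A = |R w - 1|`, `C = |w - R|`, `s = |w|²`, `x = Re w` -/
theorem cost2_real {R A C s x : ℝ} (hR : 19 / 10 ≤ R) (hA0 : 0 < A) (hC0 : 0 ≤ C) (hs : 1 ≤ s)
    (hA : A ^ 2 = R ^ 2 * s - 2 * R * x + 1) (hC : C ^ 2 = s - 2 * R * x + R ^ 2)
    (h1 : R ^ 2 - 1 ≤ A + R * C) (h3 : A ≤ R * C + (R ^ 2 - 1)) (hx1 : -1 ≤ x / s) :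
    2 * C / (C + A) ≤ R / (R ^ 2 - 1) * (C + x / s - 1 / R) + 1 / 50 := by
  have hb : 0 < R ^ 2 - 1 := by nlinarith
  have hR0 : 0 < R := by linarith
  have hs0 : 0 < s := by linarith
  have hpr : (A + C) * (A - C) = (R ^ 2 - 1) * (s - 1) := by nlinarith
  have hr : 0 ≤ A - C := by
    have h4 : 0 ≤ (A + C) * (A - C) := by rw [hpr]; exact mul_nonneg hb.le (by linarith)
    exact nonneg_of_mul_nonneg_right h4 (by linarith)
  rcases le_or_gt (R + 1) C with hbig | hsmall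
  · have e1 : 2 * C / (C + A) ≤ 1 := by
      rw [div_le_one (by linarith)]
      linarith
    have e2 : 1 ≤ R / (R ^ 2 - 1) * (C + x / s - 1 / R) := by
      have e3 : (R ^ 2 - 1) / R ≤ C + x / s - 1 / R := by
        have : (R ^ 2 - 1) / R = R - 1 / R := by field_simp
        linarith
      have e4 := mul_le_mul_of_nonneg_left e3 (show 0 ≤ R / (R ^ 2 - 1) by positivity)
      have e5 : R / (R ^ 2 - 1) * ((R ^ 2 - 1) / R) = 1 := by
        field_simp
      linarith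
    linarith
  have hG : 0 ≤ G2 R C (A + C) := by
    rcases le_or_gt C (R - 1) with h | h
    · exact region1 hR hC0 h (by linarith) (by linarith)
    · exact region2 hR h.le hsmall.le (by linarith)
  have hx : 2 * R * x = s + R ^ 2 - C ^ 2 := by linarith
  have hDs : (R ^ 2 - 1) * s = (R ^ 2 - 1) + (A ^ 2 - C ^ 2) := by
    have : (A + C) * (A - C) = A ^ 2 - C ^ 2 := by ring
    linarith
  have hGe : G2 R C (A + C) = (R ^ 2 - 1) * (25 * ((A + C) * (2 * R * s * C + R ^ 2 - C ^ 2 -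
      s) - 4 * (R ^ 2 - 1) * C * s) + (A + C) * ((R ^ 2 - 1) * s)) := by
    have e1 : (R ^ 2 - 1) * (25 * ((A + C) * (2 * R * s * C + R ^ 2 - C ^ 2 -
      s) - 4 * (R ^ 2 - 1) * C * s) + (A + C) * ((R ^ 2 - 1) * s)) =
        25 * ((A + C) * (2 * R * C * ((R ^ 2 - 1) * s) + (R ^ 2 - 1) * (R ^ 2 - C ^ 2) -
          (R ^ 2 - 1) * s) - 4 * (R ^ 2 - 1) * C * ((R ^ 2 - 1) * s)) +
        (R ^ 2 - 1) * (A + C) * ((R ^ 2 - 1) * s) := by ring
    rw [e1, hDs]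
    unfold G2 Q
    ring
  rw [hGe] at hG
  have hG' := nonneg_of_mul_nonneg_right hG hb
  have e2 : R / (R ^ 2 - 1) * (C + x / s - 1 / R) + 1 / 50 =
      (25 * (2 * R * s * C + R ^ 2 - C ^ 2 - s) + (R ^ 2 - 1) * s) /
        (50 * (R ^ 2 - 1) * s) := by
    have hx' : x = (s + R ^ 2 - C ^ 2) / (2 * R) := by
      rw [eq_div_iff (by positivity)]
      linarith
    rw [hx']
    field_simp
    ring
  rw [e2, div_le_div_iff₀ (by linarith) (by positivity)]
  nlinarith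

/-- **the cost inequality with excess `1/50`** -/
theorem cost2 {R : ℝ} (hR : 19 / 10 ≤ R) {w : ℂ} (hw : 1 ≤ ‖w‖) :
    om R w⁻¹ ≤ R / (R ^ 2 - 1) * (‖w - R‖ + (w⁻¹).re - 1 / R) + 1 / 50 := by
  have hw0 : w ≠ 0 := by
    intro h
    rw [h, norm_zero] at hw
    linarith
  have hR0 : 0 < R := by linarith
  rw [om_inv R hw0]
  have hs : 1 ≤ Complex.normSq w := by
    rw [Complex.normSq_eq_norm_sq]
    nlinarith
  have hinv : (w⁻¹).re = w.re / Complex.normSq w := Complex.inv_re w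
  have hun : -1 ≤ w.re / Complex.normSq w := by
    rw [← hinv]
    have h1 : |(w⁻¹).re| ≤ ‖w⁻¹‖ := Complex.abs_re_le_norm _
    have h2 : ‖w⁻¹‖ ≤ 1 := by
      rw [norm_inv]
      exact inv_le_one_of_one_le₀ hw
    have := neg_abs_le (w⁻¹).re
    linarith
  rw [hinv]
  have hnR : ‖(R : ℂ)‖ = R := by rw [Complex.norm_real, Real.norm_of_nonneg hR0.le]
  have hnb : ‖((R ^ 2 - 1 : ℝ) : ℂ)‖ = R ^ 2 - 1 := by
    rw [Complex.norm_real, Real.norm_of_nonneg (by nlinarith)]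
  have hA : ‖(R : ℂ) * w - 1‖ ^ 2 = R ^ 2 * Complex.normSq w - 2 * R * w.re + 1 := by
    rw [← Complex.normSq_eq_norm_sq, Complex.normSq_apply, Complex.normSq_apply]
    simp only [Complex.sub_re, Complex.sub_im, Complex.re_ofReal_mul, Complex.im_ofReal_mul,
      Complex.one_re, Complex.one_im]
    ring
  have hC : ‖w - (R : ℂ)‖ ^ 2 = Complex.normSq w - 2 * R * w.re + R ^ 2 := by
    rw [← Complex.normSq_eq_norm_sq, Complex.normSq_apply, Complex.normSq_apply]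
    simp only [Complex.sub_re, Complex.sub_im, Complex.ofReal_re, Complex.ofReal_im]
    ring
  have hRw : ‖(R : ℂ) * (w - R)‖ = R * ‖w - (R : ℂ)‖ := by rw [norm_mul, hnR]
  have hA0 : 0 < ‖(R : ℂ) * w - 1‖ := by
    have h1 : ‖(R : ℂ) * w‖ ≤ ‖(R : ℂ) * w - 1‖ + 1 := by
      have := norm_add_le ((R : ℂ) * w - 1) 1
      rwa [sub_add_cancel, norm_one] at this
    rw [norm_mul, hnR] at h1
    nlinarith
  refine cost2_real hR hA0 (norm_nonneg _) hs hA hC ?_ ?_ hun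
  · have h := norm_sub_le ((R : ℂ) * w - 1) ((R : ℂ) * (w - R))
    have e : (R : ℂ) * w - 1 - (R : ℂ) * (w - R) = ((R ^ 2 - 1 : ℝ) : ℂ) := by push_cast; ring
    rw [e, hnb, hRw] at h
    exact h
  · have h := norm_add_le ((R : ℂ) * (w - R)) ((R ^ 2 - 1 : ℝ) : ℂ)
    have e : (R : ℂ) * (w - R) + ((R ^ 2 - 1 : ℝ) : ℂ) = (R : ℂ) * w - 1 := by push_cast; ring
    rw [e, hnb, hRw] at h
    exact h

section cfg

variable {N : ℕ} {z w : Fin N → ℂ} {R : ℝ} {σ : Fin N → ℂ}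

/-- **the total cost**: `∑ om R (u k) ≤ N ((R - 1 + R m₁)/(R² - 1) + 1/50)` -/
theorem cost_sum2 (hC : Cfg2 N z w R σ) (hR : 19 / 10 ≤ R) :
    ∑ k, om R (uu w k) ≤ N * ((R - 1 + R * (av (uu w)).re) / (R ^ 2 - 1) + 1 / 50) := by
  have hN : 1 ≤ N := by linarith [hC.hN]
  have hR0 : 0 < R := by linarith
  have hb : 0 < R ^ 2 - 1 := by nlinarith
  have h1 : ∀ k, om R (uu w k) ≤
      R / (R ^ 2 - 1) * (‖w k - R‖ + (uu w k).re - 1 / R) + 1 / 50 :=
    fun k => cost2 hR (hC.cfg.far k)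
  have h2 : ∑ k, (uu w k).re = N * (av (uu w)).re := by
    have hN0 : (N : ℂ) ≠ 0 := by exact_mod_cast (by omega : N ≠ 0)
    have h3 : ∑ k, uu w k = (N : ℂ) * av (uu w) := by
      unfold av
      rw [← mul_assoc, mul_one_div_cancel hN0, one_mul]
    have h4 := congrArg Complex.re h3
    rw [Complex.re_sum] at h4
    rw [h4]
    have := Complex.re_ofReal_mul (N : ℝ) (av (uu w))
    push_cast at this
    exact this
  have h3 : ∑ k, om R (uu w k) ≤
      R / (R ^ 2 - 1) * (∑ k, ‖w k - R‖ + N * (av (uu w)).re - N * (1 / R)) + N * (1 / 50) := by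
    refine (Finset.sum_le_sum fun k _ => h1 k).trans (le_of_eq ?_)
    rw [Finset.sum_add_distrib, ← Finset.mul_sum, Finset.sum_sub_distrib,
      Finset.sum_add_distrib, h2]
    simp
  refine h3.trans ?_
  have h5 : ∑ k, ‖w k - R‖ ≤ N := hC.dist.le
  have h6 : R / (R ^ 2 - 1) * (∑ k, ‖w k - R‖ + N * (av (uu w)).re - N * (1 / R)) ≤
      R / (R ^ 2 - 1) * (N + N * (av (uu w)).re - N * (1 / R)) :=
    mul_le_mul_of_nonneg_left (by linarith) (by positivity)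
  have h7 : R / (R ^ 2 - 1) * (N + N * (av (uu w)).re - N * (1 / R)) + N * (1 / 50) =
      N * ((R - 1 + R * (av (uu w)).re) / (R ^ 2 - 1) + 1 / 50) := by
    field_simp
    ring
  linarith

end cfg

end Pool.Agent.Lib.MP_af3a4a_an.P1.H74.Cost2
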