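import Pool.Agent.Lib.MP_af3a4a_an.P1.H74.EFree2

/-!
# (PHI): the final test for a configuration in normal form (helper74)

`G` is a lower bound of `|∫_0^y q|`, `m = av (uu w)`, `a' = a (N+1)/N`.
-/

namespace Pool.Agent.Lib.MP_af3a4a_an.P1.H74

open Finset MeasureTheory
open ComplexConjugate
open Pool.Agent.Lib.MP_af3a4a_an.SV (uu av EE)
open Pool.Agent.Lib.MP_af3a4a_an.P1.H80

/-- the payment for the zero `0`: `lin a e (-y)` -/
noncomputable def pay (a cs y : ℝ) : ℝ := max (a / (1 + a) * (y * (1 - a * cs)) - Real.log (1 + a)) 0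

/-- the conditions for the free elimination of `E` (reserve `E ^ c₀`) -/
structure Free (N : ℕ) (a c₀ cs y X₀ : ℝ) : Prop where
  a0 : 0 ≤ a
  a1 : a < 1
  hc1 : c₀ < 1
  hX1 : 1 ≤ X₀
  hX2 : 1 + a ≤ X₀ ^ 2
  hX3 : a / (1 + a) * (y * (1 + a * cs)) + Real.log (1 + a) ≤ a * X₀
  hX : a * (((N : ℝ) + 1) / N) * (X₀ - 1 / X₀) ≤ (1 - c₀) * Real.log X₀
  hα : a * (((N : ℝ) + 1) / N) ≤ (1 - c₀) * X₀

theorem le_ofNat_norm {N : ℕ} {z w : Fin N → ℂ} {R : ℝ} {σ : Fin N → ℂ} (hC : Cfg2 N z w R σ) :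
    1 ≤ EE w := by
  unfold EE
  calc (1 : ℝ) = ∏ _k : Fin N, (1 : ℝ) := by simp
    _ ≤ ∏ k, ‖w k‖ := Finset.prod_le_prod (fun _ _ => zero_le_one) fun k _ => hC.cfg.far k

/-- the general test -/
theorem phi {N : ℕ} {z w : Fin N → ℂ} {R : ℝ} {σ : Fin N → ℂ} (hC : Cfg2 N z w R σ)
    {a c₀ X₀ y t cs sn G Ec : ℝ} (hcs : cs ^ 2 + sn ^ 2 = 1) (hy : 0 < y)
    (hF : Free N a c₀ cs y X₀) (ht0 : 0 ≤ t) (ht : t ≤ kap a)
    (hRy : (R : ℂ) - (y : ℂ) = (t : ℂ) * ⟨cs, sn⟩)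
    (hG : 0 < G) (hGq : G ≤ ‖∫ x in (0 : ℝ)..y, qq (uu w) x‖)
    (hEc : 0 < Ec) (hEE : Ec ≤ EE w ^ c₀)
    (hfin : N + 1 + pay a cs y ≤ N * (1 + Real.log (1 - a ^ 2) / 2)
      + a * (N * y * cs - ((N : ℝ) + 1) * (cs * (av (uu w)).re - sn * (av (uu w)).im))
      + y + kap a * cs + Real.log (((N : ℝ) + 1) * G / y) + Real.log Ec) : False := by
  have hN : 1 ≤ N := by linarith [hC.hN]
  obtain ⟨e, he⟩ : ∃ e : ℂ, e = ⟨cs, sn⟩ := ⟨_, rfl⟩
  have he1 : ‖e‖ = 1 := by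
    have h1 := norm_sq_re_im e
    rw [he] at h1
    simp only at h1
    rw [hcs, ← he] at h1
    have h2 := norm_nonneg e
    nlinarith
  have hny : ‖(y : ℂ)‖ = y := by rw [Complex.norm_real, Real.norm_of_nonneg hy.le]
  have hre : (conj e * (y : ℂ)).re = y * cs := by
    rw [he]
    simp only [Complex.mul_re, Complex.conj_re, Complex.conj_im, Complex.ofReal_re,
      Complex.ofReal_im]
    ring
  have h := efree_lin hN hC.cfg (y := (y : ℂ)) (c₀ := c₀) (X₀ := X₀) he1 hF.a0 hF.a1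
    (by rw [hRy, he]) ht0 ht hF.hc1 hF.hX1 hF.hX2
    (by
      rw [hny, hre]
      have := hF.hX3
      have e1 : y + a * (y * cs) = y * (1 + a * cs) := by ring
      rw [e1]
      exact this) hF.hX hF.hα
  have hlin : lin a e (-(y : ℂ)) = pay a cs y := by
    unfold lin pay
    rw [norm_neg, hny, mul_neg, Complex.neg_re, hre]
    congr 2
    ring
  have hm : (e * av (uu w)).re = cs * (av (uu w)).re - sn * (av (uu w)).im := by
    rw [he]
    simp only [Complex.mul_re]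
  have e2 : (conj (-1 : ℂ) * (y : ℂ)).re = -y := by
    rw [map_neg, map_one, neg_one_mul, Complex.neg_re, Complex.ofReal_re]
  have e3 : (conj e * (-1 : ℂ)).re = -cs := by
    rw [mul_neg_one, Complex.neg_re, Complex.conj_re, he]
  rw [hlin, hm, e2, e3, hre] at h
  have hfI := Cfg2.fI_eq w hy.le
  rw [← hfI] at hGq
  have hGy : G / y ≤ ‖fI w (y : ℂ)‖ := by
    rw [div_le_iff₀ hy]
    linarith
  have hNn : (0 : ℝ) ≤ N := Nat.cast_nonneg N
  have h1 : ((N : ℝ) + 1) * G / y * Ec ≤ ((N : ℝ) + 1) * ‖fI w (y : ℂ)‖ * EE w ^ c₀ := by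
    have e4 : ((N : ℝ) + 1) * G / y = ((N : ℝ) + 1) * (G / y) := by ring
    rw [e4]
    apply mul_le_mul _ hEE hEc.le (by positivity)
    exact mul_le_mul_of_nonneg_left hGy (by positivity)
  have hpos : 0 < ((N : ℝ) + 1) * G / y := by positivity
  have h2 := lt_of_le_of_lt h1 h
  rw [← Real.log_lt_iff_lt_exp (by positivity), Real.log_mul hpos.ne' hEc.ne'] at h2
  linarith

/-- **(PHI) on the ray**, `e = 1`, no reserve -/
theorem phi_ray {N : ℕ} {z w : Fin N → ℂ} {R : ℝ} {σ : Fin N → ℂ} (hC : Cfg2 N z w R σ)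
    {a X₀ y G : ℝ} (hy : 0 < y) (hyR : y ≤ R) (hF : Free N a 0 1 y X₀) (ht : R - y ≤ kap a)
    (hG : 0 < G) (hGq : G ≤ ‖∫ x in (0 : ℝ)..y, qq (uu w) x‖)
    (hfin : N + 1 + pay a 1 y ≤ N * (1 + Real.log (1 - a ^ 2) / 2)
      + a * (N * y - ((N : ℝ) + 1) * (av (uu w)).re)
      + y + kap a + Real.log (((N : ℝ) + 1) * G / y)) : False := by
  refine phi hC (t := R - y) (cs := 1) (sn := 0) (Ec := 1) (by norm_num) hy hF (by linarith) ht
    ?_ hG hGq one_pos (by rw [Real.rpow_zero]) ?_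
  · apply Complex.ext <;> simp
  · rw [Real.log_one]
    linarith

/-- **(PHI) at `y = c`**, any direction, no reserve -/
theorem phi_c {N : ℕ} {z w : Fin N → ℂ} {R : ℝ} {σ : Fin N → ℂ} (hC : Cfg2 N z w R σ)
    {a X₀ cs sn G : ℝ} (hcs : cs ^ 2 + sn ^ 2 = 1) (hF : Free N a 0 cs R X₀)
    (hG : 0 < G) (hGq : G ≤ ‖∫ x in (0 : ℝ)..R, qq (uu w) x‖)
    (hfin : N + 1 + pay a cs R ≤ N * (1 + Real.log (1 - a ^ 2) / 2)
      + a * (N * R * cs - ((N : ℝ) + 1) * (cs * (av (uu w)).re - sn * (av (uu w)).im))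
      + R + kap a * cs + Real.log (((N : ℝ) + 1) * G / R)) : False := by
  refine phi hC (t := 0) (Ec := 1) hcs hC.hR hF le_rfl (kap_nonneg hF.a0 hF.a1)
    ?_ hG hGq one_pos (by rw [Real.rpow_zero]) ?_
  · simp
  · rw [Real.log_one]
    linarith

/-- **(PHI) with the reserve** `E ≥ exp (N/2 (1 - S2))`, `S2` the mean of the `|u_k|²` -/
theorem phi_ray_res {N : ℕ} {z w : Fin N → ℂ} {R : ℝ} {σ : Fin N → ℂ} (hC : Cfg2 N z w R σ)
    {a c₀ X₀ y G : ℝ} (hy : 0 < y) (hyR : y ≤ R) (hc0 : 0 ≤ c₀) (hF : Free N a c₀ 1 y X₀)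
    (ht : R - y ≤ kap a)
    (hG : 0 < G) (hGq : G ≤ ‖∫ x in (0 : ℝ)..y, qq (uu w) x‖)
    (hfin : N + 1 + pay a 1 y ≤ N * (1 + Real.log (1 - a ^ 2) / 2)
      + a * (N * y - ((N : ℝ) + 1) * (av (uu w)).re)
      + y + kap a + Real.log (((N : ℝ) + 1) * G / y) + c₀ * (N / 2 * (1 - SV.sq (uu w)))) :
    False := by
  have hN : 1 ≤ N := by linarith [hC.hN]
  refine phi hC (t := R - y) (cs := 1) (sn := 0)
    (Ec := Real.exp (c₀ * (N / 2 * (1 - SV.sq (uu w))))) (by norm_num) hy hF (by linarith) ht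
    ?_ hG hGq (Real.exp_pos _) ?_ ?_
  · apply Complex.ext <;> simp
  · rw [mul_comm, Real.exp_mul]
    exact Real.rpow_le_rpow (Real.exp_pos _).le (E_ge hN hC.cfg) hc0
  · rw [Real.log_exp]
    linarith

end Pool.Agent.Lib.MP_af3a4a_an.P1.H74
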