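import Pool.Agent.Lib.MP_af3a4a_an.P1.H74.Green
import Pool.Agent.Lib.MP_af3a4a_an.P1.H32.SweepR

/-!
# TAILQ (council 2, helper74)

`29/12 ≤ R`, `1 < x ≤ 3R/5`: with `N M* ≤ K` (real `K > 0`), `μ = muR K R u`,
`r = (R x - 1)/(R - x)`, `Γ ≥ log r`, `Γ ≥ κ (r - 1/r)`:
`|qq u x| ≤ exp ((N - K) log (1 - x/R) + K (log (gg μ₁ x)/2 + Γ - log r))`.
For `R ≥ 3` one may take `Γ = log r` (`gam_le`).
-/

set_option autoImplicit false

namespace Pool.Agent.Lib.MP_af3a4a_an.P1.H74.TailQ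

open Pool.Agent.Lib.MP_af3a4a_an.SV (uu av)
open Pool.Agent.Lib.MP_af3a4a_an.P1.H80
open Pool.Agent.Lib.MP_af3a4a_an.P1.CHK.H80
open Pool.Agent.Lib.MP_af3a4a_an.P1.H32
open Pool.Agent.Lib.MP_af3a4a_an.P1.H28 (cost_sum mstar_le_iff)

/-! ### `Γ = log r` for `R ≥ 3` -/

theorem sinh_chord {t T l : ℝ} (ht : 0 ≤ t) (htT : t ≤ T) (hl : l * Real.sinh T ≤ T) (hl0 : 0 ≤ l) :
    l * Real.sinh t ≤ t := by
  rcases (ht.trans htT).eq_or_lt with hT | hT
  · have : t = 0 := by linarith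
    rw [this, Real.sinh_zero, mul_zero]
  have hconv : ConvexOn ℝ (Set.Ici (0 : ℝ)) Real.sinh := by
    refine convexOn_of_deriv2_nonneg (convex_Ici 0) Real.continuous_sinh.continuousOn
      Real.differentiable_sinh.differentiableOn ?_ ?_
    · rw [Real.deriv_sinh]
      exact Real.differentiable_cosh.differentiableOn
    · intro x hx
      rw [interior_Ici] at hx
      have : deriv^[2] Real.sinh x = Real.sinh x := by
        simp [Real.deriv_sinh, Real.deriv_cosh]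
      rw [this]
      exact (Real.sinh_pos_iff.2 hx).le
  have h1 : Real.sinh t ≤ t / T * Real.sinh T := by
    have h2 := hconv.2 (Set.mem_Ici.2 le_rfl) (Set.mem_Ici.2 hT.le)
      (sub_nonneg.2 ((div_le_one hT).2 htT)) (by positivity : 0 ≤ t / T) (by ring)
    simp only [smul_eq_mul, Real.sinh_zero, mul_zero, zero_add, div_mul_cancel₀ t hT.ne'] at h2
    exact h2
  calc l * Real.sinh t ≤ l * (t / T * Real.sinh T) := mul_le_mul_of_nonneg_left h1 hl0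
    _ = t / T * (l * Real.sinh T) := by ring
    _ ≤ t / T * T := mul_le_mul_of_nonneg_left hl (by positivity)
    _ = t := div_mul_cancel₀ t hT.ne'

theorem log_end {R : ℝ} (hR : 3 ≤ R) :
    (9 * R ^ 2 - 25) / (6 * R ^ 2 - 10) ≤ Real.log ((3 * R ^ 2 - 5) / (2 * R)) := by
  have hR0 : 0 < R := by linarith
  have h1 : 0 < 3 * R ^ 2 - 5 := by nlinarith
  obtain ⟨v, hv⟩ : ∃ v, v = (3 * R ^ 2 - 5) / (2 * R) := ⟨_, rfl⟩
  have hv0 : 0 < v := by rw [hv]; positivity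
  have h2 : (32 / 25 : ℝ) ≤ Real.log (11 / 3) := by
    have e : (11 / 3 : ℝ) = 2 ^ 2 * (11 / 12) := by norm_num
    rw [e, Real.log_mul (by norm_num) (by norm_num), Real.log_pow]
    have h3 := Real.log_two_gt_d9
    have h4 := Real.one_sub_inv_le_log_of_pos (by norm_num : (0 : ℝ) < 11 / 12)
    push_cast
    norm_num at h4
    linarith
  have h3 : 1 - (11 / 3) / v ≤ Real.log v - Real.log (11 / 3) := by
    rw [← Real.log_div hv0.ne' (by norm_num)]
    have h4 := Real.one_sub_inv_le_log_of_pos (by positivity : 0 < v / (11 / 3))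
    rw [inv_div] at h4
    exact h4
  rw [← hv]
  have h5 : (9 * R ^ 2 - 25) / (6 * R ^ 2 - 10) ≤ 32 / 25 + 1 - (11 / 3) / v := by
    have e : (11 / 3) / v = 22 * R / (3 * (3 * R ^ 2 - 5)) := by
      rw [hv]
      field_simp
      ring
    have e2 : (9 * R ^ 2 - 25) / (6 * R ^ 2 - 10) = (9 * R ^ 2 - 25) / (2 * (3 * R ^ 2 - 5)) := by
      congr 1
      ring
    rw [e, e2, div_le_iff₀ (by positivity)]
    have e3 : (32 / 25 + 1 - 22 * R / (3 * (3 * R ^ 2 - 5))) * (2 * (3 * R ^ 2 - 5)) =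
        57 / 25 * (2 * (3 * R ^ 2 - 5)) - 44 * R / 3 := by
      obtain ⟨m, hm⟩ : ∃ m, m = 3 * R ^ 2 - 5 := ⟨_, rfl⟩
      rw [← hm] at h1 ⊢
      field_simp
      ring
    rw [e3]
    nlinarith
  linarith

/-- for `R ≥ 3` one may take `Γ = log r` -/
theorem gam_le {R x : ℝ} (hR : 3 ≤ R) (hx1 : 1 ≤ x) (hx2 : x ≤ 3 * R / 5) :
    R * (x ^ 2 - 1) / ((R - x) * (R * x - 1)) ≤ Real.log ((R * x - 1) / (R - x)) := by
  have hR0 : 0 < R := by linarith
  have hRx : 0 < R - x := by linarith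
  have hRx1 : 0 < R * x - 1 := by nlinarith
  have hD : 0 < R ^ 2 - 1 := by nlinarith
  have h35 : 0 < 3 * R ^ 2 - 5 := by nlinarith
  obtain ⟨r, hr⟩ : ∃ r, r = (R * x - 1) / (R - x) := ⟨_, rfl⟩
  obtain ⟨v, hv⟩ : ∃ v, v = (3 * R ^ 2 - 5) / (2 * R) := ⟨_, rfl⟩
  have hr1 : 1 ≤ r := by rw [hr]; exact Green.aux_r (by linarith) hx1 (by linarith)
  have hr0 : 0 < r := by linarith
  have hrv : r ≤ v := by
    rw [hr, hv, div_le_div_iff₀ hRx (by positivity)]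
    have h1 : 0 ≤ (3 * R / 5 - x) * (R ^ 2 - 1) := mul_nonneg (by linarith) hD.le
    have h2 : (3 * R ^ 2 - 5) * (R - x) - (R * x - 1) * (2 * R) =
        5 * ((3 * R / 5 - x) * (R ^ 2 - 1)) := by ring
    linarith
  have hv0 : 0 < v := by linarith
  have hend := log_end hR
  rw [← hv] at hend
  have h1 := sinh_chord (t := Real.log r) (T := Real.log v) (l := 2 * (R / (R ^ 2 - 1)))
    (Real.log_nonneg hr1) (Real.log_le_log hr0 hrv) ?_ (by positivity)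
  · rw [Real.sinh_log hr0] at h1
    have e : R * (x ^ 2 - 1) / ((R - x) * (R * x - 1)) =
        2 * (R / (R ^ 2 - 1)) * ((r - r⁻¹) / 2) := by
      rw [hr, inv_div]
      obtain ⟨m, hm⟩ : ∃ m, m = R * x - 1 := ⟨_, rfl⟩
      obtain ⟨n, hn⟩ : ∃ n, n = R - x := ⟨_, rfl⟩
      obtain ⟨D, hDd⟩ : ∃ D, D = R ^ 2 - 1 := ⟨_, rfl⟩
      have h2 : D * (x ^ 2 - 1) = m ^ 2 - n ^ 2 := by rw [hm, hn, hDd]; ring
      rw [← hm] at hRx1
      rw [← hn] at hRx
      rw [← hDd] at hD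
      rw [← hm, ← hn, ← hDd]
      have h3 : x ^ 2 - 1 = (m ^ 2 - n ^ 2) / D := by rw [← h2]; field_simp
      rw [h3]
      field_simp
    rw [e, ← hr]
    exact h1
  · rw [Real.sinh_log hv0]
    refine le_trans (le_of_eq ?_) hend
    rw [hv, inv_div]
    obtain ⟨D, hDd⟩ : ∃ D, D = R ^ 2 - 1 := ⟨_, rfl⟩
    obtain ⟨m, hm⟩ : ∃ m, m = 3 * R ^ 2 - 5 := ⟨_, rfl⟩
    have h2 : 6 * R ^ 2 - 10 = 2 * m := by rw [hm]; ring
    have h3 : m ^ 2 - (2 * R) ^ 2 = D * (9 * R ^ 2 - 25) := by rw [hm, hDd]; ring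
    rw [← hm] at h35
    rw [← hDd] at hD
    rw [h2, ← hm, ← hDd]
    have h4 : 9 * R ^ 2 - 25 = (m ^ 2 - (2 * R) ^ 2) / D := by rw [h3]; field_simp
    rw [h4]
    field_simp

/-! ### the product -/

/-- one factor -/
theorem factor {R x G : ℝ} (hR : 29 / 12 ≤ R) (hx1 : 1 ≤ x) (hx2 : x ≤ 3 * R / 5) {w : ℂ}
    (hw : 1 ≤ ‖w‖) (hG1 : Real.log ((R * x - 1) / (R - x)) ≤ G)
    (hG2 : R * (x ^ 2 - 1) / ((R - x) * (R * x - 1)) ≤ G) :
    ‖1 - (x : ℂ) * w⁻¹‖ ≤ x * ((R * x - 1) / (R - x))⁻¹ * ‖1 - ((1 / x : ℝ) : ℂ) * w⁻¹‖ *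
      Real.exp (G * (R / (R ^ 2 - 1) * (‖w - R‖ + (w⁻¹).re - 1 / R))) := by
  have hx0 : 0 < x := by linarith
  have hw0 : w ≠ 0 := by
    intro h
    rw [h, norm_zero] at hw
    linarith
  have hn : 0 < ‖w‖ := norm_pos_iff.2 hw0
  have hxc : (x : ℂ) ≠ 0 := by exact_mod_cast hx0.ne'
  have e1 : ‖w - x‖ = ‖w‖ * ‖1 - (x : ℂ) * w⁻¹‖ := by
    rw [← norm_mul]
    congr 1
    field_simp
  have e2 : ‖(x : ℂ) * w - 1‖ = ‖w‖ * (x * ‖1 - ((1 / x : ℝ) : ℂ) * w⁻¹‖) := by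
    have : (x : ℂ) * w - 1 = w * ((x : ℂ) * (1 - ((1 / x : ℝ) : ℂ) * w⁻¹)) := by
      push_cast
      field_simp
    rw [this, norm_mul, norm_mul, Complex.norm_real, Real.norm_of_nonneg hx0.le]
  have h := Green.green hR hx1 hx2 hw hG1 hG2
  rw [e1, e2] at h
  have h2 : ‖w‖ * ‖1 - (x : ℂ) * w⁻¹‖ ≤ ‖w‖ * (x * ((R * x - 1) / (R - x))⁻¹ *
      ‖1 - ((1 / x : ℝ) : ℂ) * w⁻¹‖ *
      Real.exp (G * (R / (R ^ 2 - 1) * (‖w - R‖ + (w⁻¹).re - 1 / R)))) := by
    refine h.trans (le_of_eq ?_)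
    ring
  exact le_of_mul_le_mul_left h2 hn

section cfg

variable {N : ℕ} {z w : Fin N → ℂ} {R : ℝ} {σ : Fin N → ℂ}

/-- from `1/x` to `x` -/
theorem qq_le (hC : Cfg2 N z w R σ) (hR : 29 / 12 ≤ R) {x G : ℝ}
    (hx1 : 1 ≤ x) (hx2 : x ≤ 3 * R / 5) (hG1 : Real.log ((R * x - 1) / (R - x)) ≤ G)
    (hG2 : R * (x ^ 2 - 1) / ((R - x) * (R * x - 1)) ≤ G) :
    ‖qq (uu w) x‖ ≤ (x * ((R * x - 1) / (R - x))⁻¹) ^ N * ‖qq (uu w) (1 / x)‖ *
      Real.exp (G * (N * (R - 1 + R * (av (uu w)).re) / (R ^ 2 - 1))) := by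
  have hN : 1 ≤ N := by linarith [hC.hN]
  have hR0 : 0 < R := by linarith
  have hx0 : 0 < x := by linarith
  have hb : 0 < R ^ 2 - 1 := by nlinarith
  have hr1 : 1 ≤ (R * x - 1) / (R - x) := Green.aux_r (by linarith) hx1 (by linarith)
  have hG0 : 0 ≤ G := (Real.log_nonneg hr1).trans hG1
  have hr0 : 0 < (R * x - 1) / (R - x) := by linarith
  have h1 : ‖qq (uu w) x‖ ≤ ∏ k, (x * ((R * x - 1) / (R - x))⁻¹ *
      ‖1 - ((1 / x : ℝ) : ℂ) * uu w k‖ *
      Real.exp (G * (R / (R ^ 2 - 1) * (‖w k - R‖ + (uu w k).re - 1 / R)))) := by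
    unfold qq
    rw [norm_prod]
    exact Finset.prod_le_prod (fun k _ => norm_nonneg _)
      (fun k _ => factor hR hx1 hx2 (hC.cfg.far k) hG1 hG2)
  refine h1.trans ?_
  rw [Finset.prod_mul_distrib, Finset.prod_mul_distrib, Finset.prod_const, Finset.card_univ,
    Fintype.card_fin, ← Real.exp_sum, ← norm_prod]
  have h2 : ∑ k, (uu w k).re = N * (av (uu w)).re := by
    have hN0 : (N : ℂ) ≠ 0 := by exact_mod_cast (by omega : N ≠ 0)
    have h3 : ∑ k, uu w k = (N : ℂ) * av (uu w) := by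
      unfold av
      rw [← mul_assoc, mul_one_div_cancel hN0, one_mul]
    have h4 := congrArg Complex.re h3
    rw [Complex.re_sum] at h4
    rw [h4]
    have := Complex.re_ofReal_mul (N : ℝ) (av (uu w))
    push_cast at this
    exact this
  have h5 : ∑ k, ‖w k - R‖ ≤ N := hC.dist.le
  have h6 : ∑ k, G * (R / (R ^ 2 - 1) * (‖w k - R‖ + (uu w k).re - 1 / R)) ≤
      G * (N * (R - 1 + R * (av (uu w)).re) / (R ^ 2 - 1)) := by
    rw [← Finset.mul_sum, ← Finset.mul_sum]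
    refine mul_le_mul_of_nonneg_left ?_ hG0
    rw [Finset.sum_sub_distrib, Finset.sum_add_distrib, h2]
    have e : N * (R - 1 + R * (av (uu w)).re) / (R ^ 2 - 1) =
        R / (R ^ 2 - 1) * (N + N * (av (uu w)).re - N * (1 / R)) := by
      field_simp
      ring
    rw [e]
    refine mul_le_mul_of_nonneg_left ?_ (by positivity)
    simp only [Finset.sum_const, Finset.card_univ, Fintype.card_fin, nsmul_eq_mul]
    linarith
  unfold qq
  exact mul_le_mul_of_nonneg_left (Real.exp_le_exp.2 h6) (by positivity)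

/-- **TAILQ** -/
theorem tailq (hC : Cfg2 N z w R σ) (hR : 29 / 12 ≤ R) {K : ℝ} (hK : 0 < K)
    (hM : N * (R - 1 + R * (av (uu w)).re) / (R ^ 2 - 1) ≤ K) {x G : ℝ}
    (hx1 : 1 < x) (hx2 : x ≤ 3 * R / 5) (hG1 : Real.log ((R * x - 1) / (R - x)) ≤ G)
    (hG2 : R * (x ^ 2 - 1) / ((R - x) * (R * x - 1)) ≤ G) :
    ‖qq (uu w) x‖ ≤ Real.exp ((N - K) * Real.log (1 - x / R) +
      K * (Real.log (gg (muR K R (uu w)).re x) / 2 + G - Real.log ((R * x - 1) / (R - x)))) := by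
  have hN : 1 ≤ N := by linarith [hC.hN]
  have hR0 : 0 < R := by linarith
  have hR1 : 1 < R := by linarith
  have hx0 : 0 < x := by linarith
  have hRx : 0 < R - x := by linarith
  have hRx1 : 0 < R * x - 1 := by
    have : R * 1 ≤ R * x := mul_le_mul_of_nonneg_left hx1.le hR0.le
    linarith
  have hr1 : 1 ≤ (R * x - 1) / (R - x) := Green.aux_r (by linarith) hx1.le (by linarith)
  have hG0 : 0 ≤ G := (Real.log_nonneg hr1).trans hG1
  have hu : ∀ k, ‖uu w k‖ ≤ 1 := fun k => by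
    unfold uu
    rw [norm_inv]
    exact inv_le_one_of_one_le₀ (hC.cfg.far k)
  have hS := sweepR hK hN hR1 hu ((cost_sum hC hR).trans hM)
  have hix0 : 0 ≤ 1 / x := by positivity
  have hix1 : 1 / x < 1 := by rw [div_lt_one hx0]; exact hx1
  have h1 := qq_le hC hR hx1.le hx2 hG1 hG2
  have h2 : ‖qq (uu w) (1 / x)‖ ≤ Real.exp ((N - K) * Real.log (1 - 1 / x / R)) *
      Real.exp (K * (Real.log (gg (muR K R (uu w)).re (1 / x)) / 2)) := by
    rw [qq_eq_QR (K := K) (R := R), norm_mul, Complex.norm_real,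
      Real.norm_of_nonneg (Real.exp_pos _).le]
    exact mul_le_mul_of_nonneg_left (hS.norm_le hix0 hix1) (Real.exp_pos _).le
  obtain ⟨m, hm⟩ : ∃ m, m = (muR K R (uu w)).re := ⟨_, rfl⟩
  have hm1 : |m| ≤ 1 := by
    rw [hm]
    exact (Complex.abs_re_le_norm _).trans hS.m_le
  rw [← hm] at h2 ⊢
  have hg1 : 0 < gg m (1 / x) := gg_pos hm1 (by linarith) hix1
  have eg : gg m x = gg m (1 / x) * x ^ 2 := by
    unfold gg
    field_simp
    ring
  have eg2 : Real.log (gg m x) = Real.log (gg m (1 / x)) + 2 * Real.log x := by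
    rw [eg, Real.log_mul hg1.ne' (by positivity), Real.log_pow]
    push_cast
    ring
  obtain ⟨r, hr⟩ : ∃ r, r = (R * x - 1) / (R - x) := ⟨_, rfl⟩
  rw [← hr] at h1 hr1 ⊢
  have hr0 : 0 < r := by linarith
  have el : Real.log (1 - 1 / x / R) = Real.log (1 - x / R) + Real.log r - Real.log x := by
    have h3 : 0 < 1 - x / R := by
      rw [sub_pos, div_lt_one hR0]
      linarith
    rw [← Real.log_mul h3.ne' hr0.ne', ← Real.log_div (by positivity) hx0.ne']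
    congr 1
    rw [hr]
    field_simp
  have ep : (x * r⁻¹) ^ N = Real.exp (N * (Real.log x - Real.log r)) := by
    rw [mul_comm (N : ℝ), ← Real.rpow_natCast, Real.rpow_def_of_pos (by positivity),
      Real.log_mul hx0.ne' (by positivity), Real.log_inv]
    congr 1
  calc ‖qq (uu w) x‖ ≤ (x * r⁻¹) ^ N * ‖qq (uu w) (1 / x)‖ *
        Real.exp (G * (N * (R - 1 + R * (av (uu w)).re) / (R ^ 2 - 1))) := h1
    _ ≤ (x * r⁻¹) ^ N * (Real.exp ((N - K) * Real.log (1 - 1 / x / R)) *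
        Real.exp (K * (Real.log (gg m (1 / x)) / 2))) * Real.exp (G * K) := by
        have h3 : Real.exp (G * (N * (R - 1 + R * (av (uu w)).re) / (R ^ 2 - 1))) ≤
            Real.exp (G * K) := Real.exp_le_exp.2 (mul_le_mul_of_nonneg_left hM hG0)
        have h4 : 0 ≤ (x * r⁻¹) ^ N := by positivity
        exact mul_le_mul (mul_le_mul_of_nonneg_left h2 h4) h3 (Real.exp_pos _).le (by positivity)
    _ = _ := by
        rw [ep, ← Real.exp_add, ← Real.exp_add, ← Real.exp_add, el, eg2]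
        congr 1
        ring

/-- TAILQ with `N ≤ K (R - Re μ)` -/
theorem tailq' (hC : Cfg2 N z w R σ) (hR : 29 / 12 ≤ R) {K : ℝ} (hK : 0 < K)
    (hM : N ≤ K * (R - (muR K R (uu w)).re)) {x G : ℝ}
    (hx1 : 1 < x) (hx2 : x ≤ 3 * R / 5) (hG1 : Real.log ((R * x - 1) / (R - x)) ≤ G)
    (hG2 : R * (x ^ 2 - 1) / ((R - x) * (R * x - 1)) ≤ G) :
    ‖qq (uu w) x‖ ≤ Real.exp ((N - K) * Real.log (1 - x / R) +
      K * (Real.log (gg (muR K R (uu w)).re x) / 2 + G - Real.log ((R * x - 1) / (R - x)))) := by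
  refine tailq hC hR hK ((mstar_le_iff (by linarith) ?_).2 hM) hx1 hx2 hG1 hG2
  have h1 : (K : ℂ) * muR K R (uu w) =
      (N : ℂ) * av (uu w) - ((N - K : ℝ) : ℂ) * ((1 / R : ℝ) : ℂ) := by
    have hK0 : (K : ℂ) ≠ 0 := by exact_mod_cast hK.ne'
    unfold muR
    push_cast
    field_simp
  have h2 := congrArg Complex.re h1
  rw [Complex.re_ofReal_mul, Complex.sub_re, ← Complex.ofReal_mul, Complex.ofReal_re] at h2
  have h3 : ((N : ℂ) * av (uu w)).re = N * (av (uu w)).re := by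
    have := Complex.re_ofReal_mul (N : ℝ) (av (uu w))
    push_cast at this
    exact this
  rw [h2, h3]
  ring

/-- TAILQ for `R ≥ 3`: `Γ = log r` -/
theorem tailq3 (hC : Cfg2 N z w R σ) (hR : 3 ≤ R) {K : ℝ} (hK : 0 < K)
    (hM : N ≤ K * (R - (muR K R (uu w)).re)) {x : ℝ}
    (hx1 : 1 < x) (hx2 : x ≤ 3 * R / 5) :
    ‖qq (uu w) x‖ ≤ Real.exp ((N - K) * Real.log (1 - x / R) +
      K * (Real.log (gg (muR K R (uu w)).re x) / 2)) := by
  have h := tailq' hC (by linarith) hK hM hx1 hx2 le_rfl (gam_le hR hx1.le hx2)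
  refine h.trans (le_of_eq ?_)
  congr 1
  ring

end cfg

end Pool.Agent.Lib.MP_af3a4a_an.P1.H74.TailQ
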