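import Pool.Agent.Lib.MP_af3a4a_an.P1.H80.Normal

set_option autoImplicit false

/-!
# The certificate at `y = 0` (council 2, piece (A), helper74)

`c0_gen`: for `a ≤ 1/8`, `R ≤ 9/40` and a loss `l`,
`N (log (1 - a²)/2 - l) - a (N+1) Re m + log (N+1) < 1`.

`c0`: for `N ≥ 400` there is no configuration with `N R² ≤ 9`, or with `N R² ≤ 49/4` and
`Re m ≤ 21/50 R`, or `N R² ≤ 16` and `Re m ≤ R/4`, or `N R² ≤ 81/4` and `Re m ≤ 3/25 R`.
-/

namespace Pool.Agent.Lib.MP_af3a4a_an.P1.H74.C0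

open Finset MeasureTheory ComplexConjugate
open Pool.Agent.Lib.MP_af3a4a_an.SV (uu av EE)
open Pool.Agent.Lib.MP_af3a4a_an.P1.H80

theorem log_quarter {R : ℝ} (hR : 0 < R) (h : R ≤ 1 / 4) : Real.log R ≤ -(1386 / 1000) := by
  have h1 := Real.log_le_log hR h
  have h2 : Real.log (1 / 4 : ℝ) = -(2 * Real.log 2) := by
    rw [one_div, Real.log_inv, show (4 : ℝ) = 2 ^ 2 by norm_num, Real.log_pow]
    push_cast
    ring
  have h3 := Real.log_two_gt_d9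
  rw [h2] at h1
  linarith

theorem kap_upper {a : ℝ} (a0 : 0 ≤ a) (a1 : a ≤ 1 / 8) : kap a ≤ 135 / 1000 := by
  unfold kap
  have h1 : Real.log (1 + a) ≤ a := by
    have := Real.log_le_sub_one_of_pos (show 0 < 1 + a by linarith)
    linarith
  have h2 : -Real.log (1 - a) ≤ a / (1 - a) := by
    have := Real.one_sub_inv_le_log_of_pos (show 0 < 1 - a by linarith)
    have e : a / (1 - a) = (1 - a)⁻¹ - 1 := by
      have : (1 : ℝ) - a ≠ 0 := by linarith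
      field_simp
      ring
    rw [e]
    linarith
  have h3 : a / (1 - a) ≤ 1 / 7 := by
    rw [div_le_iff₀ (by linarith)]
    linarith
  linarith

theorem ww_lower {a : ℝ} (a0 : 0 ≤ a) (a1 : a < 1) : a ^ 2 / (2 * (1 + a)) ≤ ww a := by
  have h1 := le_kap a0 a1
  have h2 : a ^ 2 / (2 * (1 + a)) = (a - a / (1 + a)) / 2 := by
    have : (1 : ℝ) + a ≠ 0 := by linarith
    field_simp
    ring
  rw [h2]
  unfold ww
  linarith

theorem certAt_real {a l R : ℝ} (a0 : 0 ≤ a) (a1 : a ≤ 1 / 8) (hR : 0 < R) (hR1 : R ≤ 9 / 40)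
    (hl : 0 ≤ l) (hA : (1 / 2 + (1 + a) ^ 2 * R ^ 2 / 2) * (1 + a) ^ 2 * R ^ 2 ≤
      a ^ 2 / (2 * (1 + a)) + a * R + l) : CertAt a l 1 ((R : ℝ) : ℂ) := by
  have hk := kap_upper a0 a1
  have hk0 := le_kap a0 (by linarith)
  have hw := ww_lower a0 (by linarith)
  have hlog := log_quarter hR (by linarith)
  have hlog1 : Real.log (1 - a ^ 2) ≤ 0 := Real.log_nonpos (by nlinarith) (by nlinarith)
  refine ⟨a0, by linarith, Or.inr ⟨by exact_mod_cast hR.ne', 1 / 2 + (1 + a) ^ 2 * R ^ 2 / 2, ?_⟩⟩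
  have e1 : (conj (1 : ℂ) * (R : ℂ)).re = R := by simp
  have e2 : (conj (1 : ℂ) * (R : ℂ)).im = 0 := by simp
  rw [e1, e2]
  have hAA : 0 ≤ ww a + a * R - (1 / 2 + (1 + a) ^ 2 * R ^ 2 / 2) * (1 + a) ^ 2 * R ^ 2 + l := by
    linarith
  refine ⟨a0, by linarith, ?_, ?_, hAA, ?_, ?_⟩
  · have := min_le_right (1 / 4 : ℝ) ((1 + a) ^ 2 * (R ^ 2 + 0 ^ 2))
    have h2 : (1 + a) ^ 2 * (R ^ 2 + 0 ^ 2) = (1 + a) ^ 2 * R ^ 2 := by ring
    rw [h2] at this ⊢
    linarith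
  · rw [show ((0 : ℝ)) ^ 2 = 0 by norm_num, mul_zero]
    exact hl
  · rw [mul_zero, show ((0 : ℝ)) ^ 2 = 0 by norm_num, mul_zero, sub_zero]
    exact mul_nonneg (mul_nonneg (by norm_num) hAA) hl
  · have h1 : Real.sqrt ((R - kap a) ^ 2 + 0 ^ 2) ≤ R + kap a := by
      rw [show (R - kap a) ^ 2 + (0 : ℝ) ^ 2 = (R - kap a) ^ 2 by ring, Real.sqrt_sq_eq_abs]
      exact abs_le.2 ⟨by linarith, by linarith⟩
    have h2 : Real.log (R ^ 2 + 0 ^ 2) = 2 * Real.log R := by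
      rw [show R ^ 2 + (0 : ℝ) ^ 2 = R ^ 2 by ring, Real.log_pow]
      norm_num
    have h3 : 0 ≤ a * R := mul_nonneg a0 hR.le
    have h4 : a * R - (R + kap a) - 2 * Real.log R / 2 ≤
        a * R - Real.sqrt ((R - kap a) ^ 2 + 0 ^ 2) - Real.log (R ^ 2 + 0 ^ 2) / 2 := by
      rw [h2]
      exact sub_le_sub_right (sub_le_sub_left h1 _) _
    refine le_trans ?_ h4
    linarith

/-- **the certificate at `y = 0`** -/
theorem c0_gen {N : ℕ} {z w : Fin N → ℂ} {R : ℝ} {σ : Fin N → ℂ} (hC : Cfg2 N z w R σ)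
    {a l : ℝ} (a0 : 0 ≤ a) (a1 : a ≤ 1 / 8) (hR1 : R ≤ 9 / 40) (hl : 0 ≤ l)
    (hA : (1 / 2 + (1 + a) ^ 2 * R ^ 2 / 2) * (1 + a) ^ 2 * R ^ 2 ≤
      a ^ 2 / (2 * (1 + a)) + a * R + l) :
    N * (Real.log (1 - a ^ 2) / 2 - l) - a * (((N : ℝ) + 1) * (av (uu w)).re)
      + Real.log ((N : ℝ) + 1) < 1 := by
  have hN := hC.hN
  have hN3 : (3 : ℝ) ≤ N := by exact_mod_cast hN
  have hR := hC.hR
  have hcert := certAt_real a0 a1 hR hR1 hl hA
  have h1 : fI w ((0 : ℝ) : ℂ) = 1 := by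
    unfold fI
    simp
  have ha : a * ((N + 1) / N) ≤ 3 / 10 := by
    have h2 : ((N : ℝ) + 1) / N ≤ 4 / 3 := by
      rw [div_le_iff₀ (by linarith)]
      linarith
    calc a * (((N : ℝ) + 1) / N) ≤ 1 / 8 * (4 / 3) :=
          mul_le_mul a1 h2 (by positivity) (by norm_num)
      _ ≤ 3 / 10 := by norm_num
  have h := hC.cert (e := 1) (y := 0) (a := a) (l := l) (by simp) (by simpa using hcert) ha le_rfl
    hR.le (by rw [sub_zero]; nlinarith) (by linarith) (by nlinarith) (by rw [h1]; exact one_ne_zero)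
  rw [h1, norm_one, mul_one] at h
  have e1 : (conj (1 : ℂ) * conj (av (uu w))).re = (av (uu w)).re := by simp
  rw [e1] at h
  have hk := le_kap a0 (show a < 1 by linarith)
  simp only [Complex.one_re, mul_one, mul_zero, zero_sub, add_zero] at h
  linarith

theorem log_401 {N : ℕ} (hN : 400 ≤ N) : 596 / 100 ≤ Real.log ((N : ℝ) + 1) := by
  have hN' : (400 : ℝ) ≤ N := by exact_mod_cast hN
  have h1 : Real.log ((2 : ℝ) ^ 43) ≤ Real.log (((N : ℝ) + 1) ^ 5) := by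
    apply Real.log_le_log (by positivity)
    calc (2 : ℝ) ^ 43 ≤ 401 ^ 5 := by norm_num
      _ ≤ _ := pow_le_pow_left₀ (by norm_num) (by linarith) 5
  rw [Real.log_pow, Real.log_pow] at h1
  have h2 := Real.log_two_gt_d9
  push_cast at h1
  linarith

theorem log_a {a : ℝ} (a1 : a ^ 2 ≤ 1 / 60) : -(60 / 59 * a ^ 2) ≤ Real.log (1 - a ^ 2) := by
  have h0 : 0 ≤ a ^ 2 := sq_nonneg a
  have := Real.one_sub_inv_le_log_of_pos (show 0 < 1 - a ^ 2 by linarith)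
  have h2 : (1 - a ^ 2)⁻¹ ≤ 1 + 60 / 59 * a ^ 2 := by
    rw [inv_le_comm₀ (by linarith) (by positivity), ← one_div, div_le_iff₀ (by positivity)]
    nlinarith
  linarith

/-- the general scaled form with `a = c R` and no loss -/
theorem c0_scaled {N : ℕ} (hN : 400 ≤ N) {z w : Fin N → ℂ} {R : ℝ} {σ : Fin N → ℂ}
    (hC : Cfg2 N z w R σ) {c f S R1 : ℝ} (c0 : 0 ≤ c) (hR1 : R ≤ R1) (hR2 : R1 ≤ 9 / 40)
    (hf0 : 0 ≤ f) (hf : (av (uu w)).re ≤ f * R) (hS : (N : ℝ) * R ^ 2 ≤ S)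
    (ha : (c * R1) ^ 2 ≤ 1 / 65)
    (hA : (1 / 2 + (1 + c * R1) ^ 2 * R1 ^ 2 / 2) * (1 + c * R1) ^ 2 ≤
      c ^ 2 / (2 * (1 + c * R1)) + c)
    (hS1 : 30 / 59 * c ^ 2 * S + 401 / 400 * (c * f * S) ≤ 496 / 100) : False := by
  have hN' : (400 : ℝ) ≤ N := by exact_mod_cast hN
  have hR := hC.hR
  have hcR : c * R ≤ c * R1 := mul_le_mul_of_nonneg_left hR1 c0
  have hcR0 : 0 ≤ c * R := mul_nonneg c0 hR.le
  have ha2 : (c * R) ^ 2 ≤ 1 / 65 := (pow_le_pow_left₀ hcR0 hcR 2).trans ha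
  have ha1 : c * R ≤ 1 / 8 := by
    by_contra hcon
    push Not at hcon
    have : (1 / 8 : ℝ) ^ 2 < (c * R) ^ 2 := pow_lt_pow_left₀ hcon (by norm_num) (by norm_num)
    norm_num at this
    linarith
  have hR20 : 0 < R ^ 2 := by positivity
  have hA' : (1 / 2 + (1 + c * R) ^ 2 * R ^ 2 / 2) * (1 + c * R) ^ 2 * R ^ 2 ≤
      (c * R) ^ 2 / (2 * (1 + c * R)) + c * R * R + 0 := by
    have h1 : (1 / 2 + (1 + c * R) ^ 2 * R ^ 2 / 2) * (1 + c * R) ^ 2 ≤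
        c ^ 2 / (2 * (1 + c * R)) + c := by
      have h3 : (1 + c * R) ^ 2 ≤ (1 + c * R1) ^ 2 := pow_le_pow_left₀ (by positivity) (by linarith) 2
      have h4 : R ^ 2 ≤ R1 ^ 2 := pow_le_pow_left₀ hR.le hR1 2
      have h5 : c ^ 2 / (2 * (1 + c * R1)) ≤ c ^ 2 / (2 * (1 + c * R)) := by
        apply div_le_div_of_nonneg_left (sq_nonneg c) (by positivity)
        linarith
      have h6 : (1 + c * R) ^ 2 * R ^ 2 ≤ (1 + c * R1) ^ 2 * R1 ^ 2 :=
        mul_le_mul h3 h4 (sq_nonneg R) (sq_nonneg _)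
      have h7 : (1 / 2 + (1 + c * R) ^ 2 * R ^ 2 / 2) * (1 + c * R) ^ 2 ≤
          (1 / 2 + (1 + c * R1) ^ 2 * R1 ^ 2 / 2) * (1 + c * R1) ^ 2 :=
        mul_le_mul (by linarith) h3 (sq_nonneg _) (by positivity)
      linarith
    have h2 := mul_le_mul_of_nonneg_right h1 hR20.le
    have e : (c ^ 2 / (2 * (1 + c * R)) + c) * R ^ 2 =
        (c * R) ^ 2 / (2 * (1 + c * R)) + c * R * R + 0 := by ring
    rw [← e]
    exact h2
  have h := c0_gen hC hcR0 ha1 (hR1.trans hR2) le_rfl hA'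
  have hlog := log_401 hN
  have hlog2 := log_a (a := c * R) (by linarith)
  have hm : c * R * (((N : ℝ) + 1) * (av (uu w)).re) ≤ 401 / 400 * (c * f * S) := by
    calc c * R * (((N : ℝ) + 1) * (av (uu w)).re) ≤ c * R * (((N : ℝ) + 1) * (f * R)) := by
          apply mul_le_mul_of_nonneg_left _ hcR0
          exact mul_le_mul_of_nonneg_left hf (by positivity)
      _ = (c * f) * ((((N : ℝ) + 1)) * R ^ 2) := by ring
      _ ≤ (c * f) * (401 / 400 * S) := by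
          apply mul_le_mul_of_nonneg_left _ (mul_nonneg c0 hf0)
          calc ((N : ℝ) + 1) * R ^ 2 ≤ (401 / 400 * N) * R ^ 2 := by
                apply mul_le_mul_of_nonneg_right _ hR20.le
                linarith
            _ = 401 / 400 * (N * R ^ 2) := by ring
            _ ≤ _ := by linarith
      _ = _ := by ring
  have hl : -(30 / 59 * c ^ 2 * S) ≤ N * (Real.log (1 - (c * R) ^ 2) / 2 - 0) := by
    have h1 : (N : ℝ) * (-(60 / 59 * (c * R) ^ 2) / 2) ≤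
        N * (Real.log (1 - (c * R) ^ 2) / 2 - 0) := by
      apply mul_le_mul_of_nonneg_left _ (by linarith)
      linarith
    have h2 : (N : ℝ) * (-(60 / 59 * (c * R) ^ 2) / 2) = -(30 / 59 * c ^ 2 * (N * R ^ 2)) := by ring
    have h3 : 30 / 59 * c ^ 2 * (N * R ^ 2) ≤ 30 / 59 * c ^ 2 * S :=
      mul_le_mul_of_nonneg_left hS (by positivity)
    linarith
  linarith

theorem R_le {N : ℕ} (hN : 400 ≤ N) {R T : ℝ} (hT : 0 ≤ T) (h : (N : ℝ) * R ^ 2 ≤ 400 * T ^ 2) :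
    R ≤ T := by
  have hN' : (400 : ℝ) ≤ N := by exact_mod_cast hN
  have h1 : 400 * R ^ 2 ≤ 400 * T ^ 2 := by
    have := mul_le_mul_of_nonneg_right hN' (sq_nonneg R)
    linarith
  by_contra hcon
  push Not at hcon
  have h2 : T ^ 2 < R ^ 2 := pow_lt_pow_left₀ hcon hT (by norm_num)
  linarith

/-- **Piece (A)**: `N ≥ 400` and `√N R` small. -/
theorem c0 {N : ℕ} (hN : 400 ≤ N) {z w : Fin N → ℂ} {R : ℝ} {σ : Fin N → ℂ}
    (hC : Cfg2 N z w R σ)
    (h : (N : ℝ) * R ^ 2 ≤ 9 ∨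
      ((N : ℝ) * R ^ 2 ≤ 49 / 4 ∧ (av (uu w)).re ≤ 21 / 50 * R) ∨
      ((N : ℝ) * R ^ 2 ≤ 16 ∧ (av (uu w)).re ≤ 1 / 4 * R) ∨
      ((N : ℝ) * R ^ 2 ≤ 81 / 4 ∧ (av (uu w)).re ≤ 3 / 25 * R)) : False := by
  have hN' : (400 : ℝ) ≤ N := by exact_mod_cast hN
  have hR := hC.hR
  rcases h with h | ⟨h, hf⟩ | ⟨h, hf⟩ | ⟨h, hf⟩
  · have hR1 : R ≤ 3 / 20 := R_le hN (by norm_num) (by norm_num; exact h)
    have hR2 : R ^ 2 ≤ 9 / 400 := by nlinarith
    have h1 := c0_gen hC (a := 0) (l := (1 / 2 + R ^ 2 / 2) * R ^ 2) le_rfl (by norm_num)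
      (by linarith) (by positivity) (by norm_num)
    have hlog := log_401 hN
    have h2 : (N : ℝ) * ((1 / 2 + R ^ 2 / 2) * R ^ 2) ≤ 9 * (409 / 800) := by
      have e : (N : ℝ) * ((1 / 2 + R ^ 2 / 2) * R ^ 2) = (N * R ^ 2) * (1 / 2 + R ^ 2 / 2) := by
        ring
      rw [e]
      exact mul_le_mul h (by linarith) (by positivity) (by norm_num)
    have h3 : Real.log (1 - (0 : ℝ) ^ 2) = 0 := by norm_num
    rw [h3] at h1
    linarith
  · have hR1 : R ≤ 7 / 40 := R_le hN (by norm_num) (by norm_num; linarith)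
    exact c0_scaled hN hC (c := 52 / 100) (f := 21 / 50) (S := 49 / 4) (R1 := 7 / 40) (by norm_num)
      hR1 (by norm_num) (by norm_num) hf h (by norm_num) (by norm_num) (by norm_num)
  · have hR1 : R ≤ 1 / 5 := R_le hN (by norm_num) (by norm_num; linarith)
    exact c0_scaled hN hC (c := 53 / 100) (f := 1 / 4) (S := 16) (R1 := 1 / 5) (by norm_num)
      hR1 (by norm_num) (by norm_num) hf h (by norm_num) (by norm_num) (by norm_num)
  · have hR1 : R ≤ 9 / 40 := R_le hN (by norm_num) (by norm_num; linarith)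
    exact c0_scaled hN hC (c := 55 / 100) (f := 3 / 25) (S := 81 / 4) (R1 := 9 / 40) (by norm_num)
      hR1 (by norm_num) (by norm_num) hf h (by norm_num) (by norm_num) (by norm_num)

end Pool.Agent.Lib.MP_af3a4a_an.P1.H74.C0
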