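import Pool.Agent.Lib.MP_af3a4a_an.P1.H74.C0

set_option autoImplicit false

/-!
# The certificate at `y = 0` for smaller `N` (council 2, helper74)

`c0_scaled2`: general lower bound `N₀ ≤ N`; `c0_250`, `c0_200`, `c0_300`: the staircases
`N R² ≤ S`, `Re m ≤ f R` which are impossible.
-/

namespace Pool.Agent.Lib.MP_af3a4a_an.P1.H74.C0

open Finset MeasureTheory ComplexConjugate
open Pool.Agent.Lib.MP_af3a4a_an.SV (uu av EE)
open Pool.Agent.Lib.MP_af3a4a_an.P1.H80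

theorem exp_pow_lt (n : ℕ) (hn : n ≠ 0) : Real.exp n < (27182818286 / 10000000000 : ℝ) ^ n := by
  have h := Real.exp_one_lt_d9
  have e : Real.exp n = Real.exp 1 ^ n := by rw [← Real.exp_nat_mul, mul_one]
  rw [e]
  apply pow_lt_pow_left₀ _ (Real.exp_pos 1).le hn
  norm_num at h ⊢
  exact h

theorem log_three_tenths {R : ℝ} (hR : 0 < R) (h : R ≤ 3 / 10) : Real.log R ≤ -(6 / 5) := by
  have h1 := Real.log_le_log hR h
  have h2 : Real.log (3 / 10 : ℝ) = -Real.log (10 / 3) := by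
    rw [← Real.log_inv]
    norm_num
  have h3 : (6 : ℝ) ≤ Real.log ((10 / 3 : ℝ) ^ 5) := by
    rw [Real.le_log_iff_exp_le (by positivity)]
    have := exp_pow_lt 6 (by norm_num)
    push_cast at this
    refine this.le.trans ?_
    norm_num
  rw [Real.log_pow] at h3
  push_cast at h3
  linarith

theorem kap_upper2 {a : ℝ} (a0 : 0 ≤ a) (a1 : a ≤ 19 / 100) : kap a ≤ 1 / 5 := by
  unfold kap
  have h1 : Real.log (1 + a) - Real.log (1 - a) ≤ 2 / 5 := by
    rw [← Real.log_div (by linarith) (by linarith), Real.log_le_iff_le_exp (by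
      apply div_pos <;> linarith)]
    have h2 := Real.quadratic_le_exp_of_nonneg (show (0 : ℝ) ≤ 2 / 5 by norm_num)
    refine le_trans ?_ h2
    rw [div_le_iff₀ (by linarith)]
    linarith
  linarith

theorem certAt_real2 {a l R : ℝ} (a0 : 0 ≤ a) (a1 : a ≤ 19 / 100) (hR : 0 < R) (hR1 : R ≤ 3 / 10)
    (hR2 : R - a ≤ 1 / 5)
    (hl : 0 ≤ l) (hA : (1 / 2 + (1 + a) ^ 2 * R ^ 2 / 2) * (1 + a) ^ 2 * R ^ 2 ≤
      a ^ 2 / (2 * (1 + a)) + a * R + l) : CertAt a l 1 ((R : ℝ) : ℂ) := by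
  have hk := kap_upper2 a0 a1
  have hk0 := le_kap a0 (by linarith)
  have hw := ww_lower a0 (by linarith)
  have hlog := log_three_tenths hR hR1
  have hlog1 : Real.log (1 - a ^ 2) ≤ 0 := Real.log_nonpos (by nlinarith) (by nlinarith)
  refine ⟨a0, by linarith, Or.inr ⟨by exact_mod_cast hR.ne', 1 / 2 + (1 + a) ^ 2 * R ^ 2 / 2, ?_⟩⟩
  have e1 : (conj (1 : ℂ) * (R : ℂ)).re = R := by simp
  have e2 : (conj (1 : ℂ) * (R : ℂ)).im = 0 := by simp
  rw [e1, e2]
  have hAA : 0 ≤ ww a + a * R - (1 / 2 + (1 + a) ^ 2 * R ^ 2 / 2) * (1 + a) ^ 2 * R ^ 2 + l := by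
    linarith
  refine ⟨a0, by linarith, ?_, ?_, hAA, ?_, ?_⟩
  · have := min_le_right (1 / 4 : ℝ) ((1 + a) ^ 2 * (R ^ 2 + 0 ^ 2))
    have h2 : (1 + a) ^ 2 * (R ^ 2 + 0 ^ 2) = (1 + a) ^ 2 * R ^ 2 := by ring
    rw [h2] at this ⊢
    linarith
  · rw [show ((0 : ℝ)) ^ 2 = 0 by norm_num, mul_zero]
    exact hl
  · rw [mul_zero, show ((0 : ℝ)) ^ 2 = 0 by norm_num, mul_zero, sub_zero]
    exact mul_nonneg (mul_nonneg (by norm_num) hAA) hl
  · have h1 : Real.sqrt ((R - kap a) ^ 2 + 0 ^ 2) ≤ 1 / 5 := by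
      rw [show (R - kap a) ^ 2 + (0 : ℝ) ^ 2 = (R - kap a) ^ 2 by ring, Real.sqrt_sq_eq_abs]
      exact abs_le.2 ⟨by linarith, by linarith⟩
    have h2 : Real.log (R ^ 2 + 0 ^ 2) = 2 * Real.log R := by
      rw [show R ^ 2 + (0 : ℝ) ^ 2 = R ^ 2 by ring, Real.log_pow]
      norm_num
    have h3 : 0 ≤ a * R := mul_nonneg a0 hR.le
    have h4 : a * R - 1 / 5 - 2 * Real.log R / 2 ≤
        a * R - Real.sqrt ((R - kap a) ^ 2 + 0 ^ 2) - Real.log (R ^ 2 + 0 ^ 2) / 2 := by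
      rw [h2]
      exact sub_le_sub_right (sub_le_sub_left h1 _) _
    refine le_trans ?_ h4
    linarith

/-- **the certificate at `y = 0`**, larger `R` -/
theorem c0_gen2 {N : ℕ} {z w : Fin N → ℂ} {R : ℝ} {σ : Fin N → ℂ} (hC : Cfg2 N z w R σ)
    {a l : ℝ} (a0 : 0 ≤ a) (a1 : a ≤ 19 / 100) (hR1 : R ≤ 3 / 10) (hR2 : R - a ≤ 1 / 5)
    (hl : 0 ≤ l)
    (hA : (1 / 2 + (1 + a) ^ 2 * R ^ 2 / 2) * (1 + a) ^ 2 * R ^ 2 ≤
      a ^ 2 / (2 * (1 + a)) + a * R + l) :
    N * (Real.log (1 - a ^ 2) / 2 - l) - a * (((N : ℝ) + 1) * (av (uu w)).re)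
      + Real.log ((N : ℝ) + 1) < 1 := by
  have hN := hC.hN
  have hN3 : (3 : ℝ) ≤ N := by exact_mod_cast hN
  have hR := hC.hR
  have hcert := certAt_real2 a0 a1 hR hR1 hR2 hl hA
  have h1 : fI w ((0 : ℝ) : ℂ) = 1 := by
    unfold fI
    simp
  have ha : a * ((N + 1) / N) ≤ 3 / 10 := by
    have h2 : ((N : ℝ) + 1) / N ≤ 4 / 3 := by
      rw [div_le_iff₀ (by linarith)]
      linarith
    calc a * (((N : ℝ) + 1) / N) ≤ 19 / 100 * (4 / 3) :=
          mul_le_mul a1 h2 (by positivity) (by norm_num)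
      _ ≤ 3 / 10 := by norm_num
  have h := hC.cert (e := 1) (y := 0) (a := a) (l := l) (by simp) (by simpa using hcert) ha le_rfl
    hR.le (by rw [sub_zero]; nlinarith) (by linarith) (by nlinarith) (by rw [h1]; exact one_ne_zero)
  rw [h1, norm_one, mul_one] at h
  have e1 : (conj (1 : ℂ) * conj (av (uu w))).re = (av (uu w)).re := by simp
  rw [e1] at h
  have hk := le_kap a0 (show a < 1 by linarith)
  simp only [Complex.one_re, mul_one, mul_zero, zero_sub, add_zero] at h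
  linarith

theorem one_sub_inv {x : ℝ} (h : 0 < 1 - x) : 1 - (1 - x)⁻¹ = -(x / (1 - x)) := by
  have := h.ne'
  field_simp
  ring

theorem half_frac {p q lam n S : ℝ} (h : 0 < 1 - q) :
    n * (-(p * S / (1 - q)) / 2 - lam * S) = -((p / (2 * (1 - q)) + lam) * (n * S)) := by
  have := h.ne'
  field_simp
  ring

/-- the general scaled form: `a = c R`, loss `λ R²`, `N ≥ N₀` -/
theorem c0_scaled2 {N : ℕ} {z w : Fin N → ℂ} {R : ℝ} {σ : Fin N → ℂ}
    (hC : Cfg2 N z w R σ) {N₀ c f lam S R1 L : ℝ} (hN0 : 3 ≤ N₀) (hN : N₀ ≤ N) (c0 : 0 ≤ c)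
    (c1 : c ≤ 1) (hlam : 0 ≤ lam) (hR0 : 0 ≤ R1) (hR1 : R1 ≤ 3 / 10) (hSR : S ≤ N₀ * R1 ^ 2)
    (ha : c * R1 ≤ 19 / 100) (hR2 : (1 - c) * R1 ≤ 1 / 5) (hf0 : 0 ≤ f)
    (hf : c = 0 ∨ (av (uu w)).re ≤ f * R) (hS : (N : ℝ) * R ^ 2 ≤ S)
    (hA : (1 / 2 + (1 + c * R1) ^ 2 * R1 ^ 2 / 2) * (1 + c * R1) ^ 2 ≤
      c ^ 2 / (2 * (1 + c * R1)) + c + lam) (hL : L ≤ Real.log (N₀ + 1))
    (hS1 : (c ^ 2 / (2 * (1 - (c * R1) ^ 2)) + lam + (N₀ + 1) / N₀ * (c * f)) * S ≤ L - 1) :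
    False := by
  have hR := hC.hR
  have hN0p : 0 < N₀ := by linarith
  have hNp : (0 : ℝ) < N := by linarith
  have hRR : R ≤ R1 := by
    by_contra hcon
    push Not at hcon
    have h2 : R1 ^ 2 < R ^ 2 := pow_lt_pow_left₀ hcon hR0 (by norm_num)
    have h3 : N₀ * R ^ 2 ≤ N * R ^ 2 := mul_le_mul_of_nonneg_right hN (sq_nonneg R)
    have h4 : N₀ * R1 ^ 2 < N₀ * R ^ 2 := mul_lt_mul_of_pos_left h2 hN0p
    linarith
  have hcR : c * R ≤ c * R1 := mul_le_mul_of_nonneg_left hRR c0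
  have hcR0 : 0 ≤ c * R := mul_nonneg c0 hR.le
  have hcR1 : 0 ≤ c * R1 := mul_nonneg c0 hR0
  have hR20 : 0 < R ^ 2 := by positivity
  have hA' : (1 / 2 + (1 + c * R) ^ 2 * R ^ 2 / 2) * (1 + c * R) ^ 2 * R ^ 2 ≤
      (c * R) ^ 2 / (2 * (1 + c * R)) + c * R * R + lam * R ^ 2 := by
    have h1 : (1 / 2 + (1 + c * R) ^ 2 * R ^ 2 / 2) * (1 + c * R) ^ 2 ≤
        c ^ 2 / (2 * (1 + c * R)) + c + lam := by
      have h3 : (1 + c * R) ^ 2 ≤ (1 + c * R1) ^ 2 := pow_le_pow_left₀ (by positivity) (by linarith) 2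
      have h4 : R ^ 2 ≤ R1 ^ 2 := pow_le_pow_left₀ hR.le hRR 2
      have h5 : c ^ 2 / (2 * (1 + c * R1)) ≤ c ^ 2 / (2 * (1 + c * R)) := by
        apply div_le_div_of_nonneg_left (sq_nonneg c) (by positivity)
        linarith
      have h6 : (1 + c * R) ^ 2 * R ^ 2 ≤ (1 + c * R1) ^ 2 * R1 ^ 2 :=
        mul_le_mul h3 h4 (sq_nonneg R) (sq_nonneg _)
      have h7 : (1 / 2 + (1 + c * R) ^ 2 * R ^ 2 / 2) * (1 + c * R) ^ 2 ≤
          (1 / 2 + (1 + c * R1) ^ 2 * R1 ^ 2 / 2) * (1 + c * R1) ^ 2 :=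
        mul_le_mul (by linarith) h3 (sq_nonneg _) (by positivity)
      linarith
    have h2 := mul_le_mul_of_nonneg_right h1 hR20.le
    have e : (c ^ 2 / (2 * (1 + c * R)) + c + lam) * R ^ 2 =
        (c * R) ^ 2 / (2 * (1 + c * R)) + c * R * R + lam * R ^ 2 := by ring
    rw [← e]
    exact h2
  have hRa : R - c * R ≤ 1 / 5 := by
    have h1 : (1 - c) * R ≤ (1 - c) * R1 := mul_le_mul_of_nonneg_left hRR (by linarith)
    linarith
  have h := c0_gen2 hC hcR0 (hcR.trans ha) (hRR.trans hR1) hRa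
    (mul_nonneg hlam hR20.le) hA'
  have hlog : L ≤ Real.log ((N : ℝ) + 1) :=
    hL.trans (Real.log_le_log (by linarith) (by linarith))
  have hq1 : (c * R1) ^ 2 ≤ (19 / 100) ^ 2 := pow_le_pow_left₀ hcR1 ha 2
  have hq : (c * R) ^ 2 ≤ (c * R1) ^ 2 := pow_le_pow_left₀ hcR0 hcR 2
  have hd1 : 0 < 1 - (c * R1) ^ 2 := by norm_num at hq1; linarith
  have hlog2 : -((c * R) ^ 2 / (1 - (c * R1) ^ 2)) ≤ Real.log (1 - (c * R) ^ 2) := by
    have h1 := Real.one_sub_inv_le_log_of_pos (show 0 < 1 - (c * R) ^ 2 by linarith)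
    have h2 := one_sub_inv (show 0 < 1 - (c * R) ^ 2 by linarith)
    have h3 : (c * R) ^ 2 / (1 - (c * R) ^ 2) ≤ (c * R) ^ 2 / (1 - (c * R1) ^ 2) :=
      div_le_div_of_nonneg_left (sq_nonneg _) hd1 (by linarith)
    linarith
  have hm : c * R * (((N : ℝ) + 1) * (av (uu w)).re) ≤ (N₀ + 1) / N₀ * (c * f) * (N * R ^ 2) := by
    rcases hf with h0 | hf
    · rw [h0]
      simp
    · calc c * R * (((N : ℝ) + 1) * (av (uu w)).re) ≤ c * R * (((N : ℝ) + 1) * (f * R)) := by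
            apply mul_le_mul_of_nonneg_left _ hcR0
            exact mul_le_mul_of_nonneg_left hf (by positivity)
        _ = (c * f) * R ^ 2 * ((N : ℝ) + 1) := by ring
        _ ≤ (c * f) * R ^ 2 * ((N₀ + 1) / N₀ * N) := by
            apply mul_le_mul_of_nonneg_left _ (by positivity)
            rw [div_mul_eq_mul_div, le_div_iff₀ hN0p]
            linarith
        _ = _ := by ring
  have hl : -((c ^ 2 / (2 * (1 - (c * R1) ^ 2)) + lam) * (N * R ^ 2)) ≤
      N * (Real.log (1 - (c * R) ^ 2) / 2 - lam * R ^ 2) := by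
    have h1 : (N : ℝ) * (-((c * R) ^ 2 / (1 - (c * R1) ^ 2)) / 2 - lam * R ^ 2) ≤
        N * (Real.log (1 - (c * R) ^ 2) / 2 - lam * R ^ 2) := by
      apply mul_le_mul_of_nonneg_left _ hNp.le
      linarith
    have h2 : (N : ℝ) * (-((c * R) ^ 2 / (1 - (c * R1) ^ 2)) / 2 - lam * R ^ 2) =
        -((c ^ 2 / (2 * (1 - (c * R1) ^ 2)) + lam) * (N * R ^ 2)) := by
      rw [mul_pow c R]
      exact half_frac hd1
    linarith
  have hK : 0 ≤ c ^ 2 / (2 * (1 - (c * R1) ^ 2)) + lam + (N₀ + 1) / N₀ * (c * f) := by positivity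
  have hfin := mul_le_mul_of_nonneg_left hS hK
  have e : (c ^ 2 / (2 * (1 - (c * R1) ^ 2)) + lam + (N₀ + 1) / N₀ * (c * f)) * (N * R ^ 2) =
      (c ^ 2 / (2 * (1 - (c * R1) ^ 2)) + lam) * (N * R ^ 2) +
        (N₀ + 1) / N₀ * (c * f) * (N * R ^ 2) := by ring
  linarith

theorem log_250 : (138 / 25 : ℝ) ≤ Real.log (250 + 1) := by
  rw [show (250 : ℝ) + 1 = 251 by norm_num]
  have h : (138 : ℝ) ≤ Real.log ((251 : ℝ) ^ 25) := by
    rw [Real.le_log_iff_exp_le (by positivity)]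
    have := exp_pow_lt 138 (by norm_num)
    push_cast at this
    refine this.le.trans ?_
    norm_num
  rw [Real.log_pow] at h
  push_cast at h
  linarith

theorem log_200 : (53 / 10 : ℝ) ≤ Real.log (200 + 1) := by
  rw [show (200 : ℝ) + 1 = 201 by norm_num]
  have h : (53 : ℝ) ≤ Real.log ((201 : ℝ) ^ 10) := by
    rw [Real.le_log_iff_exp_le (by positivity)]
    have := exp_pow_lt 53 (by norm_num)
    push_cast at this
    refine this.le.trans ?_
    norm_num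
  rw [Real.log_pow] at h
  push_cast at h
  linarith

theorem log_300 : (57 / 10 : ℝ) ≤ Real.log (300 + 1) := by
  rw [show (300 : ℝ) + 1 = 301 by norm_num]
  have h : (57 : ℝ) ≤ Real.log ((301 : ℝ) ^ 10) := by
    rw [Real.le_log_iff_exp_le (by positivity)]
    have := exp_pow_lt 57 (by norm_num)
    push_cast at this
    refine this.le.trans ?_
    norm_num
  rw [Real.log_pow] at h
  push_cast at h
  linarith

/-- **Piece (A)** for `N ≥ 250`. -/
theorem c0_250 {N : ℕ} (hN : 250 ≤ N) {z w : Fin N → ℂ} {R : ℝ} {σ : Fin N → ℂ}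
    (hC : Cfg2 N z w R σ)
    (h : (N : ℝ) * R ^ 2 ≤ 873 / 100 ∨
      ((N : ℝ) * R ^ 2 ≤ 248 / 25 ∧ (av (uu w)).re ≤ 3 / 5 * R) ∨
      ((N : ℝ) * R ^ 2 ≤ 1089 / 100 ∧ (av (uu w)).re ≤ 1 / 2 * R) ∨
      ((N : ℝ) * R ^ 2 ≤ 119 / 10 ∧ (av (uu w)).re ≤ 21 / 50 * R) ∨
      ((N : ℝ) * R ^ 2 ≤ 333 / 25 ∧ (av (uu w)).re ≤ 33 / 100 * R) ∨
      ((N : ℝ) * R ^ 2 ≤ 741 / 50 ∧ (av (uu w)).re ≤ 1 / 4 * R) ∨
      ((N : ℝ) * R ^ 2 ≤ 16 ∧ (av (uu w)).re ≤ 1 / 5 * R) ∨
      ((N : ℝ) * R ^ 2 ≤ 1681 / 100 ∧ (av (uu w)).re ≤ 4 / 25 * R) ∨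
      ((N : ℝ) * R ^ 2 ≤ 903 / 50 ∧ (av (uu w)).re ≤ 3 / 25 * R) ∨
      ((N : ℝ) * R ^ 2 ≤ 484 / 25 ∧ (av (uu w)).re ≤ 2 / 25 * R) ∨
      ((N : ℝ) * R ^ 2 ≤ 81 / 4 ∧ (av (uu w)).re ≤ 1 / 25 * R)) : False := by
  have hN' : (250 : ℝ) ≤ N := by exact_mod_cast hN
  rcases h with h | ⟨h, hf⟩ | ⟨h, hf⟩ | ⟨h, hf⟩ | ⟨h, hf⟩ | ⟨h, hf⟩ | ⟨h, hf⟩ | ⟨h, hf⟩ | ⟨h, hf⟩ | ⟨h, hf⟩ | ⟨h, hf⟩
  · exact c0_scaled2 hC (N₀ := 250) (c := 0) (f := 1) (lam := 1034969 / 2000000) (S := 873 / 100) (R1 := 187 / 1000)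
      (L := 138 / 25) (by norm_num) hN' (by norm_num) (by norm_num) (by norm_num) (by norm_num)
      (by norm_num) (by norm_num) (by norm_num) (by norm_num) (by norm_num) (Or.inl rfl) h
      (by norm_num) log_250 (by norm_num)
  · exact c0_scaled2 hC (N₀ := 250) (c := 43 / 100) (f := 3 / 5) (lam := 103 / 1000) (S := 248 / 25) (R1 := 1 / 5)
      (L := 138 / 25) (by norm_num) hN' (by norm_num) (by norm_num) (by norm_num) (by norm_num)
      (by norm_num) (by norm_num) (by norm_num) (by norm_num) (by norm_num) (Or.inr hf) h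
      (by norm_num) log_250 (by norm_num)
  · exact c0_scaled2 hC (N₀ := 250) (c := 23 / 50) (f := 1 / 2) (lam := 19 / 250) (S := 1089 / 100) (R1 := 209 / 1000)
      (L := 138 / 25) (by norm_num) hN' (by norm_num) (by norm_num) (by norm_num) (by norm_num)
      (by norm_num) (by norm_num) (by norm_num) (by norm_num) (by norm_num) (Or.inr hf) h
      (by norm_num) log_250 (by norm_num)
  · exact c0_scaled2 hC (N₀ := 250) (c := 49 / 100) (f := 21 / 50) (lam := 51 / 1000) (S := 119 / 10) (R1 := 219 / 1000)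
      (L := 138 / 25) (by norm_num) hN' (by norm_num) (by norm_num) (by norm_num) (by norm_num)
      (by norm_num) (by norm_num) (by norm_num) (by norm_num) (by norm_num) (Or.inr hf) h
      (by norm_num) log_250 (by norm_num)
  · exact c0_scaled2 hC (N₀ := 250) (c := 13 / 25) (f := 33 / 100) (lam := 29 / 1000) (S := 333 / 25) (R1 := 231 / 1000)
      (L := 138 / 25) (by norm_num) hN' (by norm_num) (by norm_num) (by norm_num) (by norm_num)
      (by norm_num) (by norm_num) (by norm_num) (by norm_num) (by norm_num) (Or.inr hf) h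
      (by norm_num) log_250 (by norm_num)
  · exact c0_scaled2 hC (N₀ := 250) (c := 27 / 50) (f := 1 / 4) (lam := 21 / 1000) (S := 741 / 50) (R1 := 61 / 250)
      (L := 138 / 25) (by norm_num) hN' (by norm_num) (by norm_num) (by norm_num) (by norm_num)
      (by norm_num) (by norm_num) (by norm_num) (by norm_num) (by norm_num) (Or.inr hf) h
      (by norm_num) log_250 (by norm_num)
  · exact c0_scaled2 hC (N₀ := 250) (c := 14 / 25) (f := 1 / 5) (lam := 9 / 1000) (S := 16) (R1 := 253 / 1000)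
      (L := 138 / 25) (by norm_num) hN' (by norm_num) (by norm_num) (by norm_num) (by norm_num)
      (by norm_num) (by norm_num) (by norm_num) (by norm_num) (by norm_num) (Or.inr hf) h
      (by norm_num) log_250 (by norm_num)
  · exact c0_scaled2 hC (N₀ := 250) (c := 14 / 25) (f := 4 / 25) (lam := 9 / 500) (S := 1681 / 100) (R1 := 13 / 50)
      (L := 138 / 25) (by norm_num) hN' (by norm_num) (by norm_num) (by norm_num) (by norm_num)
      (by norm_num) (by norm_num) (by norm_num) (by norm_num) (by norm_num) (Or.inr hf) h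
      (by norm_num) log_250 (by norm_num)
  · exact c0_scaled2 hC (N₀ := 250) (c := 29 / 50) (f := 3 / 25) (lam := 1 / 125) (S := 903 / 50) (R1 := 269 / 1000)
      (L := 138 / 25) (by norm_num) hN' (by norm_num) (by norm_num) (by norm_num) (by norm_num)
      (by norm_num) (by norm_num) (by norm_num) (by norm_num) (by norm_num) (Or.inr hf) h
      (by norm_num) log_250 (by norm_num)
  · exact c0_scaled2 hC (N₀ := 250) (c := 3 / 5) (f := 2 / 25) (lam := 0) (S := 484 / 25) (R1 := 279 / 1000)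
      (L := 138 / 25) (by norm_num) hN' (by norm_num) (by norm_num) (by norm_num) (by norm_num)
      (by norm_num) (by norm_num) (by norm_num) (by norm_num) (by norm_num) (Or.inr hf) h
      (by norm_num) log_250 (by norm_num)
  · exact c0_scaled2 hC (N₀ := 250) (c := 59 / 100) (f := 1 / 25) (lam := 19 / 1000) (S := 81 / 4) (R1 := 57 / 200)
      (L := 138 / 25) (by norm_num) hN' (by norm_num) (by norm_num) (by norm_num) (by norm_num)
      (by norm_num) (by norm_num) (by norm_num) (by norm_num) (by norm_num) (Or.inr hf) h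
      (by norm_num) log_250 (by norm_num)

/-- **Piece (A)** for `N ≥ 200`. -/
theorem c0_200 {N : ℕ} (hN : 200 ≤ N) {z w : Fin N → ℂ} {R : ℝ} {σ : Fin N → ℂ}
    (hC : Cfg2 N z w R σ)
    (h : (N : ℝ) * R ^ 2 ≤ 8 ∨
      ((N : ℝ) * R ^ 2 ≤ 9 ∧ (av (uu w)).re ≤ 3 / 5 * R) ∨
      ((N : ℝ) * R ^ 2 ≤ 248 / 25 ∧ (av (uu w)).re ≤ 1 / 2 * R) ∨
      ((N : ℝ) * R ^ 2 ≤ 1089 / 100 ∧ (av (uu w)).re ≤ 21 / 50 * R) ∨
      ((N : ℝ) * R ^ 2 ≤ 49 / 4 ∧ (av (uu w)).re ≤ 33 / 100 * R) ∨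
      ((N : ℝ) * R ^ 2 ≤ 333 / 25 ∧ (av (uu w)).re ≤ 1 / 4 * R) ∨
      ((N : ℝ) * R ^ 2 ≤ 361 / 25 ∧ (av (uu w)).re ≤ 1 / 5 * R) ∨
      ((N : ℝ) * R ^ 2 ≤ 1521 / 100 ∧ (av (uu w)).re ≤ 4 / 25 * R) ∨
      ((N : ℝ) * R ^ 2 ≤ 16 ∧ (av (uu w)).re ≤ 3 / 25 * R) ∨
      ((N : ℝ) * R ^ 2 ≤ 861 / 50 ∧ (av (uu w)).re ≤ 2 / 25 * R) ∨
      ((N : ℝ) * R ^ 2 ≤ 441 / 25 ∧ (av (uu w)).re ≤ 1 / 25 * R)) : False := by
  have hN' : (200 : ℝ) ≤ N := by exact_mod_cast hN
  rcases h with h | ⟨h, hf⟩ | ⟨h, hf⟩ | ⟨h, hf⟩ | ⟨h, hf⟩ | ⟨h, hf⟩ | ⟨h, hf⟩ | ⟨h, hf⟩ | ⟨h, hf⟩ | ⟨h, hf⟩ | ⟨h, hf⟩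
  · exact c0_scaled2 hC (N₀ := 200) (c := 0) (f := 1) (lam := 13 / 25) (S := 8) (R1 := 1 / 5)
      (L := 53 / 10) (by norm_num) hN' (by norm_num) (by norm_num) (by norm_num) (by norm_num)
      (by norm_num) (by norm_num) (by norm_num) (by norm_num) (by norm_num) (Or.inl rfl) h
      (by norm_num) log_200 (by norm_num)
  · exact c0_scaled2 hC (N₀ := 200) (c := 8 / 25) (f := 3 / 5) (lam := 233 / 1000) (S := 9) (R1 := 213 / 1000)
      (L := 53 / 10) (by norm_num) hN' (by norm_num) (by norm_num) (by norm_num) (by norm_num)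
      (by norm_num) (by norm_num) (by norm_num) (by norm_num) (by norm_num) (Or.inr hf) h
      (by norm_num) log_200 (by norm_num)
  · exact c0_scaled2 hC (N₀ := 200) (c := 21 / 50) (f := 1 / 2) (lam := 133 / 1000) (S := 248 / 25) (R1 := 223 / 1000)
      (L := 53 / 10) (by norm_num) hN' (by norm_num) (by norm_num) (by norm_num) (by norm_num)
      (by norm_num) (by norm_num) (by norm_num) (by norm_num) (by norm_num) (Or.inr hf) h
      (by norm_num) log_200 (by norm_num)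
  · exact c0_scaled2 hC (N₀ := 200) (c := 49 / 100) (f := 21 / 50) (lam := 33 / 500) (S := 1089 / 100) (R1 := 117 / 500)
      (L := 53 / 10) (by norm_num) hN' (by norm_num) (by norm_num) (by norm_num) (by norm_num)
      (by norm_num) (by norm_num) (by norm_num) (by norm_num) (by norm_num) (Or.inr hf) h
      (by norm_num) log_200 (by norm_num)
  · exact c0_scaled2 hC (N₀ := 200) (c := 11 / 20) (f := 33 / 100) (lam := 7 / 500) (S := 49 / 4) (R1 := 31 / 125)
      (L := 53 / 10) (by norm_num) hN' (by norm_num) (by norm_num) (by norm_num) (by norm_num)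
      (by norm_num) (by norm_num) (by norm_num) (by norm_num) (by norm_num) (Or.inr hf) h
      (by norm_num) log_200 (by norm_num)
  · exact c0_scaled2 hC (N₀ := 200) (c := 11 / 20) (f := 1 / 4) (lam := 7 / 250) (S := 333 / 25) (R1 := 259 / 1000)
      (L := 53 / 10) (by norm_num) hN' (by norm_num) (by norm_num) (by norm_num) (by norm_num)
      (by norm_num) (by norm_num) (by norm_num) (by norm_num) (by norm_num) (Or.inr hf) h
      (by norm_num) log_200 (by norm_num)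
  · exact c0_scaled2 hC (N₀ := 200) (c := 29 / 50) (f := 1 / 5) (lam := 1 / 125) (S := 361 / 25) (R1 := 269 / 1000)
      (L := 53 / 10) (by norm_num) hN' (by norm_num) (by norm_num) (by norm_num) (by norm_num)
      (by norm_num) (by norm_num) (by norm_num) (by norm_num) (by norm_num) (Or.inr hf) h
      (by norm_num) log_200 (by norm_num)
  · exact c0_scaled2 hC (N₀ := 200) (c := 59 / 100) (f := 4 / 25) (lam := 7 / 1000) (S := 1521 / 100) (R1 := 69 / 250)
      (L := 53 / 10) (by norm_num) hN' (by norm_num) (by norm_num) (by norm_num) (by norm_num)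
      (by norm_num) (by norm_num) (by norm_num) (by norm_num) (by norm_num) (Or.inr hf) h
      (by norm_num) log_200 (by norm_num)
  · exact c0_scaled2 hC (N₀ := 200) (c := 59 / 100) (f := 3 / 25) (lam := 17 / 1000) (S := 16) (R1 := 283 / 1000)
      (L := 53 / 10) (by norm_num) hN' (by norm_num) (by norm_num) (by norm_num) (by norm_num)
      (by norm_num) (by norm_num) (by norm_num) (by norm_num) (by norm_num) (Or.inr hf) h
      (by norm_num) log_200 (by norm_num)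
  · exact c0_scaled2 hC (N₀ := 200) (c := 31 / 50) (f := 2 / 25) (lam := 1 / 1000) (S := 861 / 50) (R1 := 147 / 500)
      (L := 53 / 10) (by norm_num) hN' (by norm_num) (by norm_num) (by norm_num) (by norm_num)
      (by norm_num) (by norm_num) (by norm_num) (by norm_num) (by norm_num) (Or.inr hf) h
      (by norm_num) log_200 (by norm_num)
  · exact c0_scaled2 hC (N₀ := 200) (c := 29 / 50) (f := 1 / 25) (lam := 47 / 1000) (S := 441 / 25) (R1 := 297 / 1000)
      (L := 53 / 10) (by norm_num) hN' (by norm_num) (by norm_num) (by norm_num) (by norm_num)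
      (by norm_num) (by norm_num) (by norm_num) (by norm_num) (by norm_num) (Or.inr hf) h
      (by norm_num) log_200 (by norm_num)

/-- **Piece (A)** for `N ≥ 300`. -/
theorem c0_300 {N : ℕ} (hN : 300 ≤ N) {z w : Fin N → ℂ} {R : ℝ} {σ : Fin N → ℂ}
    (hC : Cfg2 N z w R σ)
    (h : (N : ℝ) * R ^ 2 ≤ 228 / 25 ∨
      ((N : ℝ) * R ^ 2 ≤ 264 / 25 ∧ (av (uu w)).re ≤ 3 / 5 * R) ∨
      ((N : ℝ) * R ^ 2 ≤ 289 / 25 ∧ (av (uu w)).re ≤ 1 / 2 * R) ∨
      ((N : ℝ) * R ^ 2 ≤ 324 / 25 ∧ (av (uu w)).re ≤ 21 / 50 * R) ∨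
      ((N : ℝ) * R ^ 2 ≤ 361 / 25 ∧ (av (uu w)).re ≤ 33 / 100 * R) ∨
      ((N : ℝ) * R ^ 2 ≤ 16 ∧ (av (uu w)).re ≤ 1 / 4 * R) ∨
      ((N : ℝ) * R ^ 2 ≤ 861 / 50 ∧ (av (uu w)).re ≤ 1 / 5 * R) ∨
      ((N : ℝ) * R ^ 2 ≤ 1849 / 100 ∧ (av (uu w)).re ≤ 4 / 25 * R) ∨
      ((N : ℝ) * R ^ 2 ≤ 484 / 25 ∧ (av (uu w)).re ≤ 3 / 25 * R) ∨
      ((N : ℝ) * R ^ 2 ≤ 207 / 10 ∧ (av (uu w)).re ≤ 2 / 25 * R) ∨
      ((N : ℝ) * R ^ 2 ≤ 2209 / 100 ∧ (av (uu w)).re ≤ 1 / 25 * R)) : False := by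
  have hN' : (300 : ℝ) ≤ N := by exact_mod_cast hN
  rcases h with h | ⟨h, hf⟩ | ⟨h, hf⟩ | ⟨h, hf⟩ | ⟨h, hf⟩ | ⟨h, hf⟩ | ⟨h, hf⟩ | ⟨h, hf⟩ | ⟨h, hf⟩ | ⟨h, hf⟩ | ⟨h, hf⟩
  · exact c0_scaled2 hC (N₀ := 300) (c := 0) (f := 1) (lam := 1649 / 3200) (S := 228 / 25) (R1 := 7 / 40)
      (L := 57 / 10) (by norm_num) hN' (by norm_num) (by norm_num) (by norm_num) (by norm_num)
      (by norm_num) (by norm_num) (by norm_num) (by norm_num) (by norm_num) (Or.inl rfl) h
      (by norm_num) log_300 (by norm_num)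
  · exact c0_scaled2 hC (N₀ := 300) (c := 43 / 100) (f := 3 / 5) (lam := 93 / 1000) (S := 264 / 25) (R1 := 47 / 250)
      (L := 57 / 10) (by norm_num) hN' (by norm_num) (by norm_num) (by norm_num) (by norm_num)
      (by norm_num) (by norm_num) (by norm_num) (by norm_num) (by norm_num) (Or.inr hf) h
      (by norm_num) log_300 (by norm_num)
  · exact c0_scaled2 hC (N₀ := 300) (c := 9 / 20) (f := 1 / 2) (lam := 77 / 1000) (S := 289 / 25) (R1 := 197 / 1000)
      (L := 57 / 10) (by norm_num) hN' (by norm_num) (by norm_num) (by norm_num) (by norm_num)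
      (by norm_num) (by norm_num) (by norm_num) (by norm_num) (by norm_num) (Or.inr hf) h
      (by norm_num) log_300 (by norm_num)
  · exact c0_scaled2 hC (N₀ := 300) (c := 13 / 25) (f := 21 / 50) (lam := 1 / 200) (S := 324 / 25) (R1 := 26 / 125)
      (L := 57 / 10) (by norm_num) hN' (by norm_num) (by norm_num) (by norm_num) (by norm_num)
      (by norm_num) (by norm_num) (by norm_num) (by norm_num) (by norm_num) (Or.inr hf) h
      (by norm_num) log_300 (by norm_num)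
  · exact c0_scaled2 hC (N₀ := 300) (c := 53 / 100) (f := 33 / 100) (lam := 3 / 500) (S := 361 / 25) (R1 := 11 / 50)
      (L := 57 / 10) (by norm_num) hN' (by norm_num) (by norm_num) (by norm_num) (by norm_num)
      (by norm_num) (by norm_num) (by norm_num) (by norm_num) (by norm_num) (Or.inr hf) h
      (by norm_num) log_300 (by norm_num)
  · exact c0_scaled2 hC (N₀ := 300) (c := 53 / 100) (f := 1 / 4) (lam := 9 / 500) (S := 16) (R1 := 231 / 1000)
      (L := 57 / 10) (by norm_num) hN' (by norm_num) (by norm_num) (by norm_num) (by norm_num)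
      (by norm_num) (by norm_num) (by norm_num) (by norm_num) (by norm_num) (Or.inr hf) h
      (by norm_num) log_300 (by norm_num)
  · exact c0_scaled2 hC (N₀ := 300) (c := 27 / 50) (f := 1 / 5) (lam := 2 / 125) (S := 861 / 50) (R1 := 6 / 25)
      (L := 57 / 10) (by norm_num) hN' (by norm_num) (by norm_num) (by norm_num) (by norm_num)
      (by norm_num) (by norm_num) (by norm_num) (by norm_num) (by norm_num) (Or.inr hf) h
      (by norm_num) log_300 (by norm_num)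
  · exact c0_scaled2 hC (N₀ := 300) (c := 14 / 25) (f := 4 / 25) (lam := 1 / 250) (S := 1849 / 100) (R1 := 249 / 1000)
      (L := 57 / 10) (by norm_num) hN' (by norm_num) (by norm_num) (by norm_num) (by norm_num)
      (by norm_num) (by norm_num) (by norm_num) (by norm_num) (by norm_num) (Or.inr hf) h
      (by norm_num) log_300 (by norm_num)
  · exact c0_scaled2 hC (N₀ := 300) (c := 14 / 25) (f := 3 / 25) (lam := 3 / 250) (S := 484 / 25) (R1 := 51 / 200)
      (L := 57 / 10) (by norm_num) hN' (by norm_num) (by norm_num) (by norm_num) (by norm_num)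
      (by norm_num) (by norm_num) (by norm_num) (by norm_num) (by norm_num) (Or.inr hf) h
      (by norm_num) log_300 (by norm_num)
  · exact c0_scaled2 hC (N₀ := 300) (c := 57 / 100) (f := 2 / 25) (lam := 11 / 1000) (S := 207 / 10) (R1 := 263 / 1000)
      (L := 57 / 10) (by norm_num) hN' (by norm_num) (by norm_num) (by norm_num) (by norm_num)
      (by norm_num) (by norm_num) (by norm_num) (by norm_num) (by norm_num) (Or.inr hf) h
      (by norm_num) log_300 (by norm_num)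
  · exact c0_scaled2 hC (N₀ := 300) (c := 57 / 100) (f := 1 / 25) (lam := 23 / 1000) (S := 2209 / 100) (R1 := 34 / 125)
      (L := 57 / 10) (by norm_num) hN' (by norm_num) (by norm_num) (by norm_num) (by norm_num)
      (by norm_num) (by norm_num) (by norm_num) (by norm_num) (by norm_num) (Or.inr hf) h
      (by norm_num) log_300 (by norm_num)

end Pool.Agent.Lib.MP_af3a4a_an.P1.H74.C0
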