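import Pool.Agent.Lib.MP_af3a4a_an.P1.H74.CostA

set_option autoImplicit false

/-!
# The cost inequality with an excess of `1/50`, for `R ≥ 19/10` (council 2, helper74)

First part: the cubic `G2 = 25 Q + (R² - 1) p ((R² - 1) + p² - 2 C p)`.
-/

namespace Pool.Agent.Lib.MP_af3a4a_an.P1.H74.Cost2

open Pool.Agent.Lib.MP_af3a4a_an.P1.H74.Cost (Q)

/-- the cubic -/
noncomputable def G2 (R C p : ℝ) : ℝ :=
  25 * Q R C p + (R ^ 2 - 1) * p * ((R ^ 2 - 1) + p ^ 2 - 2 * C * p)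

/-- large `C` -/
theorem region2 {R C p : ℝ} (hR : 19 / 10 ≤ R) (h1 : R - 1 ≤ C) (h2 : C ≤ R + 1)
    (hp : 2 * C ≤ p) : 0 ≤ G2 R C p := by
  obtain ⟨r, hr⟩ : ∃ r, r = R - 19 / 10 := ⟨_, rfl⟩
  obtain ⟨c, hc⟩ : ∃ c, c = C - (R - 1) := ⟨_, rfl⟩
  obtain ⟨y, hy⟩ : ∃ y, y = p - 2 * C := ⟨_, rfl⟩
  have hr0 : 0 ≤ r := by linarith
  have hc0 : 0 ≤ c := by linarith
  have hc2 : 0 ≤ 2 - c := by linarith
  have hy0 : 0 ≤ y := by linarith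
  have eR : R = 19 / 10 + r := by linarith
  have eC : C = 9 / 10 + r + c := by linarith
  have ep : p = 2 * (9 / 10 + r + c) + y := by linarith
  have hC0 : 0 < C := by linarith
  have key : G2 R C p = 2 * C * (R ^ 2 - 1) * (25 * (c * (2 - c)) + (R ^ 2 - 1)) +
      y * (258147/2000 + -11727/250*c + 34919/100*c^2 + -963/125*y + 6311/100*y^2) +
      (380*c^3 + 18837/50*r + 4106/25*r*c + 4201/5*r*c^2 + 200*r*c^3 + 4037/10*r^2 +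
      2138/5*r^2*c + 379*r^2*c^2 + 210*r^3 + 208*r^3*c + 55*r^4) * y +
      (8336/25*c + 380*c^2 + 4178/25*r + 3776/5*r*c + 200*r*c^2 + 1444/5*r^2 + 304*r^2*c +
      104*r^3) * y ^ 2 +
      (95*c + 719/5*r + 50*r*c + 51*r^2) * y ^ 3 := by
    rw [ep, eC, eR]
    unfold G2 Q
    ring
  rw [key]
  have hD : 0 ≤ R ^ 2 - 1 := by nlinarith
  have t1 : 0 ≤ 2 * C * (R ^ 2 - 1) * (25 * (c * (2 - c)) + (R ^ 2 - 1)) :=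
    mul_nonneg (mul_nonneg (by linarith) hD) (by linarith [mul_nonneg hc0 hc2])
  have t2 : 0 ≤ y * (258147/2000 + -11727/250*c + 34919/100*c^2 + -963/125*y +
      6311/100*y^2) :=
    mul_nonneg hy0 (by nlinarith [sq_nonneg (c - 1 / 10), sq_nonneg (y - 1 / 10)])
  have t3 : 0 ≤ (380*c^3 + 18837/50*r + 4106/25*r*c + 4201/5*r*c^2 + 200*r*c^3 + 4037/10*r^2 +
      2138/5*r^2*c + 379*r^2*c^2 + 210*r^3 + 208*r^3*c + 55*r^4) * y := by positivity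
  have t4 : 0 ≤ (8336/25*c + 380*c^2 + 4178/25*r + 3776/5*r*c + 200*r*c^2 + 1444/5*r^2 + 304*r^2*c +
      104*r^3) * y ^ 2 := by positivity
  have t5 : 0 ≤ (95*c + 719/5*r + 50*r*c + 51*r^2) * y ^ 3 := by positivity
  linarith

theorem B1_nonneg {C g : ℝ} (hC : 0 ≤ C) (hg : 0 ≤ g) (h : 9 / 10 ≤ C + g) :
    0 ≤ 24*g^3 + 84*g^4 + 114*g^5 + 75*g^6 + 24*g^7 + 3*g^8 + -320*C*g^2 + -460*C*g^3 + 644*C*g^4 +
      1513*C*g^5 + 900*C*g^6 + 171*C*g^7 + -112*C^2*g + -616*C^2*g^2 + 2372*C^2*g^3 +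
      6138*C^2*g^4 + 4326*C^2*g^5 + 960*C^2*g^6 + 232*C^3 + 184*C^3*g + 3008*C^3*g^2 +
      9396*C^3*g^3 + 8234*C^3*g^4 + 2190*C^3*g^5 + 256*C^4 + 1306*C^4*g + 6165*C^4*g^2 +
      7386*C^4*g^3 + 2475*C^4*g^4 + 140*C^5 + 1579*C^5*g + 3018*C^5*g^2 + 1383*C^5*g^3 + 110*C^6 +
      416*C^6*g + 306*C^6*g^2 := by
  have h0 : 0 ≤ C + g - 9 / 10 := by linarith
  have e : 24*g^3 + 84*g^4 + 114*g^5 + 75*g^6 + 24*g^7 + 3*g^8 + -320*C*g^2 + -460*C*g^3 + 644*C*g^4 +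
      1513*C*g^5 + 900*C*g^6 + 171*C*g^7 + -112*C^2*g + -616*C^2*g^2 + 2372*C^2*g^3 +
      6138*C^2*g^4 + 4326*C^2*g^5 + 960*C^2*g^6 + 232*C^3 + 184*C^3*g + 3008*C^3*g^2 +
      9396*C^3*g^3 + 8234*C^3*g^4 + 2190*C^3*g^5 + 256*C^4 + 1306*C^4*g + 6165*C^4*g^2 +
      7386*C^4*g^3 + 2475*C^4*g^4 + 140*C^5 + 1579*C^5*g + 3018*C^5*g^2 + 1383*C^5*g^3 + 110*C^6 +
      416*C^6*g + 306*C^6*g^2 =
      (C + g - 9 / 10) * (356*C*g^2 + 907*C*g^3 + 293*C*g^4 + 125*C^2*g + 1219*C^2*g^2) +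
      (24*g^3 + 84*g^4 + 114*g^5 + 75*g^6 + 24*g^7 + 3*g^8 + 2/5*C*g^2 + 3/10*C*g^3 + 7/10*C*g^4 +
      1220*C*g^5 + 900*C*g^6 + 171*C*g^7 + 1/2*C^2*g + 1/10*C^2*g^2 + 246*C^2*g^3 + 5845*C^2*g^4 +
      4326*C^2*g^5 + 960*C^2*g^6 + 232*C^3 + 59*C^3*g + 1789*C^3*g^2 + 9396*C^3*g^3 +
      8234*C^3*g^4 + 2190*C^3*g^5 + 256*C^4 + 1306*C^4*g + 6165*C^4*g^2 + 7386*C^4*g^3 +
      2475*C^4*g^4 + 140*C^5 + 1579*C^5*g + 3018*C^5*g^2 + 1383*C^5*g^3 + 110*C^6 + 416*C^6*g +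
      306*C^6*g^2) := by ring
  rw [e]
  positivity

theorem B2_nonneg {C g : ℝ} (hC : 0 ≤ C) (hg : 0 ≤ g) (h : 9 / 10 ≤ C + g) :
    0 ≤ 24*g^3 + 84*g^4 + 114*g^5 + 75*g^6 + 24*g^7 + 3*g^8 + -712*C*g^2 + -1196*C*g^3 + 274*C*g^4 +
      1523*C*g^5 + 942*C*g^6 + 177*C*g^7 + -896*C^2*g + -3008*C^2*g^2 + 1624*C^2*g^3 +
      8208*C^2*g^4 + 5982*C^2*g^5 + 1302*C^2*g^6 + 40*C^3 + -1608*C^3*g + 4236*C^3*g^2 +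
      18420*C^3*g^3 + 16054*C^3*g^4 + 4110*C^3*g^5 + -280*C^4 + 3126*C^4*g + 19017*C^4*g^2 +
      21746*C^4*g^3 + 6855*C^4*g^4 + 354*C^5 + 8441*C^5*g + 15108*C^5*g^2 + 6333*C^5*g^3 +
      1084*C^6 + 4768*C^6*g + 3072*C^6*g^2 + 416*C^7 + 612*C^7*g := by
  have h0 : 0 ≤ C + g - 9 / 10 := by linarith
  have e : 24*g^3 + 84*g^4 + 114*g^5 + 75*g^6 + 24*g^7 + 3*g^8 + -712*C*g^2 + -1196*C*g^3 + 274*C*g^4 +
      1523*C*g^5 + 942*C*g^6 + 177*C*g^7 + -896*C^2*g + -3008*C^2*g^2 + 1624*C^2*g^3 +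
      8208*C^2*g^4 + 5982*C^2*g^5 + 1302*C^2*g^6 + 40*C^3 + -1608*C^3*g + 4236*C^3*g^2 +
      18420*C^3*g^3 + 16054*C^3*g^4 + 4110*C^3*g^5 + -280*C^4 + 3126*C^4*g + 19017*C^4*g^2 +
      21746*C^4*g^3 + 6855*C^4*g^4 + 354*C^5 + 8441*C^5*g + 15108*C^5*g^2 + 6333*C^5*g^3 +
      1084*C^6 + 4768*C^6*g + 3072*C^6*g^2 + 416*C^7 + 612*C^7*g =
      (C + g - 9 / 10) * (792*C*g^2 + 2209*C*g^3 + 2150*C*g^4 + 697*C*g^5 + 996*C^2*g + 5329*C^2*g^2 + 6572*C^2*g^3 +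
      572*C^2*g^4 + 2894*C^3*g + 4430*C^3*g^2 + 312*C^4 + 89*C^4*g) +
      (24*g^3 + 84*g^4 + 114*g^5 + 75*g^6 + 24*g^7 + 3*g^8 + 4/5*C*g^2 + 1/10*C*g^3 + 3/10*C*g^5 +
      245*C*g^6 + 177*C*g^7 + 2/5*C^2*g + 1/10*C^2*g^2 + 4/5*C^2*g^3 + 4/5*C^2*g^4 +
      4713*C^2*g^5 + 1302*C^2*g^6 + 40*C^3 + 3/5*C^3*g + 7418*C^3*g^3 + 15482*C^3*g^4 +
      4110*C^3*g^5 + 4/5*C^4 + 1/10*C^4*g + 14498*C^4*g^2 + 21746*C^4*g^3 + 6855*C^4*g^4 +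
      42*C^5 + 8352*C^5*g + 15108*C^5*g^2 + 6333*C^5*g^3 + 1084*C^6 + 4768*C^6*g + 3072*C^6*g^2 +
      416*C^7 + 612*C^7*g) := by ring
  rw [e]
  positivity

/-- the bracket of the last coefficient -/
theorem B3_nonneg {R C : ℝ} (hR : 19 / 10 ≤ R) (hC : 0 ≤ C) :
    0 ≤ 25 * (C * ((R - 1) * (R ^ 2 - 2 * R - 1) + C * ((2 * R - 1) * (R - 1)) + R * C ^ 2)) +
      (R ^ 2 - 1) * ((R - 1 + C) * (R + C)) / 2 := by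
  obtain ⟨r, hr⟩ : ∃ r, r = R - 19 / 10 := ⟨_, rfl⟩
  have hr0 : 0 ≤ r := by linarith
  have eR : R = 19 / 10 + r := by linarith
  have e : 25 * (C * ((R - 1) * (R ^ 2 - 2 * R - 1) + C * ((2 * R - 1) * (R - 1)) +
      R * C ^ 2)) + (R ^ 2 - 1) * ((R - 1 + C) * (R + C)) / 2 =
      (12861/200 + 1169/10*r + 101/2*r^2) * (C - 9 / 50) ^ 2 +
      (37017/250000 + 18/625*C + 95/2*C^3 + 38943/12500*r + 15191/250*r*C + 25*r*C^3 +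
      29219/5000*r^2 + 2272/25*r^2*C + 33/10*r^3 + 26*r^3*C + 1/2*r^4) := by
    rw [eR]
    ring
  rw [e]
  have t1 : 0 ≤ (12861/200 + 1169/10*r + 101/2*r^2) * (C - 9 / 50) ^ 2 :=
    mul_nonneg (by positivity) (sq_nonneg _)
  have t2 : 0 ≤ 37017/250000 + 18/625*C + 95/2*C^3 + 38943/12500*r + 15191/250*r*C + 25*r*C^3 +
      29219/5000*r^2 + 2272/25*r^2*C + 33/10*r^3 + 26*r^3*C + 1/2*r^4 := by
    positivity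
  linarith

end Pool.Agent.Lib.MP_af3a4a_an.P1.H74.Cost2
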