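import Mathlib

set_option autoImplicit false

/-!
# The cost inequality, first part: the cubic, large `C` (council 2, BIGR, helper74)
-/

namespace Pool.Agent.Lib.MP_af3a4a_an.P1.H74.Cost

/-- the cubic -/
def Q (R C p : ℝ) : ℝ :=
  (2 * R * C - 1) * p ^ 3 - 2 * C * ((2 * R * C - 1) + 2 * (R ^ 2 - 1)) * p ^ 2 +
    (R ^ 2 - 1) * ((R ^ 2 - 1) + 2 * R * C + 7 * C ^ 2) * p - 4 * C * (R ^ 2 - 1) ^ 2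

/-- large `C` -/
theorem region2 {R C p : ℝ} (hR : 29 / 12 ≤ R) (h1 : R - 1 ≤ C) (h2 : C ≤ R + 1)
    (hp : 2 * C ≤ p) : 0 ≤ Q R C p := by
  obtain ⟨r, hr⟩ : ∃ r, r = R - 29 / 12 := ⟨_, rfl⟩
  obtain ⟨c, hc⟩ : ∃ c, c = C - (R - 1) := ⟨_, rfl⟩
  obtain ⟨y, hy⟩ : ∃ y, y = p - 2 * C := ⟨_, rfl⟩
  have hr0 : 0 ≤ r := by linarith
  have hc0 : 0 ≤ c := by linarith
  have hc2 : 0 ≤ 2 - c := by linarith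
  have hy0 : 0 ≤ y := by linarith
  have eR : R = 29 / 12 + r := by linarith
  have eC : C = 17 / 12 + r + c := by linarith
  have ep : p = 2 * (17 / 12 + r + c) + y := by linarith
  have hC0 : 0 < C := by linarith
  have key : Q R C p = 2 * C * (R ^ 2 - 1) * (c * (2 - c)) +
      (166753/10368 + 7361/216*r + 337/12*r^2 + 34/3*r^3 + 2*r^4 + 136/27*c + 163/6*c*r +
        28*c*r^2 + 8*c*r^3 + 1661/48*c^2 + 97/2*c^2*r + 15*c^2*r^2 + 58/3*c^3 + 8*c^3*r) * y +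
      (2465/432 + 241/12*r + 17*r^2 + 4*r^3 + 377/12*c + 42*c*r + 12*c*r^2 + 58/3*c^2 +
        8*c^2*r) * y ^ 2 + (2 * R * C - 1) * y ^ 3 := by
    rw [ep, eC, eR]
    unfold Q
    ring
  rw [key]
  have hD : 0 ≤ R ^ 2 - 1 := by nlinarith
  have hK : 0 ≤ 2 * R * C - 1 := by nlinarith
  have t1 : 0 ≤ 2 * C * (R ^ 2 - 1) * (c * (2 - c)) :=
    mul_nonneg (mul_nonneg (by linarith) hD) (mul_nonneg hc0 hc2)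
  have t2 : 0 ≤ (2 * R * C - 1) * y ^ 3 := mul_nonneg hK (pow_nonneg hy0 3)
  have t3 : 0 ≤ (166753/10368 + 7361/216*r + 337/12*r^2 + 34/3*r^3 + 2*r^4 + 136/27*c +
      163/6*c*r + 28*c*r^2 + 8*c*r^3 + 1661/48*c^2 + 97/2*c^2*r + 15*c^2*r^2 + 58/3*c^3 +
      8*c^3*r) * y := by positivity
  have t4 : 0 ≤ (2465/432 + 241/12*r + 17*r^2 + 4*r^3 + 377/12*c + 42*c*r + 12*c*r^2 +
      58/3*c^2 + 8*c^2*r) * y ^ 2 := by positivity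
  linarith

theorem B1_nonneg {C g : ℝ} (hC : 0 ≤ C) (hg : 0 ≤ g) (h : 4 / 3 ≤ C + g) :
    0 ≤ -16*g^2 + -32*g^3 + 4*g^4 + 44*g^5 + 30*g^6 + 6*g^7 + -8*C*g + -44*C*g^2 + 56*C*g^3 +
      210*C*g^4 + 158*C*g^5 + 36*C*g^6 + 8*C^2 + -4*C^2*g + 88*C^2*g^2 + 338*C^2*g^3 +
      310*C^2*g^4 + 84*C^2*g^5 + 8*C^3 + 40*C^3*g + 226*C^3*g^2 + 282*C^3*g^3 + 96*C^3*g^4 +
      4*C^4 + 58*C^4*g + 116*C^4*g^2 + 54*C^4*g^3 + 4*C^5 + 16*C^5*g + 12*C^5*g^2 := by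
  have h0 : 0 ≤ C + g - 4 / 3 := by linarith
  have e : -16*g^2 + -32*g^3 + 4*g^4 + 44*g^5 + 30*g^6 + 6*g^7 + -8*C*g + -44*C*g^2 + 56*C*g^3 +
      210*C*g^4 + 158*C*g^5 + 36*C*g^6 + 8*C^2 + -4*C^2*g + 88*C^2*g^2 + 338*C^2*g^3 +
      310*C^2*g^4 + 84*C^2*g^5 + 8*C^3 + 40*C^3*g + 226*C^3*g^2 + 282*C^3*g^3 + 96*C^3*g^4 +
      4*C^4 + 58*C^4*g + 116*C^4*g^2 + 54*C^4*g^3 + 4*C^5 + 16*C^5*g + 12*C^5*g^2 =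
      (C + g - 4 / 3) * (12*g^2 + 33*g^3 + 87/4*g^4 + 6*C*g + 93/2*C*g^2 + 141/8*C*g^3 +
        15/2*C^2*g) + (89/4*g^5 + 30*g^6 + 6*g^7 + 1365/8*C*g^4 + 158*C*g^5 + 36*C*g^6 + 8*C^2 +
        34*C^2*g^2 + 2563/8*C^2*g^3 + 310*C^2*g^4 + 84*C^2*g^5 + 8*C^3 + 65/2*C^3*g +
        226*C^3*g^2 + 282*C^3*g^3 + 96*C^3*g^4 + 4*C^4 + 58*C^4*g + 116*C^4*g^2 + 54*C^4*g^3 +
        4*C^5 + 16*C^5*g + 12*C^5*g^2) := by ring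
  rw [e]
  positivity

theorem B2_nonneg {C g : ℝ} (hC : 0 ≤ C) (hg : 0 ≤ g) (h : 4 / 3 ≤ C + g) :
    0 ≤ -32*g^2 + -64*g^3 + -16*g^4 + 40*g^5 + 30*g^6 + 6*g^7 + -40*C*g + -148*C*g^2 +
      4*C*g^3 + 270*C*g^4 + 214*C*g^5 + 48*C*g^6 + -84*C^2*g + 104*C^2*g^2 + 654*C^2*g^3 +
      598*C^2*g^4 + 156*C^2*g^5 + -16*C^3 + 92*C^3*g + 698*C^3*g^2 + 826*C^3*g^3 +
      264*C^3*g^4 + 8*C^4 + 314*C^4*g + 580*C^4*g^2 + 246*C^4*g^3 + 40*C^5 + 184*C^5*g +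
      120*C^5*g^2 + 16*C^6 + 24*C^6*g := by
  have h0 : 0 ≤ C + g - 4 / 3 := by linarith
  have e : -32*g^2 + -64*g^3 + -16*g^4 + 40*g^5 + 30*g^6 + 6*g^7 + -40*C*g + -148*C*g^2 +
      4*C*g^3 + 270*C*g^4 + 214*C*g^5 + 48*C*g^6 + -84*C^2*g + 104*C^2*g^2 + 654*C^2*g^3 +
      598*C^2*g^4 + 156*C^2*g^5 + -16*C^3 + 92*C^3*g + 698*C^3*g^2 + 826*C^3*g^3 +
      264*C^3*g^4 + 8*C^4 + 314*C^4*g + 580*C^4*g^2 + 246*C^4*g^3 + 40*C^5 + 184*C^5*g +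
      120*C^5*g^2 + 16*C^6 + 24*C^6*g =
      (C + g - 4 / 3) * (24*g^2 + 66*g^3 + 123/2*g^4 + 129/8*g^5 + 30*C*g + 303/2*C*g^2 +
        1281/8*C*g^3 + 171/2*C^2*g + 399/4*C^2*g^2 + 12*C^3 + 33/8*C^3*g + 3*C^4) +
      (111/8*g^6 + 6*g^7 + 387/8*C*g^4 + 1583/8*C*g^5 + 48*C*g^6 + 3153/8*C^2*g^3 +
        598*C^2*g^4 + 156*C^2*g^5 + 4753/8*C^3*g^2 + 826*C^3*g^3 + 264*C^3*g^4 +
        2455/8*C^4*g + 580*C^4*g^2 + 246*C^4*g^3 + 37*C^5 + 184*C^5*g + 120*C^5*g^2 + 16*C^6 +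
        24*C^6*g) := by ring
  rw [e]
  positivity

end Pool.Agent.Lib.MP_af3a4a_an.P1.H74.Cost
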