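import Pool.Agent.Lib.MP_af3a4a_an.P1.H74.EFree
import Pool.Agent.Lib.MP_af3a4a_an.P1.H80.Normal

/-!
# E-free certificates in general directions (helper74)

As `EFree.lean`, but the zero `0` may have a positive gain `lin a e (-y)`, which is paid. For
`y = c` every direction `e` is allowed.
-/

namespace Pool.Agent.Lib.MP_af3a4a_an.P1.H74

open Finset MeasureTheory
open ComplexConjugate
open Pool.Agent.Lib.MP_af3a4a_an.SV (uu av EE)
open Pool.Agent.Lib.MP_af3a4a_an.P1.H80

section facts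

variable {N : ℕ} {z w : Fin N → ℂ} {c : ℂ} {σ : Fin N → ℂ} {σ₀ : ℂ}

/-- **General form with the `w_k` eliminated.** `g` is any reserve: the weight gained at `w_k`. -/
theorem m5g2 (hN : 1 ≤ N) (hC : Cfg1 N z w c σ σ₀) {a l b : ℝ} {e y : ℂ} {θ : ℂ → ℝ}
    (hb : 0 < b) (hθ : ConvexOn ℝ Set.univ θ) (hc : PW a l e ((c - y) / b) θ)
    {g : ℂ → ℝ}
    (hg : ∀ x : ℂ, 1 ≤ ‖x‖ → g x ≤ Real.log ‖x‖
      - a * (((N : ℝ) + 1) / N) / b * ((conj e * x).re - (e * x⁻¹).re)
      + ((N : ℝ) + 1) / N * θ ((x - y) / b)) :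
    ((N : ℝ) + 1) * ‖fI w y‖ * Real.exp (∑ k, g (w k)) < Real.exp ((((N : ℝ) + 1)
      - N * b * (1 + Real.log (1 - a ^ 2) / 2 - l - Real.log b)
      - a * N * (conj e * y).re + a * ((N : ℝ) + 1) * (e * av (uu w)).re + (conj σ₀ * y).re
      + b * kap a * (conj e * σ₀).re + b * θ ((0 - y) / b)) / b) := by
  have hNpos : (0 : ℝ) < N := by exact_mod_cast hN
  have h1 := m5w hN hC hb hθ hc
  have hE : EE w = Real.exp (∑ k, Real.log ‖w k‖) := by
    rw [Real.exp_sum]
    unfold EE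
    refine Finset.prod_congr rfl fun k _ => ?_
    rw [Real.exp_log]
    have := hC.far k
    linarith
  have hsum : ∑ k, g (w k) ≤ ∑ k, Real.log ‖w k‖
      - a * (((N : ℝ) + 1) / N) / b * (∑ k, (conj e * w k).re - ∑ k, (e * uu w k).re)
      + ((N : ℝ) + 1) / N * ∑ k, θ ((w k - y) / b) := by
    have h2 := Finset.sum_le_sum (fun k (_ : k ∈ Finset.univ) => hg (w k) (hC.far k))
    rw [Finset.sum_add_distrib, Finset.sum_sub_distrib, ← Finset.mul_sum, ← Finset.mul_sum,
      Finset.sum_sub_distrib] at h2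
    exact h2
  have hav : ∀ (x : Fin N → ℂ) (d : ℂ), ∑ k, (d * x k).re = N * (d * av x).re := by
    intro x d
    unfold av
    rw [← Complex.re_sum, ← Finset.mul_sum,
      show (N : ℝ) * (d * (1 / (N : ℂ) * ∑ k, x k)).re = (((N : ℝ) : ℂ) *
        (d * (1 / (N : ℂ) * ∑ k, x k))).re by rw [Complex.re_ofReal_mul]]
    congr 1
    have : (N : ℂ) ≠ 0 := by exact_mod_cast hNpos.ne'
    push_cast
    field_simp
  rw [hav, hav] at hsum
  have e1 : (conj e * (N * y - ((N : ℂ) + 1) * av w)).re =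
      N * (conj e * y).re - ((N : ℝ) + 1) * (conj e * av w).re := by
    have : conj e * (N * y - ((N : ℂ) + 1) * av w) =
        ((N : ℝ) : ℂ) * (conj e * y) - (((N : ℝ) + 1 : ℝ) : ℂ) * (conj e * av w) := by
      push_cast
      ring
    rw [this, Complex.sub_re, Complex.re_ofReal_mul, Complex.re_ofReal_mul]
  rw [e1, hE] at h1
  obtain ⟨S, hS⟩ : ∃ S, S = ∑ k, θ ((w k - y) / b) := ⟨_, rfl⟩
  obtain ⟨θ0, hθ0⟩ : ∃ θ0, θ0 = θ ((0 - y) / b) := ⟨_, rfl⟩
  obtain ⟨A, hA⟩ : ∃ A, A = (conj e * av w).re := ⟨_, rfl⟩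
  obtain ⟨B, hB⟩ : ∃ B, B = (e * av (uu w)).re := ⟨_, rfl⟩
  obtain ⟨Λ, hΛ⟩ : ∃ Λ, Λ = ∑ k, Real.log ‖w k‖ := ⟨_, rfl⟩
  obtain ⟨G, hG⟩ : ∃ G, G = ∑ k, g (w k) := ⟨_, rfl⟩
  rw [← hS, ← hA, ← hΛ, ← hθ0] at h1
  rw [← hS, ← hA, ← hB, ← hΛ, ← hG] at hsum
  rw [← hB, ← hG, ← hθ0]
  have h3 : ((N : ℝ) + 1) * ‖fI w y‖ * Real.exp G =
      ((N : ℝ) + 1) * Real.exp Λ * ‖fI w y‖ * Real.exp (G - Λ) := by
    have : Real.exp G = Real.exp Λ * Real.exp (G - Λ) := by
      rw [← Real.exp_add]; congr 1; ring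
    rw [this]
    ring
  rw [h3]
  have h4 := mul_lt_mul_of_pos_right h1 (Real.exp_pos (G - Λ))
  rw [← Real.exp_add] at h4
  refine h4.trans_le (Real.exp_le_exp.2 ?_)
  have e2 : a * (((N : ℝ) + 1) / N) / b * (N * A - N * B) = a * ((N : ℝ) + 1) * (A - B) / b := by
    field_simp
  rw [e2] at hsum
  have h5 : G - Λ ≤ (- a * ((N : ℝ) + 1) * (A - B) + b * (((N : ℝ) + 1) / N * S)) / b := by
    have e3 : (- a * ((N : ℝ) + 1) * (A - B) + b * (((N : ℝ) + 1) / N * S)) / b =
        - (a * ((N : ℝ) + 1) * (A - B) / b) + ((N : ℝ) + 1) / N * S := by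
      field_simp
    rw [e3]
    linarith
  refine (add_le_add_right h5 _).trans ?_
  rw [← add_div]
  apply div_le_div_of_nonneg_right _ hb.le
  have e4 : b * (((N : ℝ) + 1) / N * S - θ0) = b * (((N : ℝ) + 1) / N * S) - b * θ0 := by ring
  rw [e4]
  linarith


/-- **E-free form**: `c - y = t e`, `0 ≤ t ≤ kap a` (`y = c`: any `e`), no loss,
`a' = a (N+1)/N`, with the payment `lin a e (-y)` for the zero `0`. -/
theorem efree_lin (hN : 1 ≤ N) (hC : Cfg1 N z w c σ σ₀) {a t c₀ X₀ : ℝ} {e y : ℂ}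
    (he : ‖e‖ = 1) (a0 : 0 ≤ a) (a1 : a < 1) (hcy : c - y = (t : ℂ) * e) (ht0 : 0 ≤ t)
    (ht : t ≤ kap a) (hc1 : c₀ < 1)
    (hX1 : 1 ≤ X₀) (hX2 : 1 + a ≤ X₀ ^ 2) (hX3 : a / (1 + a) * (‖y‖ + a * (conj e * y).re) + Real.log (1 + a) ≤ a * X₀)
    (hX : a * (((N : ℝ) + 1) / N) * (X₀ - 1 / X₀) ≤ (1 - c₀) * Real.log X₀)
    (hα : a * (((N : ℝ) + 1) / N) ≤ (1 - c₀) * X₀) :
    ((N : ℝ) + 1) * ‖fI w y‖ * EE w ^ c₀ < Real.exp (((N : ℝ) + 1)
      - N * (1 + Real.log (1 - a ^ 2) / 2)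
      - a * N * (conj e * y).re + a * ((N : ℝ) + 1) * (e * av (uu w)).re + (conj σ₀ * y).re
      + kap a * (conj e * σ₀).re + lin a e (-y)) := by
  have hNpos : (0 : ℝ) < N := by exact_mod_cast hN
  have hPW : PW a 0 e ((c - y) / ((1 : ℝ) : ℂ)) (lin a e) := by
    rw [Complex.ofReal_one, div_one, hcy]
    exact PW_lin he a0 a1 ht0 ht
  have h1a : (0 : ℝ) < 1 + a := by linarith
  have h := m5g2 hN hC (b := 1) one_pos (lin_convex a0 e) hPW (g := fun x => c₀ * Real.log ‖x‖)
    (by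
      intro x hx
      obtain ⟨X, hXx⟩ : ∃ X, X = ‖x‖ := ⟨_, rfl⟩
      rw [← hXx] at hx
      have hXp : 0 < X := by linarith
      obtain ⟨α, hαd⟩ : ∃ α, α = a * (((N : ℝ) + 1) / N) := ⟨_, rfl⟩
      have hα0 : 0 ≤ α := by rw [hαd]; positivity
      rw [← hαd] at hX hα
      have hcore := core hα0 hc1 hx hX1 hX hα
      obtain ⟨P, hP⟩ : ∃ P, P = (conj e * x).re := ⟨_, rfl⟩
      have e1 : (e * x⁻¹).re = P / X ^ 2 := by
        rw [hP, hXx, Complex.inv_def, Complex.normSq_eq_norm_sq, ← mul_assoc, mul_comm,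
          Complex.re_ofReal_mul, inv_mul_eq_div]
        congr 1
        simp only [Complex.mul_re, Complex.conj_re, Complex.conj_im]
        ring
      have hPX : P ≤ X := by
        rw [hP, hXx]
        exact (abs_le.1 (norm_conj_mul_re he)).2
      have hs0 : 0 ≤ 1 - 1 / X ^ 2 := by
        rw [sub_nonneg, div_le_one (by positivity)]
        nlinarith
      have e2 : X * (1 - 1 / X ^ 2) = X - 1 / X := by field_simp
      have e3 : P - P / X ^ 2 = P * (1 - 1 / X ^ 2) := by ring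
      have hPX2 := mul_le_mul_of_nonneg_right hPX hs0
      rw [← hXx, ← hαd, ← hP, e1, e3, Complex.ofReal_one, div_one, div_one]
      rw [e2] at hPX2
      have hlin0 : 0 ≤ lin a e (x - y) := le_max_right _ _
      have hfac : 0 ≤ ((N : ℝ) + 1) / N := by positivity
      rcases le_or_gt X X₀ with hle | hgt
      · rw [max_eq_right (by linarith)] at hcore
        have h5 := mul_le_mul_of_nonneg_left hPX2 hα0
        have h6 := mul_nonneg hfac hlin0
        linarith
      · rw [max_eq_left (by linarith)] at hcore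
        have h5 : a / (1 + a) * (‖x - y‖ + a * (conj e * (x - y)).re) - Real.log (1 + a) ≤
            lin a e (x - y) := le_max_left _ _
        have h6 : X - ‖y‖ ≤ ‖x - y‖ := by rw [hXx]; exact norm_sub_norm_le x y
        have h7 : (conj e * (x - y)).re = P - (conj e * y).re := by
          rw [mul_sub, Complex.sub_re, hP]
        rw [h7] at h5
        -- lower bound of the gain
        have h12 : a / (1 + a) * (X + a * P) - a * X₀ ≤ lin a e (x - y) := by
          refine le_trans ?_ h5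
          have h11 : a / (1 + a) * ((X - ‖y‖) + a * (P - (conj e * y).re)) ≤
              a / (1 + a) * (‖x - y‖ + a * (P - (conj e * y).re)) := by
            apply mul_le_mul_of_nonneg_left _ (div_nonneg a0 h1a.le)
            linarith
          have h10 : a / (1 + a) * ((X - ‖y‖) + a * (P - (conj e * y).re)) =
              a / (1 + a) * (X + a * P) - a / (1 + a) * (‖y‖ + a * (conj e * y).re) := by
            ring
          linarith
        have h13 := mul_le_mul_of_nonneg_left h12 hfac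
        -- replace `P` by `X`
        have h14 : 0 ≤ (X - P) * (1 / (1 + a) - 1 / X ^ 2) := by
          apply mul_nonneg (by linarith)
          rw [sub_nonneg]
          apply one_div_le_one_div_of_le h1a
          nlinarith
        have h15 := mul_nonneg hα0 h14
        have e4 : ((N : ℝ) + 1) / N * (a / (1 + a) * (X + a * P) - a * X₀) =
            α * ((X + a * P) / (1 + a) - X₀) := by
          rw [hαd]
          ring
        rw [e4] at h13
        have e5 : (X + a * P) / (1 + a) = X - (X - P) * (a / (1 + a)) := by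
          field_simp
          ring
        have e6 : (1 : ℝ) / (1 + a) = 1 - a / (1 + a) := by
          field_simp
          ring
        rw [e5] at h13
        rw [e6] at h15
        have e7 : α * (X - (X - P) * (a / (1 + a)) - X₀) =
          α * (X - X₀) - α * ((X - P) * (a / (1 + a))) := by ring
        have e8 : α * ((X - P) * (1 - a / (1 + a) - 1 / X ^ 2)) =
          α * (X * (1 - 1 / X ^ 2)) - α * (P * (1 - 1 / X ^ 2))
            - α * ((X - P) * (a / (1 + a))) := by ring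
        rw [e8, e2] at h15
        rw [e7] at h13
        linarith)
  rw [sum_reserve hC, Real.log_one, div_one, Complex.ofReal_one, div_one, zero_sub] at h
  refine h.trans_le (le_of_eq ?_)
  congr 1
  ring

end facts

end Pool.Agent.Lib.MP_af3a4a_an.P1.H74
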