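import Pool.Agent.Lib.MP_af3a4a_an.P1.H74.GreenC
import Pool.Agent.Lib.MP_af3a4a_an.P1.H28.Cost

/-!
# GREEN (council 2, helper74)

`29/12 ≤ R`, `1 ≤ x ≤ 3R/5`, `|w| ≥ 1`, `r = (R x - 1)/(R - x)`, `Γ ≥ log r`,
`Γ ≥ κ (r - 1/r)`, `κ = R/(R² - 1)`:
`|w - x| ≤ |x w - 1| r⁻¹ exp (Γ κ (|w - R| + Re (1/w) - 1/R))`.
-/

set_option autoImplicit false

namespace Pool.Agent.Lib.MP_af3a4a_an.P1.H74.Green

open GreenA GreenB GreenC

/-- the exponent is nonnegative -/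
theorem tau_nonneg {R : ℝ} (hR : 29 / 12 ≤ R) {w : ℂ} (hw : 1 ≤ ‖w‖) :
    0 ≤ R / (R ^ 2 - 1) * (‖w - R‖ + (w⁻¹).re - 1 / R) := by
  refine le_trans ?_ (Pool.Agent.Lib.MP_af3a4a_an.P1.H28.cost hR hw)
  unfold Pool.Agent.Lib.MP_af3a4a_an.P1.H32.om
  positivity

/-- `C ≥ R` -/
theorem tau_ge_one {R C p s : ℝ} (hR : 1 < R) (hs : 1 ≤ s) (hps : p ^ 2 ≤ s)
    (hC : C ^ 2 = s - 2 * R * p + R ^ 2) (hCR : R ≤ C) :
    1 ≤ R / (R ^ 2 - 1) * (C + p / s - 1 / R) := by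
  have hR0 : 0 < R := by linarith
  have hs0 : 0 < s := by linarith
  have hD : 0 < R ^ 2 - 1 := by nlinarith
  have h1 : R - 1 / R ≤ C + p / s - 1 / R := by
    have h2 : R ≤ C + p / s := by
      rcases le_total C (R + 1) with h | h
      · have e : p / s = (1 - (C ^ 2 - R ^ 2) / s) / (2 * R) := by
          rw [hC]
          field_simp
          ring
        have h3 : (C ^ 2 - R ^ 2) / s ≤ C ^ 2 - R ^ 2 := div_le_self (by nlinarith) hs
        have h4 : (1 - (C ^ 2 - R ^ 2)) / (2 * R) ≤ (1 - (C ^ 2 - R ^ 2) / s) / (2 * R) := by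
          gcongr
        have h5 : R - C ≤ (1 - (C ^ 2 - R ^ 2)) / (2 * R) := by
          rw [le_div_iff₀ (by positivity)]
          nlinarith
        rw [e]
        linarith
      · have h3 : -1 ≤ p / s := by
          rw [le_div_iff₀ hs0]
          have : -s ≤ p := by
            have h4 : p ^ 2 ≤ s ^ 2 := by nlinarith
            exact (abs_le_of_sq_le_sq' h4 hs0.le).1
          linarith
        linarith
    linarith
  calc 1 = R / (R ^ 2 - 1) * (R - 1 / R) := by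
        field_simp
    _ ≤ _ := mul_le_mul_of_nonneg_left h1 (by positivity)

/-- `C² ≤ (R - x)(R - 1/x)` -/
theorem near {R x C p s B E G : ℝ} (hR : 1 < R) (hx1 : 1 < x) (hxR : x < R) (hs : 1 ≤ s)
    (hC0 : 0 ≤ C) (hC : C ^ 2 = s - 2 * R * p + R ^ 2) (hCx : x * C ^ 2 ≤ (R - x) * (R * x - 1))
    (hsC : s ≤ (R + C) ^ 2) (hB0 : 0 ≤ B) (hB : B ^ 2 = s - 2 * x * p + x ^ 2) (hE0 : 0 ≤ E)
    (hE : E ^ 2 = x ^ 2 * s - 2 * x * p + 1)
    (hG : R * (x ^ 2 - 1) / ((R - x) * (R * x - 1)) ≤ G) :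
    B ≤ E * ((R * x - 1) / (R - x))⁻¹ * Real.exp (G * (R / (R ^ 2 - 1) * (C + p / s - 1 / R))) := by
  have hR0 : 0 < R := by linarith
  have hx0 : 0 < x := by linarith
  have hs0 : 0 < s := by linarith
  have hD : 0 < R ^ 2 - 1 := by nlinarith
  have hRx : 0 < R - x := by linarith
  have hRx1 : 0 < R * x - 1 := by nlinarith
  have hxx : 0 < x ^ 2 - 1 := by nlinarith
  obtain ⟨ρ, hρ⟩ : ∃ ρ, ρ = R + C := ⟨_, rfl⟩
  have hρR : R ≤ ρ := by linarith
  have hρ0 : 0 < ρ := by linarith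
  have hρx : 0 < ρ - x := by linarith
  have hxρ : 0 < x * ρ - 1 := by nlinarith
  have hC2 : C ^ 2 < R ^ 2 := by
    have : (R - x) * (R * x - 1) ≤ x * (R ^ 2 - 1) := by nlinarith
    by_contra h
    push Not at h
    nlinarith
  have hCR : C < R := (sq_lt_sq₀ hC0 hR0.le).1 hC2
  -- step 1: `B (x ρ - 1) ≤ E (ρ - x)`
  have h1 : B * (x * ρ - 1) ≤ E * (ρ - x) := by
    refine (sq_le_sq₀ (by positivity) (by positivity)).1 ?_
    rw [mul_pow, mul_pow, hB, hE]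
    have e : R * ((x ^ 2 * s - 2 * x * p + 1) * (ρ - x) ^ 2 -
        (s - 2 * x * p + x ^ 2) * (x * ρ - 1) ^ 2) =
        (x ^ 2 - 1) * ((x * C ^ 2 - (R - x) * (R * x - 1)) * (s - ρ ^ 2)) := by
      have hp : 2 * R * p = s + R ^ 2 - C ^ 2 := by linarith
      have e1 : R * ((x ^ 2 * s - 2 * x * p + 1) * (ρ - x) ^ 2 -
          (s - 2 * x * p + x ^ 2) * (x * ρ - 1) ^ 2) =
          (R * (x ^ 2 * s + 1) - x * (2 * R * p)) * (ρ - x) ^ 2 -
          (R * (s + x ^ 2) - x * (2 * R * p)) * (x * ρ - 1) ^ 2 := by ring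
      rw [e1, hp, hρ]
      ring
    have h2 : 0 ≤ (x ^ 2 - 1) * ((x * C ^ 2 - (R - x) * (R * x - 1)) * (s - ρ ^ 2)) := by
      refine mul_nonneg hxx.le (mul_nonneg_of_nonpos_of_nonpos (by linarith) ?_)
      rw [hρ]
      linarith
    rw [← e] at h2
    have h3 := nonneg_of_mul_nonneg_right h2 hR0
    linarith
  -- step 2: `Re (1/w) ≥ 1/ρ`
  have h2 : 1 / ρ ≤ p / s := by
    rw [div_le_div_iff₀ hρ0 hs0]
    have hp : 2 * R * p = s + R ^ 2 - C ^ 2 := by linarith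
    have h3 : 0 ≤ (R - C) * (ρ ^ 2 - s) := mul_nonneg (by linarith) (by rw [hρ]; linarith)
    have h4 : 2 * R * (p * ρ - s) = (R - C) * (ρ ^ 2 - s) := by
      calc 2 * R * (p * ρ - s) = (2 * R * p) * ρ - 2 * R * s := by ring
        _ = (s + R ^ 2 - C ^ 2) * (R + C) - 2 * R * s := by rw [hp, hρ]
        _ = (R - C) * ((R + C) ^ 2 - s) := by ring
        _ = _ := by rw [hρ]
    rw [← h4] at h3
    have h5 := nonneg_of_mul_nonneg_right h3 (by positivity : (0 : ℝ) < 2 * R)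
    linarith
  -- step 3: the exponent
  have h3 : (x ^ 2 - 1) * C / ((x * ρ - 1) * (R - x)) ≤
      G * (R / (R ^ 2 - 1) * (C + p / s - 1 / R)) := by
    have hG0 : 0 ≤ G := le_trans (by positivity) hG
    have h4 : C * (1 - 1 / (ρ * R)) ≤ C + p / s - 1 / R := by
      have e : C * (1 - 1 / (ρ * R)) = C + 1 / ρ - 1 / R := by
        rw [hρ]
        field_simp
        ring
      rw [e]
      linarith
    have hρR1 : 0 < ρ * R - 1 := by nlinarith
    have h5 : 0 ≤ C * (1 - 1 / (ρ * R)) := by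
      refine mul_nonneg hC0 ?_
      rw [sub_nonneg, div_le_one (by positivity)]
      linarith
    calc (x ^ 2 - 1) * C / ((x * ρ - 1) * (R - x))
        ≤ R * (x ^ 2 - 1) / ((R - x) * (R * x - 1)) *
          (R / (R ^ 2 - 1) * (C * (1 - 1 / (ρ * R)))) := by
          have e : R * (x ^ 2 - 1) / ((R - x) * (R * x - 1)) *
              (R / (R ^ 2 - 1) * (C * (1 - 1 / (ρ * R)))) =
              (x ^ 2 - 1) * C * (R * (ρ * R - 1)) /
                ((R - x) * (R * x - 1) * (R ^ 2 - 1) * ρ) := by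
            field_simp
          rw [e, div_le_div_iff₀ (by positivity) (by positivity)]
          have h6 : (R * x - 1) * (R ^ 2 - 1) * ρ ≤ R * (ρ * R - 1) * (x * ρ - 1) := by
            have e2 : R * (ρ * R - 1) * (x * ρ - 1) - (R * x - 1) * (R ^ 2 - 1) * ρ =
                C * ((R ^ 2 - 1) + R ^ 2 * (R * x - 1)) + R ^ 2 * x * C ^ 2 := by
              rw [hρ]
              ring
            have : 0 ≤ C * ((R ^ 2 - 1) + R ^ 2 * (R * x - 1)) + R ^ 2 * x * C ^ 2 := by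
              positivity
            linarith
          have h7 : 0 ≤ (x ^ 2 - 1) * C * (R - x) := by positivity
          have h8 := mul_le_mul_of_nonneg_left h6 h7
          calc (x ^ 2 - 1) * C * ((R - x) * (R * x - 1) * (R ^ 2 - 1) * ρ)
              = (x ^ 2 - 1) * C * (R - x) * ((R * x - 1) * (R ^ 2 - 1) * ρ) := by ring
            _ ≤ (x ^ 2 - 1) * C * (R - x) * (R * (ρ * R - 1) * (x * ρ - 1)) := h8
            _ = _ := by ring
      _ ≤ G * (R / (R ^ 2 - 1) * (C * (1 - 1 / (ρ * R)))) :=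
          mul_le_mul_of_nonneg_right hG (mul_nonneg (by positivity) h5)
      _ ≤ _ := mul_le_mul_of_nonneg_left (mul_le_mul_of_nonneg_left h4 (by positivity)) hG0
  -- conclusion
  have h4 : (ρ - x) * (R * x - 1) / ((x * ρ - 1) * (R - x)) ≤
      Real.exp (G * (R / (R ^ 2 - 1) * (C + p / s - 1 / R))) := by
    have e : (ρ - x) * (R * x - 1) / ((x * ρ - 1) * (R - x)) =
        (x ^ 2 - 1) * C / ((x * ρ - 1) * (R - x)) + 1 := by
      rw [eq_comm, div_add_one (by positivity), hρ]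
      congr 1
      ring
    rw [e]
    exact (Real.add_one_le_exp _).trans (Real.exp_le_exp.2 h3)
  calc B = B * (x * ρ - 1) / (x * ρ - 1) := by field_simp
    _ ≤ E * (ρ - x) / (x * ρ - 1) := by gcongr
    _ = E * ((R * x - 1) / (R - x))⁻¹ *
        ((ρ - x) * (R * x - 1) / ((x * ρ - 1) * (R - x))) := by
        obtain ⟨m, hm⟩ : ∃ m, m = R * x - 1 := ⟨_, rfl⟩
        obtain ⟨n, hn⟩ : ∃ n, n = x * ρ - 1 := ⟨_, rfl⟩
        rw [← hm] at hRx1
        rw [← hn] at hxρ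
        rw [← hm, ← hn]
        field_simp
    _ ≤ _ := mul_le_mul_of_nonneg_left h4 (by positivity)

theorem aux_case {R x C : ℝ} (hR : 29 / 12 ≤ R) (hx1 : 1 ≤ x) (hx2 : x ≤ 3 * R / 5)
    (hcase : (R - x) * (R * x - 1) ≤ x * C ^ 2) : 2 / 5 * R ^ 2 - 2 / 3 ≤ C ^ 2 := by
  have hx0 : 0 < x := by linarith
  have h2 : 3 * R * (x ^ 2 + 1) ≤ x * (9 / 5 * R ^ 2 + 5) := by
    have h3 : 1 ≤ R * x := by nlinarith
    have : 0 ≤ (3 * R / 5 - x) * (3 * R * x - 5) := by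
      refine mul_nonneg (by linarith) ?_
      nlinarith
    nlinarith
  have h3 : x * (3 * (2 / 5 * R ^ 2 - 2 / 3)) ≤ x * (3 * C ^ 2) := by nlinarith
  have := le_of_mul_le_mul_left h3 hx0
  linarith

theorem aux_r {R x : ℝ} (hR : 1 < R) (hx1 : 1 ≤ x) (hxR : x < R) :
    1 ≤ (R * x - 1) / (R - x) := by
  rw [le_div_iff₀ (by linarith)]
  nlinarith

theorem aux_le {x s p B E : ℝ} (hx1 : 1 ≤ x) (hs1 : 1 ≤ s) (hB0 : 0 ≤ B) (hE0 : 0 ≤ E)
    (hB : B ^ 2 = s - 2 * x * p + x ^ 2) (hE : E ^ 2 = x ^ 2 * s - 2 * x * p + 1) : B ≤ E := by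
  refine (sq_le_sq₀ hB0 hE0).1 ?_
  rw [hB, hE]
  have h1 : 0 ≤ x ^ 2 - 1 := by nlinarith
  have : 0 ≤ (x ^ 2 - 1) * (s - 1) := mul_nonneg h1 (by linarith)
  linarith

theorem green {R x G : ℝ} (hR : 29 / 12 ≤ R) (hx1 : 1 ≤ x) (hx2 : x ≤ 3 * R / 5) {w : ℂ}
    (hw : 1 ≤ ‖w‖) (hG1 : Real.log ((R * x - 1) / (R - x)) ≤ G)
    (hG2 : R * (x ^ 2 - 1) / ((R - x) * (R * x - 1)) ≤ G) :
    ‖w - x‖ ≤ ‖(x : ℂ) * w - 1‖ * ((R * x - 1) / (R - x))⁻¹ *
      Real.exp (G * (R / (R ^ 2 - 1) * (‖w - R‖ + (w⁻¹).re - 1 / R))) := by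
  have hR0 : 0 < R := by linarith
  have hx0 : 0 < x := by linarith
  have hD : 0 < R ^ 2 - 1 := by nlinarith
  have hRx : 0 < R - x := by linarith
  have hRx1 : 0 < R * x - 1 := by
    have : R * 1 ≤ R * x := mul_le_mul_of_nonneg_left hx1 hR0.le
    linarith
  obtain ⟨C, hCd⟩ : ∃ C, C = ‖w - R‖ := ⟨_, rfl⟩
  obtain ⟨B, hBd⟩ : ∃ B, B = ‖w - x‖ := ⟨_, rfl⟩
  obtain ⟨E, hEd⟩ : ∃ E, E = ‖(x : ℂ) * w - 1‖ := ⟨_, rfl⟩
  obtain ⟨A, hAd⟩ : ∃ A, A = ‖(R : ℂ) * w - 1‖ := ⟨_, rfl⟩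
  obtain ⟨s, hsd⟩ : ∃ s, s = ‖w‖ ^ 2 := ⟨_, rfl⟩
  obtain ⟨p, hpd⟩ : ∃ p, p = w.re := ⟨_, rfl⟩
  have hC0 : 0 ≤ C := hCd ▸ norm_nonneg _
  have hB0 : 0 ≤ B := hBd ▸ norm_nonneg _
  have hE0 : 0 ≤ E := hEd ▸ norm_nonneg _
  have hA0 : 0 ≤ A := hAd ▸ norm_nonneg _
  have hs1 : 1 ≤ s := by rw [hsd]; exact one_le_pow₀ hw
  have hs0 : 0 < s := by linarith
  have hnsq : ∀ z : ℂ, ‖z‖ ^ 2 = z.re ^ 2 + z.im ^ 2 := fun z => by
    rw [← Complex.normSq_eq_norm_sq, Complex.normSq_apply]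
    ring
  have hs' : s = w.re ^ 2 + w.im ^ 2 := by rw [hsd, hnsq]
  have hC : C ^ 2 = s - 2 * R * p + R ^ 2 := by
    rw [hCd, hnsq, hs', hpd]
    simp only [Complex.sub_re, Complex.sub_im, Complex.ofReal_re, Complex.ofReal_im]
    ring
  have hB : B ^ 2 = s - 2 * x * p + x ^ 2 := by
    rw [hBd, hnsq, hs', hpd]
    simp only [Complex.sub_re, Complex.sub_im, Complex.ofReal_re, Complex.ofReal_im]
    ring
  have hE : E ^ 2 = x ^ 2 * s - 2 * x * p + 1 := by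
    rw [hEd, hnsq, hs', hpd]
    simp only [Complex.sub_re, Complex.sub_im, Complex.mul_re, Complex.mul_im, Complex.ofReal_re,
      Complex.ofReal_im, Complex.one_re, Complex.one_im]
    ring
  have hA : A ^ 2 = R ^ 2 * s - 2 * R * p + 1 := by
    rw [hAd, hnsq, hs', hpd]
    simp only [Complex.sub_re, Complex.sub_im, Complex.mul_re, Complex.mul_im, Complex.ofReal_re,
      Complex.ofReal_im, Complex.one_re, Complex.one_im]
    ring
  have hps : p ^ 2 ≤ s := by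
    rw [hs', hpd]
    exact le_add_of_nonneg_right (sq_nonneg w.im)
  have hinv : (w⁻¹).re = p / s := by
    rw [Complex.inv_re, hpd, hsd, Complex.normSq_eq_norm_sq]
  have hnw : ‖w‖ ≤ R + C := by
    calc ‖w‖ = ‖(R : ℂ) + (w - R)‖ := by congr 1; ring
      _ ≤ ‖(R : ℂ)‖ + ‖w - R‖ := norm_add_le _ _
      _ = R + C := by rw [Complex.norm_real, Real.norm_of_nonneg hR0.le, hCd]
  have hnw2 : R ≤ ‖w‖ + C := by
    calc R = ‖w - (w - R)‖ := by
          rw [sub_sub_cancel, Complex.norm_real, Real.norm_of_nonneg hR0.le]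
      _ ≤ ‖w‖ + ‖w - R‖ := norm_sub_le _ _
      _ = _ := by rw [hCd]
  have hτ := tau_nonneg hR hw
  rw [← hCd, hinv] at hτ ⊢
  rw [← hBd, ← hEd]
  -- `x = 1`
  have hr1 : 1 ≤ (R * x - 1) / (R - x) := aux_r (by linarith) hx1 (by linarith)
  have hG0 : 0 ≤ G := (Real.log_nonneg hr1).trans hG1
  have hBE : B ≤ E := aux_le hx1 hs1 hB0 hE0 hB hE
  rcases hx1.eq_or_lt with hx | hx
  · have e1 : (R * x - 1) / (R - x) = 1 := by
      rw [← hx]
      rw [mul_one, div_self (by linarith)]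
    rw [e1, inv_one, mul_one]
    have h1 : (1 : ℝ) ≤ Real.exp (G * (R / (R ^ 2 - 1) * (C + p / s - 1 / R))) :=
      Real.one_le_exp (mul_nonneg hG0 hτ)
    calc B ≤ E := hBE
      _ ≤ E * Real.exp (G * (R / (R ^ 2 - 1) * (C + p / s - 1 / R))) :=
          le_mul_of_one_le_right hE0 h1
  rcases le_total (x * C ^ 2) ((R - x) * (R * x - 1)) with hcase | hcase
  · refine near (by linarith) hx (by linarith) hs1 hC0 hC hcase ?_ hB0 hB hE0 hE hG2
    rw [hsd]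
    exact pow_le_pow_left₀ (norm_nonneg _) hnw 2
  -- the factor `r⁻¹ exp (Γ τ) ≥ exp (- L T)`
  obtain ⟨τ, hτd⟩ : ∃ τ, τ = R / (R ^ 2 - 1) * (C + p / s - 1 / R) := ⟨_, rfl⟩
  rw [← hτd] at hτ ⊢
  obtain ⟨r, hrd⟩ : ∃ r, r = (R * x - 1) / (R - x) := ⟨_, rfl⟩
  rw [← hrd] at hr1 hG1 ⊢
  have hr0 : 0 < r := by linarith
  have hfac : Real.exp (-(Real.log r * (1 - τ))) ≤ r⁻¹ * Real.exp (G * τ) := by
    have h1 : Real.exp (-(Real.log r * (1 - τ))) = r⁻¹ * Real.exp (Real.log r * τ) := by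
      have : -(Real.log r * (1 - τ)) = -Real.log r + Real.log r * τ := by ring
      rw [this, Real.exp_add, Real.exp_neg, Real.exp_log hr0]
    rw [h1]
    exact mul_le_mul_of_nonneg_left (Real.exp_le_exp.2 (mul_le_mul_of_nonneg_right hG1 hτ))
      (by positivity)
  have hgoal : B * Real.exp (Real.log r * (1 - τ)) ≤ E → B ≤ E * r⁻¹ * Real.exp (G * τ) := by
    intro h
    calc B = B * Real.exp (Real.log r * (1 - τ)) * Real.exp (-(Real.log r * (1 - τ))) := by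
          rw [mul_assoc, ← Real.exp_add, add_neg_cancel, Real.exp_zero, mul_one]
      _ ≤ E * (r⁻¹ * Real.exp (G * τ)) :=
          mul_le_mul h hfac (Real.exp_pos _).le hE0
      _ = _ := by ring
  apply hgoal
  rcases le_or_gt R C with hRC | hRC
  · -- `C ≥ R`
    have h1 := tau_ge_one (by linarith) hs1 hps hC hRC
    rw [← hτd] at h1
    have h2 : Real.exp (Real.log r * (1 - τ)) ≤ 1 :=
      Real.exp_le_one_iff.2
        (mul_nonpos_of_nonneg_of_nonpos (Real.log_nonneg hr1) (by linarith))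
    calc B * Real.exp (Real.log r * (1 - τ)) ≤ B * 1 := mul_le_mul_of_nonneg_left h2 hB0
      _ ≤ E := by rw [mul_one]; exact hBE
  -- the middle range
  have hcase' : 2 / 5 * R ^ 2 - 2 / 3 ≤ C ^ 2 := aux_case hR hx1 hx2 hcase
  have hC0' : 0 < C := by
    rcases hC0.eq_or_lt with h | h
    · rw [← h] at hcase'
      have h2 : (29 / 12 : ℝ) ^ 2 ≤ R ^ 2 := pow_le_pow_left₀ (by norm_num) hR 2
      norm_num at h2 hcase'
      linarith
    · exact h
  have hA' : A ^ 2 = C ^ 2 + (R ^ 2 - 1) * (s - 1) := by rw [hA, hC]; ring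
  have hqs : (R - C) ^ 2 ≤ s := by
    rw [hsd]
    exact pow_le_pow_left₀ (by linarith) (by linarith) 2
  have hτs : τ = R / (R ^ 2 - 1) * (C + p / s - 1 / R) := hτd
  have hT : (1 - τ) * (2 * (R ^ 2 - 1) * s) =
      (2 * R * (R - C) - 1) * s - (R - C) * (2 * R - (R - C)) := by
    have h1 : τ * (2 * (R ^ 2 - 1) * s) = 2 * R * C * s + 2 * R * p - 2 * s := by
      rw [hτs]
      field_simp
    have h2 : 2 * R * p = s + R ^ 2 - C ^ 2 := by linarith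
    rw [sub_mul, h1, h2]
    ring
  -- `r = y²`
  obtain ⟨y, hyd⟩ : ∃ y, y = √r := ⟨_, rfl⟩
  have hy2 : y ^ 2 = r := by rw [hyd]; exact Real.sq_sqrt hr0.le
  have hy1 : 1 ≤ y := by rw [hyd]; exact Real.one_le_sqrt.2 hr1
  have hyr : 2 * R * y ^ 2 ≤ 3 * R ^ 2 - 5 := by
    rw [hy2, hrd, mul_div_assoc', div_le_iff₀ hRx]
    have h1 : 0 ≤ (3 * R / 5 - x) * (R ^ 2 - 1) := mul_nonneg (by linarith) hD.le
    have h2 : (3 * R ^ 2 - 5) * (R - x) - 2 * R * (R * x - 1) =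
        5 * ((3 * R / 5 - x) * (R ^ 2 - 1)) := by ring
    linarith
  have hm := mid (R := R) (q := R - C) (A := A) (C := C) (D := R ^ 2 - 1) (s := s) (T := 1 - τ)
    (y := y) hR (by linarith) (by ring) hC0' hcase' rfl hA0 hA' hqs hs1 hT hy1 hyr
  rw [hy2] at hm
  -- `B (r A + C) ≤ E (A + r C)`
  have hU : (R ^ 2 - 1) * B ≤ (R - x) * A + (R * x - 1) * C := by
    have e : (((R ^ 2 - 1 : ℝ)) : ℂ) * (w - x) =
        ((R - x : ℝ) : ℂ) * ((R : ℂ) * w - 1) + ((R * x - 1 : ℝ) : ℂ) * (w - R) := by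
      push_cast
      ring
    calc (R ^ 2 - 1) * B = ‖(((R ^ 2 - 1 : ℝ)) : ℂ) * (w - x)‖ := by
          rw [norm_mul, Complex.norm_real, Real.norm_of_nonneg hD.le, hBd]
      _ ≤ ‖((R - x : ℝ) : ℂ) * ((R : ℂ) * w - 1)‖ + ‖((R * x - 1 : ℝ) : ℂ) * (w - R)‖ := by
          rw [e]
          exact norm_add_le _ _
      _ = _ := by
          rw [norm_mul, norm_mul, Complex.norm_real, Complex.norm_real,
            Real.norm_of_nonneg hRx.le, Real.norm_of_nonneg hRx1.le, hAd, hCd]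
  have hAC : C ≤ A := by
    refine (sq_le_sq₀ hC0 hA0).1 ?_
    rw [hA']
    have : 0 ≤ (R ^ 2 - 1) * (s - 1) := mul_nonneg hD.le (by linarith)
    linarith
  obtain ⟨U, hUd⟩ : ∃ U, U = (R - x) * A + (R * x - 1) * C := ⟨_, rfl⟩
  obtain ⟨V, hVd⟩ : ∃ V, V = (R * x - 1) * A + (R - x) * C := ⟨_, rfl⟩
  rw [← hUd] at hU
  have hA0' : 0 < A := by linarith
  have hU0 : 0 < U := by rw [hUd]; positivity
  have hUV : U ≤ V := by
    have h1 : (0 : ℝ) ≤ (R * x - 1) - (R - x) := by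
      have : 0 ≤ (R + 1) * (x - 1) := mul_nonneg (by linarith) (by linarith)
      linarith
    have h2 : V - U = (A - C) * ((R * x - 1) - (R - x)) := by
      rw [hUd, hVd]
      ring
    have h3 := mul_nonneg (sub_nonneg.2 hAC) h1
    linarith
  have hV0 : 0 < V := by linarith
  have hBV : B * V ≤ E * U := by
    refine (sq_le_sq₀ (by positivity) (by positivity)).1 ?_
    rw [mul_pow, mul_pow]
    have h1 : (R ^ 2 - 1) ^ 2 * E ^ 2 = (R ^ 2 - 1) ^ 2 * B ^ 2 + (V ^ 2 - U ^ 2) := by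
      have e1 : V ^ 2 - U ^ 2 = (R ^ 2 - 1) * (x ^ 2 - 1) * (A ^ 2 - C ^ 2) := by
        rw [hVd, hUd]
        ring
      rw [e1, hA', hE, hB]
      ring
    have h2 : ((R ^ 2 - 1) * B) ^ 2 ≤ U ^ 2 :=
      pow_le_pow_left₀ (by positivity) hU 2
    have h3 : 0 ≤ V ^ 2 - U ^ 2 := by
      have := pow_le_pow_left₀ hU0.le hUV 2
      linarith
    have h4 := mul_le_mul_of_nonneg_right h2 h3
    have h5 : (R ^ 2 - 1) ^ 2 * (B ^ 2 * V ^ 2) ≤ (R ^ 2 - 1) ^ 2 * (E ^ 2 * U ^ 2) := by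
      calc (R ^ 2 - 1) ^ 2 * (B ^ 2 * V ^ 2)
          = ((R ^ 2 - 1) * B) ^ 2 * (V ^ 2 - U ^ 2) + (R ^ 2 - 1) ^ 2 * B ^ 2 * U ^ 2 := by ring
        _ ≤ U ^ 2 * (V ^ 2 - U ^ 2) + (R ^ 2 - 1) ^ 2 * B ^ 2 * U ^ 2 := by linarith
        _ = ((R ^ 2 - 1) ^ 2 * B ^ 2 + (V ^ 2 - U ^ 2)) * U ^ 2 := by ring
        _ = _ := by rw [← h1]; ring
    exact le_of_mul_le_mul_left h5 (by positivity)
  have hrx : r * (R - x) = R * x - 1 := by
    rw [hrd]
    field_simp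
  have hU' : U = (R - x) * (A + r * C) := by
    rw [hUd, ← hrx]
    ring
  have hV' : V = (R - x) * (r * A + C) := by
    rw [hVd, ← hrx]
    ring
  have hfin : B * Real.exp (Real.log r * (1 - τ)) * U ≤ E * U := by
    calc B * Real.exp (Real.log r * (1 - τ)) * U
        = B * (R - x) * (Real.exp (Real.log r * (1 - τ)) * (A + r * C)) := by rw [hU']; ring
      _ ≤ B * (R - x) * (r * A + C) := mul_le_mul_of_nonneg_left hm (by positivity)
      _ = B * V := by rw [hV']; ring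
      _ ≤ E * U := hBV
  exact le_of_mul_le_mul_right hfin hU0

end Pool.Agent.Lib.MP_af3a4a_an.P1.H74.Green
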