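import Mathlib

/-!
# GREEN, part A: three polynomial inequalities (council 2, helper74)
-/

set_option autoImplicit false

namespace Pool.Agent.Lib.MP_af3a4a_an.P1.H74.GreenA

theorem c2_nonneg {g h : ℝ} (hg : 0 ≤ g) (hh : 0 ≤ h) (h1 : 5 / 12 ≤ 2 * g + h) :
    0 ≤ -4 + 31 * g + 8 * h + 20 * h ^ 2 + 144 * (g * h) := by
  nlinarith [mul_nonneg hh (sub_nonneg.2 h1), mul_nonneg hg hh]

theorem H1_aux {g h y : ℝ} (hg : 0 ≤ g) (hh : 0 ≤ h) (h1 : 5 / 12 ≤ 2 * g + h) (hy : 0 ≤ y)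
    {R q p m D : ℝ} (hq : q = 1 + g) (hR : R = 2 * q + h) (hp : p = (R - 1) * (q + 1) + y)
    (hm : m = p - 2 * (R - q)) (hD : D = R ^ 2 - 1) :
    q * (R + 1) * p * ((2 * R * q - 1) * (m * p) + D * (q ^ 2 - 1)) ≤
      2 * R * (R - 1) * (q + 1) ^ 2 * m * (D + m * p) := by
  have h2 := c2_nonneg hg hh h1
  have e : 2 * R * (R - 1) * (q + 1) ^ 2 * m * (D + m * p) -
      q * (R + 1) * p * ((2 * R * q - 1) * (m * p) + D * (q ^ 2 - 1)) =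
      y * (12 + 28*h + 20*h^2 + 4*h^3 + 50*g + 126*g*h + 118*g*h^2 + 50*g*h^3 + 8*g*h^4 + 142*g^2 + 444*g^2*h + 406*g^2*h^2 + 132*g^2*h^3 + 12*g^2*h^4 + 388*g^3 + 938*g^3*h + 584*g^3*h^2 + 110*g^3*h^3 + 4*g^3*h^4 + 628*g^4 + 964*g^4*h + 348*g^4*h^2 + 28*g^4*h^3 + 520*g^5 + 456*g^5*h + 72*g^5*h^2 + 208*g^6 + 80*g^6*h + 32*g^7) +
      y ^ 2 * ((-4 + 31 * g + 8 * h + 20 * h ^ 2 + 144 * (g * h)) + (8*h^3 + 111*g*h^2 + 18*g*h^3 + 175*g^2 + 338*g^2*h + 127*g^2*h^2 + 8*g^2*h^3 + 264*g^3 + 260*g^3*h + 40*g^3*h^2 + 156*g^4 + 64*g^4*h + 32*g^5)) +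
      y ^ 3 * (7 + 15*h + 6*h^2 + 25*g + 29*g*h + 4*g*h^2 + 26*g^2 + 12*g^2*h + 8*g^3) := by
    subst hq
    subst hR
    subst hD
    subst hm
    subst hp
    ring
  have e2 : 0 ≤ y * (12 + 28*h + 20*h^2 + 4*h^3 + 50*g + 126*g*h + 118*g*h^2 + 50*g*h^3 + 8*g*h^4 + 142*g^2 + 444*g^2*h + 406*g^2*h^2 + 132*g^2*h^3 + 12*g^2*h^4 + 388*g^3 + 938*g^3*h + 584*g^3*h^2 + 110*g^3*h^3 + 4*g^3*h^4 + 628*g^4 + 964*g^4*h + 348*g^4*h^2 + 28*g^4*h^3 + 520*g^5 + 456*g^5*h + 72*g^5*h^2 + 208*g^6 + 80*g^6*h + 32*g^7) +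
      y ^ 2 * ((-4 + 31 * g + 8 * h + 20 * h ^ 2 + 144 * (g * h)) + (8*h^3 + 111*g*h^2 + 18*g*h^3 + 175*g^2 + 338*g^2*h + 127*g^2*h^2 + 8*g^2*h^3 + 264*g^3 + 260*g^3*h + 40*g^3*h^2 + 156*g^4 + 64*g^4*h + 32*g^5)) +
      y ^ 3 * (7 + 15*h + 6*h^2 + 25*g + 29*g*h + 4*g*h^2 + 26*g^2 + 12*g^2*h + 8*g^3) := by
    positivity
  linarith

theorem H2 {R q m p D : ℝ} (hR : 29 / 12 ≤ R) (hq1 : q ≤ 1) (hqR : 0 < q) (hm : 0 ≤ m)
    (hp : p = m + 2 * (R - q)) (hD : D = R ^ 2 - 1) :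
    (R + 1) * p * ((2 * R * q - 1) * (m * p) + D * (q ^ 2 - 1)) ≤
      8 * R * (R - 1) * m * (D + m * p) := by
  obtain ⟨r, hr⟩ : ∃ r, r = R - 29 / 12 := ⟨_, rfl⟩
  obtain ⟨e, he⟩ : ∃ e, e = 1 - q := ⟨_, rfl⟩
  have hr0 : 0 ≤ r := by linarith
  have he0 : 0 ≤ e := by linarith
  have hp0 : 0 ≤ p := by linarith
  have hD0 : 0 ≤ D := by nlinarith
  have e1 : 0 ≤ (R + 1) * p * (D * (1 - q ^ 2)) := by
    have : 0 ≤ 1 - q ^ 2 := by nlinarith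
    have : 0 ≤ R + 1 := by linarith
    positivity
  have e2 : 0 ≤ m * (8 * R * (R - 1) * (D + m * p) - (R + 1) * (2 * R * q - 1) * p ^ 2) := by
    refine mul_nonneg hm ?_
    have e3 : 8 * R * (R - 1) * (D + m * p) - (R + 1) * (2 * R * q - 1) * p ^ 2 =
        (11849 / 432 - 41123 / 2592 * e + 14555 / 108 * e ^ 2) + (731/216*m + 343/24*m^2 + 187/4*r + 173/6*r*m + 20*r*m^2 + 25*r^2 + 30*r^2*m + 6*r^2*m^2 + 4*r^3 + 8*r^3*m + 20729/216*e*m + 1189/72*e*m^2 + 1489/27*e*r + 905/6*e*r*m + 35/3*e*r*m^2 + 319/3*e*r^2 + 66*e*r^2*m + 2*e*r^2*m^2 + 160/3*e*r^3 + 8*e*r^3*m + 8*e*r^4 + 1189/18*e^2*m + 665/3*e^2*r + 140/3*e^2*r*m + 108*e^2*r^2 + 8*e^2*r^2*m + 16*e^2*r^3 + 1189/18*e^3 + 140/3*e^3*r + 8*e^3*r^2) := by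
      have hq' : q = 1 - e := by linarith
      have hR' : R = 29 / 12 + r := by linarith
      rw [hD, hp, hq', hR']
      ring
    have e4 : 0 ≤ (11849 / 432 - 41123 / 2592 * e + 14555 / 108 * e ^ 2) := by
      nlinarith [sq_nonneg (e - 1 / 17)]
    rw [e3]
    positivity
  nlinarith [e1, e2]

theorem W1 {R Q : ℝ} (hR : 29 / 12 ≤ R) (hR8 : R ≤ 8)
    (hQ : Q = 9 / 8 + 27 / 80 * (R - 29 / 12)) :
    R * (Q + 1) ^ 4 * (3 * R + 5) ^ 2 * (R - 1) ^ 2 ≤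
      8 * (3 * R ^ 2 - 5) * Q ^ 2 * (R + 1) ^ 4 := by
  obtain ⟨a, ha⟩ : ∃ a, a = R - 29 / 12 := ⟨_, rfl⟩
  obtain ⟨b, hb⟩ : ∃ b, b = 8 - R := ⟨_, rfl⟩
  have ha0 : 0 ≤ a := by linarith
  have hb0 : 0 ≤ b := by linarith
  have e : 8 * (3 * R ^ 2 - 5) * Q ^ 2 * (R + 1) ^ 4 -
      R * (Q + 1) ^ 4 * (3 * R + 5) ^ 2 * (R - 1) ^ 2 =
      201019189730859/435304550340719152*b^9 + 49468889650029777/4353045503407191520*a*b^8 + 42000786718294309929/348243640272575321600*a^2*b^7 + 5119011033852516253209/6964872805451506432000*a^3*b^6 + 3164504071670688325253211/1114379648872241029120000*a^4*b^5 + 498257226274658016610701/69648728054515064320000*a^5*b^4 + 80318520718448313854637/6964872805451506432000*a^6*b^3 + 48189335105146377041919/4353045503407191520000*a^7*b^2 + 23054927027667107672763/4353045503407191520000*a^8*b + 95462233061001884613/136032671981474735000*a^9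 := by
    rw [ha, hb, hQ]
    ring
  have e2 : 0 ≤ 201019189730859/435304550340719152*b^9 + 49468889650029777/4353045503407191520*a*b^8 + 42000786718294309929/348243640272575321600*a^2*b^7 + 5119011033852516253209/6964872805451506432000*a^3*b^6 + 3164504071670688325253211/1114379648872241029120000*a^4*b^5 + 498257226274658016610701/69648728054515064320000*a^5*b^4 + 80318520718448313854637/6964872805451506432000*a^6*b^3 + 48189335105146377041919/4353045503407191520000*a^7*b^2 + 23054927027667107672763/4353045503407191520000*a^8*b + 95462233061001884613/136032671981474735000*a^9 := by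
    positivity
  linarith

end Pool.Agent.Lib.MP_af3a4a_an.P1.H74.GreenA
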