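import Pool.Agent.Lib.MP_af3a4a_an.P1.H74.GreenA

/-!
# GREEN, part B: the middle range of `|w - R|` (council 2, helper74)
-/

set_option autoImplicit false

namespace Pool.Agent.Lib.MP_af3a4a_an.P1.H74.GreenB

open GreenA

/-- `exp (2 z) ≤ (1 + z)/(1 - z)` -/
theorem exp_two_mul_le {z : ℝ} (h0 : 0 ≤ z) (h1 : z < 1) :
    Real.exp (2 * z) * (1 - z) ≤ 1 + z := by
  have hs := Real.hasSum_log_sub_log_of_abs_lt_one (x := z) (by rw [abs_of_nonneg h0]; exact h1)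
  have h2 := le_hasSum hs 0 (fun j _ => by positivity)
  have h3 : 2 * z ≤ Real.log (1 + z) - Real.log (1 - z) := by
    simpa using h2
  have h4 : 0 < 1 - z := by linarith
  have h5 : 0 < 1 + z := by linarith
  have h6 : Real.exp (2 * z) ≤ Real.exp (Real.log (1 + z) - Real.log (1 - z)) :=
    Real.exp_le_exp.2 h3
  rw [Real.exp_sub, Real.exp_log h5, Real.exp_log h4, le_div_iff₀ h4] at h6
  exact h6

/-- `log r ≤ (r - 1)/√r` -/
theorem log_sq_le {y : ℝ} (hy : 1 ≤ y) : Real.log (y ^ 2) * y ≤ y ^ 2 - 1 := by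
  have h0 : 0 < y := by linarith
  have h1 : Real.log y ≤ Real.sinh (Real.log y) :=
    Real.self_le_sinh_iff.2 (Real.log_nonneg hy)
  rw [Real.sinh_log h0] at h1
  rw [Real.log_pow]
  push_cast
  have h2 : Real.log y * y ≤ (y - y⁻¹) / 2 * y := mul_le_mul_of_nonneg_right h1 h0.le
  have h3 : (y - y⁻¹) / 2 * y = (y ^ 2 - 1) / 2 := by
    field_simp
  linarith

/-- the quantity `W = 2 √r/(r + 1)` is at least its value at `x = 3R/5` -/
theorem W_low {R y W : ℝ} (hR : 29 / 12 ≤ R) (hy : 1 ≤ y) (hy2 : 2 * R * y ^ 2 ≤ 3 * R ^ 2 - 5)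
    (hW : W * (y ^ 2 + 1) = 2 * y) :
    8 * R * (3 * R ^ 2 - 5) ≤ W ^ 2 * (3 * R + 5) ^ 2 * (R - 1) ^ 2 := by
  have hR0 : 0 < R := by linarith
  obtain ⟨r, hr⟩ : ∃ r, r = y ^ 2 := ⟨_, rfl⟩
  have hr1 : 1 ≤ r := by nlinarith
  have hW2 : W ^ 2 * (r + 1) ^ 2 = 4 * r := by
    rw [← mul_pow, hr, hW]
    ring
  rw [← hr] at hy2
  have e1 : 0 ≤ (3 * R ^ 2 - 5 - 2 * R * r) * (r * (3 * R ^ 2 - 5) - 2 * R) := by
    refine mul_nonneg (by linarith) ?_
    nlinarith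
  have e2 : 8 * R * (3 * R ^ 2 - 5) * (r + 1) ^ 2 ≤
      4 * r * ((3 * R + 5) ^ 2 * (R - 1) ^ 2) := by
    nlinarith [e1]
  rw [← hW2] at e2
  have e3 : 0 < (r + 1) ^ 2 := by positivity
  nlinarith [e2, e3]

theorem W_ge {a b W : ℝ} (ha : 0 ≤ a) (hb : 0 < b) (hW : 0 ≤ W) (h : a ^ 2 ≤ b ^ 2 * W ^ 2) :
    a ≤ b * W := by
  rw [← mul_pow] at h
  exact (sq_le_sq₀ ha (by positivity)).1 h

/-- `R ≤ 8` -/
theorem W_one {R y W : ℝ} (hR : 29 / 12 ≤ R) (hR8 : R ≤ 8) (hy : 1 ≤ y)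
    (hy2 : 2 * R * y ^ 2 ≤ 3 * R ^ 2 - 5) (hW : W * (y ^ 2 + 1) = 2 * y) {Q : ℝ}
    (hQ : Q = 9 / 8 + 27 / 80 * (R - 29 / 12)) :
    R * (Q + 1) ^ 2 ≤ Q * (R + 1) ^ 2 * W := by
  have hR0 : 0 < R := by linarith
  have hQ0 : 0 < Q := by linarith
  have hW0 : 0 ≤ W := by
    by_contra h
    push Not at h
    nlinarith
  have h1 := W_low hR hy hy2 hW
  have h2 := W1 hR hR8 hQ
  refine W_ge (by positivity) (by positivity) hW0 ?_
  have h3 : 0 < (3 * R + 5) ^ 2 * (R - 1) ^ 2 := by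
    have : 0 < R - 1 := by linarith
    positivity
  have h4 : (R * (Q + 1) ^ 2) ^ 2 * ((3 * R + 5) ^ 2 * (R - 1) ^ 2) ≤
      (Q * (R + 1) ^ 2) ^ 2 * W ^ 2 * ((3 * R + 5) ^ 2 * (R - 1) ^ 2) := by
    calc (R * (Q + 1) ^ 2) ^ 2 * ((3 * R + 5) ^ 2 * (R - 1) ^ 2)
        = R * (R * (Q + 1) ^ 4 * (3 * R + 5) ^ 2 * (R - 1) ^ 2) := by ring
      _ ≤ R * (8 * (3 * R ^ 2 - 5) * Q ^ 2 * (R + 1) ^ 4) :=
          mul_le_mul_of_nonneg_left h2 hR0.le
      _ = (Q * (R + 1) ^ 2) ^ 2 * (8 * R * (3 * R ^ 2 - 5)) := by ring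
      _ ≤ (Q * (R + 1) ^ 2) ^ 2 * (W ^ 2 * (3 * R + 5) ^ 2 * (R - 1) ^ 2) :=
          mul_le_mul_of_nonneg_left h1 (by positivity)
      _ = _ := by ring
  exact le_of_mul_le_mul_right h4 h3

/-- `R ≥ 8` -/
theorem W_two {R y W : ℝ} (hR8 : 8 ≤ R) (hy : 1 ≤ y)
    (hy2 : 2 * R * y ^ 2 ≤ 3 * R ^ 2 - 5) (hW : W * (y ^ 2 + 1) = 2 * y) :
    R * (2 + 1) ^ 2 ≤ 2 * (R + 1) ^ 2 * W := by
  have hR0 : 0 < R := by linarith
  have hW0 : 0 ≤ W := by
    by_contra h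
    push Not at h
    nlinarith
  have h1 := W_low (by linarith) hy hy2 hW
  have h2 : 81 * R * ((3 * R + 5) ^ 2 * (R - 1) ^ 2) ≤ 32 * (3 * R ^ 2 - 5) * (R + 1) ^ 4 := by
    obtain ⟨v, hv⟩ : ∃ v, v = R - 8 := ⟨_, rfl⟩
    have hv0 : 0 ≤ v := by linarith
    have hR' : R = 8 + v := by linarith
    have e : 32 * (3 * R ^ 2 - 5) * (R + 1) ^ 4 - 81 * R * ((3 * R + 5) ^ 2 * (R - 1) ^ 2) =
        12557592 + 11034711*v + 3963492*v^2 + 746298*v^3 + 77804*v^4 + 4263*v^5 + 96*v^6 := by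
      rw [hR']
      ring
    have e2 : 0 ≤ 12557592 + 11034711*v + 3963492*v^2 + 746298*v^3 + 77804*v^4 + 4263*v^5 + 96*v^6 := by positivity
    linarith
  refine W_ge (by positivity) (by positivity) hW0 ?_
  have h3 : 0 < (3 * R + 5) ^ 2 * (R - 1) ^ 2 := by
    have : 0 < R - 1 := by linarith
    positivity
  have h4 : (R * (2 + 1) ^ 2) ^ 2 * ((3 * R + 5) ^ 2 * (R - 1) ^ 2) ≤
      (2 * (R + 1) ^ 2) ^ 2 * W ^ 2 * ((3 * R + 5) ^ 2 * (R - 1) ^ 2) := by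
    calc (R * (2 + 1) ^ 2) ^ 2 * ((3 * R + 5) ^ 2 * (R - 1) ^ 2)
        = R * (81 * R * ((3 * R + 5) ^ 2 * (R - 1) ^ 2)) := by ring
      _ ≤ R * (32 * (3 * R ^ 2 - 5) * (R + 1) ^ 4) :=
          mul_le_mul_of_nonneg_left h2 hR0.le
      _ = (2 * (R + 1) ^ 2) ^ 2 * (8 * R * (3 * R ^ 2 - 5)) := by ring
      _ ≤ (2 * (R + 1) ^ 2) ^ 2 * (W ^ 2 * (3 * R + 5) ^ 2 * (R - 1) ^ 2) :=
          mul_le_mul_of_nonneg_left h1 (by positivity)
      _ = _ := by ring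
  exact le_of_mul_le_mul_right h4 h3

/-- (H) and (H'): `T ≤ ψ(q) (A - C)/(A + C)` -/
theorem T_ge_one {R q A C D s T : ℝ} (hR : 29 / 12 ≤ R) (hq1 : 1 ≤ q) (hq2 : 2 * q ≤ R)
    (hC : C = R - q) (hD : D = R ^ 2 - 1) (hA0 : 0 ≤ A) (hA : A ^ 2 = C ^ 2 + D * (s - 1))
    (hs : q ^ 2 ≤ s) (hT : T * (2 * D * s) = (2 * R * q - 1) * s - q * (2 * R - q)) :
    q * (R + 1) ^ 2 * ((A + C) * T) ≤ R * (q + 1) ^ 2 * (A - C) := by
  have hD0 : 0 < D := by nlinarith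
  have hs0 : 0 < s := by nlinarith
  have hA1 : R * q - 1 ≤ A := by
    have h1 : (R * q - 1) ^ 2 ≤ A ^ 2 := by
      have : (R * q - 1) ^ 2 = C ^ 2 + D * (q ^ 2 - 1) := by rw [hC, hD]; ring
      rw [this, hA]
      have := mul_le_mul_of_nonneg_left hs hD0.le
      linarith
    exact (sq_le_sq₀ (by nlinarith) hA0).1 h1
  have hmP : (A - C) * (A + C) = D * (s - 1) := by linear_combination hA
  have h1 := H1_aux (g := q - 1) (h := R - 2 * q) (y := A + C - (R - 1) * (q + 1)) (by linarith)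
    (by linarith) (by linarith) (by rw [hC]; linarith) (R := R) (q := q) (p := A + C) (m := A - C)
    (D := D) (by ring) (by ring) (by ring) (by rw [hC]; ring) hD
  have e1 : (2 * R * q - 1) * ((A - C) * (A + C)) + D * (q ^ 2 - 1) = T * (2 * D * s) * D := by
    rw [hmP, hT]
    ring
  have e2 : D + (A - C) * (A + C) = D * s := by rw [hmP]; ring
  rw [e1, e2] at h1
  have e3 : 0 < 2 * D * s * (R - 1) := by
    have : 0 < R - 1 := by linarith
    positivity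
  have e4 : 2 * D * s * (R - 1) * (q * (R + 1) ^ 2 * ((A + C) * T)) ≤
      2 * D * s * (R - 1) * (R * (q + 1) ^ 2 * (A - C)) := by
    calc 2 * D * s * (R - 1) * (q * (R + 1) ^ 2 * ((A + C) * T))
        = q * (R + 1) * (A + C) * (T * (2 * D * s) * (R ^ 2 - 1)) := by ring
      _ = q * (R + 1) * (A + C) * (T * (2 * D * s) * D) := by rw [hD]
      _ ≤ 2 * R * (R - 1) * (q + 1) ^ 2 * (A - C) * (D * s) := h1
      _ = _ := by ring
  exact le_of_mul_le_mul_left e4 e3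

theorem T_le_one {R q A C D s T : ℝ} (hR : 29 / 12 ≤ R) (hq0 : 0 < q) (hq1 : q ≤ 1)
    (hC : C = R - q) (hD : D = R ^ 2 - 1) (hA : A ^ 2 = C ^ 2 + D * (s - 1)) (hs : 1 ≤ s)
    (hAC : C ≤ A) (hT : T * (2 * D * s) = (2 * R * q - 1) * s - q * (2 * R - q)) :
    (R + 1) ^ 2 * ((A + C) * T) ≤ 4 * R * (A - C) := by
  have hD0 : 0 < D := by nlinarith
  have hs0 : 0 < s := by linarith
  have hmP : (A - C) * (A + C) = D * (s - 1) := by linear_combination hA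
  have h1 := H2 (R := R) (q := q) (p := A + C) (m := A - C) (D := D) hR hq1 hq0 (by linarith)
    (by rw [hC]; ring) hD
  have e1 : (2 * R * q - 1) * ((A - C) * (A + C)) + D * (q ^ 2 - 1) = T * (2 * D * s) * D := by
    rw [hmP, hT]
    ring
  have e2 : D + (A - C) * (A + C) = D * s := by rw [hmP]; ring
  rw [e1, e2] at h1
  have e3 : 0 < 2 * D * s * (R - 1) := by
    have : 0 < R - 1 := by linarith
    positivity
  have e4 : 2 * D * s * (R - 1) * ((R + 1) ^ 2 * ((A + C) * T)) ≤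
      2 * D * s * (R - 1) * (4 * R * (A - C)) := by
    calc 2 * D * s * (R - 1) * ((R + 1) ^ 2 * ((A + C) * T))
        = (R + 1) * (A + C) * (T * (2 * D * s) * (R ^ 2 - 1)) := by ring
      _ = (R + 1) * (A + C) * (T * (2 * D * s) * D) := by rw [hD]
      _ ≤ 8 * R * (R - 1) * (A - C) * (D * s) := h1
      _ = _ := by ring
  exact le_of_mul_le_mul_left e4 e3

theorem PT_le {R q A C D s T W Q : ℝ} (hR : 29 / 12 ≤ R) (hq0 : 0 < q) (hq2 : 2 * q ≤ R)
    (hC : C = R - q) (hD : D = R ^ 2 - 1) (hA0 : 0 ≤ A) (hA : A ^ 2 = C ^ 2 + D * (s - 1))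
    (hs : q ^ 2 ≤ s) (hs1 : 1 ≤ s) (hAC : C ≤ A)
    (hT : T * (2 * D * s) = (2 * R * q - 1) * s - q * (2 * R - q)) (hQ1 : 1 ≤ Q) (hqQ : q ≤ Q)
    (hW : R * (Q + 1) ^ 2 ≤ Q * (R + 1) ^ 2 * W) : (A + C) * T ≤ W * (A - C) := by
  have hR0 : 0 < R := by linarith
  have hm : 0 ≤ A - C := by linarith
  rcases le_total 1 q with h | h
  · have h1 := T_ge_one hR h hq2 hC hD hA0 hA hs hT
    have h2 : (q + 1) ^ 2 * Q ≤ (Q + 1) ^ 2 * q := by
      have : 0 ≤ (Q - q) * (q * Q - 1) := mul_nonneg (by linarith) (by nlinarith)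
      nlinarith
    have h3 : R * (q + 1) ^ 2 ≤ q * (R + 1) ^ 2 * W := by
      have h4 : Q * (R * (q + 1) ^ 2) ≤ Q * (q * (R + 1) ^ 2 * W) := by
        calc Q * (R * (q + 1) ^ 2) = R * ((q + 1) ^ 2 * Q) := by ring
          _ ≤ R * ((Q + 1) ^ 2 * q) := mul_le_mul_of_nonneg_left h2 hR0.le
          _ = q * (R * (Q + 1) ^ 2) := by ring
          _ ≤ q * (Q * (R + 1) ^ 2 * W) := mul_le_mul_of_nonneg_left hW hq0.le
          _ = _ := by ring
      exact le_of_mul_le_mul_left h4 (by linarith)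
    have h5 : q * (R + 1) ^ 2 * ((A + C) * T) ≤ q * (R + 1) ^ 2 * (W * (A - C)) := by
      calc q * (R + 1) ^ 2 * ((A + C) * T) ≤ R * (q + 1) ^ 2 * (A - C) := h1
        _ ≤ q * (R + 1) ^ 2 * W * (A - C) := mul_le_mul_of_nonneg_right h3 hm
        _ = _ := by ring
    exact le_of_mul_le_mul_left h5 (by positivity)
  · have h1 := T_le_one hR hq0 h hC hD hA hs1 hAC hT
    have h2 : 4 * R ≤ (R + 1) ^ 2 * W := by
      have h3 : Q * (4 * R) ≤ Q * ((R + 1) ^ 2 * W) := by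
        calc Q * (4 * R) = R * (4 * Q) := by ring
          _ ≤ R * (Q + 1) ^ 2 := mul_le_mul_of_nonneg_left (by nlinarith [sq_nonneg (Q - 1)]) hR0.le
          _ ≤ Q * (R + 1) ^ 2 * W := hW
          _ = _ := by ring
      exact le_of_mul_le_mul_left h3 (by linarith)
    have h5 : (R + 1) ^ 2 * ((A + C) * T) ≤ (R + 1) ^ 2 * (W * (A - C)) := by
      calc (R + 1) ^ 2 * ((A + C) * T) ≤ 4 * R * (A - C) := h1
        _ ≤ (R + 1) ^ 2 * W * (A - C) := mul_le_mul_of_nonneg_right h2 hm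
        _ = _ := by ring
    exact le_of_mul_le_mul_left h5 (by positivity)

/-- from `(A + C) T ≤ W (A - C)` to the exponential -/
theorem exp_of_PT {A C T W y : ℝ} (hy : 1 ≤ y) (hC : 0 < C) (hAC : C ≤ A)
    (hW : W * (y ^ 2 + 1) = 2 * y) (h : (A + C) * T ≤ W * (A - C)) :
    Real.exp (Real.log (y ^ 2) * T) * (A + y ^ 2 * C) ≤ y ^ 2 * A + C := by
  have hy0 : 0 < y := by linarith
  have hA : 0 < A := by linarith
  obtain ⟨r, hr⟩ : ∃ r, r = y ^ 2 := ⟨_, rfl⟩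
  have hr1 : 1 ≤ r := by nlinarith
  have hL : 0 ≤ Real.log (y ^ 2) := Real.log_nonneg (by rw [← hr]; exact hr1)
  have h1 : A + r * C ≤ r * A + C := by nlinarith
  rcases le_total T 0 with hT | hT
  · have h2 : Real.exp (Real.log (y ^ 2) * T) ≤ 1 := by
      rw [← Real.exp_zero]
      exact Real.exp_le_exp.2 (mul_nonpos_of_nonneg_of_nonpos hL hT)
    rw [← hr] at h2 ⊢
    calc Real.exp (Real.log r * T) * (A + r * C) ≤ 1 * (A + r * C) :=
          mul_le_mul_of_nonneg_right h2 (by positivity)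
      _ ≤ r * A + C := by linarith
  · obtain ⟨z, hz⟩ : ∃ z, z = (r - 1) * (A - C) / ((r + 1) * (A + C)) := ⟨_, rfl⟩
    have hden : 0 < (r + 1) * (A + C) := by positivity
    have hz0 : 0 ≤ z := by
      rw [hz]
      exact div_nonneg (mul_nonneg (by linarith) (by linarith)) hden.le
    have hz1 : z < 1 := by
      rw [hz, div_lt_one hden]
      nlinarith
    have h2 := log_sq_le hy
    have h3 : Real.log (y ^ 2) * T ≤ 2 * z := by
      have h4 : y * ((r + 1) * (A + C)) * (Real.log (y ^ 2) * T) ≤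
          y * ((r + 1) * (A + C)) * (2 * z) := by
        calc y * ((r + 1) * (A + C)) * (Real.log (y ^ 2) * T)
            = (Real.log (y ^ 2) * y) * ((r + 1) * ((A + C) * T)) := by ring
          _ ≤ (y ^ 2 - 1) * ((r + 1) * ((A + C) * T)) :=
              mul_le_mul_of_nonneg_right h2 (by positivity)
          _ ≤ (y ^ 2 - 1) * ((r + 1) * (W * (A - C))) := by
              refine mul_le_mul_of_nonneg_left (mul_le_mul_of_nonneg_left h (by linarith)) ?_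
              rw [← hr]
              linarith
          _ = (r - 1) * (A - C) * (W * (y ^ 2 + 1)) := by rw [hr]; ring
          _ = y * (2 * ((r - 1) * (A - C))) := by rw [hW]; ring
          _ = y * ((r + 1) * (A + C)) * (2 * z) := by
              rw [hz]
              field_simp
      exact le_of_mul_le_mul_left h4 (by positivity)
    have h5 := exp_two_mul_le hz0 hz1
    have h6 : (1 - z) * ((r + 1) * (A + C)) = 2 * (A + r * C) := by
      rw [hz]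
      field_simp
      ring
    have h7 : (1 + z) * ((r + 1) * (A + C)) = 2 * (r * A + C) := by
      rw [hz]
      field_simp
      ring
    rw [← hr] at h3 ⊢
    calc Real.exp (Real.log r * T) * (A + r * C) ≤ Real.exp (2 * z) * (A + r * C) :=
          mul_le_mul_of_nonneg_right (Real.exp_le_exp.2 h3) (by positivity)
      _ = Real.exp (2 * z) * (1 - z) * ((r + 1) * (A + C)) / 2 := by
          linear_combination -(Real.exp (2 * z) / 2) * h6
      _ ≤ (1 + z) * ((r + 1) * (A + C)) / 2 := by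
          have := mul_le_mul_of_nonneg_right h5 hden.le
          linarith
      _ = r * A + C := by rw [h7]; ring

end Pool.Agent.Lib.MP_af3a4a_an.P1.H74.GreenB
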