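import Pool.Agent.Lib.MP_af3a4a_an.P1.H74.GreenB

/-!
# GREEN, part C: large `R`, and the middle range (council 2, helper74)
-/

set_option autoImplicit false

namespace Pool.Agent.Lib.MP_af3a4a_an.P1.H74.GreenC

open GreenA GreenB

theorem G_two {R y : ℝ} (hR : 8 ≤ R) (hy : 1 ≤ y) (hy1 : 6 * y ≤ 13 / 10 * R + 52 / 5) :
    6 * R * (2 + y ^ 2) ≤ 2 * (R + 1) ^ 2 * (y + 1) := by
  have e1 : 0 ≤ y * R * (13 / 10 * R + 52 / 5 - 6 * y) :=
    mul_nonneg (by positivity) (by linarith)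
  have e2 : -(22 / 5) ≤ 7 / 10 * R ^ 2 - 32 / 5 * R + 2 := by nlinarith
  have e3 : -(22 / 5) * y ≤ (7 / 10 * R ^ 2 - 32 / 5 * R + 2) * y :=
    mul_le_mul_of_nonneg_right e2 (by linarith)
  have e4 : 22 / 5 * y ≤ 2 * R ^ 2 - 8 * R + 2 := by nlinarith
  nlinarith [e1, e3, e4]

theorem G_last {R y : ℝ} (hR : 8 ≤ R) (hy : 1 ≤ y) (hy1 : 6 * y ≤ 13 / 10 * R + 52 / 5) :
    (2 * R / 5 + 1) * (2 * R / 5 + y ^ 2) ≤ (R + 1) ^ 2 * (y + 1) / 5 := by
  have e1 : 0 ≤ y * (2 * R / 5 + 1) * (13 / 10 * R + 52 / 5 - 6 * y) :=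
    mul_nonneg (by positivity) (by linarith)
  have e2 : 0 ≤ 17 / 150 * R ^ 2 - 77 / 150 * R - 23 / 15 := by nlinarith
  have e3 : 0 ≤ (17 / 150 * R ^ 2 - 77 / 150 * R - 23 / 15) * y :=
    mul_nonneg e2 (by linarith)
  nlinarith [e1, e3]

theorem corner {R q y : ℝ} (hR : 8 ≤ R) (hq : 2 ≤ q) (hq2 : q ≤ 2 * R / 5) (hy : 1 ≤ y)
    (hy2 : 2 * y ^ 2 ≤ 3 * R) :
    2 * R * (q + 1) * (q + y ^ 2) ≤ q * (R + 1) ^ 2 * (y + 1) := by
  have hy1 : 6 * y ≤ 13 / 10 * R + 52 / 5 := by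
    refine abs_le_of_sq_le_sq' (b := 13 / 10 * R + 52 / 5) ?_ (by positivity) |>.2
    nlinarith
  have h1 := G_two hR hy hy1
  have h2 := G_last hR hy hy1
  have hQ : 0 < 2 * R / 5 - 2 := by linarith
  have e : (2 * R / 5 - 2) * (q * (R + 1) ^ 2 * (y + 1) - 2 * R * (q + 1) * (q + y ^ 2)) =
      (2 * R / 5 - q) * (2 * (R + 1) ^ 2 * (y + 1) - 6 * R * (2 + y ^ 2)) +
      (q - 2) * (2 * R * ((R + 1) ^ 2 * (y + 1) / 5 - (2 * R / 5 + 1) * (2 * R / 5 + y ^ 2))) +
      2 * R * (q - 2) * (2 * R / 5 - q) * (2 * R / 5 - 2) := by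
    ring
  have h3 : 0 ≤ (2 * R / 5 - q) * (2 * (R + 1) ^ 2 * (y + 1) - 6 * R * (2 + y ^ 2)) :=
    mul_nonneg (by linarith) (by linarith)
  have h4 : 0 ≤ (q - 2) * (2 * R * ((R + 1) ^ 2 * (y + 1) / 5 -
      (2 * R / 5 + 1) * (2 * R / 5 + y ^ 2))) :=
    mul_nonneg (by linarith) (mul_nonneg (by linarith) (by linarith))
  have h5 : 0 ≤ 2 * R * (q - 2) * (2 * R / 5 - q) * (2 * R / 5 - 2) :=
    mul_nonneg (mul_nonneg (mul_nonneg (by linarith) (by linarith)) (by linarith)) (by linarith)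
  have h6 : 0 ≤ (2 * R / 5 - 2) *
      (q * (R + 1) ^ 2 * (y + 1) - 2 * R * (q + 1) * (q + y ^ 2)) := by
    rw [e]
    linarith
  have h7 := nonneg_of_mul_nonneg_right h6 hQ
  linarith

/-- the case `R ≥ 8`, `q ≥ 2` -/
theorem exp_big {R q A C D s T y : ℝ} (hR : 8 ≤ R) (hq : 2 ≤ q) (hq2 : q ≤ 2 * R / 5)
    (hC : C = R - q) (hD : D = R ^ 2 - 1) (hA0 : 0 ≤ A) (hA : A ^ 2 = C ^ 2 + D * (s - 1))
    (hs : q ^ 2 ≤ s) (hAC : C ≤ A)
    (hT : T * (2 * D * s) = (2 * R * q - 1) * s - q * (2 * R - q)) (hT2 : T ≤ 1 / 2)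
    (hy : 1 ≤ y) (hy2 : 2 * y ^ 2 ≤ 3 * R) :
    Real.exp (Real.log (y ^ 2) * T) * (A + y ^ 2 * C) ≤ y ^ 2 * A + C := by
  have hy0 : 0 < y := by linarith
  have hC0 : 0 < C := by linarith
  have hm : 0 ≤ A - C := by linarith
  have hD0 : 0 < D := by nlinarith
  obtain ⟨r, hr⟩ : ∃ r, r = y ^ 2 := ⟨_, rfl⟩
  have hr1 : 1 ≤ r := by nlinarith
  have hL : 0 ≤ Real.log (y ^ 2) := Real.log_nonneg (by rw [← hr]; exact hr1)
  have h1 : A + r * C ≤ r * A + C := by nlinarith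
  rcases le_total T 0 with hT0 | hT0
  · have h2 : Real.exp (Real.log (y ^ 2) * T) ≤ 1 := by
      rw [← Real.exp_zero]
      exact Real.exp_le_exp.2 (mul_nonpos_of_nonneg_of_nonpos hL hT0)
    rw [← hr] at h2 ⊢
    calc Real.exp (Real.log r * T) * (A + r * C) ≤ 1 * (A + r * C) :=
          mul_le_mul_of_nonneg_right h2 (by positivity)
      _ ≤ r * A + C := by linarith
  · have hB : Real.exp (Real.log (y ^ 2) * T) ≤ 1 + 2 * T * (y - 1) := by
      have e1 : Real.exp (Real.log (y ^ 2) * T) = (1 + (y - 1)) ^ (2 * T) := by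
        rw [Real.rpow_def_of_pos (by linarith), Real.log_pow]
        push_cast
        congr 1
        have : (1 : ℝ) + (y - 1) = y := by ring
        rw [this]
        ring
      rw [e1]
      exact rpow_one_add_le_one_add_mul_self (by linarith) (by linarith) (by linarith)
    have hH := T_ge_one (by linarith) (by linarith) (by linarith) hC hD hA0 hA hs hT
    have hco := corner hR hq hq2 hy hy2
    rw [← hr] at hco
    have hA1 : q * C ≤ A := by
      have hA2 : R * q - 1 ≤ A := by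
        have h1 : (R * q - 1) ^ 2 ≤ A ^ 2 := by
          have : (R * q - 1) ^ 2 = C ^ 2 + D * (q ^ 2 - 1) := by rw [hC, hD]; ring
          rw [this, hA]
          have := mul_le_mul_of_nonneg_left hs hD0.le
          linarith
        exact (sq_le_sq₀ (by nlinarith) hA0).1 h1
      have : q * C ≤ R * q - 1 := by
        rw [hC]
        nlinarith
      linarith
    -- the linear inequality in `A`
    have hlin : 2 * R * (q + 1) ^ 2 * (A + r * C) ≤ q * (R + 1) ^ 2 * (A + C) * (y + 1) := by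
      have h2 : 2 * R * (q + 1) ^ 2 * ((q + r) * C) ≤
          q * (R + 1) ^ 2 * ((q + 1) * C) * (y + 1) := by
        calc 2 * R * (q + 1) ^ 2 * ((q + r) * C)
            = (q + 1) * C * (2 * R * (q + 1) * (q + r)) := by ring
          _ ≤ (q + 1) * C * (q * (R + 1) ^ 2 * (y + 1)) :=
              mul_le_mul_of_nonneg_left hco (by positivity)
          _ = _ := by ring
      have h3 : 2 * R * (q + 1) ^ 2 * (A - q * C) ≤
          q * (R + 1) ^ 2 * (A - q * C) * (y + 1) := by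
        have h4 : R * (q + 1) ^ 2 ≤ q * (R + 1) ^ 2 := by
          have : 0 ≤ (R - q) * (R * q - 1) := mul_nonneg (by linarith) (by nlinarith)
          nlinarith
        have h5 : 0 ≤ A - q * C := by linarith
        calc 2 * R * (q + 1) ^ 2 * (A - q * C) = R * (q + 1) ^ 2 * (2 * (A - q * C)) := by ring
          _ ≤ q * (R + 1) ^ 2 * (2 * (A - q * C)) :=
              mul_le_mul_of_nonneg_right h4 (by positivity)
          _ ≤ q * (R + 1) ^ 2 * ((y + 1) * (A - q * C)) :=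
              mul_le_mul_of_nonneg_left
                (mul_le_mul_of_nonneg_right (by linarith) h5) (by positivity)
          _ = _ := by ring
      calc 2 * R * (q + 1) ^ 2 * (A + r * C)
          = 2 * R * (q + 1) ^ 2 * ((q + r) * C) + 2 * R * (q + 1) ^ 2 * (A - q * C) := by ring
        _ ≤ q * (R + 1) ^ 2 * ((q + 1) * C) * (y + 1) +
            q * (R + 1) ^ 2 * (A - q * C) * (y + 1) := add_le_add h2 h3
        _ = _ := by ring
    have hkey : 2 * T * (A + r * C) ≤ (y + 1) * (A - C) := by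
      have hpos : 0 < q * (R + 1) ^ 2 * (A + C) := by
        have : 0 < A := by linarith
        positivity
      have h2 : q * (R + 1) ^ 2 * (A + C) * (2 * T * (A + r * C)) ≤
          q * (R + 1) ^ 2 * (A + C) * ((y + 1) * (A - C)) := by
        calc q * (R + 1) ^ 2 * (A + C) * (2 * T * (A + r * C))
            = q * (R + 1) ^ 2 * ((A + C) * T) * (2 * (A + r * C)) := by ring
          _ ≤ R * (q + 1) ^ 2 * (A - C) * (2 * (A + r * C)) :=
              mul_le_mul_of_nonneg_right hH (by positivity)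
          _ = 2 * R * (q + 1) ^ 2 * (A + r * C) * (A - C) := by ring
          _ ≤ q * (R + 1) ^ 2 * (A + C) * (y + 1) * (A - C) :=
              mul_le_mul_of_nonneg_right hlin hm
          _ = _ := by ring
      exact le_of_mul_le_mul_left h2 hpos
    have hy1 : 0 ≤ y - 1 := by linarith
    calc Real.exp (Real.log (y ^ 2) * T) * (A + y ^ 2 * C)
        ≤ (1 + 2 * T * (y - 1)) * (A + y ^ 2 * C) :=
          mul_le_mul_of_nonneg_right hB (by positivity)
      _ = (A + y ^ 2 * C) + (y - 1) * (2 * T * (A + r * C)) := by rw [hr]; ring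
      _ ≤ (A + y ^ 2 * C) + (y - 1) * ((y + 1) * (A - C)) := by
          have := mul_le_mul_of_nonneg_left hkey hy1
          linarith
      _ = y ^ 2 * A + C := by ring

/-- **the middle range**: `(R - x)(R - 1/x) ≤ C² < R²` -/
theorem mid {R q A C D s T y : ℝ} (hR : 29 / 12 ≤ R) (hq0 : 0 < q) (hC : C = R - q) (hC0 : 0 < C)
    (hCl : 2 / 5 * R ^ 2 - 2 / 3 ≤ C ^ 2) (hD : D = R ^ 2 - 1) (hA0 : 0 ≤ A)
    (hA : A ^ 2 = C ^ 2 + D * (s - 1)) (hs : q ^ 2 ≤ s) (hs1 : 1 ≤ s)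
    (hT : T * (2 * D * s) = (2 * R * q - 1) * s - q * (2 * R - q))
    (hy : 1 ≤ y) (hy2 : 2 * R * y ^ 2 ≤ 3 * R ^ 2 - 5) :
    Real.exp (Real.log (y ^ 2) * T) * (A + y ^ 2 * C) ≤ y ^ 2 * A + C := by
  have hR0 : 0 < R := by linarith
  have hD0 : 0 < D := by nlinarith
  have hs0 : 0 < s := by linarith
  have hAC : C ≤ A := by
    refine (sq_le_sq₀ hC0.le hA0).1 ?_
    rw [hA]
    have : 0 ≤ D * (s - 1) := mul_nonneg hD0.le (by linarith)
    linarith
  obtain ⟨W, hW⟩ : ∃ W : ℝ, W * (y ^ 2 + 1) = 2 * y :=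
    ⟨2 * y / (y ^ 2 + 1), by field_simp⟩
  rcases le_total R 8 with h8 | h8
  · -- `R ≤ 8`
    obtain ⟨Q, hQ⟩ : ∃ Q : ℝ, Q = 9 / 8 + 27 / 80 * (R - 29 / 12) := ⟨_, rfl⟩
    have hqQ : q ≤ Q := by
      have h1 : R - Q ≤ C := by
        refine abs_le_of_sq_le_sq' (b := C) ?_ hC0.le |>.2
        have h2 : (R - Q) ^ 2 ≤ 2 / 5 * R ^ 2 - 2 / 3 := by
          rw [hQ]
          nlinarith [mul_nonneg (sub_nonneg.2 hR) (sub_nonneg.2 h8)]
        linarith
      linarith
    exact exp_of_PT hy hC0 hAC hW (PT_le hR hq0 (by linarith) hC hD hA0 hA hs hs1 hAC hT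
      (by linarith) hqQ (W_one hR h8 hy hy2 hW hQ))
  · have hq5 : q ≤ 2 * R / 5 := by
      have h1 : 3 / 5 * R ≤ C := by
        refine (sq_le_sq₀ (by positivity) hC0.le).1 ?_
        nlinarith
      linarith
    rcases le_total q 2 with hq2 | hq2
    · exact exp_of_PT hy hC0 hAC hW (PT_le hR hq0 (by linarith) hC hD hA0 hA hs hs1 hAC hT
        (by norm_num) hq2 (W_two h8 hy hy2 hW))
    · refine exp_big h8 hq2 hq5 hC hD hA0 hA hs hAC hT ?_ hy (by nlinarith)
      -- `T ≤ 1/2`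
      have h1 : T * (2 * D * s) ≤ 1 / 2 * (2 * D * s) := by
        rw [hT, hD]
        have h2 : 0 ≤ q * (2 * R - q) := mul_nonneg hq0.le (by linarith)
        have h3 : (2 * R * q - 1) * s ≤ (R ^ 2 - 1) * s := by
          refine mul_le_mul_of_nonneg_right ?_ hs0.le
          nlinarith
        linarith
      exact le_of_mul_le_mul_right h1 (by positivity)

end Pool.Agent.Lib.MP_af3a4a_an.P1.H74.GreenC
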