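import Pool.Agent.Lib.MP_af3a4a_an.P1.H80.Normal
import Pool.Agent.Lib.MP_af3a4a_an.SV.XBD
import Pool.Agent.Lib.MP_af3a4a_an.SV.XID
import Pool.Agent.Lib.MP_af3a4a_an.SV.JCF
import Pool.Agent.Lib.MP_af3a4a_an.SV.JPOL
import Pool.Agent.Lib.MP_af3a4a_an.SV.CORNER

set_option autoImplicit false

/-!
# Lower bound of the integral near the corner (council 2, helper74)
-/

namespace Pool.Agent.Lib.MP_af3a4a_an.P1.H74.Loc

open Finset MeasureTheory ComplexConjugate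
open Pool.Agent.Lib.MP_af3a4a_an.SV (uu av EE XX JJ hh I1 I2)
open Pool.Agent.Lib.MP_af3a4a_an.P1.H80

theorem norm_nat_add_one (N : ℕ) : ‖(N : ℂ) + 1‖ = (N : ℝ) + 1 := by
  have : (N : ℂ) + 1 = ((N + 1 : ℕ) : ℂ) := by push_cast; ring
  rw [this, Complex.norm_natCast]
  push_cast
  ring

/-- lower bound of the integral up to `t ≤ 1` -/
theorem low {N : ℕ} (w : Fin N → ℂ) (hN : 3 ≤ N) (hu : ∀ k, ‖uu w k‖ ≤ 1) {t : ℝ} (h0 : 0 ≤ t)
    (h1 : t ≤ 1) :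
    1 - XX N (av (uu w)).re ‖av (uu w)‖ (SV.sq (uu w)) t ≤
      ((N : ℝ) + 1) * ‖av (uu w)‖ * ‖∫ x in (0 : ℝ)..t, qq (uu w) x‖ := by
  have hX := (SV.xbd SV.xid N (uu w) 1 t hN hu norm_one h0 h1).2
  rw [one_mul] at hX
  have h := H80.fI_eq w 1 t
  simp only [one_mul, mul_one] at h
  unfold fI at h
  have e : ((N : ℂ) + 1) * (t * 1 * av (uu w)) *
      ∫ s in (0 : ℝ)..1, ∏ k, (1 - (s : ℂ) * (t * 1 * uu w k)) =
      ((N : ℂ) + 1) * av (uu w) * ∫ x in (0 : ℝ)..t, qq (uu w) x := by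
    have h' : ∫ x in (0 : ℝ)..t, qq (uu w) x =
      (t : ℂ) * ∫ s in (0 : ℝ)..1, ∏ k, (1 - (s : ℂ) * (t * uu w k)) := h.symm
    rw [h']
    simp only [mul_one]
    ring
  rw [e] at hX
  have h2 := norm_sub_norm_le (1 : ℂ)
    (((N : ℂ) + 1) * av (uu w) * ∫ x in (0 : ℝ)..t, qq (uu w) x)
  rw [norm_one, norm_mul, norm_mul, norm_nat_add_one] at h2
  linarith

theorem sq_le {N : ℕ} (hN : 1 ≤ N) {u : Fin N → ℂ} (hu : ∀ k, ‖u k‖ ≤ 1) : SV.sq u ≤ 1 := by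
  have hN0 : (0 : ℝ) < N := by exact_mod_cast hN
  unfold SV.sq
  have h : ∑ k, ‖u k‖ ^ 2 ≤ N := by
    calc ∑ k, ‖u k‖ ^ 2 ≤ ∑ _k : Fin N, (1 : ℝ) :=
          Finset.sum_le_sum fun k _ => pow_le_one₀ (norm_nonneg _) (hu k)
      _ = N := by simp
  rw [one_div, inv_mul_le_iff₀ hN0, mul_one]
  exact h

theorem qq_le {N : ℕ} {u : Fin N → ℂ} (hN : 3 ≤ N) (hu : ∀ k, ‖u k‖ ≤ 1) (x : ℝ) :
    ‖qq u x‖ ≤ Real.sqrt (1 - 2 * x * (av u).re + x ^ 2) ^ N := by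
  have hN0 : (0 : ℝ) < N := by exact_mod_cast (by omega : 0 < N)
  unfold qq
  rw [norm_prod]
  refine (SV.XBD.amgm Finset.univ N (by simp) (by omega) _ (fun _ _ => norm_nonneg _)).trans ?_
  apply pow_le_pow_left₀ (Real.sqrt_nonneg _)
  apply Real.sqrt_le_sqrt
  have h := SV.XBD.sum_sq u 1 norm_one hN x
  simp only [one_mul] at h
  rw [h, mul_div_cancel_left₀ _ hN0.ne']
  have h2 := mul_le_mul_of_nonneg_left (sq_le (by omega) hu) (sq_nonneg x)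
  linarith

theorem JJ_up {N : ℕ} {p y : ℝ} (h0 : 0 ≤ y) (h1 : y ≤ 1) : JJ N p 1 y ≤ JJ N p 1 1 := by
  unfold JJ
  refine mul_le_mul_of_nonneg_left ?_ (Nat.cast_nonneg _)
  have hi : ∀ a b : ℝ, IntervalIntegrable
      (fun x : ℝ => x * Real.sqrt (hh N p 1 x) ^ (N - 2)) volume a b :=
    fun a b => (SV.JCF.ig_cont N p 1).intervalIntegrable a b
  rw [← intervalIntegral.integral_add_adjacent_intervals (hi 0 y) (hi y 1)]
  have : 0 ≤ ∫ x in y..1, x * Real.sqrt (hh N p 1 x) ^ (N - 2) :=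
    intervalIntegral.integral_nonneg h1 fun x hx =>
      mul_nonneg (h0.trans hx.1) (pow_nonneg (Real.sqrt_nonneg _) _)
  linarith

/-- lower bound of the integral up to `R` -/
theorem low2 {N : ℕ} (w : Fin N → ℂ) (hN : 3 ≤ N) (hu : ∀ k, ‖uu w k‖ ≤ 1) {R r p η : ℝ}
    (hR : 0 ≤ R) (hr : ‖av (uu w)‖ = r) (hp : (av (uu w)).re = p) (hr1 : r ≤ 1) (hp1 : p ≤ 1)
    (hη : η = Real.sqrt (1 - 2 * R * p + R ^ 2)) :
    1 - (η ^ (N + 1) + (1 - r ^ 2) * JJ N p 1 1 + max 0 (R - 1) * (((N : ℝ) + 1) * η ^ N)) ≤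
      ((N : ℝ) + 1) * r * ‖∫ x in (0 : ℝ)..R, qq (uu w) x‖ := by
  have hS := sq_le (by omega) hu
  have hr0 : 0 ≤ r := hr ▸ norm_nonneg _
  have hη0 : 0 ≤ η := hη ▸ Real.sqrt_nonneg _
  -- the bound of `XX`
  have key : ∀ t : ℝ, 0 ≤ t → t ≤ 1 → 1 - 2 * t * p + t ^ 2 ≤ 1 - 2 * R * p + R ^ 2 →
      XX N p r (SV.sq (uu w)) t ≤ η ^ (N + 1) + (1 - r ^ 2) * JJ N p 1 1 := by
    intro t ht0 ht1 ht
    unfold XX
    have e1 : Real.sqrt (1 - 2 * t * p + t ^ 2 * r ^ 2) ≤ η := by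
      rw [hη]
      apply Real.sqrt_le_sqrt
      have h1 : r ^ 2 ≤ 1 := pow_le_one₀ hr0 hr1
      have h2 := mul_le_mul_of_nonneg_left h1 (sq_nonneg t)
      linarith
    have e2 : Real.sqrt (1 - 2 * t * p + t ^ 2 * SV.sq (uu w)) ≤ η := by
      rw [hη]
      apply Real.sqrt_le_sqrt
      have h2 := mul_le_mul_of_nonneg_left hS (sq_nonneg t)
      linarith
    have e3 : Real.sqrt (1 - 2 * t * p + t ^ 2 * SV.sq (uu w)) ^ N ≤ η ^ N :=
      pow_le_pow_left₀ (Real.sqrt_nonneg _) e2 N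
    have e4 : Real.sqrt (1 - 2 * t * p + t ^ 2 * r ^ 2) *
        Real.sqrt (1 - 2 * t * p + t ^ 2 * SV.sq (uu w)) ^ N ≤ η ^ (N + 1) := by
      have e7 : η ^ (N + 1) = η * η ^ N := pow_succ' η N
      rw [e7]
      exact mul_le_mul e1 e3 (pow_nonneg (Real.sqrt_nonneg _) _) hη0
    have e5 : JJ N p (SV.sq (uu w)) t ≤ JJ N p 1 1 :=
      (SV.jmon N p (SV.sq (uu w)) t p 1 hN ht0 le_rfl hS).trans (JJ_up ht0 ht1)
    have e6 : (SV.sq (uu w) - r ^ 2) * JJ N p (SV.sq (uu w)) t ≤ (1 - r ^ 2) * JJ N p 1 1 := by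
      have h1 : r ^ 2 ≤ 1 := pow_le_one₀ hr0 hr1
      calc (SV.sq (uu w) - r ^ 2) * JJ N p (SV.sq (uu w)) t
          ≤ (1 - r ^ 2) * JJ N p (SV.sq (uu w)) t :=
            mul_le_mul_of_nonneg_right (by linarith) (SV.CORNER.JJ_nonneg _ _ _ _ ht0)
        _ ≤ _ := mul_le_mul_of_nonneg_left e5 (by linarith)
    linarith
  rcases le_total R 1 with h | h
  · have h1 := low w hN hu hR h
    rw [hr, hp] at h1
    have h2 := key R hR h le_rfl
    have h3 : max 0 (R - 1) = 0 := max_eq_left (by linarith)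
    rw [h3, zero_mul, add_zero]
    linarith
  · have h1 := low w hN hu zero_le_one le_rfl
    rw [hr, hp] at h1
    have h2 := key 1 zero_le_one le_rfl (by nlinarith)
    have h3 : max 0 (R - 1) = R - 1 := max_eq_right (by linarith)
    rw [h3]
    have h4 := tail (u := uu w) h
    have h5 : ∫ s in (1 : ℝ)..R, ‖qq (uu w) s‖ ≤ (R - 1) * η ^ N := by
      have h6 : ∫ s in (1 : ℝ)..R, ‖qq (uu w) s‖ ≤ ∫ _s in (1 : ℝ)..R, η ^ N := by
        apply intervalIntegral.integral_mono_on h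
        · exact (qq_cont (uu w)).norm.intervalIntegrable _ _
        · exact continuous_const.intervalIntegrable _ _
        · intro x hx
          refine (qq_le hN hu x).trans ?_
          apply pow_le_pow_left₀ (Real.sqrt_nonneg _)
          rw [hη, hp]
          apply Real.sqrt_le_sqrt
          nlinarith [hx.1, hx.2, mul_nonneg (sub_nonneg.2 hx.2)
            (show 0 ≤ R + x - 2 * p by linarith [hx.1])]
      refine h6.trans (le_of_eq ?_)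
      rw [intervalIntegral.integral_const, smul_eq_mul]
    have hN0 : (0 : ℝ) ≤ (N : ℝ) + 1 := by positivity
    have h7 : ((N : ℝ) + 1) * r * (‖∫ s in (0 : ℝ)..1, qq (uu w) s‖ - (R - 1) * η ^ N) ≤
        ((N : ℝ) + 1) * r * ‖∫ x in (0 : ℝ)..R, qq (uu w) x‖ :=
      mul_le_mul_of_nonneg_left (by linarith) (mul_nonneg hN0 hr0)
    have h8 : ((N : ℝ) + 1) * r * ((R - 1) * η ^ N) ≤ (R - 1) * (((N : ℝ) + 1) * η ^ N) := by
      have h9 : 0 ≤ (R - 1) * (((N : ℝ) + 1) * η ^ N) :=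
        mul_nonneg (by linarith) (mul_nonneg hN0 (pow_nonneg hη0 _))
      calc ((N : ℝ) + 1) * r * ((R - 1) * η ^ N) = r * ((R - 1) * (((N : ℝ) + 1) * η ^ N)) := by
            ring
        _ ≤ 1 * ((R - 1) * (((N : ℝ) + 1) * η ^ N)) := mul_le_mul_of_nonneg_right hr1 h9
        _ = _ := one_mul _
    rw [mul_sub] at h7
    linarith

end Pool.Agent.Lib.MP_af3a4a_an.P1.H74.Loc
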