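import Pool.Agent.Lib.MP_af3a4a_an.P1.H74.LocA

set_option autoImplicit false

/-!
# Bounds of `J` near the corner (council 2, helper74)
-/

namespace Pool.Agent.Lib.MP_af3a4a_an.P1.H74.Loc

open Finset MeasureTheory ComplexConjugate
open Pool.Agent.Lib.MP_af3a4a_an.SV (uu av EE XX JJ hh I1 I2)
open Pool.Agent.Lib.MP_af3a4a_an.P1.H80

theorem J4 {p : ℝ} (hp : p ≤ 1) : JJ 4 p 1 1 ≤ 17 / 3 - 16 / 3 * p := by
  obtain ⟨-, q4, -, -⟩ := SV.jpol p 1 1 zero_le_one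
  refine (q4 (fun x hx _ => SV.CORNER.hh_nonneg 4 (by norm_num) p x hp hx)).trans ?_
  unfold I1
  linarith

theorem J5 {p : ℝ} (hp : p ≤ 1) (hp0 : 469 / 500 ≤ p) : JJ 5 p 1 1 ≤ 4855 / 10000 := by
  obtain ⟨-, -, q5, -⟩ := SV.jpol p 1 1 zero_le_one
  refine (q5 (fun x hx _ => SV.CORNER.hh_nonneg 5 (by norm_num) p x hp hx)).trans ?_
  unfold I1 I2
  nlinarith [mul_nonneg (sub_nonneg.2 hp) (sub_nonneg.2 hp0)]

theorem J6 {p : ℝ} (hp : p ≤ 1) (hp0 : 469 / 500 ≤ p) : JJ 6 p 1 1 ≤ 33 / 100 := by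
  obtain ⟨-, -, -, q6⟩ := SV.jpol p 1 1 zero_le_one
  refine (q6 (fun x hx _ => SV.CORNER.hh_nonneg 6 (by norm_num) p x hp hx)).trans ?_
  unfold I2
  nlinarith [mul_nonneg (sub_nonneg.2 hp) (sub_nonneg.2 hp0)]

/-- `∫_0^1 x (1 - μ x)^k dx` -/
theorem int_mu (k : ℕ) {μ : ℝ} (h0 : 0 < μ) (h1 : μ < 1) :
    ∫ x in (0 : ℝ)..1, x * (1 - μ * x) ^ k ≤ 1 / μ ^ 2 * (1 / (((k : ℝ) + 1) * ((k : ℝ) + 2))) := by
  have hk1 : ((k : ℝ) + 1) ≠ 0 := by positivity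
  have hk2 : ((k : ℝ) + 2) ≠ 0 := by positivity
  have hd : ∀ x ∈ Set.uIcc (0 : ℝ) 1, HasDerivAt
      (fun x : ℝ => 1 / μ ^ 2 * ((1 - μ * x) ^ (k + 2) / ((k : ℝ) + 2) -
        (1 - μ * x) ^ (k + 1) / ((k : ℝ) + 1))) (x * (1 - μ * x) ^ k) x := by
    intro x _
    have e1 : HasDerivAt (fun x : ℝ => 1 - μ * x) (-μ) x := by
      simpa using ((hasDerivAt_id x).const_mul μ).const_sub 1
    have e2 := ((e1.pow (k + 2)).div_const ((k : ℝ) + 2)).sub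
      ((e1.pow (k + 1)).div_const ((k : ℝ) + 1))
    have e3 := e2.const_mul (1 / μ ^ 2)
    refine e3.congr_deriv ?_
    have a1 : k + 2 - 1 = k + 1 := by omega
    have a2 : k + 1 - 1 = k := by omega
    rw [a1, a2]
    push_cast
    field_simp
    ring
  rw [intervalIntegral.integral_eq_sub_of_hasDerivAt hd
    (by apply Continuous.intervalIntegrable; fun_prop)]
  simp only [mul_one, mul_zero, sub_zero, one_pow]
  have hb : 0 < (1 - μ) ^ (k + 1) := pow_pos (by linarith) _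
  have e4 : (1 - μ) ^ (k + 2) / ((k : ℝ) + 2) - (1 - μ) ^ (k + 1) / ((k : ℝ) + 1) ≤ 0 := by
    rw [sub_nonpos, div_le_div_iff₀ (by positivity) (by positivity)]
    have e5 : (1 - μ) ^ (k + 2) = (1 - μ) ^ (k + 1) * (1 - μ) := pow_succ _ _
    rw [e5, mul_assoc]
    apply mul_le_mul_of_nonneg_left _ hb.le
    have : (0 : ℝ) ≤ k := Nat.cast_nonneg k
    nlinarith
  have e6 : 1 / ((k : ℝ) + 2) - 1 / ((k : ℝ) + 1) = -(1 / (((k : ℝ) + 1) * ((k : ℝ) + 2))) := by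
    field_simp
    ring
  rw [e6]
  have hm : 0 < 1 / μ ^ 2 := by positivity
  have := mul_le_mul_of_nonneg_left e4 hm.le
  linarith

theorem J7 {N : ℕ} (hN : 7 ≤ N) {p : ℝ} (hp : p ≤ 1) (hp0 : 469 / 500 ≤ p) :
    JJ N p 1 1 ≤ 24 / 49 := by
  have hNr : (7 : ℝ) ≤ N := by exact_mod_cast hN
  have hN2 : (0 : ℝ) < (N : ℝ) - 2 := by linarith
  obtain ⟨P, hP⟩ : ∃ P : ℝ, P = ((N : ℝ) * p - 2) / (N - 2) := ⟨_, rfl⟩
  have hPl : 2283 / 2500 ≤ P := by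
    rw [hP, le_div_iff₀ hN2]
    nlinarith
  have h1 : ∀ x : ℝ, x ∈ Set.Icc (0 : ℝ) 1 →
      x * Real.sqrt (hh N p 1 x) ^ (N - 2) ≤ x * (1 - 7 / 12 * x) ^ (N - 2) := by
    intro x hx
    apply mul_le_mul_of_nonneg_left _ hx.1
    apply pow_le_pow_left₀ (Real.sqrt_nonneg _)
    rw [Real.sqrt_le_left (by linarith [hx.2])]
    rw [SV.CORNER.hh_one N (by omega), ← hP]
    nlinarith [hx.1, hx.2, mul_nonneg hx.1 (sub_nonneg.2 hx.2), mul_nonneg hx.1 (sub_nonneg.2 hPl)]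
  have h2 : JJ N p 1 1 ≤ N * ∫ x in (0 : ℝ)..1, x * (1 - 7 / 12 * x) ^ (N - 2) := by
    unfold JJ
    refine mul_le_mul_of_nonneg_left ?_ (by linarith)
    apply intervalIntegral.integral_mono_on zero_le_one
    · exact (SV.JCF.ig_cont N p 1).intervalIntegrable _ _
    · apply Continuous.intervalIntegrable; fun_prop
    · exact h1
  have h3 := int_mu (N - 2) (μ := 7 / 12) (by norm_num) (by norm_num)
  have hc : ((N - 2 : ℕ) : ℝ) = (N : ℝ) - 2 := by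
    rw [Nat.cast_sub (by omega)]; norm_num
  rw [hc] at h3
  have h4 : (N : ℝ) * ∫ x in (0 : ℝ)..1, x * (1 - 7 / 12 * x) ^ (N - 2) ≤
      N * (1 / (7 / 12) ^ 2 * (1 / (((N : ℝ) - 2 + 1) * ((N : ℝ) - 2 + 2)))) :=
    mul_le_mul_of_nonneg_left h3 (by linarith)
  refine (h2.trans h4).trans ?_
  have e1 : (N : ℝ) - 2 + 2 = N := by ring
  have e2 : (N : ℝ) - 2 + 1 = N - 1 := by ring
  rw [e1, e2]
  have hN0 : (N : ℝ) ≠ 0 := by linarith
  have hN1 : (0 : ℝ) < (N : ℝ) - 1 := by linarith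
  have e3 : (N : ℝ) * (1 / (7 / 12) ^ 2 * (1 / (((N : ℝ) - 1) * N))) = 144 / 49 / (N - 1) := by
    field_simp
    norm_num
  rw [e3, div_le_iff₀ hN1]
  linarith

/-- all `N ≥ 5` -/
theorem J_half {N : ℕ} (hN : 5 ≤ N) {p η : ℝ} (hp : p ≤ 1) (hp0 : 469 / 500 ≤ p) (hη0 : 0 ≤ η)
    (hη : η ^ 2 ≤ 3 / 25) : JJ N p 1 1 + η ^ (N - 1) ≤ 1 / 2 := by
  have hη1 : η ≤ 1 := by nlinarith
  have h4 : η ^ 4 ≤ 144 / 10000 := by
    have : η ^ 4 = (η ^ 2) ^ 2 := by ring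
    rw [this]
    nlinarith [sq_nonneg η]
  rcases Nat.lt_or_ge N 7 with h | h
  · interval_cases N
    · have := J5 hp hp0
      show JJ 5 p 1 1 + η ^ 4 ≤ 1 / 2
      linarith
    · have := J6 hp hp0
      have h5 : η ^ 5 ≤ η ^ 4 := pow_le_pow_of_le_one hη0 hη1 (by norm_num)
      show JJ 6 p 1 1 + η ^ 5 ≤ 1 / 2
      linarith
  · have h6 : η ^ (N - 1) ≤ η ^ 6 := pow_le_pow_of_le_one hη0 hη1 (by omega)
    have h7 : η ^ 6 ≤ 144 / 10000 * (3 / 25) := by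
      have : η ^ 6 = η ^ 4 * η ^ 2 := by ring
      rw [this]
      exact mul_le_mul h4 hη (sq_nonneg _) (by norm_num)
    have := J7 h hp hp0
    norm_num at h7
    linarith

/-- `(N+1) η^(N-2) ≤ 6 η^3` -/
theorem pow_dec {N : ℕ} (hN : 5 ≤ N) {η : ℝ} (hη0 : 0 ≤ η) (hη : η ≤ 7 / 20) :
    ((N : ℝ) + 1) * η ^ (N - 2) ≤ 6 * η ^ 3 := by
  obtain ⟨k, rfl⟩ : ∃ k, N = k + 5 := ⟨N - 5, by omega⟩
  have e : k + 5 - 2 = k + 3 := by omega
  rw [e]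
  clear e hN
  induction k with
  | zero => norm_num
  | succ k ih =>
    have h1 : (((k + 1 + 5 : ℕ) : ℝ) + 1) * η ≤ ((k + 5 : ℕ) : ℝ) + 1 := by
      push_cast
      have : (0 : ℝ) ≤ k := Nat.cast_nonneg k
      nlinarith
    have h2 : η ^ (k + 1 + 3) = η * η ^ (k + 3) := by
      rw [show k + 1 + 3 = (k + 3) + 1 by omega, pow_succ']
    rw [h2, ← mul_assoc]
    exact (mul_le_mul_of_nonneg_right h1 (pow_nonneg hη0 _)).trans ih

/-- the error term -/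
theorem err {N : ℕ} (hN : 4 ≤ N) {δ r p η ρ s : ℝ} (hδ0 : 0 ≤ δ) (hδ : δ ≤ 3 / 20)
    (hr : 19 / 20 ≤ r) (hr1 : r ≤ 1) (hr4 : N = 4 → 49 / 50 ≤ r) (hs : s = 1 - r ^ 2)
    (hη0 : 0 ≤ η) (hη : η ^ 2 = δ ^ 2 + s) (hp : 0 ≤ p) (hpr : p ≤ r)
    (hpd : r ^ 2 - δ ^ 2 ≤ p ^ 2)
    (hρ0 : 0 ≤ ρ) (hρ : ρ ≤ δ) (hρs : ρ * s ≤ 2 * δ ^ 2) :
    η ^ (N + 1) + s * JJ N p 1 1 + ρ * (((N : ℝ) + 1) * η ^ N) ≤ s / 2 + 9 / 10 * δ ^ 2 := by
  have hs0 : 0 ≤ s := by rw [hs]; nlinarith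
  have hδ2 : δ ^ 2 ≤ 9 / 400 := by nlinarith
  have hp1 : p ≤ 1 := hpr.trans hr1
  have hd0 := sq_nonneg δ
  have hρδ : ρ * δ ^ 2 ≤ 3 / 20 * δ ^ 2 := mul_le_mul_of_nonneg_right (hρ.trans hδ) hd0
  rcases Nat.lt_or_ge 4 N with h5 | h4'
  · -- `N ≥ 5`
    have hs1 : s ≤ 39 / 400 := by rw [hs]; nlinarith
    have hη2 : η ^ 2 ≤ 3 / 25 := by rw [hη]; linarith
    have hη1 : η ≤ 7 / 20 := by nlinarith
    have hp0 : 469 / 500 ≤ p := by
      by_contra hcon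
      push Not at hcon
      nlinarith
    have h1 := J_half (N := N) (by omega) hp1 hp0 hη0 hη2
    have h2 := pow_dec (N := N) (by omega) hη0 hη1
    have h3 : η ^ (N - 1) ≤ 144 / 10000 := by
      have a1 : η ^ (N - 1) ≤ η ^ 4 := pow_le_pow_of_le_one hη0 (by linarith) (by omega)
      have a2 : η ^ 4 = (η ^ 2) ^ 2 := by ring
      have a3 : (η ^ 2) ^ 2 ≤ (3 / 25) ^ 2 := pow_le_pow_left₀ (sq_nonneg _) hη2 2
      norm_num at a3
      linarith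
    have e1 : η ^ (N + 1) = η ^ (N - 1) * (δ ^ 2 + s) := by
      rw [← hη, ← pow_add]
      congr 1
      omega
    have e2 : η ^ N = η ^ (N - 2) * (δ ^ 2 + s) := by
      rw [← hη, ← pow_add]
      congr 1
      omega
    have h6 : 6 * η ^ 3 ≤ 63 / 250 := by
      have : η ^ 3 = η ^ 2 * η := by ring
      rw [this]
      have := mul_le_mul hη2 hη1 hη0 (by norm_num)
      linarith
    have h7 : ((N : ℝ) + 1) * η ^ N ≤ 63 / 250 * (δ ^ 2 + s) := by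
      rw [e2, ← mul_assoc]
      exact mul_le_mul_of_nonneg_right (h2.trans h6) (by linarith)
    have h8 := mul_le_mul_of_nonneg_left h7 hρ0
    have h9 := mul_le_mul_of_nonneg_right h3 hd0
    have h10 := mul_le_mul_of_nonneg_left h1 hs0
    rw [e1]
    linarith [show ρ * (63 / 250 * (δ ^ 2 + s)) = 63 / 250 * (ρ * δ ^ 2) + 63 / 250 * (ρ * s) by
      ring]
  · have hN4 : N = 4 := by omega
    subst hN4
    have hr' := hr4 rfl
    have hs1 : s ≤ 99 / 2500 := by rw [hs]; nlinarith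
    have hη2 : η ^ 2 ≤ 621 / 10000 := by rw [hη]; linarith
    have hη1 : η ≤ 1 / 4 := by nlinarith
    have h1 := J4 hp1
    have e4 : η ^ 4 ≤ 621 / 10000 * (δ ^ 2 + s) := by
      have : η ^ 4 = η ^ 2 * η ^ 2 := by ring
      rw [this]
      nth_rewrite 2 [hη]
      exact mul_le_mul_of_nonneg_right hη2 (by linarith)
    have e5 : η ^ (4 + 1) ≤ 1 / 4 * (621 / 10000 * (δ ^ 2 + s)) := by
      have : η ^ (4 + 1) = η * η ^ 4 := by ring
      rw [this]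
      exact mul_le_mul hη1 e4 (by positivity) (by norm_num)
    -- `1 - p`
    have hp0 : 96 / 100 ≤ p := by
      by_contra hcon
      push Not at hcon
      nlinarith
    have h2 : (r - p) * (19 / 10) ≤ δ ^ 2 := by
      have : (r - p) * (r + p) ≤ δ ^ 2 := by nlinarith
      have h3 : (r - p) * (19 / 10) ≤ (r - p) * (r + p) :=
        mul_le_mul_of_nonneg_left (by linarith) (by linarith)
      linarith
    have h3 : 17 / 3 - 16 / 3 * p ≤ 1 / 3 + 16 / 3 * (1 / 50) + 16 / 3 * (10 / 19) * δ ^ 2 := by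
      linarith
    have h4 := mul_le_mul_of_nonneg_left (h1.trans h3) hs0
    have h5 : s * δ ^ 2 ≤ 99 / 2500 * δ ^ 2 := mul_le_mul_of_nonneg_right hs1 hd0
    have h6 : ρ * ((((4 : ℕ) : ℝ) + 1) * η ^ 4) ≤ ρ * (5 * (621 / 10000 * (δ ^ 2 + s))) := by
      apply mul_le_mul_of_nonneg_left _ hρ0
      push_cast
      linarith
    have e6 : ρ * (5 * (621 / 10000 * (δ ^ 2 + s))) =
        5 * (621 / 10000) * (ρ * δ ^ 2) + 5 * (621 / 10000) * (ρ * s) := by ring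
    have e7 : s * (1 / 3 + 16 / 3 * (1 / 50) + 16 / 3 * (10 / 19) * δ ^ 2) =
        (1 / 3 + 16 / 3 * (1 / 50)) * s + 16 / 3 * (10 / 19) * (s * δ ^ 2) := by ring
    rw [e6] at h6
    rw [e7] at h4
    linarith

end Pool.Agent.Lib.MP_af3a4a_an.P1.H74.Loc
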