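import Pool.Agent.Lib.MP_af3a4a_an.P1.H74.Loc

set_option autoImplicit false

/-!
# The near region, part A: real form of the certificate for `|c - conj m| ≤ 1/4`
(council 2, helper74)
-/

namespace Pool.Agent.Lib.MP_af3a4a_an.P1.H74.Near

open Finset MeasureTheory ComplexConjugate
open Pool.Agent.Lib.MP_af3a4a_an.SV (uu av EE XX JJ hh I1 I2)
open Pool.Agent.Lib.MP_af3a4a_an.P1.H80
open Pool.Agent.Lib.MP_af3a4a_an.P1.H74.Loc

theorem JJ_mono_y {N : ℕ} {p x y : ℝ} (h0 : 0 ≤ x) (h1 : x ≤ y) : JJ N p 1 x ≤ JJ N p 1 y := by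
  unfold JJ
  refine mul_le_mul_of_nonneg_left ?_ (Nat.cast_nonneg _)
  have hi : ∀ a b : ℝ, IntervalIntegrable
      (fun x : ℝ => x * Real.sqrt (hh N p 1 x) ^ (N - 2)) volume a b :=
    fun a b => (SV.JCF.ig_cont N p 1).intervalIntegrable a b
  rw [← intervalIntegral.integral_add_adjacent_intervals (hi 0 x) (hi x y)]
  have : 0 ≤ ∫ x in x..y, x * Real.sqrt (hh N p 1 x) ^ (N - 2) :=
    intervalIntegral.integral_nonneg h1 fun x hx =>
      mul_nonneg (h0.trans hx.1) (pow_nonneg (Real.sqrt_nonneg _) _)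
  linarith

/-- lower bound of the integral up to `R`; `Y ≥ min R 1` -/
theorem low3 {N : ℕ} (w : Fin N → ℂ) (hN : 3 ≤ N) (hu : ∀ k, ‖uu w k‖ ≤ 1) {R r p η Y : ℝ}
    (hR : 0 ≤ R) (hr : ‖av (uu w)‖ = r) (hp : (av (uu w)).re = p) (hr1 : r ≤ 1) (hp1 : p ≤ 1)
    (hη : η = Real.sqrt (1 - 2 * R * p + R ^ 2)) (hY : min R 1 ≤ Y) :
    1 - (η ^ (N + 1) + (1 - r ^ 2) * JJ N p 1 Y + max 0 (R - 1) * (((N : ℝ) + 1) * η ^ N)) ≤
      ((N : ℝ) + 1) * r * ‖∫ x in (0 : ℝ)..R, qq (uu w) x‖ := by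
  have hS := sq_le (by omega) hu
  have hr0 : 0 ≤ r := hr ▸ norm_nonneg _
  have hη0 : 0 ≤ η := hη ▸ Real.sqrt_nonneg _
  -- the bound of `XX`
  have key : ∀ t : ℝ, 0 ≤ t → t ≤ 1 → t ≤ Y → 1 - 2 * t * p + t ^ 2 ≤ 1 - 2 * R * p + R ^ 2 →
      XX N p r (SV.sq (uu w)) t ≤ η ^ (N + 1) + (1 - r ^ 2) * JJ N p 1 Y := by
    intro t ht0 ht1 htY ht
    unfold XX
    have e1 : Real.sqrt (1 - 2 * t * p + t ^ 2 * r ^ 2) ≤ η := by
      rw [hη]
      apply Real.sqrt_le_sqrt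
      have h1 : r ^ 2 ≤ 1 := pow_le_one₀ hr0 hr1
      have h2 := mul_le_mul_of_nonneg_left h1 (sq_nonneg t)
      linarith
    have e2 : Real.sqrt (1 - 2 * t * p + t ^ 2 * SV.sq (uu w)) ≤ η := by
      rw [hη]
      apply Real.sqrt_le_sqrt
      have h2 := mul_le_mul_of_nonneg_left hS (sq_nonneg t)
      linarith
    have e3 : Real.sqrt (1 - 2 * t * p + t ^ 2 * SV.sq (uu w)) ^ N ≤ η ^ N :=
      pow_le_pow_left₀ (Real.sqrt_nonneg _) e2 N
    have e4 : Real.sqrt (1 - 2 * t * p + t ^ 2 * r ^ 2) *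
        Real.sqrt (1 - 2 * t * p + t ^ 2 * SV.sq (uu w)) ^ N ≤ η ^ (N + 1) := by
      have e7 : η ^ (N + 1) = η * η ^ N := pow_succ' η N
      rw [e7]
      exact mul_le_mul e1 e3 (pow_nonneg (Real.sqrt_nonneg _) _) hη0
    have e5 : JJ N p (SV.sq (uu w)) t ≤ JJ N p 1 Y :=
      (SV.jmon N p (SV.sq (uu w)) t p 1 hN ht0 le_rfl hS).trans (JJ_mono_y ht0 htY)
    have e6 : (SV.sq (uu w) - r ^ 2) * JJ N p (SV.sq (uu w)) t ≤ (1 - r ^ 2) * JJ N p 1 Y := by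
      have h1 : r ^ 2 ≤ 1 := pow_le_one₀ hr0 hr1
      calc (SV.sq (uu w) - r ^ 2) * JJ N p (SV.sq (uu w)) t
          ≤ (1 - r ^ 2) * JJ N p (SV.sq (uu w)) t :=
            mul_le_mul_of_nonneg_right (by linarith) (SV.CORNER.JJ_nonneg _ _ _ _ ht0)
        _ ≤ _ := mul_le_mul_of_nonneg_left e5 (by linarith)
    linarith
  rcases le_total R 1 with h | h
  · have h1 := low w hN hu hR h
    rw [hr, hp] at h1
    have h2 := key R hR h (by rwa [min_eq_left h] at hY) le_rfl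
    have h3 : max 0 (R - 1) = 0 := max_eq_left (by linarith)
    rw [h3, zero_mul, add_zero]
    linarith
  · have h1 := low w hN hu zero_le_one le_rfl
    rw [hr, hp] at h1
    have h2 := key 1 zero_le_one le_rfl (by rwa [min_eq_right h] at hY) (by nlinarith)
    have h3 : max 0 (R - 1) = R - 1 := max_eq_right (by linarith)
    rw [h3]
    have h4 := tail (u := uu w) h
    have h5 : ∫ s in (1 : ℝ)..R, ‖qq (uu w) s‖ ≤ (R - 1) * η ^ N := by
      have h6 : ∫ s in (1 : ℝ)..R, ‖qq (uu w) s‖ ≤ ∫ _s in (1 : ℝ)..R, η ^ N := by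
        apply intervalIntegral.integral_mono_on h
        · exact (qq_cont (uu w)).norm.intervalIntegrable _ _
        · exact continuous_const.intervalIntegrable _ _
        · intro x hx
          refine (qq_le hN hu x).trans ?_
          apply pow_le_pow_left₀ (Real.sqrt_nonneg _)
          rw [hη, hp]
          apply Real.sqrt_le_sqrt
          nlinarith [hx.1, hx.2, mul_nonneg (sub_nonneg.2 hx.2)
            (show 0 ≤ R + x - 2 * p by linarith [hx.1])]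
      refine h6.trans (le_of_eq ?_)
      rw [intervalIntegral.integral_const, smul_eq_mul]
    have hN0 : (0 : ℝ) ≤ (N : ℝ) + 1 := by positivity
    have h7 : ((N : ℝ) + 1) * r * (‖∫ s in (0 : ℝ)..1, qq (uu w) s‖ - (R - 1) * η ^ N) ≤
        ((N : ℝ) + 1) * r * ‖∫ x in (0 : ℝ)..R, qq (uu w) x‖ :=
      mul_le_mul_of_nonneg_left (by linarith) (mul_nonneg hN0 hr0)
    have h8 : ((N : ℝ) + 1) * r * ((R - 1) * η ^ N) ≤ (R - 1) * (((N : ℝ) + 1) * η ^ N) := by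
      have h9 : 0 ≤ (R - 1) * (((N : ℝ) + 1) * η ^ N) :=
        mul_nonneg (by linarith) (mul_nonneg hN0 (pow_nonneg hη0 _))
      calc ((N : ℝ) + 1) * r * ((R - 1) * η ^ N) = r * ((R - 1) * (((N : ℝ) + 1) * η ^ N)) := by
            ring
        _ ≤ 1 * ((R - 1) * (((N : ℝ) + 1) * η ^ N)) := mul_le_mul_of_nonneg_right hr1 h9
        _ = _ := one_mul _
    rw [mul_sub] at h7
    linarith

/-- the main inequality of the certificate at `y = c = R`, `δ ≤ 1/4` -/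
theorem certN {N : ℕ} {z w : Fin N → ℂ} {R : ℝ} {σ : Fin N → ℂ} (hC : H80.Cfg2 N z w R σ)
    (hN : 5 ≤ N) {m : ℂ} {δ : ℝ} (hm : av (uu w) = m) (hδ : ‖(R : ℂ) - conj m‖ = δ)
    (hδ1 : δ ≤ 1 / 4) (hR : R ≤ 2) (hf : fI w (R : ℂ) ≠ 0) :
    N / 2 * Real.log (1 - δ ^ 2) + ((N : ℝ) + 1) * δ ^ 2 - (kap δ - δ) - δ * |1 - R| + (R - 1)
      + Real.log (((N : ℝ) + 1) * ‖fI w (R : ℂ)‖) < 0 := by
  have hδ0 : 0 ≤ δ := hδ ▸ norm_nonneg _
  have hR0 := hC.hR
  have hNr : (5 : ℝ) ≤ N := by exact_mod_cast hN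
  -- the direction
  obtain ⟨e, he, heδ⟩ : ∃ e : ℂ, ‖e‖ = 1 ∧ (conj e * ((R : ℂ) - conj m)).re = δ := by
    rcases eq_or_ne δ 0 with h | h
    · refine ⟨1, norm_one, ?_⟩
      rw [h] at hδ
      rw [norm_eq_zero.1 hδ, h]
      simp
    · have h' : (δ : ℂ) ≠ 0 := by exact_mod_cast h
      refine ⟨((R : ℂ) - conj m) / δ, ?_, ?_⟩
      · rw [norm_div, hδ, Complex.norm_real, Real.norm_of_nonneg hδ0, div_self h]
      · have h1 : conj (((R : ℂ) - conj m) / δ) * ((R : ℂ) - conj m) = ((δ : ℝ) : ℂ) := by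
          rw [map_div₀, Complex.conj_ofReal, div_mul_eq_mul_div, mul_comm (conj _),
            Complex.mul_conj, Complex.normSq_eq_norm_sq, hδ]
          push_cast
          field_simp
        rw [h1, Complex.ofReal_re]
  have hcert : CertAt δ 0 e ((R - R : ℝ) : ℂ) := by
    refine ⟨hδ0, by linarith, Or.inl ⟨by simp, le_rfl⟩⟩
  have h := hC.cert (y := R) he hcert (by
      rw [mul_div_assoc', div_le_iff₀ (by linarith)]
      nlinarith) hR0.le le_rfl (by norm_num) (by linarith)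
    (by nlinarith) hf
  rw [hm] at h
  have h1 : R * e.re - (conj e * conj m).re = δ := by
    rw [← heδ]
    simp only [Complex.mul_re, Complex.sub_re, Complex.sub_im, Complex.conj_re,
      Complex.conj_im, Complex.ofReal_re, Complex.ofReal_im]
    ring
  have h2 : (conj e * conj m).re = R * e.re - δ := by linarith
  rw [h2] at h
  -- `|e.re| ≤ 1`
  have h3 : |e.re| ≤ 1 := he ▸ Complex.abs_re_le_norm e
  have hk := le_kap hδ0 (by linarith : δ < 1)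
  have h4 : -((kap δ - δ) + δ * |1 - R|) ≤ e.re * (kap δ - δ * R) := by
    have e1 : kap δ - δ * R = (kap δ - δ) + δ * (1 - R) := by ring
    have e2 : |kap δ - δ * R| ≤ (kap δ - δ) + δ * |1 - R| := by
      rw [e1]
      refine (abs_add_le _ _).trans ?_
      rw [abs_of_nonneg (by linarith : 0 ≤ kap δ - δ), abs_mul, abs_of_nonneg hδ0]
    have e3 : |e.re * (kap δ - δ * R)| ≤ (kap δ - δ) + δ * |1 - R| := by
      rw [abs_mul]
      calc |e.re| * |kap δ - δ * R| ≤ 1 * |kap δ - δ * R| :=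
            mul_le_mul_of_nonneg_right h3 (abs_nonneg _)
        _ ≤ _ := by rw [one_mul]; exact e2
    exact (abs_le.1 e3).1
  linarith [h, h4]

/-- Taylor bounds -/
theorem log_lo2 {x : ℝ} (h0 : 0 ≤ x) (h1 : x ≤ 1 / 16) : -(26 / 25) * x ≤ Real.log (1 - x) := by
  have h := Real.abs_log_sub_add_sum_range_le (x := x) (by rw [abs_of_nonneg h0]; linarith) 2
  simp only [Finset.sum_range_succ, Finset.sum_range_zero] at h
  norm_num at h
  rw [abs_of_nonneg h0] at h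
  have h2 := (abs_le.1 h).1
  have h3 : x ^ 3 / (1 - x) ≤ 1 / 240 * x := by
    rw [div_le_iff₀ (by linarith)]
    have : x ^ 2 ≤ 1 / 256 := by nlinarith
    nlinarith [mul_nonneg h0 (sub_nonneg.2 this), mul_nonneg h0 (sub_nonneg.2 h1)]
  have h4 : x ^ 2 ≤ 1 / 16 * x := by nlinarith
  linarith

theorem log_lo3 {x : ℝ} (h0 : 0 ≤ x) (h1 : x ≤ 1 / 4) :
    -x - 2 / 3 * x ^ 2 ≤ Real.log (1 - x) := by
  have h := Real.abs_log_sub_add_sum_range_le (x := x) (by rw [abs_of_nonneg h0]; linarith) 3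
  simp only [Finset.sum_range_succ, Finset.sum_range_zero] at h
  norm_num at h
  rw [abs_of_nonneg h0] at h
  have h2 := (abs_le.1 h).1
  have h3 : x ^ 4 / (1 - x) ≤ 1 / 12 * x ^ 2 := by
    rw [div_le_iff₀ (by linarith)]
    have : x ^ 2 ≤ 1 / 16 := by nlinarith
    nlinarith [mul_nonneg (sq_nonneg x) (sub_nonneg.2 this), mul_nonneg (sq_nonneg x) (sub_nonneg.2 h1)]
  have h4 : x ^ 3 ≤ 1 / 4 * x ^ 2 := by nlinarith [sq_nonneg x]
  linarith

theorem log_lo4 {x : ℝ} (h0 : 0 ≤ x) (h1 : x ≤ 1 / 4) :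
    -x - x ^ 2 / 2 - x ^ 3 / 3 - x ^ 4 / 4 - 1 / 48 * x ^ 2 ≤ Real.log (1 - x) := by
  have h := Real.abs_log_sub_add_sum_range_le (x := x) (by rw [abs_of_nonneg h0]; linarith) 4
  simp only [Finset.sum_range_succ, Finset.sum_range_zero] at h
  norm_num at h
  rw [abs_of_nonneg h0] at h
  have h2 := (abs_le.1 h).1
  have h3 : x ^ 5 / (1 - x) ≤ 1 / 48 * x ^ 2 := by
    rw [div_le_iff₀ (by linarith)]
    have a1 : x ^ 2 ≤ 1 / 16 := by nlinarith
    have a2 : x ^ 3 ≤ 1 / 64 := by nlinarith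
    nlinarith [mul_nonneg (sq_nonneg x) (sub_nonneg.2 a2), mul_nonneg (sq_nonneg x) (sub_nonneg.2 h1)]
  linarith

theorem log_up4 {x : ℝ} (h0 : 0 ≤ x) (h1 : x ≤ 1 / 4) :
    Real.log (1 + x) ≤ x - x ^ 2 / 2 + x ^ 3 / 3 - x ^ 4 / 4 + 1 / 48 * x ^ 2 := by
  have h := Real.abs_log_sub_add_sum_range_le (x := -x)
    (by rw [abs_neg, abs_of_nonneg h0]; linarith) 4
  simp only [Finset.sum_range_succ, Finset.sum_range_zero] at h
  norm_num at h
  rw [abs_of_nonneg h0] at h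
  have h2 := (abs_le.1 h).2
  have h3 : x ^ 5 / (1 - x) ≤ 1 / 48 * x ^ 2 := by
    rw [div_le_iff₀ (by linarith)]
    have a1 : x ^ 2 ≤ 1 / 16 := by nlinarith
    have a2 : x ^ 3 ≤ 1 / 64 := by nlinarith
    nlinarith [mul_nonneg (sq_nonneg x) (sub_nonneg.2 a2), mul_nonneg (sq_nonneg x) (sub_nonneg.2 h1)]
  have h4 : (-x) ^ 3 = -x ^ 3 := by ring
  have h5 : (-x) ^ 4 = x ^ 4 := by ring
  linarith

theorem log_lo1 {x : ℝ} (h0 : 0 ≤ x) (h1 : x ≤ 1 / 4) :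
    x - 2 / 3 * x ^ 2 ≤ Real.log (1 + x) := by
  have h := Real.abs_log_sub_add_sum_range_le (x := -x)
    (by rw [abs_neg, abs_of_nonneg h0]; linarith) 3
  simp only [Finset.sum_range_succ, Finset.sum_range_zero] at h
  norm_num at h
  rw [abs_of_nonneg h0] at h
  have h2 := (abs_le.1 h).1
  have h3 : x ^ 4 / (1 - x) ≤ 1 / 12 * x ^ 2 := by
    rw [div_le_iff₀ (by linarith)]
    have : x ^ 2 ≤ 1 / 16 := by nlinarith
    nlinarith [mul_nonneg (sq_nonneg x) (sub_nonneg.2 this), mul_nonneg (sq_nonneg x) (sub_nonneg.2 h1)]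
  have h4 : (-x) ^ 3 = -x ^ 3 := by ring
  have h5 : 0 ≤ x ^ 3 := by positivity
  linarith [sq_nonneg x]

theorem kap_sub_le' {a : ℝ} (h0 : 0 ≤ a) (h1 : a ≤ 1 / 4) : kap a - a ≤ 5 / 48 * a ^ 2 := by
  unfold kap
  have e1 := log_up4 h0 h1
  have e2 := log_lo4 h0 h1
  have e3 : a ^ 3 ≤ 1 / 4 * a ^ 2 := by nlinarith [sq_nonneg a]
  linarith

/-- the term with `R` -/
theorem log_gap' {R δ : ℝ} (hR : 0 < R) (h0 : 0 ≤ δ) (h1 : δ ≤ 1 / 4) :
    -(2 / 3 * δ ^ 2) ≤ R - 1 - Real.log R - δ * |1 - R| := by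
  rcases le_total R 1 with h | h
  · rw [abs_of_nonneg (by linarith)]
    have e1 := Real.log_le_sub_one_of_pos (mul_pos hR (by linarith : 0 < 1 + δ))
    rw [Real.log_mul hR.ne' (by linarith)] at e1
    have e2 := log_lo1 h0 h1
    linarith
  · rw [abs_of_nonpos (by linarith)]
    have e1 := Real.log_le_sub_one_of_pos (mul_pos hR (by linarith : 0 < 1 - δ))
    rw [Real.log_mul hR.ne' (by linarith)] at e1
    have e2 := log_lo3 h0 h1
    linarith

/-- the gain of the certificate for `δ ≤ 1/4` -/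
theorem gain' {N : ℕ} {δ R : ℝ} (hδ0 : 0 ≤ δ) (hδ1 : δ ≤ 1 / 4) (hR0 : 0 < R) :
    (12 / 25 * N + 1 / 5) * δ ^ 2 ≤ N / 2 * Real.log (1 - δ ^ 2) + ((N : ℝ) + 1) * δ ^ 2
      - (kap δ - δ) - δ * |1 - R| + (R - 1) - Real.log R := by
  have h1 := kap_sub_le' hδ0 hδ1
  have h2 := log_gap' hR0 hδ0 hδ1
  have hδ2 : δ ^ 2 ≤ 1 / 16 := by nlinarith
  have h3 := log_lo2 (sq_nonneg δ) hδ2
  have h4 : N / 2 * (-(26 / 25) * δ ^ 2) ≤ N / 2 * Real.log (1 - δ ^ 2) :=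
    mul_le_mul_of_nonneg_left h3 (by positivity)
  linarith [show N / 2 * (-(26 / 25) * δ ^ 2) = -(13 / 25) * (N * δ ^ 2) by ring, sq_nonneg δ,
    show (12 / 25 * N + 1 / 5) * δ ^ 2 = 12 / 25 * (N * δ ^ 2) + 1 / 5 * δ ^ 2 by ring]

end Pool.Agent.Lib.MP_af3a4a_an.P1.H74.Near
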