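import Pool.Agent.Lib.MP_af3a4a_an.P1.H74.NearA

set_option autoImplicit false

/-!
# The near region, part B: cells in the plane `(Re m, R)` and their checker (council 2, helper74)

All numbers are natural numbers in units of `1/10000`.
-/

namespace Pool.Agent.Lib.MP_af3a4a_an.P1.H74.Near

open Finset MeasureTheory ComplexConjugate
open Pool.Agent.Lib.MP_af3a4a_an.SV (uu av EE XX JJ hh I1 I2)
open Pool.Agent.Lib.MP_af3a4a_an.P1.H80
open Pool.Agent.Lib.MP_af3a4a_an.P1.H74.Loc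

/-- pieces `(x', s)`: on `[x, x']` one has `hh ≤ s^2` -/
def pOk (N P y : ℕ) : ℕ → List (ℕ × ℕ) → Bool
  | x, [] => Nat.beq x y
  | x, (x', s) :: l => Nat.ble x x' && Nat.ble (100000000 + x * x) (s * s + 2 * P * x) &&
      Nat.ble (100000000 + x' * x') (s * s + 2 * P * x') && Nat.ble (s * (N + 1)) (N * 10000) &&
      pOk N P y x' l

/-- the sum over the pieces -/
def pSum (N : ℕ) : ℕ → List (ℕ × ℕ) → ℕ
  | _, [] => 0
  | x, (x', s) :: l => (x' * x' - x * x) * s ^ (N - 2) + pSum N x' l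

/-- the check of one cell -/
def leafOk (N p0 p1 R0 R1 P x1 : ℕ) (ps : List (ℕ × ℕ)) (η d A B E z : ℕ) : Bool :=
  Nat.ble (P * (N - 2) + 20000) (N * p0) && Nat.blt x1 (2 * P) && Nat.ble p0 10000 &&
  pOk N P (min R1 10000) x1 ps &&
  Nat.ble (100000000 + R0 * R0) (η * η + 2 * R0 * p0) &&
  Nat.ble (100000000 + R1 * R1) (η * η + 2 * R1 * p0) &&
  Nat.ble (η * (N + 2)) ((N + 1) * 10000) &&
  (Nat.ble (d + p1) R0 || Nat.ble (d + R1) p0 || Nat.beq d 0) &&
  Nat.ble (4 * (100000000 - p0 * p0) * 10000) (A * (N + 2) * ((2 * P - x1) * (2 * P - x1))) &&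
  Nat.ble ((100000000 - p0 * p0) * N * pSum N x1 ps) (2 * B * 10000 ^ (N + 1)) &&
  Nat.ble (η ^ (N + 1) + (R1 - 10000) * (N + 1) * η ^ N) (E * 10000 ^ N) &&
  Nat.ble (1000000 * z) ((48 * N + 20) * (d * d)) &&
  Nat.ble (A + B + E) 10000 &&
  Nat.ble (200000000 * p1) ((10000 - (A + B + E)) * (200000000 + 20000 * z + z * z)) &&
  Nat.ble 10000000000 (p0 * p0 * (96 * N + 40))

/-- `N s^(N-2)` decreases -/
theorem pow_dec2 {N N' : ℕ} (hN : 2 ≤ N) (h : N ≤ N') {s : ℝ} (h0 : 0 ≤ s)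
    (hs : s * (N + 1) ≤ N) : (N' : ℝ) * s ^ (N' - 2) ≤ N * s ^ (N - 2) := by
  obtain ⟨k, rfl⟩ := Nat.exists_eq_add_of_le h
  induction k with
  | zero => simp
  | succ k ih =>
    refine le_trans ?_ (ih (by omega))
    have e : N + (k + 1) - 2 = (N + k - 2) + 1 := by omega
    rw [e, pow_succ', ← mul_assoc]
    apply mul_le_mul_of_nonneg_right _ (pow_nonneg h0 _)
    push_cast
    have hN0 : (2 : ℝ) ≤ N := by exact_mod_cast hN
    have hk : (0 : ℝ) ≤ k := Nat.cast_nonneg k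
    have hs1 : s ≤ 1 := by
      by_contra hcon
      push Not at hcon
      nlinarith
    nlinarith

/-- `(N+1) s^N` decreases -/
theorem pow_dec3 {N N' : ℕ} (h : N ≤ N') {s : ℝ} (h0 : 0 ≤ s)
    (hs : s * (N + 2) ≤ N + 1) : ((N' : ℝ) + 1) * s ^ N' ≤ ((N : ℝ) + 1) * s ^ N := by
  obtain ⟨k, rfl⟩ := Nat.exists_eq_add_of_le h
  induction k with
  | zero => simp
  | succ k ih =>
    refine le_trans ?_ (ih (by omega))
    have e : N + (k + 1) = (N + k) + 1 := by omega
    rw [e, pow_succ', ← mul_assoc]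
    apply mul_le_mul_of_nonneg_right _ (pow_nonneg h0 _)
    push_cast
    have hN0 : (0 : ℝ) ≤ N := Nat.cast_nonneg N
    have hk : (0 : ℝ) ≤ k := Nat.cast_nonneg k
    have hs1 : s ≤ 1 := by
      by_contra hcon
      push Not at hcon
      nlinarith
    nlinarith

/-- convexity: `1 - 2 P t + t^2 ≤ s^2` between two points -/
theorem quad_mid {P s a b t : ℝ} (ha : 1 - 2 * P * a + a ^ 2 ≤ s ^ 2)
    (hb : 1 - 2 * P * b + b ^ 2 ≤ s ^ 2) (h1 : a ≤ t) (h2 : t ≤ b) :
    1 - 2 * P * t + t ^ 2 ≤ s ^ 2 := by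
  rcases h1.eq_or_lt with h | h
  · rw [← h]; exact ha
  · have hab : a < b := lt_of_lt_of_le h h2
    have hab' : 0 < b - a := by linarith
    have k1 := mul_le_mul_of_nonneg_left ha (sub_nonneg.2 h2)
    have k2 := mul_le_mul_of_nonneg_left hb (sub_nonneg.2 h1)
    have k3 : (b - a) * (1 - 2 * P * t + t ^ 2) ≤ (b - a) * s ^ 2 := by
      nlinarith [mul_nonneg (mul_nonneg (sub_nonneg.2 h1) (sub_nonneg.2 h2)) hab'.le]
    exact le_of_mul_le_mul_left k3 hab'

/-- the integrals over the pieces -/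
theorem pieces {N N' P y : ℕ} (hN : 3 ≤ N) (hNN : N ≤ N') {p : ℝ} (hp1 : p ≤ 1)
    (hP : (P : ℝ) / 10000 ≤ ((N' : ℝ) * p - 2) / (N' - 2)) :
    ∀ (l : List (ℕ × ℕ)) (x : ℕ), pOk N P y x l = true →
      (N' : ℝ) * ∫ t in ((x : ℝ) / 10000)..((y : ℝ) / 10000),
        t * Real.sqrt (hh N' p 1 t) ^ (N' - 2) ≤
      N * pSum N x l / (2 * 10000 ^ N) := by
  have hi : ∀ a b : ℝ, IntervalIntegrable
      (fun x : ℝ => x * Real.sqrt (hh N' p 1 x) ^ (N' - 2)) volume a b :=
    fun a b => (SV.JCF.ig_cont N' p 1).intervalIntegrable a b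
  intro l
  induction l with
  | nil =>
    intro x h
    unfold pOk at h
    have h' := Nat.eq_of_beq_eq_true h
    subst h'
    simp [pSum]
  | cons a l ih =>
    intro x h
    obtain ⟨x', s⟩ := a
    unfold pOk at h
    simp only [Bool.and_eq_true] at h
    obtain ⟨⟨⟨⟨h1, h2⟩, h3⟩, h4⟩, h5⟩ := h
    have h1' : x ≤ x' := Nat.le_of_ble_eq_true h1
    have h2' := Nat.le_of_ble_eq_true h2
    have h3' := Nat.le_of_ble_eq_true h3
    have h4' := Nat.le_of_ble_eq_true h4
    have r1 : (x : ℝ) ≤ x' := by exact_mod_cast h1'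
    have r2 : (100000000 : ℝ) + x * x ≤ s * s + 2 * P * x := by exact_mod_cast h2'
    have r3 : (100000000 : ℝ) + x' * x' ≤ s * s + 2 * P * x' := by exact_mod_cast h3'
    have r4 : (s : ℝ) * (N + 1) ≤ N * 10000 := by exact_mod_cast h4'
    have ih' := ih x' h5
    rw [← intervalIntegral.integral_add_adjacent_intervals
      (hi ((x : ℝ) / 10000) ((x' : ℝ) / 10000)) (hi ((x' : ℝ) / 10000) ((y : ℝ) / 10000)), mul_add]
    have hs0 : (0 : ℝ) ≤ (s : ℝ) / 10000 := by positivity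
    have key : (N' : ℝ) * ∫ t in ((x : ℝ) / 10000)..((x' : ℝ) / 10000),
        t * Real.sqrt (hh N' p 1 t) ^ (N' - 2) ≤
        N * ((x' * x' - x * x : ℝ) * s ^ (N - 2)) / (2 * 10000 ^ N) := by
      have k1 : ∫ t in ((x : ℝ) / 10000)..((x' : ℝ) / 10000),
          t * Real.sqrt (hh N' p 1 t) ^ (N' - 2) ≤
          ∫ t in ((x : ℝ) / 10000)..((x' : ℝ) / 10000), t * ((s : ℝ) / 10000) ^ (N' - 2) := by
        apply intervalIntegral.integral_mono_on (by linarith)
        · exact hi _ _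
        · apply Continuous.intervalIntegrable; fun_prop
        · intro t ht
          have ht0 : 0 ≤ t := le_trans (by positivity) ht.1
          apply mul_le_mul_of_nonneg_left _ ht0
          apply pow_le_pow_left₀ (Real.sqrt_nonneg _)
          rw [Real.sqrt_le_left hs0, SV.CORNER.hh_one N' (by omega)]
          have q1 : 1 - 2 * ((P : ℝ) / 10000) * ((x : ℝ) / 10000) + ((x : ℝ) / 10000) ^ 2 ≤
              ((s : ℝ) / 10000) ^ 2 := by linarith
          have q2 : 1 - 2 * ((P : ℝ) / 10000) * ((x' : ℝ) / 10000) + ((x' : ℝ) / 10000) ^ 2 ≤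
              ((s : ℝ) / 10000) ^ 2 := by linarith
          have q3 := quad_mid q1 q2 ht.1 ht.2
          have q4 := mul_le_mul_of_nonneg_right hP ht0
          linarith
      have k2 : ∫ t in ((x : ℝ) / 10000)..((x' : ℝ) / 10000), t * ((s : ℝ) / 10000) ^ (N' - 2) =
          ((x' * x' - x * x : ℝ) / (2 * 100000000)) * ((s : ℝ) / 10000) ^ (N' - 2) := by
        rw [intervalIntegral.integral_mul_const, integral_id]
        ring
      have hxx : (0 : ℝ) ≤ x' * x' - x * x := by nlinarith [Nat.cast_nonneg (α := ℝ) x]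
      have k3 := pow_dec2 (N := N) (N' := N') (by omega) hNN hs0 (by
        rw [div_mul_eq_mul_div, div_le_iff₀ (by norm_num)]
        exact r4)
      have k4 : (N : ℝ) * ((s : ℝ) / 10000) ^ (N - 2) = N * (s : ℝ) ^ (N - 2) / 10000 ^ (N - 2) := by
        rw [div_pow]; ring
      have k5 : (10000 : ℝ) ^ N = 10000 ^ (N - 2) * 100000000 := by
        obtain ⟨k, rfl⟩ : ∃ k, N = k + 2 := ⟨N - 2, by omega⟩
        rw [Nat.add_sub_cancel, pow_add]
        norm_num
      calc (N' : ℝ) * ∫ t in ((x : ℝ) / 10000)..((x' : ℝ) / 10000),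
            t * Real.sqrt (hh N' p 1 t) ^ (N' - 2)
          ≤ (N' : ℝ) * (((x' * x' - x * x : ℝ) / (2 * 100000000)) *
            ((s : ℝ) / 10000) ^ (N' - 2)) :=
            mul_le_mul_of_nonneg_left (k1.trans (le_of_eq k2)) (Nat.cast_nonneg _)
        _ = ((x' * x' - x * x : ℝ) / (2 * 100000000)) *
            ((N' : ℝ) * ((s : ℝ) / 10000) ^ (N' - 2)) := by ring
        _ ≤ ((x' * x' - x * x : ℝ) / (2 * 100000000)) *
            (N * ((s : ℝ) / 10000) ^ (N - 2)) :=
            mul_le_mul_of_nonneg_left k3 (by positivity)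
        _ = N * ((x' * x' - x * x : ℝ) * s ^ (N - 2)) / (2 * 10000 ^ N) := by
            rw [k4, k5]
            field_simp
    have hsum : ((pSum N x ((x', s) :: l) : ℕ) : ℝ) =
        (x' * x' - x * x : ℝ) * s ^ (N - 2) + pSum N x' l := by
      have h0 : pSum N x ((x', s) :: l) = (x' * x' - x * x) * s ^ (N - 2) + pSum N x' l := rfl
      rw [h0]
      push_cast [Nat.cast_sub (Nat.mul_le_mul h1' h1')]
      ring
    rw [hsum]
    have e1 : (N : ℝ) * ((x' * x' - x * x : ℝ) * s ^ (N - 2) + pSum N x' l) / (2 * 10000 ^ N) =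
        N * ((x' * x' - x * x : ℝ) * s ^ (N - 2)) / (2 * 10000 ^ N) +
        N * pSum N x' l / (2 * 10000 ^ N) := by ring
    rw [e1]
    exact add_le_add key ih'

end Pool.Agent.Lib.MP_af3a4a_an.P1.H74.Near
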