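import Pool.Agent.Lib.MP_af3a4a_an.P1.H74.NearB

set_option autoImplicit false

/-!
# The near region, part C: the real form of one cell (council 2, helper74)
-/

namespace Pool.Agent.Lib.MP_af3a4a_an.P1.H74.Near

open Finset MeasureTheory ComplexConjugate
open Pool.Agent.Lib.MP_af3a4a_an.SV (uu av EE XX JJ hh I1 I2)
open Pool.Agent.Lib.MP_af3a4a_an.P1.H80
open Pool.Agent.Lib.MP_af3a4a_an.P1.H74.Loc

theorem pOk_le {N P y : ℕ} : ∀ (l : List (ℕ × ℕ)) (x : ℕ), pOk N P y x l = true → x ≤ y := by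
  intro l
  induction l with
  | nil =>
    intro x h
    unfold pOk at h
    exact (Nat.eq_of_beq_eq_true h).le
  | cons a l ih =>
    intro x h
    obtain ⟨x', s⟩ := a
    unfold pOk at h
    simp only [Bool.and_eq_true] at h
    exact (Nat.le_of_ble_eq_true h.1.1.1.1).trans (ih x' h.2)

/-- bound of `J` -/
theorem J_bound {N N' P x1 y : ℕ} (hN : 3 ≤ N) (hNN : N ≤ N') {p : ℝ} (hp1 : p ≤ 1)
    (hP : (P : ℝ) / 10000 ≤ ((N' : ℝ) * p - 2) / (N' - 2)) (hx : x1 < 2 * P)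
    {l : List (ℕ × ℕ)} (hl : pOk N P y x1 l = true) :
    JJ N' p 1 ((y : ℝ) / 10000) ≤ 4 * 100000000 / (((N : ℝ) + 2) * (2 * P - x1) ^ 2) +
      N * pSum N x1 l / (2 * 10000 ^ N) := by
  have hi : ∀ a b : ℝ, IntervalIntegrable
      (fun x : ℝ => x * Real.sqrt (hh N' p 1 x) ^ (N' - 2)) volume a b :=
    fun a b => (SV.JCF.ig_cont N' p 1).intervalIntegrable a b
  have hx' : (x1 : ℝ) < 2 * P := by exact_mod_cast hx
  have hL : 0 < (2 * (P : ℝ) - x1) := by linarith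
  have h1 := (SV.jcf N' p 1 ((x1 : ℝ) / 10000) ((2 * P - x1) / 10000) (by omega) (by positivity)
    (by positivity) (by
      intro x hx0 hx1
      rw [SV.CORNER.hh_one N' (by omega)]
      have k1 := mul_le_mul_of_nonneg_right hP hx0
      have k2 := mul_le_mul_of_nonneg_right hx1 hx0
      linarith)).1
  have h2 := pieces hN hNN hp1 hP l x1 hl
  have e1 : JJ N' p 1 ((y : ℝ) / 10000) = JJ N' p 1 ((x1 : ℝ) / 10000) +
      N' * ∫ t in ((x1 : ℝ) / 10000)..((y : ℝ) / 10000),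
        t * Real.sqrt (hh N' p 1 t) ^ (N' - 2) := by
    unfold JJ
    rw [← mul_add, intervalIntegral.integral_add_adjacent_intervals (hi _ _) (hi _ _)]
  rw [e1]
  have h3 : 4 / (((N' : ℝ) + 2) * ((2 * P - x1) / 10000) ^ 2) ≤
      4 * 100000000 / (((N : ℝ) + 2) * (2 * P - x1) ^ 2) := by
    have e2 : 4 / (((N' : ℝ) + 2) * ((2 * P - x1) / 10000) ^ 2) =
        4 * 100000000 / (((N' : ℝ) + 2) * (2 * P - x1) ^ 2) := by
      field_simp
      norm_num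
    rw [e2]
    have hNN' : (N : ℝ) ≤ N' := by exact_mod_cast hNN
    apply div_le_div_of_nonneg_left (by norm_num) (by positivity)
    apply mul_le_mul_of_nonneg_right (by linarith) (by positivity)
  linarith

/-- the tail terms -/
theorem tail_terms {N N' : ℕ} (hNN : N ≤ N') {R β h η ρ XE : ℝ} (hη0 : 0 ≤ η) (hη : η ≤ h)
    (h3 : h * (N + 2) ≤ N + 1) (hR : R ≤ β) (hρ : max 0 (β - 1) ≤ ρ)
    (hE : h ^ (N + 1) + ρ * (((N : ℝ) + 1) * h ^ N) ≤ XE) :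
    η ^ (N' + 1) + max 0 (R - 1) * (((N' : ℝ) + 1) * η ^ N') ≤ XE := by
  have h0 : 0 ≤ h := hη0.trans hη
  have hN0 : (0 : ℝ) ≤ N := Nat.cast_nonneg N
  have hh1 : h ≤ 1 := by
    by_contra hcon
    push Not at hcon
    nlinarith
  have t1 : η ^ (N' + 1) ≤ h ^ (N + 1) :=
    (pow_le_pow_left₀ hη0 hη _).trans (pow_le_pow_of_le_one h0 hh1 (by omega))
  have t2 : ((N' : ℝ) + 1) * η ^ N' ≤ ((N : ℝ) + 1) * h ^ N :=
    (mul_le_mul_of_nonneg_left (pow_le_pow_left₀ hη0 hη _) (by positivity)).trans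
      (pow_dec3 hNN h0 h3)
  have t3 : max 0 (R - 1) ≤ ρ := (max_le_max le_rfl (by linarith)).trans hρ
  have t4 : max 0 (R - 1) * (((N' : ℝ) + 1) * η ^ N') ≤ ρ * (((N : ℝ) + 1) * h ^ N) :=
    mul_le_mul t3 t2 (by positivity) ((le_max_left _ _).trans t3)
  linarith

/-- comparison of the logarithms -/
theorem log_part {p r q c X ζ b : ℝ} (hp : 0 < p) (hr : 0 < r) (hq : 0 ≤ q) (e2 : r ^ 2 = p ^ 2 + q)
    (hpb : p ≤ b) (hX1 : 0 < 1 - X) (hζ0 : 0 ≤ ζ) (hfin : b ≤ (1 - X) * (1 + ζ + ζ ^ 2 / 2))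
    (h8 : 1 ≤ c * (2 * p ^ 2)) : Real.log r ≤ Real.log (1 - X) + ζ + c * q := by
  have hlr : Real.log r ≤ Real.log p + q / (2 * p ^ 2) := by
    have h1 : Real.log (r ^ 2) = 2 * Real.log r := by rw [Real.log_pow]; norm_num
    have h2 : Real.log (r ^ 2) ≤ 2 * Real.log p + q / p ^ 2 := by
      have e3 : r ^ 2 = p ^ 2 * (1 + q / p ^ 2) := by
        rw [e2]
        field_simp
      rw [e3, Real.log_mul (by positivity) (by positivity), Real.log_pow]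
      have := Real.log_le_sub_one_of_pos (show 0 < 1 + q / p ^ 2 by positivity)
      push_cast
      linarith
    have e4 : q / (2 * p ^ 2) = (q / p ^ 2) / 2 := by field_simp
    rw [e4]
    linarith
  have hqc : q / (2 * p ^ 2) ≤ c * q := by
    rw [div_le_iff₀ (by positivity)]
    have h4 := mul_le_mul_of_nonneg_right h8 hq
    linarith
  have hlp : Real.log p ≤ Real.log (1 - X) + ζ := by
    have h1 : Real.log (1 + ζ + ζ ^ 2 / 2) ≤ ζ := by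
      rw [Real.log_le_iff_le_exp (by positivity)]
      exact Real.quadratic_le_exp_of_nonneg hζ0
    have h3 := Real.log_le_log hp (hpb.trans hfin)
    rw [Real.log_mul hX1.ne' (by positivity)] at h3
    linarith
  linarith

/-- the real form of the soundness of one cell -/
theorem cell_real {N N' : ℕ} (hN : 5 ≤ N) (hNN : N ≤ N') {a b α β Y XA XE h ρ D ζ : ℝ}
    (ha : 0 < a) (hJ : ∀ p, a ≤ p → p ≤ 1 → (1 - a ^ 2) * JJ N' p 1 Y ≤ XA) (hY0 : 0 ≤ Y)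
    (hY : min β 1 ≤ Y) (h0 : 0 ≤ h) (h1 : 1 - 2 * a * α + α ^ 2 ≤ h ^ 2)
    (h2 : 1 - 2 * a * β + β ^ 2 ≤ h ^ 2) (h3 : h * (N + 2) ≤ N + 1)
    (hρ : max 0 (β - 1) ≤ ρ) (hE : h ^ (N + 1) + ρ * (((N : ℝ) + 1) * h ^ N) ≤ XE)
    (hD : ∀ p R, a ≤ p → p ≤ b → α ≤ R → R ≤ β → D ^ 2 ≤ (R - p) ^ 2)
    (hζ0 : 0 ≤ ζ) (hζ : ζ ≤ (12 / 25 * N + 1 / 5) * D ^ 2)
    (hfin : b ≤ (1 - (XA + XE)) * (1 + ζ + ζ ^ 2 / 2))
    (h8 : 1 ≤ (12 / 25 * N + 1 / 5) * (2 * a ^ 2))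
    {zz w : Fin N' → ℂ} {R : ℝ} {σ : Fin N' → ℂ} (hC : H80.Cfg2 N' zz w R σ) {p : ℝ}
    (hp : (av (uu w)).re = p) (hp0 : a ≤ p) (hp1 : p ≤ b) (hR0 : α ≤ R) (hR1 : R ≤ β)
    (hδ : ‖(R : ℂ) - conj (av (uu w))‖ ≤ 1 / 4) : False := by
  have hNNr : (N : ℝ) ≤ N' := by exact_mod_cast hNN
  have hr1 := hC.av_le
  have hu := hC.u_le
  have hRpos := hC.hR
  obtain ⟨m, hm⟩ : ∃ m, av (uu w) = m := ⟨_, rfl⟩
  obtain ⟨δ, hδd⟩ : ∃ δ, ‖(R : ℂ) - conj m‖ = δ := ⟨_, rfl⟩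
  obtain ⟨r, hrd⟩ : ∃ r, ‖m‖ = r := ⟨_, rfl⟩
  have hpr : (av (uu w)).re = p := hp
  rw [hm] at hp hδ hr1
  rw [hrd] at hr1
  rw [hδd] at hδ
  have hδ0 : 0 ≤ δ := hδd ▸ norm_nonneg _
  have e1 : δ ^ 2 = (R - p) ^ 2 + m.im ^ 2 := by
    rw [← hδd, norm_sq_re_im]
    simp [hp]
  have e2 : r ^ 2 = p ^ 2 + m.im ^ 2 := by
    rw [← hrd, norm_sq_re_im, hp]
  have hr0 : 0 ≤ r := hrd ▸ norm_nonneg _
  obtain ⟨q, hq⟩ : ∃ q, q = m.im ^ 2 := ⟨_, rfl⟩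
  have hq0 : 0 ≤ q := by rw [hq]; positivity
  rw [← hq] at e1 e2
  have hple : p ≤ r := by
    have := Complex.re_le_norm m
    rw [hp, hrd] at this
    exact this
  have hp1' : p ≤ 1 := hple.trans hr1
  have hppos : 0 < p := lt_of_lt_of_le ha hp0
  have hrpos : 0 < r := lt_of_lt_of_le hppos hple
  have hR2 : R ≤ 2 := by
    have : |R - p| ≤ δ := by
      apply abs_le_of_sq_le_sq _ hδ0
      rw [e1]; linarith
    linarith [(abs_le.1 this).2]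
  obtain ⟨η, hη⟩ : ∃ η : ℝ, η = Real.sqrt (1 - 2 * R * p + R ^ 2) := ⟨_, rfl⟩
  have hYR : min R 1 ≤ Y := (min_le_min hR1 le_rfl).trans hY
  have hlow := low3 w (by omega) hu hRpos.le (by rw [hm]; exact hrd) hpr hr1 hp1' hη hYR
  have hη0 : 0 ≤ η := hη ▸ Real.sqrt_nonneg _
  have hηle : η ≤ h := by
    rw [hη, Real.sqrt_le_left h0]
    have q3 := quad_mid h1 h2 hR0 hR1
    have q4 := mul_le_mul_of_nonneg_right hp0 hRpos.le
    linarith
  have ht := tail_terms hNN hη0 hηle h3 hR1 hρ hE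
  have hap : a ^ 2 ≤ p ^ 2 := pow_le_pow_left₀ ha.le hp0 2
  have hJ0 := SV.CORNER.JJ_nonneg N' p 1 Y hY0
  have t6 : (1 - r ^ 2) * JJ N' p 1 Y ≤ XA := by
    refine le_trans (mul_le_mul_of_nonneg_right ?_ hJ0) (hJ p hp0 hp1')
    rw [e2]
    linarith
  obtain ⟨X, hX⟩ : ∃ X : ℝ, X = XA + XE := ⟨_, rfl⟩
  rw [← hX] at hfin
  have hlow' : 1 - X ≤ ((N' : ℝ) + 1) * r * ‖∫ x in (0 : ℝ)..R, qq (uu w) x‖ := by
    refine le_trans ?_ hlow
    rw [hX]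
    linarith
  have hX1 : 0 < 1 - X := by
    have h2 : 0 < (1 - X) * (1 + ζ + ζ ^ 2 / 2) :=
      lt_of_lt_of_le (lt_of_lt_of_le hppos hp1) hfin
    exact pos_of_mul_pos_left h2 (by positivity)
  have hc0 : (0 : ℝ) ≤ 12 / 25 * N' + 1 / 5 := by positivity
  have hcc : (12 / 25 * (N : ℝ) + 1 / 5) ≤ 12 / 25 * N' + 1 / 5 := by linarith
  have hz1 : ζ ≤ (12 / 25 * N' + 1 / 5) * (R - p) ^ 2 :=
    (hζ.trans (mul_le_mul_of_nonneg_right hcc (sq_nonneg D))).trans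
      (mul_le_mul_of_nonneg_left (hD p R hp0 hp1 hR0 hR1) hc0)
  have hgain := gain' (N := N') hδ0 hδ hRpos
  have hN1 : (0 : ℝ) < (N' : ℝ) + 1 := by positivity
  have hI : 0 < ‖∫ x in (0 : ℝ)..R, qq (uu w) x‖ := by
    by_contra hcon
    have h1 : ‖∫ x in (0 : ℝ)..R, qq (uu w) x‖ = 0 := le_antisymm (not_lt.1 hcon) (norm_nonneg _)
    rw [h1, mul_zero] at hlow'
    linarith
  have hfI := Cfg2.fI_eq w hRpos.le
  have hf0 : 0 < ‖fI w (R : ℂ)‖ := by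
    rw [← hfI] at hI
    exact pos_of_mul_pos_right hI hRpos.le
  have hcert := certN hC (by omega) hm hδd hδ hR2 (norm_pos_iff.1 hf0)
  have hlog : Real.log (1 - X) - Real.log r - Real.log R ≤
      Real.log (((N' : ℝ) + 1) * ‖fI w (R : ℂ)‖) := by
    have h1 : 1 - X ≤ (((N' : ℝ) + 1) * ‖fI w (R : ℂ)‖) * (r * R) := by
      calc 1 - X ≤ ((N' : ℝ) + 1) * r * ‖∫ x in (0 : ℝ)..R, qq (uu w) x‖ := hlow'
        _ = _ := by rw [← hfI]; ring
    have h2 := Real.log_le_log hX1 h1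
    rw [Real.log_mul (mul_pos hN1 hf0).ne' (mul_pos hrpos hRpos).ne',
      Real.log_mul hrpos.ne' hRpos.ne'] at h2
    linarith
  have h8' : 1 ≤ (12 / 25 * (N' : ℝ) + 1 / 5) * (2 * p ^ 2) := by
    refine h8.trans (mul_le_mul hcc (by linarith) (by positivity) hc0)
  have hlp := log_part hppos hrpos hq0 e2 hp1 hX1 hζ0 hfin h8'
  rw [e1] at hgain
  rw [e1] at hcert
  have e5 : (12 / 25 * (N' : ℝ) + 1 / 5) * ((R - p) ^ 2 + q) =
      (12 / 25 * N' + 1 / 5) * (R - p) ^ 2 + (12 / 25 * N' + 1 / 5) * q := by ring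
  rw [e5] at hgain
  linarith

end Pool.Agent.Lib.MP_af3a4a_an.P1.H74.Near
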