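import Pool.Agent.Lib.MP_af3a4a_an.P1.H74.NearC

set_option autoImplicit false

/-!
# The near region, part D: soundness of the checker (council 2, helper74)
-/

namespace Pool.Agent.Lib.MP_af3a4a_an.P1.H74.Near

open Finset MeasureTheory ComplexConjugate
open Pool.Agent.Lib.MP_af3a4a_an.SV (uu av EE XX JJ hh I1 I2)
open Pool.Agent.Lib.MP_af3a4a_an.P1.H80
open Pool.Agent.Lib.MP_af3a4a_an.P1.H74.Loc

theorem fP {N N' P p0 : ℕ} (hN : 5 ≤ N) (hNN : N ≤ N') (h : P * (N - 2) + 20000 ≤ N * p0) {p : ℝ}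
    (hp : (p0 : ℝ) / 10000 ≤ p) (hp1 : p ≤ 1) :
    (P : ℝ) / 10000 ≤ ((N' : ℝ) * p - 2) / (N' - 2) := by
  have hNr : (5 : ℝ) ≤ N := by exact_mod_cast hN
  have hNNr : (N : ℝ) ≤ N' := by exact_mod_cast hNN
  have g1 : (P : ℝ) * (N - 2) + 20000 ≤ N * p0 := by
    have := (Nat.cast_le (α := ℝ)).2 h
    rw [Nat.cast_add, Nat.cast_mul, Nat.cast_mul, Nat.cast_sub (show 2 ≤ N by omega)] at this
    exact_mod_cast this
  have h2 : (0 : ℝ) < (N : ℝ) - 2 := by linarith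
  have h2' : (0 : ℝ) < (N' : ℝ) - 2 := by linarith
  have g2 : (P : ℝ) / 10000 ≤ ((N : ℝ) * p - 2) / (N - 2) := by
    rw [div_le_div_iff₀ (by norm_num) h2]
    have := mul_le_mul_of_nonneg_left hp (show (0 : ℝ) ≤ N by linarith)
    linarith
  refine g2.trans ?_
  rw [div_le_div_iff₀ h2 h2']
  have := mul_nonneg (sub_nonneg.2 hNNr) (sub_nonneg.2 hp1)
  linarith

theorem fA {N P x1 p0 A : ℕ} (hp : p0 ≤ 10000) (hx : x1 < 2 * P)
    (h : 4 * (100000000 - p0 * p0) * 10000 ≤ A * (N + 2) * ((2 * P - x1) * (2 * P - x1))) :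
    (1 - ((p0 : ℝ) / 10000) ^ 2) * (4 * 100000000 / (((N : ℝ) + 2) * (2 * P - x1) ^ 2)) ≤
      (A : ℝ) / 10000 := by
  have hL : 0 < (2 * (P : ℝ) - x1) := by
    have : (x1 : ℝ) < 2 * P := by exact_mod_cast hx
    linarith
  have hsq : ((100000000 - p0 * p0 : ℕ) : ℝ) = 100000000 - p0 * p0 := by
    have : p0 * p0 ≤ 10000 * 10000 := Nat.mul_le_mul hp hp
    rw [Nat.cast_sub (this.trans (by norm_num)), Nat.cast_mul]
    norm_num
  have hxs : ((2 * P - x1 : ℕ) : ℝ) = 2 * P - x1 := by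
    rw [Nat.cast_sub hx.le, Nat.cast_mul]
    norm_num
  have g := (Nat.cast_le (α := ℝ)).2 h
  rw [Nat.cast_mul, Nat.cast_mul, hsq, Nat.cast_mul, Nat.cast_mul, Nat.cast_mul, hxs, Nat.cast_add] at g
  norm_num at g
  have e3 : (1 - ((p0 : ℝ) / 10000) ^ 2) * (4 * 100000000 / (((N : ℝ) + 2) * (2 * P - x1) ^ 2)) =
      4 * (100000000 - p0 * p0) / (((N : ℝ) + 2) * (2 * P - x1) ^ 2) := by
    field_simp
    ring
  rw [e3, div_le_div_iff₀ (by positivity) (by norm_num)]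
  linarith [show (A : ℝ) * (((N : ℝ) + 2) * (2 * P - x1) ^ 2) =
    A * (N + 2) * ((2 * P - x1) * (2 * P - x1)) by ring]

theorem fB {N p0 S B : ℕ} (hp : p0 ≤ 10000)
    (h : (100000000 - p0 * p0) * N * S ≤ 2 * B * 10000 ^ (N + 1)) :
    (1 - ((p0 : ℝ) / 10000) ^ 2) * (N * S / (2 * 10000 ^ N)) ≤ (B : ℝ) / 10000 := by
  have hsq : ((100000000 - p0 * p0 : ℕ) : ℝ) = 100000000 - p0 * p0 := by
    have : p0 * p0 ≤ 10000 * 10000 := Nat.mul_le_mul hp hp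
    rw [Nat.cast_sub (this.trans (by norm_num)), Nat.cast_mul]
    norm_num
  have g := (Nat.cast_le (α := ℝ)).2 h
  rw [Nat.cast_mul, Nat.cast_mul, hsq, Nat.cast_mul, Nat.cast_mul, Nat.cast_pow] at g
  norm_num at g
  obtain ⟨K, hK⟩ : ∃ K : ℝ, K = 10000 ^ N := ⟨_, rfl⟩
  have hK0 : 0 < K := by rw [hK]; positivity
  rw [pow_succ, ← hK] at g
  rw [← hK]
  have e3 : (1 - ((p0 : ℝ) / 10000) ^ 2) * (N * S / (2 * K)) =
      ((100000000 - p0 * p0 : ℝ) * N * S) / (200000000 * K) := by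
    field_simp
    ring
  rw [e3, div_le_div_iff₀ (by positivity) (by norm_num)]
  linarith

theorem fE {N η R1 E : ℕ} (h : η ^ (N + 1) + (R1 - 10000) * (N + 1) * η ^ N ≤ E * 10000 ^ N) :
    ((η : ℝ) / 10000) ^ (N + 1) + ((R1 - 10000 : ℕ) : ℝ) / 10000 *
      (((N : ℝ) + 1) * ((η : ℝ) / 10000) ^ N) ≤ (E : ℝ) / 10000 := by
  obtain ⟨ρ, hρ⟩ : ∃ ρ, ρ = R1 - 10000 := ⟨_, rfl⟩
  rw [← hρ] at h ⊢
  have g := (Nat.cast_le (α := ℝ)).2 h
  rw [Nat.cast_add, Nat.cast_pow, Nat.cast_mul, Nat.cast_mul, Nat.cast_pow, Nat.cast_add,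
    Nat.cast_mul, Nat.cast_pow] at g
  norm_num at g
  obtain ⟨K, hK⟩ : ∃ K : ℝ, K = 10000 ^ N := ⟨_, rfl⟩
  have hK0 : 0 < K := by rw [hK]; positivity
  rw [← hK] at g
  have e3 : ((η : ℝ) / 10000) ^ (N + 1) + (ρ : ℝ) / 10000 *
      (((N : ℝ) + 1) * ((η : ℝ) / 10000) ^ N) =
      ((η : ℝ) ^ (N + 1) + (ρ : ℝ) * (N + 1) * η ^ N) / (K * 10000) := by
    rw [hK, div_pow, div_pow, pow_succ (10000 : ℝ) N]
    field_simp
  rw [e3, div_le_div_iff₀ (by positivity) (by norm_num)]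
  linarith

theorem fη {η a b : ℕ} (h : 100000000 + b * b ≤ η * η + 2 * b * a) :
    1 - 2 * ((a : ℝ) / 10000) * ((b : ℝ) / 10000) + ((b : ℝ) / 10000) ^ 2 ≤
      ((η : ℝ) / 10000) ^ 2 := by
  have g : (100000000 : ℝ) + b * b ≤ η * η + 2 * b * a := by exact_mod_cast h
  linarith

theorem fη3 {η N : ℕ} (h : η * (N + 2) ≤ (N + 1) * 10000) :
    (η : ℝ) / 10000 * (N + 2) ≤ N + 1 := by
  have g : (η : ℝ) * (N + 2) ≤ (N + 1) * 10000 := by exact_mod_cast h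
  linarith

theorem fz {N d z : ℕ} (h : 1000000 * z ≤ (48 * N + 20) * (d * d)) :
    (z : ℝ) / 10000 ≤ (12 / 25 * N + 1 / 5) * ((d : ℝ) / 10000) ^ 2 := by
  have g : (1000000 : ℝ) * z ≤ (48 * N + 20) * (d * d) := by exact_mod_cast h
  have e : (12 / 25 * (N : ℝ) + 1 / 5) * ((d : ℝ) / 10000) ^ 2 =
    ((48 * N + 20) * (d * d)) / 10000000000 := by ring
  rw [e, le_div_iff₀ (by norm_num)]
  linarith

theorem ffin {A B E z p1 : ℕ} (hs : A + B + E ≤ 10000)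
    (h : 200000000 * p1 ≤ (10000 - (A + B + E)) * (200000000 + 20000 * z + z * z)) :
    (p1 : ℝ) / 10000 ≤ (1 - (((A : ℝ) / 10000 + (B : ℝ) / 10000) + (E : ℝ) / 10000)) *
      (1 + (z : ℝ) / 10000 + ((z : ℝ) / 10000) ^ 2 / 2) := by
  obtain ⟨X, hX⟩ : ∃ X, X = A + B + E := ⟨_, rfl⟩
  rw [← hX] at h hs
  have g := (Nat.cast_le (α := ℝ)).2 h
  rw [Nat.cast_mul, Nat.cast_mul, Nat.cast_sub hs, Nat.cast_add, Nat.cast_add, Nat.cast_mul,
    Nat.cast_mul] at g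
  norm_num at g
  have hXr : (X : ℝ) = A + B + E := by rw [hX]; push_cast; ring
  have e3 : (1 - (((A : ℝ) / 10000 + (B : ℝ) / 10000) + (E : ℝ) / 10000)) *
      (1 + (z : ℝ) / 10000 + ((z : ℝ) / 10000) ^ 2 / 2) =
      ((10000 - (X : ℝ)) * (200000000 + 20000 * z + z * z)) / 2000000000000 := by
    rw [hXr]; ring
  rw [e3, le_div_iff₀ (by norm_num)]
  linarith

theorem f14 {N p0 : ℕ} (h : 10000000000 ≤ p0 * p0 * (96 * N + 40)) :
    0 < (p0 : ℝ) / 10000 ∧ 1 ≤ (12 / 25 * (N : ℝ) + 1 / 5) * (2 * ((p0 : ℝ) / 10000) ^ 2) := by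
  have g : (10000000000 : ℝ) ≤ p0 * p0 * (96 * N + 40) := by exact_mod_cast h
  constructor
  · rcases (Nat.cast_nonneg p0 : (0 : ℝ) ≤ p0).eq_or_lt with h | h
    · rw [← h] at g
      norm_num at g
    · positivity
  · have e : (12 / 25 * (N : ℝ) + 1 / 5) * (2 * ((p0 : ℝ) / 10000) ^ 2) =
        (p0 * p0 * (96 * N + 40)) / 10000000000 := by ring
    rw [e, le_div_iff₀ (by norm_num)]
    linarith

theorem fmin (R1 : ℕ) : min ((R1 : ℝ) / 10000) 1 ≤ ((min R1 10000 : ℕ) : ℝ) / 10000 := by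
  rcases le_total R1 10000 with h | h
  · rw [min_eq_left h]
    exact min_le_left _ _
  · rw [min_eq_right h]
    refine (min_le_right _ _).trans ?_
    norm_num

theorem fρ (R1 : ℕ) : max 0 ((R1 : ℝ) / 10000 - 1) ≤ ((R1 - 10000 : ℕ) : ℝ) / 10000 := by
  apply max_le (div_nonneg (Nat.cast_nonneg _) (by norm_num))
  rcases le_total R1 10000 with h | h
  · have h1 : (R1 : ℝ) ≤ (10000 : ℕ) := Nat.cast_le.2 h
    have h2 : ((10000 : ℕ) : ℝ) = 10000 := by norm_num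
    rw [h2] at h1
    have h3 : (0 : ℝ) ≤ ((R1 - 10000 : ℕ) : ℝ) / 10000 :=
      div_nonneg (Nat.cast_nonneg _) (by norm_num)
    linarith
  · rw [Nat.cast_sub h]
    have h2 : ((10000 : ℕ) : ℝ) = 10000 := by norm_num
    rw [h2]
    linarith

/-- **Soundness of one cell.** -/
theorem leaf_sound {N N' p0 p1 R0 R1 P x1 : ℕ} {ps : List (ℕ × ℕ)} {η d A B E z : ℕ}
    (hN : 5 ≤ N) (hNN : N ≤ N') (hok : leafOk N p0 p1 R0 R1 P x1 ps η d A B E z = true)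
    {zz w : Fin N' → ℂ} {R : ℝ} {σ : Fin N' → ℂ} (hC : H80.Cfg2 N' zz w R σ) {p : ℝ}
    (hp : (av (uu w)).re = p) (hp0 : (p0 : ℝ) / 10000 ≤ p) (hp1 : p ≤ (p1 : ℝ) / 10000)
    (hR0 : (R0 : ℝ) / 10000 ≤ R) (hR1 : R ≤ (R1 : ℝ) / 10000)
    (hδ : ‖(R : ℂ) - conj (av (uu w))‖ ≤ 1 / 4) : False := by
  unfold leafOk at hok
  simp only [Bool.and_eq_true, Bool.or_eq_true] at hok
  obtain ⟨⟨⟨⟨⟨⟨⟨⟨⟨⟨⟨⟨⟨⟨c1, c2⟩, c2'⟩, c3⟩, c4⟩, c5⟩, c6⟩, c7⟩, c8⟩, c9⟩, c10⟩, c11⟩, c12⟩, c13⟩, c14⟩ := hok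
  obtain ⟨ha, h8⟩ := f14 (Nat.le_of_ble_eq_true c14)
  have hp10 := Nat.le_of_ble_eq_true c2'
  refine cell_real hN hNN (a := (p0 : ℝ) / 10000) (b := (p1 : ℝ) / 10000)
    (α := (R0 : ℝ) / 10000) (β := (R1 : ℝ) / 10000) (Y := ((min R1 10000 : ℕ) : ℝ) / 10000)
    (XA := (A : ℝ) / 10000 + (B : ℝ) / 10000) (XE := (E : ℝ) / 10000) (h := (η : ℝ) / 10000)
    (ρ := ((R1 - 10000 : ℕ) : ℝ) / 10000) (D := (d : ℝ) / 10000) (ζ := (z : ℝ) / 10000)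
    ha ?_ (by positivity) ?_ (by positivity) (fη (Nat.le_of_ble_eq_true c4))
    (fη (Nat.le_of_ble_eq_true c5)) (fη3 (Nat.le_of_ble_eq_true c6)) ?_
    (fE (Nat.le_of_ble_eq_true c10)) ?_ (by positivity) (fz (Nat.le_of_ble_eq_true c11))
    (ffin (Nat.le_of_ble_eq_true c12) (Nat.le_of_ble_eq_true c13)) h8 hC hp hp0 hp1 hR0 hR1 hδ
  · intro p hp hp1
    have h1 := J_bound (by omega) hNN hp1 (fP hN hNN (Nat.le_of_ble_eq_true c1) hp hp1)
      (Nat.le_of_ble_eq_true c2) c3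
    have h2 : 0 ≤ 1 - ((p0 : ℝ) / 10000) ^ 2 := by
      have : ((p0 : ℝ) / 10000) ^ 2 ≤ 1 := pow_le_one₀ ha.le (hp.trans hp1)
      linarith
    refine (mul_le_mul_of_nonneg_left h1 h2).trans ?_
    rw [mul_add]
    exact add_le_add (fA hp10 (Nat.le_of_ble_eq_true c2) (Nat.le_of_ble_eq_true c8))
      (fB hp10 (Nat.le_of_ble_eq_true c9))
  · exact fmin R1
  · exact fρ R1
  · intro p R hp hp1 hR hR1
    rcases c7 with (h | h) | h
    · have h' := Nat.le_of_ble_eq_true h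
      have : (d : ℝ) + p1 ≤ R0 := by exact_mod_cast h'
      apply pow_le_pow_left₀ (by positivity)
      linarith
    · have h' := Nat.le_of_ble_eq_true h
      have : (d : ℝ) + R1 ≤ p0 := by exact_mod_cast h'
      have h2 : (R - p) ^ 2 = (p - R) ^ 2 := by ring
      rw [h2]
      apply pow_le_pow_left₀ (by positivity)
      linarith
    · have h' := Nat.eq_of_beq_eq_true h
      rw [h']
      have : (0 : ℝ) ≤ (R - p) ^ 2 := sq_nonneg _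
      simpa using this

/-- trees of cells -/
inductive T : Type
  | out : T
  | leaf (P x1 : ℕ) (ps : List (ℕ × ℕ)) (η d A B E z : ℕ) : T
  | sp (c : ℕ) (a b : T) : T
  | sR (c : ℕ) (a b : T) : T

/-- the check of a tree -/
def T.ok (N : ℕ) : T → ℕ → ℕ → ℕ → ℕ → Bool
  | .out, p0, p1, R0, R1 => Nat.blt (p1 + 2500) R0 || Nat.blt (R1 + 2500) p0
  | .leaf P x1 ps η d A B E z, p0, p1, R0, R1 => leafOk N p0 p1 R0 R1 P x1 ps η d A B E z
  | .sp c a b, p0, p1, R0, R1 => a.ok N p0 c R0 R1 && b.ok N c p1 R0 R1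
  | .sR c a b, p0, p1, R0, R1 => a.ok N p0 p1 R0 c && b.ok N p0 p1 c R1

/-- **Soundness of a tree.** -/
theorem T.sound {N N' : ℕ} (hN : 5 ≤ N) (hNN : N ≤ N') {zz w : Fin N' → ℂ} {R : ℝ}
    {σ : Fin N' → ℂ} (hC : H80.Cfg2 N' zz w R σ) {p : ℝ} (hp : (av (uu w)).re = p)
    (hδ : ‖(R : ℂ) - conj (av (uu w))‖ ≤ 1 / 4) : ∀ (t : T) (p0 p1 R0 R1 : ℕ),
    t.ok N p0 p1 R0 R1 = true → (p0 : ℝ) / 10000 ≤ p → p ≤ (p1 : ℝ) / 10000 →
    (R0 : ℝ) / 10000 ≤ R → R ≤ (R1 : ℝ) / 10000 → False := by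
  intro t
  induction t with
  | out =>
    intro p0 p1 R0 R1 h h1 h2 h3 h4
    unfold T.ok at h
    simp only [Bool.or_eq_true] at h
    have h5 : |R - p| ≤ 1 / 4 := by
      have := (Complex.abs_re_le_norm ((R : ℂ) - conj (av (uu w)))).trans hδ
      rwa [Complex.sub_re, Complex.ofReal_re, Complex.conj_re, hp] at this
    have h6 := abs_le.1 h5
    rcases h with h | h
    · have h' : p1 + 2500 < R0 := Nat.le_of_ble_eq_true h
      have : (p1 : ℝ) + 2500 < R0 := by exact_mod_cast h'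
      linarith [h6.1, h6.2]
    · have h' : R1 + 2500 < p0 := Nat.le_of_ble_eq_true h
      have : (R1 : ℝ) + 2500 < p0 := by exact_mod_cast h'
      linarith [h6.1, h6.2]
  | leaf P x1 ps η d A B E z =>
    intro p0 p1 R0 R1 h h1 h2 h3 h4
    unfold T.ok at h
    exact leaf_sound hN hNN h hC hp h1 h2 h3 h4 hδ
  | sp c a b iha ihb =>
    intro p0 p1 R0 R1 h h1 h2 h3 h4
    unfold T.ok at h
    rw [Bool.and_eq_true] at h
    rcases le_total p ((c : ℝ) / 10000) with hc | hc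
    · exact iha p0 c R0 R1 h.1 h1 hc h3 h4
    · exact ihb c p1 R0 R1 h.2 hc h2 h3 h4
  | sR c a b iha ihb =>
    intro p0 p1 R0 R1 h h1 h2 h3 h4
    unfold T.ok at h
    rw [Bool.and_eq_true] at h
    rcases le_total R ((c : ℝ) / 10000) with hc | hc
    · exact iha p0 p1 R0 c h.1 h1 h2 h3 hc
    · exact ihb p0 p1 c R1 h.2 h1 h2 hc h4

end Pool.Agent.Lib.MP_af3a4a_an.P1.H74.Near
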