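import Pool.Agent.Lib.MP_af3a4a_an.P1.H74.NearD

set_option autoImplicit false

/-!
# The near region, part E: `Re m ≥ 19/20`, and the theorem for a tree (council 2, helper74)
-/

namespace Pool.Agent.Lib.MP_af3a4a_an.P1.H74.Near

open Finset MeasureTheory ComplexConjugate
open Pool.Agent.Lib.MP_af3a4a_an.SV (uu av EE XX JJ hh I1 I2)
open Pool.Agent.Lib.MP_af3a4a_an.P1.H80
open Pool.Agent.Lib.MP_af3a4a_an.P1.H74.Loc

theorem top_aux {N : ℕ} (hN : 7 ≤ N) {η s J ρ : ℝ} (hη0 : 0 ≤ η) (hη : η ≤ 2 / 5) (hs0 : 0 ≤ s)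
    (hs : s ≤ 39 / 400) (hJ : J ≤ 24 / 49) (hρ0 : 0 ≤ ρ) (hρ : ρ ≤ 1 / 4) :
    η ^ (N + 1) + s * J + ρ * (((N : ℝ) + 1) * η ^ N) ≤ 13 / 250 := by
  have h1 : η ^ (N + 1) ≤ (2 / 5) ^ 8 :=
    (pow_le_pow_left₀ hη0 hη _).trans
      (pow_le_pow_of_le_one (by norm_num) (by norm_num) (by omega))
  have h2 : ((N : ℝ) + 1) * η ^ N ≤ (((7 : ℕ) : ℝ) + 1) * (2 / 5) ^ 7 :=
    (mul_le_mul_of_nonneg_left (pow_le_pow_left₀ hη0 hη _) (by positivity)).trans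
      (pow_dec3 hN (by norm_num) (by norm_num))
  have h3 : ρ * (((N : ℝ) + 1) * η ^ N) ≤ 1 / 4 * ((((7 : ℕ) : ℝ) + 1) * (2 / 5) ^ 7) :=
    mul_le_mul hρ h2 (by positivity) (by norm_num)
  have h4 : s * J ≤ 39 / 400 * (24 / 49) := by
    calc s * J ≤ s * (24 / 49) := mul_le_mul_of_nonneg_left hJ hs0
      _ ≤ _ := mul_le_mul_of_nonneg_right hs (by norm_num)
  norm_num at h1 h3 h4 ⊢
  linarith

/-- `Re m ≥ 19/20` -/
theorem near_top {N : ℕ} (hN : 7 ≤ N) {zz w : Fin N → ℂ} {R : ℝ} {σ : Fin N → ℂ}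
    (hC : H80.Cfg2 N zz w R σ) (hp : 19 / 20 ≤ (av (uu w)).re)
    (hδ : ‖(R : ℂ) - conj (av (uu w))‖ ≤ 1 / 4) : False := by
  have hr := Complex.re_le_norm (av (uu w))
  rcases le_total ‖(R : ℂ) - conj (av (uu w))‖ (3 / 20) with hc | hc
  · exact loc hC (by omega) (by omega) (hp.trans hr) hc
  have hr1 := hC.av_le
  have hu := hC.u_le
  have hRpos := hC.hR
  obtain ⟨m, hm⟩ : ∃ m, av (uu w) = m := ⟨_, rfl⟩
  obtain ⟨δ, hδd⟩ : ∃ δ, ‖(R : ℂ) - conj m‖ = δ := ⟨_, rfl⟩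
  obtain ⟨r, hrd⟩ : ∃ r, ‖m‖ = r := ⟨_, rfl⟩
  obtain ⟨p, hpd⟩ : ∃ p, m.re = p := ⟨_, rfl⟩
  rw [hm] at hp hδ hr1 hr hc
  rw [hrd] at hr1 hr
  rw [hδd] at hδ hc
  rw [hpd] at hp hr
  have hδ0 : 0 ≤ δ := hδd ▸ norm_nonneg _
  have e1 : δ ^ 2 = (R - p) ^ 2 + m.im ^ 2 := by
    rw [← hδd, norm_sq_re_im]
    simp [hpd]
  have e2 : r ^ 2 = p ^ 2 + m.im ^ 2 := by
    rw [← hrd, norm_sq_re_im, hpd]
  have hrpos : 0 < r := by linarith
  have hRp : |R - p| ≤ δ := by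
    apply abs_le_of_sq_le_sq _ hδ0
    rw [e1]
    linarith [sq_nonneg m.im]
  have hRp' := abs_le.1 hRp
  have hRr : |R - r| ≤ δ := by
    have a1 := abs_norm_sub_norm_le (R : ℂ) (conj m)
    rw [Complex.norm_conj, hrd, Complex.norm_real, Real.norm_of_nonneg hRpos.le, hδd] at a1
    exact a1
  have hRr' := abs_le.1 hRr
  have hR2 : R ≤ 2 := by linarith [hRr'.2]
  obtain ⟨s, hs⟩ : ∃ s, s = 1 - r ^ 2 := ⟨_, rfl⟩
  have hs0 : 0 ≤ s := by rw [hs]; nlinarith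
  have hs1 : s ≤ 39 / 400 := by rw [hs]; nlinarith
  obtain ⟨η, hη⟩ : ∃ η : ℝ, η = Real.sqrt (1 - 2 * R * p + R ^ 2) := ⟨_, rfl⟩
  have hη0 : 0 ≤ η := hη ▸ Real.sqrt_nonneg _
  have hη2 : η ≤ 2 / 5 := by
    rw [hη, Real.sqrt_le_left (by norm_num)]
    have : 1 - 2 * R * p + R ^ 2 = δ ^ 2 + s := by
      rw [e1, hs, e2]; ring
    rw [this]
    nlinarith
  have hlow := low3 w (by omega) hu hRpos.le (by rw [hm]; exact hrd) (by rw [hm]; exact hpd) hr1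
    (by linarith) hη (min_le_right R 1)
  rw [← hs] at hlow
  have hρ1 : max 0 (R - 1) ≤ 1 / 4 := max_le (by norm_num) (by linarith [hRr'.2])
  have hX := top_aux hN hη0 hη2 hs0 hs1 (J7 hN (by linarith) (by linarith : 469 / 500 ≤ p))
    (le_max_left 0 (R - 1)) hρ1
  have hlow' : 1 - 13 / 250 ≤ ((N : ℝ) + 1) * r * ‖∫ x in (0 : ℝ)..R, qq (uu w) x‖ := by
    linarith
  have hN1 : (0 : ℝ) < (N : ℝ) + 1 := by positivity
  have hI : 0 < ‖∫ x in (0 : ℝ)..R, qq (uu w) x‖ := by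
    by_contra hcon
    have h1 : ‖∫ x in (0 : ℝ)..R, qq (uu w) x‖ = 0 := le_antisymm (not_lt.1 hcon) (norm_nonneg _)
    rw [h1, mul_zero] at hlow'
    linarith
  have hfI := Cfg2.fI_eq w hRpos.le
  have hf0 : 0 < ‖fI w (R : ℂ)‖ := by
    rw [← hfI] at hI
    exact pos_of_mul_pos_right hI hRpos.le
  have hcert := certN hC (by omega) hm hδd hδ hR2 (norm_pos_iff.1 hf0)
  have hgain := gain' (N := N) hδ0 hδ hRpos
  have hlog : Real.log (1 - 13 / 250) - Real.log r - Real.log R ≤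
      Real.log (((N : ℝ) + 1) * ‖fI w (R : ℂ)‖) := by
    have h1 : 1 - 13 / 250 ≤ (((N : ℝ) + 1) * ‖fI w (R : ℂ)‖) * (r * R) := by
      calc 1 - 13 / 250 ≤ ((N : ℝ) + 1) * r * ‖∫ x in (0 : ℝ)..R, qq (uu w) x‖ := hlow'
        _ = _ := by rw [← hfI]; ring
    have h2 := Real.log_le_log (by norm_num) h1
    rw [Real.log_mul (mul_pos hN1 hf0).ne' (mul_pos hrpos hRpos).ne',
      Real.log_mul hrpos.ne' hRpos.ne'] at h2
    linarith
  have hlr : Real.log r ≤ 0 := Real.log_nonpos hrpos.le hr1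
  have hg : 2 / 25 ≤ (12 / 25 * (N : ℝ) + 1 / 5) * δ ^ 2 := by
    have h1 : (7 : ℝ) ≤ N := by exact_mod_cast hN
    have h2 : 9 / 400 ≤ δ ^ 2 := by nlinarith
    have := mul_le_mul (show (89 / 25 : ℝ) ≤ 12 / 25 * (N : ℝ) + 1 / 5 by linarith) h2
      (by norm_num) (by positivity)
    linarith
  have hl : -(2 / 25) ≤ Real.log (1 - 13 / 250) := by
    have := Real.one_sub_inv_le_log_of_pos (show (0 : ℝ) < 1 - 13 / 250 by norm_num)
    norm_num at this ⊢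
    linarith
  linarith

/-- **The near region from a tree.** -/
theorem near_of_tree {N N' pa Ra : ℕ} (hN : 7 ≤ N) (hNN : N ≤ N') (t : T)
    (hok : t.ok N pa 9500 Ra 12000 = true) (hRa : Ra + 2500 ≤ pa ∨ Ra = 0)
    {zz w : Fin N' → ℂ} {R : ℝ} {σ : Fin N' → ℂ} (hC : H80.Cfg2 N' zz w R σ)
    (hp : (pa : ℝ) / 10000 ≤ (av (uu w)).re)
    (hδ : ‖(R : ℂ) - conj (av (uu w))‖ ≤ 1 / 4) : False := by
  have h5 : |R - (av (uu w)).re| ≤ 1 / 4 := by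
    have := (Complex.abs_re_le_norm ((R : ℂ) - conj (av (uu w)))).trans hδ
    rwa [Complex.sub_re, Complex.ofReal_re, Complex.conj_re] at this
  have h6 := abs_le.1 h5
  rcases le_total (av (uu w)).re (19 / 20) with h | h
  · refine T.sound (by omega) hNN hC rfl hδ t pa 9500 Ra 12000 hok hp ?_ ?_ ?_
    · norm_num
      exact h
    · rcases hRa with h7 | h7
      · have : (Ra : ℝ) + 2500 ≤ pa := by exact_mod_cast h7
        linarith [h6.1]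
      · rw [h7]
        have := hC.hR.le
        simpa using this
    · norm_num
      linarith [h6.2]
  · exact near_top (by omega) hC h hδ

end Pool.Agent.Lib.MP_af3a4a_an.P1.H74.Near
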