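import Pool.Agent.Lib.MP_af3a4a_an.P1.H80.Cfg

/-!
# M5 with a convex extension, and the form free of the product of the `|w_k|` (helper74)

The certificate M5 of `H80/M5.lean` is strengthened by the convex function
`θ(ζ) = k' (|ζ| - L)_+` with `k' + a + 1/L ≤ 1`; the theorem of de Bruijn and Springer moves it to
the critical points, where it pays for the large `|w_k|`.
-/

namespace Pool.Agent.Lib.MP_af3a4a_an.P1.H74

open Finset MeasureTheory
open ComplexConjugate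
open Pool.Agent.Lib.MP_af3a4a_an.SV (uu av sq EE)
open Pool.Agent.Lib.MP_af3a4a_an.P1.H80

/-- the convex extension -/
noncomputable def th (k' L : ℝ) (ζ : ℂ) : ℝ := k' * max (‖ζ‖ - L) 0

theorem th_nonneg {k' L : ℝ} (h : 0 ≤ k') (ζ : ℂ) : 0 ≤ th k' L ζ :=
  mul_nonneg h (le_max_right _ _)

/-- a point of norm `L` on a segment that leaves the ball of radius `L` -/
theorem exists_exit {s σ : ℂ} {ρ L : ℝ} (hρ : 0 ≤ ρ) (hs : ‖s‖ ≤ L) (hz : L ≤ ‖s + ρ * σ‖) :
    ∃ t : ℝ, 0 ≤ t ∧ t ≤ ρ ∧ ‖s + t * σ‖ = L := by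
  have hc : ContinuousOn (fun t : ℝ => ‖s + (t : ℂ) * σ‖) (Set.Icc 0 ρ) := by fun_prop
  have h := intermediate_value_Icc hρ hc
  have h1 : L ∈ Set.Icc (‖s + ((0 : ℝ) : ℂ) * σ‖) (‖s + (ρ : ℂ) * σ‖) := by
    constructor
    · simpa using hs
    · exact hz
  obtain ⟨t, ht, hL⟩ := h h1
  exact ⟨t, ht.1, ht.2, hL⟩

/-- the pointwise inequality M5 with a gain `θ` -/
def PW (a l : ℝ) (e s : ℂ) (θ : ℂ → ℝ) : Prop :=
  ∀ ζ σ : ℂ, ζ ≠ 0 → ‖σ‖ ≤ 1 → (conj σ * (ζ - s)).re = ‖ζ - s‖ →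
    1 + Real.log (1 - a ^ 2) / 2 - l + θ ζ ≤
      (conj σ * ζ).re + a * (conj e * ζ).re - kap a * (conj e * σ).re - Real.log ‖ζ‖

/-- the pointwise inequality with the radial convex extension -/
theorem pointwise_th {a l L k' : ℝ} {e s σ ζ : ℂ} (he : ‖e‖ = 1) (hσ : ‖σ‖ ≤ 1)
    (h : (conj σ * (ζ - s)).re = ‖ζ - s‖) (hζ : ζ ≠ 0) (hc : CertAt a l e s)
    (hL : 0 < L) (hs : ‖s‖ ≤ L) (hk0 : 0 ≤ k') (hk : k' + a + 1 / L ≤ 1) :
    1 + Real.log (1 - a ^ 2) / 2 - l + th k' L ζ ≤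
      (conj σ * ζ).re + a * (conj e * ζ).re - kap a * (conj e * σ).re - Real.log ‖ζ‖ := by
  rcases le_or_gt ‖ζ‖ L with hle | hgt
  · have h1 := pointwise he hσ h hζ hc
    have h2 : th k' L ζ = 0 := by
      unfold th
      rw [max_eq_right (by linarith), mul_zero]
    rw [h2]
    linarith
  · have hne : ζ - s ≠ 0 := by
      intro h0
      rw [sub_eq_zero.1 h0] at hgt
      linarith
    obtain ⟨h1, h2⟩ := eq_dir hσ h hne
    obtain ⟨ρ, hρ⟩ : ∃ ρ, ρ = ‖ζ - s‖ := ⟨_, rfl⟩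
    rw [← hρ] at h1
    have hρ0 : 0 ≤ ρ := by rw [hρ]; exact norm_nonneg _
    have hζ' : ζ = s + ρ * σ := by rw [← h1]; ring
    obtain ⟨t, ht0, htρ, htL⟩ := exists_exit (s := s) (σ := σ) hρ0 hs (by rw [← hζ']; exact hgt.le)
    obtain ⟨ζ₀, hζ₀⟩ : ∃ ζ₀ : ℂ, ζ₀ = s + t * σ := ⟨_, rfl⟩
    rw [← hζ₀] at htL
    have hζ₀0 : ζ₀ ≠ 0 := by
      intro h0
      rw [h0, norm_zero] at htL
      linarith
    have hσσ : (conj σ * σ).re = 1 := by
      have h5 := norm_sq_re_im σ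
      rw [h2] at h5
      simp only [Complex.mul_re, Complex.conj_re, Complex.conj_im]
      linarith
    have h3 : (conj σ * (ζ₀ - s)).re = ‖ζ₀ - s‖ := by
      have e1 : ζ₀ - s = (t : ℂ) * σ := by rw [hζ₀]; ring
      rw [e1, norm_mul, h2, mul_one, Complex.norm_real, Real.norm_of_nonneg ht0,
        show conj σ * ((t : ℂ) * σ) = (t : ℂ) * (conj σ * σ) by ring, Complex.re_ofReal_mul, hσσ,
        mul_one]
    have h4 := pointwise he hσ h3 hζ₀0 hc
    obtain ⟨δ, hδ⟩ : ∃ δ, δ = ρ - t := ⟨_, rfl⟩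
    have hδ0 : 0 ≤ δ := by rw [hδ]; linarith
    have hζζ₀ : ζ = ζ₀ + (δ : ℂ) * σ := by
      rw [hζ', hζ₀, hδ]
      push_cast
      ring
    have h5 : (conj σ * ζ).re = (conj σ * ζ₀).re + δ := by
      rw [hζζ₀, mul_add, Complex.add_re,
        show conj σ * ((δ : ℂ) * σ) = (δ : ℂ) * (conj σ * σ) by ring, Complex.re_ofReal_mul, hσσ,
        mul_one]
    have h6 : (conj e * ζ).re = (conj e * ζ₀).re + δ * (conj e * σ).re := by
      rw [hζζ₀, mul_add, Complex.add_re,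
        show conj e * ((δ : ℂ) * σ) = (δ : ℂ) * (conj e * σ) by ring, Complex.re_ofReal_mul]
    have hT : -1 ≤ (conj e * σ).re := by
      have h7 := Complex.abs_re_le_norm (conj e * σ)
      rw [norm_mul, Complex.norm_conj, he, h2, mul_one] at h7
      exact (abs_le.1 h7).1
    have h8 : ‖ζ‖ ≤ L + δ := by
      rw [hζζ₀]
      refine (norm_add_le _ _).trans ?_
      rw [htL, norm_mul, h2, mul_one, Complex.norm_real, Real.norm_of_nonneg hδ0]
    have h9 : Real.log ‖ζ‖ ≤ Real.log ‖ζ₀‖ + δ / L := by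
      rw [htL]
      have h10 : Real.log ‖ζ‖ ≤ Real.log (L + δ) :=
        Real.log_le_log (norm_pos_iff.2 hζ) h8
      have h11 : Real.log (L + δ) = Real.log L + Real.log (1 + δ / L) := by
        rw [← Real.log_mul hL.ne' (by positivity)]
        congr 1
        field_simp
      have h12 : Real.log (1 + δ / L) ≤ δ / L := by
        have := Real.log_le_sub_one_of_pos (x := 1 + δ / L) (by positivity)
        linarith
      linarith
    have h13 : th k' L ζ ≤ k' * δ := by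
      unfold th
      apply mul_le_mul_of_nonneg_left _ hk0
      exact max_le (by linarith) hδ0
    have ha0 : 0 ≤ a := hc.1
    have h14 : -(a * δ) ≤ a * (δ * (conj e * σ).re) := by
      have := mul_le_mul_of_nonneg_left hT (mul_nonneg ha0 hδ0)
      linarith
    have h15 : δ / L = δ * (1 / L) := by ring
    have h16 : 0 ≤ δ * (1 - (k' + a + 1 / L)) := mul_nonneg hδ0 (by linarith)
    rw [h5, h6, mul_add]
    rw [h15] at h9
    linarith [h4, h9, h13, h14, h16]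


theorem PW_th {a l L k' : ℝ} {e s : ℂ} (he : ‖e‖ = 1) (hc : CertAt a l e s)
    (hL : 0 < L) (hs : ‖s‖ ≤ L) (hk0 : 0 ≤ k') (hk : k' + a + 1 / L ≤ 1) :
    PW a l e s (th k' L) :=
  fun _ζ _σ hζ hσ h => pointwise_th he hσ h hζ hc hL hs hk0 hk

theorem PW_zero {a l : ℝ} {e s : ℂ} (he : ‖e‖ = 1) (hc : CertAt a l e s) :
    PW a l e s (fun _ => 0) := by
  intro ζ σ hζ hσ h
  have := pointwise he hσ h hζ hc
  linarith

/-- the tangent line of the slack on the axis -/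
noncomputable def lin (a : ℝ) (e ζ : ℂ) : ℝ :=
  max (a / (1 + a) * (‖ζ‖ + a * (conj e * ζ).re) - Real.log (1 + a)) 0

theorem norm_conj_mul_re {e ζ : ℂ} (he : ‖e‖ = 1) : |(conj e * ζ).re| ≤ ‖ζ‖ := by
  have h7 := Complex.abs_re_le_norm (conj e * ζ)
  rwa [norm_mul, Complex.norm_conj, he, one_mul] at h7

/-- the slack at `s = 0` and the general tangent lines -/
theorem slack_zero {a q : ℝ} {e ζ : ℂ} (he : ‖e‖ = 1) (a0 : 0 ≤ a) (a1 : a < 1) (hζ : ζ ≠ 0)
    (q1 : q < 1) {Z : ℂ} (hZ : ζ = (‖ζ‖ : ℂ) * Z) (hZ1 : ‖Z‖ = 1) :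
    1 + Real.log (1 - a ^ 2) / 2 + (q * (‖ζ‖ + a * (conj e * ζ).re) + Real.log (1 - q)) ≤
      ‖ζ‖ + a * (conj e * ζ).re - kap a * (conj e * Z).re - Real.log ‖ζ‖ := by
  have hv : 0 < ‖ζ‖ := norm_pos_iff.2 hζ
  obtain ⟨T, hT⟩ : ∃ T, T = (conj e * Z).re := ⟨_, rfl⟩
  have hTT : |T| ≤ 1 := by rw [hT, ← hZ1]; exact norm_conj_mul_re he
  obtain ⟨hT0, hT1⟩ := abs_le.1 hTT
  have e1 : (conj e * ζ).re = ‖ζ‖ * T := by
    conv_lhs => rw [hZ]
    rw [show conj e * ((‖ζ‖ : ℂ) * Z) = (‖ζ‖ : ℂ) * (conj e * Z) by ring, Complex.re_ofReal_mul,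
      ← hT]
  rw [e1, ← hT]
  have hgap := gap_lower a0 a1 hT0 hT1
  have hw := ww_nonneg a0 a1
  have hL : 0 < 1 + a * T := by nlinarith
  have hM : 0 < ‖ζ‖ * (1 + a * T) := mul_pos hv hL
  have hq : 0 < 1 - q := by linarith
  have h1 := Real.log_le_sub_one_of_pos (mul_pos hq hM)
  rw [Real.log_mul hq.ne' hM.ne', Real.log_mul hv.ne' hL.ne'] at h1
  have h2 : 0 ≤ ww a * (1 - T ^ 2) := mul_nonneg hw (by nlinarith)
  nlinarith

/-- **The pointwise inequality on the axis**, with the gain `lin`: no loss if `s = t e`,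
`0 ≤ t ≤ kap a`. -/
theorem PW_lin {a t : ℝ} {e : ℂ} (he : ‖e‖ = 1) (a0 : 0 ≤ a) (a1 : a < 1) (ht0 : 0 ≤ t)
    (ht : t ≤ kap a) : PW a 0 e ((t : ℂ) * e) (lin a e) := by
  intro ζ σ hζ hσ h
  have hv : 0 < ‖ζ‖ := norm_pos_iff.2 hζ
  obtain ⟨Z, hZ⟩ : ∃ Z, Z = (‖ζ‖ : ℂ)⁻¹ * ζ := ⟨_, rfl⟩
  have hvC : (‖ζ‖ : ℂ) ≠ 0 := by exact_mod_cast hv.ne'
  have hζZ : ζ = (‖ζ‖ : ℂ) * Z := by
    rw [hZ]
    field_simp
  have hZ1 : ‖Z‖ = 1 := by
    rw [hZ, norm_mul, norm_inv, Complex.norm_real, norm_norm]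
    field_simp
  -- comparison with the slack at zero
  have hee : (conj e * e).re = 1 := by
    have h5 := norm_sq_re_im e
    rw [he] at h5
    simp only [Complex.mul_re, Complex.conj_re, Complex.conj_im]
    linarith
  have hZZ : (conj Z * ζ).re = ‖ζ‖ := by
    have h5 := norm_sq_re_im Z
    rw [hZ1] at h5
    conv_lhs => rw [hζZ]
    rw [show conj Z * ((‖ζ‖ : ℂ) * Z) = (‖ζ‖ : ℂ) * (conj Z * Z) by ring, Complex.re_ofReal_mul]
    have h6 : (conj Z * Z).re = 1 := by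
      simp only [Complex.mul_re, Complex.conj_re, Complex.conj_im]
      linarith
    rw [h6, mul_one]
  have hre : ∀ x : ℂ, (conj x * ((t : ℂ) * e)).re = t * (conj e * x).re := by
    intro x
    rw [show conj x * ((t : ℂ) * e) = (t : ℂ) * (conj x * e) by ring, Complex.re_ofReal_mul]
    congr 1
    simp only [Complex.mul_re, Complex.conj_re, Complex.conj_im]
    ring
  have hZs : (conj Z * (ζ - (t : ℂ) * e)).re ≤ ‖ζ - (t : ℂ) * e‖ := by
    refine (Complex.re_le_norm _).trans ?_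
    rw [norm_mul, Complex.norm_conj, hZ1, one_mul]
  -- `T = Re (conj e Z)`, `S = Re (conj e σ)`: `‖ζ‖ - Re (conj σ ζ) ≤ t (T - S)`
  have h1 : ‖ζ‖ - (conj σ * ζ).re ≤ t * ((conj e * Z).re - (conj e * σ).re) := by
    have e1 : (conj Z * (ζ - (t : ℂ) * e)).re = ‖ζ‖ - t * (conj e * Z).re := by
      rw [mul_sub, Complex.sub_re, hZZ, hre]
    have e2 : (conj σ * (ζ - (t : ℂ) * e)).re = (conj σ * ζ).re - t * (conj e * σ).re := by
      rw [mul_sub, Complex.sub_re, hre]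
    rw [e1, ← h, e2] at hZs
    linarith
  -- `S ≤ T`
  have h2 : (conj e * σ).re ≤ (conj e * Z).re := by
    rcases eq_or_ne ζ ((t : ℂ) * e) with h0 | h0
    · -- `ζ = t e`, so `Z = e`
      have ht' : 0 < t := by
        rcases ht0.lt_or_eq with h3 | h3
        · exact h3
        · exfalso
          apply hζ
          rw [h0, ← h3]
          simp
      have hn : ‖ζ‖ = t := by
        rw [h0, norm_mul, he, mul_one, Complex.norm_real, Real.norm_of_nonneg ht0]
      have hZe : Z = e := by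
        have htC : (t : ℂ) ≠ 0 := by exact_mod_cast ht'.ne'
        have h3 : (t : ℂ) * Z = (t : ℂ) * e := by
          rw [← h0, ← hn]
          exact hζZ.symm
        exact mul_left_cancel₀ htC h3
      rw [hZe, hee]
      refine (Complex.re_le_norm _).trans ?_
      rw [norm_mul, Complex.norm_conj, he, one_mul]
      exact hσ
    · obtain ⟨h3, h4⟩ := eq_dir hσ h (sub_ne_zero.2 h0)
      obtain ⟨ρ, hρ⟩ : ∃ ρ, ρ = ‖ζ - (t : ℂ) * e‖ := ⟨_, rfl⟩
      rw [← hρ] at h3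
      have hρ0 : 0 < ρ := by rw [hρ]; exact norm_pos_iff.2 (sub_ne_zero.2 h0)
      obtain ⟨S, hS⟩ : ∃ S, S = (conj e * σ).re := ⟨_, rfl⟩
      have hS1 : S ≤ 1 := by
        rw [hS]
        refine (Complex.re_le_norm _).trans ?_
        rw [norm_mul, Complex.norm_conj, he, one_mul]
        exact hσ
      have hSm : -1 ≤ S := by
        have := (abs_le.1 (norm_conj_mul_re (ζ := σ) he)).1
        rw [h4] at this
        rw [hS]
        exact this
      have h5 : (conj e * ζ).re = t + ρ * S := by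
        have : ζ = (t : ℂ) * e + (ρ : ℂ) * σ := by rw [← h3]; ring
        conv_lhs => rw [this]
        rw [mul_add, Complex.add_re, show conj e * ((t : ℂ) * e) = (t : ℂ) * (conj e * e) by ring,
          show conj e * ((ρ : ℂ) * σ) = (ρ : ℂ) * (conj e * σ) by ring, Complex.re_ofReal_mul,
          Complex.re_ofReal_mul, hee, ← hS, mul_one]
      have h6 : ‖ζ‖ ^ 2 = t ^ 2 + 2 * (t * ρ * S) + ρ ^ 2 := by
        have h7 : ζ = (t : ℂ) * e + (ρ : ℂ) * σ := by rw [← h3]; ring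
        have h8 := norm_sq_re_im e
        have h9 := norm_sq_re_im σ
        rw [he] at h8
        rw [h4] at h9
        have h10 : S = e.re * σ.re + e.im * σ.im := by
          rw [hS]
          simp only [Complex.mul_re, Complex.conj_re, Complex.conj_im]
          ring
        rw [h7, norm_sq_re_im, h10]
        simp only [Complex.add_re, Complex.add_im, Complex.mul_re, Complex.mul_im,
          Complex.ofReal_re, Complex.ofReal_im]
        linear_combination (-t ^ 2) * h8 - ρ ^ 2 * h9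
      have h7 : (conj e * ζ).re = ‖ζ‖ * (conj e * Z).re := by
        conv_lhs => rw [hζZ]
        rw [show conj e * ((‖ζ‖ : ℂ) * Z) = (‖ζ‖ : ℂ) * (conj e * Z) by ring,
          Complex.re_ofReal_mul]
      rw [← hS]
      have h8 : S * ‖ζ‖ ≤ t + ρ * S := by
        by_contra hlt
        push Not at hlt
        have h9 : ‖ζ‖ ^ 2 = (t + ρ * S) ^ 2 + ρ ^ 2 * (1 - S ^ 2) := by
          rw [h6]; ring
        have h10 : ‖ζ‖ ^ 2 = (ρ + t * S) ^ 2 + t ^ 2 * (1 - S ^ 2) := by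
          rw [h6]; ring
        rcases le_or_gt 0 S with hS0 | hS0
        · have h11 : ‖ζ‖ ≤ t + ρ := by
            apply le_of_sq_le_sq _ (by linarith)
            rw [h6]
            nlinarith [mul_nonneg ht0 hρ0.le]
          nlinarith [mul_nonneg ht0 (sub_nonneg.2 hS1), mul_nonneg hS0 (sub_nonneg.2 h11)]
        · have h11 : ρ + t * S ≤ ‖ζ‖ := by
            apply le_of_sq_le_sq _ hv.le
            rw [h10]
            nlinarith [mul_nonneg (sq_nonneg t) (show 0 ≤ 1 - S ^ 2 by nlinarith)]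
          nlinarith [mul_nonneg (neg_nonneg.2 hS0.le) (sub_nonneg.2 h11),
            mul_nonneg ht0 (show 0 ≤ 1 - S ^ 2 by nlinarith)]
      rw [← h5, h7] at h8
      have h9 : ‖ζ‖ * S ≤ ‖ζ‖ * (conj e * Z).re := by linarith
      exact le_of_mul_le_mul_left h9 hv
  have h3 : 0 ≤ (kap a - t) * ((conj e * Z).re - (conj e * σ).re) :=
    mul_nonneg (sub_nonneg.2 ht) (sub_nonneg.2 h2)
  have key : ∀ q : ℝ, q < 1 →
      1 + Real.log (1 - a ^ 2) / 2 + (q * (‖ζ‖ + a * (conj e * ζ).re) + Real.log (1 - q)) ≤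
      (conj σ * ζ).re + a * (conj e * ζ).re - kap a * (conj e * σ).re - Real.log ‖ζ‖ := by
    intro q hq
    have h4 := slack_zero he a0 a1 hζ hq hζZ hZ1
    nlinarith
  unfold lin
  rcases le_total (a / (1 + a) * (‖ζ‖ + a * (conj e * ζ).re) - Real.log (1 + a)) 0 with h5 | h5
  · rw [max_eq_right h5]
    have := key 0 one_pos
    simp only [zero_mul, sub_zero, Real.log_one, add_zero] at this ⊢
    exact this
  · rw [max_eq_left h5]
    have h6 := key (a / (1 + a)) (by rw [div_lt_one (by linarith)]; linarith)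
    have h7 : Real.log (1 - a / (1 + a)) = -Real.log (1 + a) := by
      rw [← Real.log_inv]
      congr 1
      have : 1 + a ≠ 0 := by linarith
      field_simp
      ring
    rw [h7] at h6
    simp only [sub_zero]
    linarith

/-- **M5 with the convex extension.** -/
theorem m5_th {N : ℕ} {z : Fin N → ℂ} {c : ℂ} {σ : Fin N → ℂ} {σ₀ : ℂ} (hm : Med N z c σ σ₀)
    {a l b : ℝ} {e y : ℂ} {θ : ℂ → ℝ} (hb : 0 < b) (hc : PW a l e ((c - y) / b) θ)
    (hy : ∀ j, z j ≠ y) :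
    N * b * (1 + Real.log (1 - a ^ 2) / 2 - l - Real.log b)
      + a * (conj e * (N * y - ∑ j, z j)).re - (conj σ₀ * y).re - b * kap a * (conj e * σ₀).re
      + b * ∑ j, Real.log ‖z j - y‖ + b * ∑ j, θ ((z j - y) / b) ≤ ‖c‖ + ∑ j, ‖z j - c‖ := by
  have hbC : (b : ℂ) ≠ 0 := by exact_mod_cast hb.ne'
  have key : ∀ j, b * (1 + Real.log (1 - a ^ 2) / 2 - l - Real.log b)
      + a * (conj e * (y - z j)).re + (conj (σ j) * y).re + b * kap a * (conj e * σ j).re
      + b * Real.log ‖z j - y‖ + b * θ ((z j - y) / b) ≤ ‖z j - c‖ + (conj (σ j) * c).re := by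
    intro j
    have hzy : z j - y ≠ 0 := sub_ne_zero.2 (hy j)
    have h1 : (conj (σ j) * ((z j - y) / b - (c - y) / b)).re = ‖(z j - y) / b - (c - y) / b‖ := by
      rw [← sub_div, show z j - y - (c - y) = z j - c by ring, norm_div, Complex.norm_real,
        Real.norm_of_nonneg hb.le, ← hm.sub j, ← mul_div_assoc, Complex.div_ofReal_re]
    have h2 := hc _ _ (div_ne_zero hzy hbC) (hm.hσ j) h1
    obtain ⟨τ, hτ⟩ : ∃ τ, τ = θ ((z j - y) / b) := ⟨_, rfl⟩
    rw [← hτ] at h2 ⊢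
    rw [norm_div, Complex.norm_real, Real.norm_of_nonneg hb.le,
      Real.log_div (norm_ne_zero_iff.2 hzy) hb.ne', ← mul_div_assoc, ← mul_div_assoc,
      Complex.div_ofReal_re, Complex.div_ofReal_re] at h2
    have h3 := mul_le_mul_of_nonneg_left h2 hb.le
    have e1 : b * ((conj (σ j) * (z j - y)).re / b + a * ((conj e * (z j - y)).re / b) -
        kap a * (conj e * σ j).re - (Real.log ‖z j - y‖ - Real.log b)) =
        (conj (σ j) * (z j - y)).re + a * (conj e * (z j - y)).re -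
        b * kap a * (conj e * σ j).re - b * Real.log ‖z j - y‖ + b * Real.log b := by
      field_simp
      ring
    rw [e1] at h3
    have h4 := hm.sub j
    have e2 : (conj (σ j) * (z j - y)).re = (conj (σ j) * (z j - c)).re + (conj (σ j) * c).re
        - (conj (σ j) * y).re := by
      rw [← Complex.add_re, ← Complex.sub_re]; congr 1; ring
    have e3 : (conj e * (z j - y)).re = -(conj e * (y - z j)).re := by
      rw [← Complex.neg_re]; congr 1; ring
    rw [e2, e3, h4] at h3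
    linarith
  have hsum := Finset.sum_le_sum (fun j (_ : j ∈ Finset.univ) => key j)
  simp only [Finset.sum_add_distrib, Finset.sum_const, Finset.card_univ, Fintype.card_fin,
    nsmul_eq_mul, ← Finset.mul_sum] at hsum
  have hS : ∑ j, σ j = -σ₀ := by
    have := hm.sum
    linear_combination this
  have s1 : ∑ j, (conj e * (y - z j)).re = (conj e * (N * y - ∑ j, z j)).re := by
    rw [← Complex.re_sum, ← Finset.mul_sum, Finset.sum_sub_distrib]
    simp
  have s2 : ∀ x : ℂ, ∑ j, (conj (σ j) * x).re = -(conj σ₀ * x).re := by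
    intro x
    rw [← Complex.re_sum, ← Finset.sum_mul, ← map_sum, hS, ← Complex.neg_re]
    congr 1
    simp
  have s3 : ∑ j, (conj e * σ j).re = -(conj e * σ₀).re := by
    rw [← Complex.re_sum, ← Finset.mul_sum, hS, ← Complex.neg_re]
    congr 1
    simp
  rw [s1, s2, s2, s3] at hsum
  have h0 : -(conj σ₀ * c).re = ‖c‖ := by
    rw [← hm.sub₀, ← Complex.neg_re]; congr 1; ring
  rw [h0] at hsum
  linarith

/-- `x ↦ b θ((x - y)/b)` is convex -/
theorem scale_convex {θ : ℂ → ℝ} (hθ : ConvexOn ℝ Set.univ θ) {b : ℝ} (hb : 0 < b) (y : ℂ) :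
    ConvexOn ℝ Set.univ fun x : ℂ => b * θ ((x - y) / b) := by
  refine ⟨convex_univ, ?_⟩
  intro x _ x' _ α β hα hβ hαβ
  have h1 := hθ.2 (Set.mem_univ ((x - y) / b)) (Set.mem_univ ((x' - y) / b)) hα hβ hαβ
  have e1 : α • ((x - y) / (b : ℂ)) + β • ((x' - y) / (b : ℂ)) =
      (α • x + β • x' - y) / (b : ℂ) := by
    have h2 : (α : ℂ) + β = 1 := by exact_mod_cast hαβ
    simp only [Complex.real_smul]
    rw [← mul_div_assoc, ← mul_div_assoc, ← add_div]
    congr 1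
    linear_combination (-y) * h2
  rw [e1] at h1
  simp only [smul_eq_mul] at h1 ⊢
  have h3 := mul_le_mul_of_nonneg_left h1 hb.le
  linarith

theorem th_convex {k' L : ℝ} (hk0 : 0 ≤ k') : ConvexOn ℝ Set.univ (th k' L) := by
  have h1 : ConvexOn ℝ Set.univ fun x : ℂ => ‖x‖ - L :=
    ((convexOn_univ_norm (E := ℂ)).add_const (-L)).congr (fun x _ => by simp [sub_eq_add_neg])
  exact (h1.sup (convexOn_const 0 convex_univ)).smul hk0

theorem lin_convex {a : ℝ} (a0 : 0 ≤ a) (e : ℂ) : ConvexOn ℝ Set.univ (lin a e) := by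
  have h1 : ConvexOn ℝ Set.univ fun x : ℂ => ‖x‖ + a * (conj e * x).re := by
    refine (convexOn_univ_norm (E := ℂ)).add ?_
    refine ⟨convex_univ, ?_⟩
    intro x _ x' _ α β _ _ _
    apply le_of_eq
    simp only [Complex.real_smul, smul_eq_mul, mul_add, Complex.add_re, Complex.mul_re,
      Complex.conj_re, Complex.conj_im, Complex.ofReal_re, Complex.ofReal_im, Complex.mul_im]
    ring
  have h2 : ConvexOn ℝ Set.univ fun x : ℂ =>
      a / (1 + a) * (‖x‖ + a * (conj e * x).re) - Real.log (1 + a) :=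
    ((h1.smul (div_nonneg a0 (by linarith : (0:ℝ) ≤ 1 + a))).add_const
      (-Real.log (1 + a))).congr (fun x _ => by simp [sub_eq_add_neg])
  exact h2.sup (convexOn_const 0 convex_univ)

section facts

variable {N : ℕ} {z w : Fin N → ℂ} {c : ℂ} {σ : Fin N → ℂ} {σ₀ : ℂ}

/-- **M5 with the convex extension for a counterexample** -/
theorem m5w (hN : 1 ≤ N) (hC : Cfg1 N z w c σ σ₀) {a l b : ℝ} {e y : ℂ} {θ : ℂ → ℝ}
    (hb : 0 < b) (hθ : ConvexOn ℝ Set.univ θ) (hc : PW a l e ((c - y) / b) θ) :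
    ((N : ℝ) + 1) * EE w * ‖fI w y‖ < Real.exp ((((N : ℝ) + 1)
      - N * b * (1 + Real.log (1 - a ^ 2) / 2 - l - Real.log b)
      - a * (conj e * (N * y - ((N : ℂ) + 1) * av w)).re + (conj σ₀ * y).re
      + b * kap a * (conj e * σ₀).re
      - b * (((N : ℝ) + 1) / N * ∑ k, θ ((w k - y) / b) - θ ((0 - y) / b))) / b) := by
  have hNpos : (0 : ℝ) < N := by exact_mod_cast hN
  rw [← hC.prod_eq y, ← hC.sum_z hN]
  have hmaj := hC.maj _ (scale_convex hθ hb y)
  rw [← Finset.mul_sum, ← Finset.mul_sum] at hmaj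
  have hmaj' : b * (((N : ℝ) + 1) / N * ∑ k, θ ((w k - y) / b) - θ ((0 - y) / b)) ≤
      b * ∑ j, θ ((z j - y) / b) := by
    have e1 : b * (((N : ℝ) + 1) / N * ∑ k, θ ((w k - y) / b) - θ ((0 - y) / b)) =
        (((N : ℝ) + 1) * (b * ∑ k, θ ((w k - y) / b)) - N * (b * θ ((0 - y) / b))) / N := by
      field_simp
    rw [e1, div_le_iff₀ hNpos]
    linarith
  have hmass := hC.mass
  by_cases hy : ∀ j, z j ≠ y
  · have h := m5_th hC.med hb hc hy
    have hpos : ∀ j, 0 < ‖y - z j‖ := fun j => norm_pos_iff.2 (sub_ne_zero.2 (hy j).symm)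
    rw [← Real.log_lt_iff_lt_exp (Finset.prod_pos fun j _ => hpos j),
      Real.log_prod (fun j _ => (hpos j).ne'), lt_div_iff₀ hb]
    have e1 : ∑ j, Real.log ‖y - z j‖ = ∑ j, Real.log ‖z j - y‖ :=
      Finset.sum_congr rfl fun j _ => by rw [norm_sub_rev]
    rw [e1]
    linarith
  · push Not at hy
    obtain ⟨j, hj⟩ := hy
    rw [Finset.prod_eq_zero (Finset.mem_univ j) (by rw [hj, sub_self, norm_zero])]
    exact Real.exp_pos _

/-- the real part of `w` in a direction against the real part of `1/w` -/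
theorem re_w_le {e x : ℂ} (he : ‖e‖ = 1) (hx : 1 ≤ ‖x‖) :
    (conj e * x).re ≤ (e * x⁻¹).re + (‖x‖ - 1 / ‖x‖) := by
  have hx0 : 0 < ‖x‖ := by linarith
  have e1 : (e * x⁻¹).re = (conj e * x).re / ‖x‖ ^ 2 := by
    rw [Complex.inv_def, Complex.normSq_eq_norm_sq, ← mul_assoc, mul_comm, Complex.re_ofReal_mul,
      inv_mul_eq_div]
    congr 1
    simp only [Complex.mul_re, Complex.conj_re, Complex.conj_im]
    ring
  rw [e1]
  have h1 : (conj e * x).re ≤ ‖x‖ := by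
    refine (Complex.re_le_norm _).trans ?_
    rw [norm_mul, Complex.norm_conj, he, one_mul]
  have h2 : 0 ≤ 1 - 1 / ‖x‖ ^ 2 := by
    rw [sub_nonneg, div_le_one (by positivity)]
    nlinarith
  have h3 := mul_le_mul_of_nonneg_right h1 h2
  have e2 : ‖x‖ * (1 - 1 / ‖x‖ ^ 2) = ‖x‖ - 1 / ‖x‖ := by
    field_simp
  rw [e2] at h3
  have e3 : (conj e * x).re * (1 - 1 / ‖x‖ ^ 2) = (conj e * x).re - (conj e * x).re / ‖x‖ ^ 2 := by
    ring
  rw [e3] at h3
  linarith

/-- **General form with the `w_k` eliminated.** `g` is any reserve: the weight gained at `w_k`. -/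
theorem m5g (hN : 1 ≤ N) (hC : Cfg1 N z w c σ σ₀) {a l b : ℝ} {e y : ℂ} {θ : ℂ → ℝ}
    (hb : 0 < b) (hθ : ConvexOn ℝ Set.univ θ) (hc : PW a l e ((c - y) / b) θ)
    (hy0 : θ ((0 - y) / b) ≤ 0) {g : ℂ → ℝ}
    (hg : ∀ x : ℂ, 1 ≤ ‖x‖ → g x ≤ Real.log ‖x‖
      - a * (((N : ℝ) + 1) / N) / b * ((conj e * x).re - (e * x⁻¹).re)
      + ((N : ℝ) + 1) / N * θ ((x - y) / b)) :
    ((N : ℝ) + 1) * ‖fI w y‖ * Real.exp (∑ k, g (w k)) < Real.exp ((((N : ℝ) + 1)
      - N * b * (1 + Real.log (1 - a ^ 2) / 2 - l - Real.log b)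
      - a * N * (conj e * y).re + a * ((N : ℝ) + 1) * (e * av (uu w)).re + (conj σ₀ * y).re
      + b * kap a * (conj e * σ₀).re) / b) := by
  have hNpos : (0 : ℝ) < N := by exact_mod_cast hN
  have h1 := m5w hN hC hb hθ hc
  have hE : EE w = Real.exp (∑ k, Real.log ‖w k‖) := by
    rw [Real.exp_sum]
    unfold EE
    refine Finset.prod_congr rfl fun k _ => ?_
    rw [Real.exp_log]
    have := hC.far k
    linarith
  have hsum : ∑ k, g (w k) ≤ ∑ k, Real.log ‖w k‖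
      - a * (((N : ℝ) + 1) / N) / b * (∑ k, (conj e * w k).re - ∑ k, (e * uu w k).re)
      + ((N : ℝ) + 1) / N * ∑ k, θ ((w k - y) / b) := by
    have h2 := Finset.sum_le_sum (fun k (_ : k ∈ Finset.univ) => hg (w k) (hC.far k))
    rw [Finset.sum_add_distrib, Finset.sum_sub_distrib, ← Finset.mul_sum, ← Finset.mul_sum,
      Finset.sum_sub_distrib] at h2
    exact h2
  have hav : ∀ (x : Fin N → ℂ) (d : ℂ), ∑ k, (d * x k).re = N * (d * av x).re := by
    intro x d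
    unfold av
    rw [← Complex.re_sum, ← Finset.mul_sum,
      show (N : ℝ) * (d * (1 / (N : ℂ) * ∑ k, x k)).re = (((N : ℝ) : ℂ) *
        (d * (1 / (N : ℂ) * ∑ k, x k))).re by rw [Complex.re_ofReal_mul]]
    congr 1
    have : (N : ℂ) ≠ 0 := by exact_mod_cast hNpos.ne'
    push_cast
    field_simp
  rw [hav, hav] at hsum
  have e1 : (conj e * (N * y - ((N : ℂ) + 1) * av w)).re =
      N * (conj e * y).re - ((N : ℝ) + 1) * (conj e * av w).re := by
    have : conj e * (N * y - ((N : ℂ) + 1) * av w) =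
        ((N : ℝ) : ℂ) * (conj e * y) - (((N : ℝ) + 1 : ℝ) : ℂ) * (conj e * av w) := by
      push_cast
      ring
    rw [this, Complex.sub_re, Complex.re_ofReal_mul, Complex.re_ofReal_mul]
  rw [e1, hE] at h1
  obtain ⟨S, hS⟩ : ∃ S, S = ∑ k, θ ((w k - y) / b) := ⟨_, rfl⟩
  obtain ⟨θ0, hθ0⟩ : ∃ θ0, θ0 = θ ((0 - y) / b) := ⟨_, rfl⟩
  obtain ⟨A, hA⟩ : ∃ A, A = (conj e * av w).re := ⟨_, rfl⟩
  obtain ⟨B, hB⟩ : ∃ B, B = (e * av (uu w)).re := ⟨_, rfl⟩
  obtain ⟨Λ, hΛ⟩ : ∃ Λ, Λ = ∑ k, Real.log ‖w k‖ := ⟨_, rfl⟩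
  obtain ⟨G, hG⟩ : ∃ G, G = ∑ k, g (w k) := ⟨_, rfl⟩
  rw [← hS, ← hA, ← hΛ, ← hθ0] at h1
  rw [← hθ0] at hy0
  rw [← hS, ← hA, ← hB, ← hΛ, ← hG] at hsum
  rw [← hB, ← hG]
  have h3 : ((N : ℝ) + 1) * ‖fI w y‖ * Real.exp G =
      ((N : ℝ) + 1) * Real.exp Λ * ‖fI w y‖ * Real.exp (G - Λ) := by
    have : Real.exp G = Real.exp Λ * Real.exp (G - Λ) := by
      rw [← Real.exp_add]; congr 1; ring
    rw [this]
    ring
  rw [h3]
  have h4 := mul_lt_mul_of_pos_right h1 (Real.exp_pos (G - Λ))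
  rw [← Real.exp_add] at h4
  refine h4.trans_le (Real.exp_le_exp.2 ?_)
  have e2 : a * (((N : ℝ) + 1) / N) / b * (N * A - N * B) = a * ((N : ℝ) + 1) * (A - B) / b := by
    field_simp
  rw [e2] at hsum
  have h5 : G - Λ ≤ (- a * ((N : ℝ) + 1) * (A - B) + b * (((N : ℝ) + 1) / N * S)) / b := by
    have e3 : (- a * ((N : ℝ) + 1) * (A - B) + b * (((N : ℝ) + 1) / N * S)) / b =
        - (a * ((N : ℝ) + 1) * (A - B) / b) + ((N : ℝ) + 1) / N * S := by
      field_simp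
    rw [e3]
    linarith
  have h7 : b * θ0 ≤ 0 := mul_nonpos_of_nonneg_of_nonpos hb.le hy0
  refine (add_le_add_right h5 _).trans ?_
  rw [← add_div]
  apply div_le_div_of_nonneg_right _ hb.le
  have e4 : b * (((N : ℝ) + 1) / N * S - θ0) = b * (((N : ℝ) + 1) / N * S) - b * θ0 := by ring
  rw [e4]
  linarith

end facts

end Pool.Agent.Lib.MP_af3a4a_an.P1.H74
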