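import Pool.Agent.Lib.MP_af3a4a_an.P1.H74.V2

/-!
# The majorant V3 of `log |q(x)|` on the segment `[0, R]`, `R ≤ 3/4` (council 2)

Dual found by helper58, proof by helper74. `x = l R`, `v ∈ [0, 1]` a free parameter,
`A = |l² - 4 l³/3|`, `γ = l (1 - 2 l) + 2 A R (1 - 2 v)`, `h = R² (l²/2 - A R (1 - v)²)`,
`α = - γ + l + l² (1 - l) R² - (l² - 4 l³/3) R² v (2 - v)`.
-/

set_option autoImplicit false

namespace Pool.Agent.Lib.MP_af3a4a_an.P1.H74

open Finset MeasureTheory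
open ComplexConjugate
open Pool.Agent.Lib.MP_af3a4a_an.SV (uu av EE)
open Pool.Agent.Lib.MP_af3a4a_an.P1.H80

namespace V3

/-! ## Logarithm bounds -/

theorem log_le_cubic {y : ℝ} (hy : 0 ≤ y) : Real.log (1 + y) ≤ y - y ^ 2 / 2 + y ^ 3 / 3 := by
  have key : ∀ t ∈ Set.Icc (0 : ℝ) y, HasDerivAt
      (fun t => (t - t ^ 2 / 2 + t ^ 3 / 3) - Real.log (1 + t)) (t ^ 3 / (1 + t)) t := by
    intro t ht
    have h1 : (0 : ℝ) < 1 + t := by linarith [ht.1]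
    have e1 : HasDerivAt (fun t : ℝ => Real.log (1 + t)) (1 / (1 + t)) t := by
      have := ((hasDerivAt_id t).const_add 1).log (by simp only [id]; linarith)
      simpa using this
    have e2 : HasDerivAt (fun t : ℝ => t - t ^ 2 / 2 + t ^ 3 / 3) (1 - t + t ^ 2) t := by
      have := ((hasDerivAt_id t).sub ((hasDerivAt_pow 2 t).div_const 2)).add
        ((hasDerivAt_pow 3 t).div_const 3)
      refine this.congr_deriv ?_
      norm_num
    refine (e2.sub e1).congr_deriv ?_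
    field_simp
    ring
  have hmono : MonotoneOn
      (fun t : ℝ => (t - t ^ 2 / 2 + t ^ 3 / 3) - Real.log (1 + t)) (Set.Icc 0 y) := by
    apply monotoneOn_of_deriv_nonneg (convex_Icc 0 y)
    · exact fun t ht => (key t ht).continuousAt.continuousWithinAt
    · exact fun t ht => (key t (interior_subset ht)).differentiableAt.differentiableWithinAt
    · intro t ht
      have ht' := interior_subset ht
      rw [(key t ht').deriv]
      have : (0 : ℝ) < 1 + t := by linarith [ht'.1]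
      have : 0 ≤ t := ht'.1
      positivity
  have := hmono (Set.left_mem_Icc.2 hy) (Set.right_mem_Icc.2 hy) hy
  simp only [add_zero, Real.log_one] at this
  norm_num at this
  linarith

theorem log_le_quartic {t : ℝ} (ht : 0 ≤ t) (ht1 : t < 1) :
    Real.log (1 - t) ≤ -t - t ^ 2 / 2 - t ^ 3 / 3 - t ^ 4 / 4 := by
  have h := Real.hasSum_pow_div_log_of_abs_lt_one (x := t) (by rw [abs_of_nonneg ht]; exact ht1)
  have := sum_le_hasSum (Finset.range 4) (fun i _ => by positivity) h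
  simp only [Finset.sum_range_succ, Finset.sum_range_zero] at this
  norm_num at this
  linarith

/-! ## The scaled inequality, `b = - β ≤ 0` -/

/-- the final numerical inequality -/
theorem fin_ineq {t β δ : ℝ} (ht0 : 0 ≤ t) (ht1 : t ≤ 1) (hδ0 : 0 ≤ δ)
    (hδ : δ ≤ 1 - 4 * β / 3) :
    0 ≤ δ * (t * ((101 - 155 * β) / 64) + (1 - t) / 16) + 9 / 64 * t ^ 2 * β ^ 4 := by
  rcases le_or_gt (155 * β) 101 with h | h
  · have h1 : 0 ≤ (101 - 155 * β) / 64 := by linarith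
    have h2 : 0 ≤ 1 - t := by linarith
    positivity
  · have hβ1 : 13 / 20 ≤ β := by linarith
    have h4 : (13 / 20 : ℝ) ^ 4 ≤ β ^ 4 := pow_le_pow_left₀ (by norm_num) hβ1 4
    have h5 : 1 / 40 * t ^ 2 ≤ 9 / 64 * t ^ 2 * β ^ 4 := by
      have h6 : 1 / 40 ≤ 9 / 64 * β ^ 4 := by
        norm_num at h4
        linarith
      have := mul_le_mul_of_nonneg_left h6 (sq_nonneg t)
      linarith
    obtain ⟨y, hy⟩ : ∃ y, y = 3 / 4 - β := ⟨_, rfl⟩
    have hβy : β = 3 / 4 - y := by linarith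
    rw [hβy] at hδ
    have hy0 : 0 ≤ y := by linarith
    have h7 : 0 ≤ δ * (155 * t * y - 77 / 4 * t + 4) + 8 / 5 * t ^ 2 := by
      rcases le_or_gt 0 (155 * t * y - 77 / 4 * t + 4) with hc | hc
      · positivity
      · have h8 : 4 * y / 3 * (155 * t * y - 77 / 4 * t + 4) ≤
            δ * (155 * t * y - 77 / 4 * t + 4) :=
          mul_le_mul_of_nonpos_right (by linarith) hc.le
        have h9 : 0 ≤ 4 * y / 3 * (155 * t * y - 77 / 4 * t + 4) + 8 / 5 * t ^ 2 := by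
          rcases le_or_gt t (1 / 3) with h3 | h3
          · rcases le_or_gt t (1 / 5) with h5 | h5
            · have : 0 ≤ 155 * t * y := by positivity
              have : 0 ≤ 155 * t * y - 77 / 4 * t + 4 := by linarith
              positivity
            · have e1 : 0 ≤ t * (y - 3 / 100) ^ 2 := by positivity
              have e2 : 0 ≤ y * (1 / 3 - t) := mul_nonneg hy0 (by linarith)
              have e3 : 0 ≤ t * (t - 1 / 5) := mul_nonneg ht0 (by linarith)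
              linarith [mul_nonneg ht0 hy0]
          · have e1 : 0 ≤ t * (y - 1 / 20) ^ 2 := by positivity
            have e2 : 0 ≤ y * (1 - t) := mul_nonneg hy0 (by linarith)
            have e3 : 0 ≤ t * (t - 1 / 3) := mul_nonneg ht0 (by linarith)
            linarith [mul_nonneg ht0 hy0]
        linarith
    have e : δ * (t * ((101 - 155 * β) / 64) + (1 - t) / 16) + 1 / 40 * t ^ 2 =
        (δ * (155 * t * y - 77 / 4 * t + 4) + 8 / 5 * t ^ 2) / 64 := by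
      rw [hβy]
      ring
    have h10 : 0 ≤ δ * (t * ((101 - 155 * β) / 64) + (1 - t) / 16) + 1 / 40 * t ^ 2 := by
      rw [e]
      positivity
    linarith

theorem mul_le_aux {a R A B : ℝ} (ha : a ≤ A) (hR : R ≤ B) (ha0 : 0 ≤ a) (hB : 0 ≤ B) :
    a * R ≤ A * B :=
  (mul_le_mul_of_nonneg_left hR ha0).trans (mul_le_mul_of_nonneg_right ha hB)

theorem half_aux {R ν : ℝ} (hν : ν ≤ 1) : (1 + ν) * (R ^ 2 / 2) ≤ R ^ 2 := by
  have : (1 + ν) * (R ^ 2 / 2) ≤ 2 * (R ^ 2 / 2) :=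
    mul_le_mul_of_nonneg_right (by linarith) (by positivity)
  linarith

theorem cubic_aux {R : ℝ} (hR1 : R ≤ 3 / 4) (hR : 0 ≤ R) :
    0 ≤ (1 - R) * (2 - 2 / 3 * R) - R ^ 2 * (1 - 2 / 3 * R) := by
  obtain ⟨u, hu⟩ : ∃ u, u = 3 / 4 - R := ⟨_, rfl⟩
  have hu0 : 0 ≤ u := by linarith
  have e : (1 - R) * (2 - 2 / 3 * R) - R ^ 2 * (1 - 2 / 3 * R) =
      3 / 32 + 49 / 24 * u + 2 / 3 * u ^ 2 + 2 / 3 * (u ^ 2 * (3 / 4 - u)) := by
    have : R = 3 / 4 - u := by linarith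
    rw [this]
    ring
  have h3 : 0 ≤ 3 / 4 - u := by linarith
  rw [e]
  positivity

theorem sq_aux {s : ℝ} : 1 / 16 ≤ 1 / 8 - 1 / 2 * s + s ^ 2 := by
  linarith [sq_nonneg (s - 1 / 4)]

theorem R_aux {R : ℝ} (hR1 : R ≤ 3 / 4) : 1 / 8 ≤ 2 * (1 - R) ^ 2 := by
  have h := pow_le_pow_left₀ (by norm_num : (0 : ℝ) ≤ 1 / 4) (by linarith : 1 / 4 ≤ 1 - R) 2
  norm_num at h
  linarith

theorem quad_aux {R : ℝ} (hR : 0 ≤ R) (hR1 : R ≤ 3 / 4) :
    0 ≤ 2 / 3 - 7 / 12 * R - 1 / 4 * R ^ 2 := by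
  linarith [mul_nonneg hR (sub_nonneg.2 hR1)]

theorem vv_aux (v : ℝ) : v * (2 - v) ≤ 1 := by linarith [sq_nonneg (1 - v)]

theorem K0_ge {R β : ℝ} (hR : 0 < R) (hR1 : R ≤ 3 / 4) (hβ0 : 0 ≤ β) :
    (101 - 155 * β) / 64 ≤ 2 * (1 - β) - 3 / 4 * R ^ 2 * (1 + β) := by
  have h1 : R ^ 2 ≤ 9 / 16 := by
    have := pow_le_pow_left₀ hR.le hR1 2
    norm_num at this
    linarith
  have h2 := mul_le_mul_of_nonneg_right h1 (by linarith : 0 ≤ 1 + β)
  linarith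

/-- `l ≤ 3/4`, `a = 1 - 4 l/3` -/
theorem neg_pos {R a l v ν β : ℝ} (hR : 0 < R) (hR1 : R ≤ 3 / 4) (ha0 : 0 ≤ a) (ha1 : a ≤ 1)
    (hl : l = 3 / 4 * (1 - a)) (hv0 : 0 ≤ v) (hν0 : 0 < ν) (hν1 : ν ≤ 1)
    (hβ0 : 0 ≤ β) (hβ : β ≤ R * ν) :
    0 ≤ a * (R - β) * (β + v * R) ^ 2 + l ^ 2 * β ^ 4 / 4 + (1 - ν) *
      ((2 - 2 * a * R * (1 - 2 * v) + (1 - l) * R ^ 2 - a * R ^ 2 * v * (2 - v)) * (1 - β) / ν -
        (1 + ν) * (R ^ 2 / 2) * (1 - 2 * a * R * (1 - 2 * v) + 2 * (1 - l) * β)) := by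
  obtain ⟨α, hα⟩ : ∃ α, α = 2 - 2 * a * R * (1 - 2 * v) + (1 - l) * R ^ 2 -
    a * R ^ 2 * v * (2 - v) := ⟨_, rfl⟩
  obtain ⟨c, hc⟩ : ∃ c, c = 1 - 2 * a * R * (1 - 2 * v) + 2 * (1 - l) * β := ⟨_, rfl⟩
  rw [← hα, ← hc]
  have hβR : β ≤ R := hβ.trans (mul_le_of_le_one_right hR.le hν1)
  have hβ1 : 0 < 1 - β := by linarith
  have hα0 : 0 ≤ α := by
    have h1 : 0 ≤ a * R ^ 2 * (1 - v) ^ 2 := by positivity
    have h2 : 0 ≤ (1 - a) * R ^ 2 := mul_nonneg (by linarith) (sq_nonneg R)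
    have h3 : a * R * (1 - 2 * v) ≤ 3 / 4 := by
      have h4 : a * R ≤ 1 * (3 / 4) := mul_le_aux ha1 hR1 ha0 (by norm_num)
      have : a * R * (1 - 2 * v) ≤ a * R * 1 :=
        mul_le_mul_of_nonneg_left (by linarith) (by positivity)
      linarith
    have e : α = (2 - 2 * (a * R * (1 - 2 * v))) + (1 / 4 * ((1 - a) * R ^ 2) +
        a * R ^ 2 * (1 - v) ^ 2) := by
      rw [hα, hl]
      ring
    rw [e]
    linarith
  have hδ0 : 0 ≤ 1 - ν := by linarith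
  have h1 : (1 - ν) * (a * R * (β + v * R) ^ 2) ≤ a * (R - β) * (β + v * R) ^ 2 := by
    have h2 : (1 - ν) * R ≤ R - β := by linarith
    have h3 : 0 ≤ a * (β + v * R) ^ 2 := by positivity
    have := mul_le_mul_of_nonneg_left h2 h3
    linarith
  have h2 : α * (1 - β) ≤ α * (1 - β) / ν := by
    rw [le_div_iff₀ hν0]
    exact mul_le_of_le_one_right (by positivity) hν1
  have h0 : 0 ≤ l ^ 2 * β ^ 4 / 4 := by positivity
  rcases le_or_gt 0 c with hc0 | hc0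
  · have h3 : (1 + ν) * (R ^ 2 / 2) * c ≤ R ^ 2 * c := by
      exact mul_le_mul_of_nonneg_right (half_aux hν1) hc0
    -- the lower bound of `G`
    have hK := K0_ge hR hR1 hβ0
    obtain ⟨y, hy⟩ : ∃ y, y = R - β := ⟨_, rfl⟩
    have hy0 : 0 ≤ y := by linarith
    have hG : (1 - a) * ((101 - 155 * β) / 64) + a / 16 ≤
        a * R * (β + v * R) ^ 2 + α * (1 - β) - R ^ 2 * c := by
      have e : a * R * (β + v * R) ^ 2 + α * (1 - β) - R ^ 2 * c =
          (1 - a) * (2 * (1 - β) - 3 / 4 * R ^ 2 * (1 + β)) +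
          a * ((2 * (1 - R) ^ 2 + (4 - 6 * R) * (R * v) + (R * v) ^ 2) +
            (2 * (1 - R) * y + R ^ 2 * y + R * y ^ 2 + 4 * R * (1 - R) * y * v +
              R ^ 2 * y * v ^ 2)) := by
        rw [hα, hc, hl, hy]
        ring
      have h4 : 0 ≤ 2 * (1 - R) * y + R ^ 2 * y + R * y ^ 2 + 4 * R * (1 - R) * y * v +
          R ^ 2 * y * v ^ 2 := by
        have : 0 ≤ 1 - R := by linarith
        positivity
      have h5 : 1 / 16 ≤ 2 * (1 - R) ^ 2 + (4 - 6 * R) * (R * v) + (R * v) ^ 2 := by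
        have h6 := R_aux hR1
        have h7 : 0 ≤ R * v := by positivity
        have h8 : -(1 / 2) * (R * v) ≤ (4 - 6 * R) * (R * v) :=
          mul_le_mul_of_nonneg_right (by linarith) h7
        have h9 := sq_aux (s := R * v)
        linarith
      have h6 := mul_le_mul_of_nonneg_left (add_le_add h5 h4) ha0
      have h7 := mul_le_mul_of_nonneg_left hK (by linarith : 0 ≤ 1 - a)
      rw [e]
      linarith
    have hδ : 1 - ν ≤ 1 - 4 * β / 3 := by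
      have : β ≤ 3 / 4 * ν := hβ.trans (mul_le_mul_of_nonneg_right hR1 hν0.le)
      linarith
    have hf := fin_ineq (t := 1 - a) (by linarith) (by linarith) hδ0 hδ
    have e2 : l ^ 2 * β ^ 4 / 4 = 9 / 64 * (1 - a) ^ 2 * β ^ 4 := by rw [hl]; ring
    have h8 := mul_le_mul_of_nonneg_left hG hδ0
    have h9 := mul_le_mul_of_nonneg_left (sub_le_sub h2 h3) hδ0
    have e3 : (1 - (1 - a)) / 16 = a / 16 := by ring
    rw [e3] at hf
    rw [e2]
    linarith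
  · have h3 : (1 + ν) * (R ^ 2 / 2) * c ≤ 0 :=
      mul_nonpos_of_nonneg_of_nonpos (by positivity) hc0.le
    have h4 : 0 ≤ α * (1 - β) / ν := by positivity
    have h5 : 0 ≤ a * (R - β) * (β + v * R) ^ 2 := by
      have : 0 ≤ R - β := by linarith
      positivity
    have h6 : 0 ≤ (1 - ν) * (α * (1 - β) / ν - (1 + ν) * (R ^ 2 / 2) * c) :=
      mul_nonneg hδ0 (by linarith)
    linarith

/-- `l ≥ 3/4`, `a = 4 l/3 - 1` -/
theorem neg_neg {R a l v ν β : ℝ} (hR : 0 < R) (hR1 : R ≤ 3 / 4) (ha0 : 0 ≤ a) (ha1 : a ≤ 1 / 3)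
    (hl : l = 3 / 4 * (1 + a)) (hv0 : 0 ≤ v) (hv1 : v ≤ 1) (hν0 : 0 < ν) (hν1 : ν ≤ 1)
    (hβ0 : 0 ≤ β) (hβ : β ≤ R * ν) :
    0 ≤ a * (R + β) * (v * R - β) ^ 2 + l ^ 2 * β ^ 4 / 4 + (1 - ν) *
      ((2 - 2 * a * R * (1 - 2 * v) + (1 - l) * R ^ 2 + a * R ^ 2 * v * (2 - v)) * (1 - β) / ν -
        (1 + ν) * (R ^ 2 / 2) * (1 - 2 * a * R * (1 - 2 * v) + 2 * (1 - l) * β)) := by
  obtain ⟨α, hα⟩ : ∃ α, α = 2 - 2 * a * R * (1 - 2 * v) + (1 - l) * R ^ 2 +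
    a * R ^ 2 * v * (2 - v) := ⟨_, rfl⟩
  obtain ⟨c, hc⟩ : ∃ c, c = 1 - 2 * a * R * (1 - 2 * v) + 2 * (1 - l) * β := ⟨_, rfl⟩
  rw [← hα, ← hc]
  have hβR : β ≤ R := hβ.trans (mul_le_of_le_one_right hR.le hν1)
  have hβ1 : 0 < 1 - β := by linarith
  have hl1 : 0 ≤ 1 - l := by rw [hl]; linarith
  have haR : a * R * (1 - 2 * v) ≤ 1 / 4 := by
    have h4 : a * R ≤ 1 / 3 * (3 / 4) := mul_le_aux ha1 hR1 ha0 (by norm_num)
    have : a * R * (1 - 2 * v) ≤ a * R * 1 :=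
      mul_le_mul_of_nonneg_left (by linarith) (by positivity)
    linarith
  have hα0 : 0 ≤ α := by
    have h1 : 0 ≤ a * R ^ 2 * v * (2 - v) := mul_nonneg (by positivity) (by linarith)
    have h2 : 0 ≤ (1 - l) * R ^ 2 := by positivity
    rw [hα]
    linarith
  have hc0 : 0 ≤ c := by
    have : 0 ≤ (1 - l) * β := by positivity
    rw [hc]
    linarith
  have hδ0 : 0 ≤ 1 - ν := by linarith
  have h2 : α * (1 - β) ≤ α * (1 - β) / ν := by
    rw [le_div_iff₀ hν0]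
    exact mul_le_of_le_one_right (by positivity) hν1
  have h3 : (1 + ν) * (R ^ 2 / 2) * c ≤ R ^ 2 * c := by
    exact mul_le_mul_of_nonneg_right (half_aux hν1) hc0
  have h5 : 0 ≤ a * (R + β) * (v * R - β) ^ 2 := by positivity
  obtain ⟨K, hKd⟩ : ∃ K, K = 2 * (1 - β) - 3 / 4 * R ^ 2 * (1 + β) := ⟨_, rfl⟩
  have hK := K0_ge hR hR1 hβ0
  rw [← hKd] at hK
  -- `G ≥ min 0 K`
  have e : α * (1 - β) - R ^ 2 * c =
      (1 - 3 * a + 3 * a * v) * K + 3 * a * ((1 - v) *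
        ((1 - β) * (2 - 2 / 3 * R) - R ^ 2 * (1 - 2 / 3 * R)) +
        v * ((1 - β) * (2 / 3 * R + 1 / 3 * R ^ 2) - 1 / 4 * R ^ 2 - 2 / 3 * R ^ 3 +
          3 / 4 * R ^ 2 * β) +
        1 / 3 * R ^ 2 * (1 - β) * (v * (1 - v))) := by
    rw [hα, hc, hl, hKd]
    ring
  have h6 : 0 ≤ (1 - β) * (2 - 2 / 3 * R) - R ^ 2 * (1 - 2 / 3 * R) := by
    have e1 : (1 - R) * (2 - 2 / 3 * R) ≤ (1 - β) * (2 - 2 / 3 * R) :=
      mul_le_mul_of_nonneg_right (by linarith) (by linarith)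
    have e2 := cubic_aux hR1 hR.le
    linarith
  have h7 : 0 ≤ (1 - β) * (2 / 3 * R + 1 / 3 * R ^ 2) - 1 / 4 * R ^ 2 - 2 / 3 * R ^ 3 +
      3 / 4 * R ^ 2 * β := by
    obtain ⟨y, hy⟩ : ∃ y, y = R - β := ⟨_, rfl⟩
    have hy0 : 0 ≤ y := by linarith
    have e1 : (1 - β) * (2 / 3 * R + 1 / 3 * R ^ 2) - 1 / 4 * R ^ 2 - 2 / 3 * R ^ 3 +
        3 / 4 * R ^ 2 * β = R * (2 / 3 - 7 / 12 * R - 1 / 4 * R ^ 2) +
          R * y * (2 / 3 - 5 / 12 * R) := by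
      have : β = R - y := by linarith
      rw [this]
      ring
    have e2 := quad_aux hR.le hR1
    have e3 : 0 ≤ 2 / 3 - 5 / 12 * R := by linarith
    rw [e1]
    positivity
  have hm0 : 0 ≤ 1 - 3 * a + 3 * a * v := by
    have : 0 ≤ 3 * a * v := by positivity
    linarith
  have hm1 : 1 - 3 * a + 3 * a * v ≤ 1 := by
    have : 0 ≤ a * (1 - v) := mul_nonneg ha0 (by linarith)
    linarith
  have hG : min 0 ((101 - 155 * β) / 64) ≤ α * (1 - β) - R ^ 2 * c := by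
    rw [e]
    have h8 : 0 ≤ 3 * a * ((1 - v) *
        ((1 - β) * (2 - 2 / 3 * R) - R ^ 2 * (1 - 2 / 3 * R)) +
        v * ((1 - β) * (2 / 3 * R + 1 / 3 * R ^ 2) - 1 / 4 * R ^ 2 - 2 / 3 * R ^ 3 +
          3 / 4 * R ^ 2 * β) +
        1 / 3 * R ^ 2 * (1 - β) * (v * (1 - v))) := by
      have h9 : 0 ≤ 1 - v := by linarith
      have h10 := mul_nonneg h9 h6
      have h11 := mul_nonneg hv0 h7
      have h12 : 0 ≤ 1 / 3 * R ^ 2 * (1 - β) * (v * (1 - v)) := by positivity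
      exact mul_nonneg (by positivity) (by linarith)
    rcases le_total 0 K with hK0 | hK0
    · have : 0 ≤ (1 - 3 * a + 3 * a * v) * K := mul_nonneg hm0 hK0
      exact (min_le_left _ _).trans (by linarith)
    · have : 1 * K ≤ (1 - 3 * a + 3 * a * v) * K := mul_le_mul_of_nonpos_right hm1 hK0
      exact (min_le_right _ _).trans (by linarith)
  have hδ : 1 - ν ≤ 1 - 4 * β / 3 := by
    have : β ≤ 3 / 4 * ν := hβ.trans (mul_le_mul_of_nonneg_right hR1 hν0.le)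
    linarith
  have hf := fin_ineq (t := 1) (by norm_num) le_rfl hδ0 hδ
  have hl2 : 9 / 64 * β ^ 4 ≤ l ^ 2 * β ^ 4 / 4 := by
    have h13 : (9 / 16 : ℝ) ≤ l ^ 2 := by
      have : 3 / 4 ≤ l := by rw [hl]; linarith
      have := pow_le_pow_left₀ (by norm_num : (0 : ℝ) ≤ 3 / 4) this 2
      norm_num at this
      exact this
    have := mul_le_mul_of_nonneg_right h13 (by positivity : 0 ≤ β ^ 4)
    linarith
  have h0 : 0 ≤ l ^ 2 * β ^ 4 / 4 := by positivity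
  have h8 := mul_le_mul_of_nonneg_left hG hδ0
  have h9 := mul_le_mul_of_nonneg_left (sub_le_sub h2 h3) hδ0
  have h10 : 0 ≤ (1 - ν) * min 0 ((101 - 155 * β) / 64) + l ^ 2 * β ^ 4 / 4 := by
    rcases le_total 0 ((101 - 155 * β) / 64) with h | h
    · rw [min_eq_left h]
      linarith
    · rw [min_eq_right h]
      have e4 : (1 - ν) * (1 * ((101 - 155 * β) / 64) + (1 - 1) / 16) +
        9 / 64 * 1 ^ 2 * β ^ 4 = (1 - ν) * ((101 - 155 * β) / 64) + 9 / 64 * β ^ 4 := by ring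
      rw [e4] at hf
      linarith
  linarith

/-- `b ≥ 0` -/
theorem pos_Z {R a l s v ν b : ℝ} (hR : 0 < R) (hR1 : R ≤ 3 / 4) (ha0 : 0 ≤ a) (ha1 : a ≤ 1)
    (hl1 : l ≤ 1) (hsl : s ≤ 1 - l) (hv0 : 0 ≤ v) (hv1 : v ≤ 1) (hν0 : 0 < ν)
    (hν1 : ν ≤ 1) (hb0 : 0 ≤ b) :
    0 ≤ (2 - 2 * a * R * (1 - 2 * v) + (1 - l) * R ^ 2 - s * R ^ 2 * v * (2 - v)) * (1 + b) / ν -
        (1 + ν) * (R ^ 2 / 2) * (1 - 2 * a * R * (1 - 2 * v) - 2 * (1 - l) * b) := by
  obtain ⟨c, hc⟩ : ∃ c, c = 1 - 2 * a * R * (1 - 2 * v) := ⟨_, rfl⟩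
  have hc1 : 0 ≤ 1 + c := by
    have h4 : a * R ≤ 1 * (3 / 4) := mul_le_aux ha1 hR1 ha0 (by norm_num)
    have : a * R * (1 - 2 * v) ≤ a * R * 1 :=
      mul_le_mul_of_nonneg_left (by linarith) (by positivity)
    rw [hc]
    linarith
  obtain ⟨α, hα⟩ : ∃ α, α = 2 - 2 * a * R * (1 - 2 * v) + (1 - l) * R ^ 2 -
    s * R ^ 2 * v * (2 - v) := ⟨_, rfl⟩
  rw [← hα, ← hc]
  have hα1 : 1 + c ≤ α := by
    have h1 := vv_aux v
    have h2 : 0 ≤ v * (2 - v) := mul_nonneg hv0 (by linarith)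
    have h3 : s * (v * (2 - v)) ≤ 1 - l := by
      rcases le_total 0 s with h | h
      · calc s * (v * (2 - v)) ≤ s * 1 := mul_le_mul_of_nonneg_left h1 h
          _ ≤ 1 - l := by linarith
      · have := mul_nonpos_of_nonpos_of_nonneg h h2
        linarith
    have h4 := mul_le_mul_of_nonneg_right h3 (sq_nonneg R)
    rw [hα, hc]
    linarith
  have hα0 : 0 ≤ α := by linarith
  have h2 : α ≤ α * (1 + b) / ν := by
    rw [le_div_iff₀ hν0]
    have e1 : α * ν ≤ α * 1 := mul_le_mul_of_nonneg_left hν1 hα0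
    have e2 : α * 1 ≤ α * (1 + b) := mul_le_mul_of_nonneg_left (by linarith) hα0
    linarith
  have h5 : 0 ≤ (1 - l) * b := mul_nonneg (by linarith) hb0
  have h3 : (1 + ν) * (R ^ 2 / 2) * (c - 2 * (1 - l) * b) ≤ 1 + c := by
    have h6 : (1 + ν) * (R ^ 2 / 2) * (c - 2 * (1 - l) * b) ≤ (1 + ν) * (R ^ 2 / 2) * c :=
      mul_le_mul_of_nonneg_left (by linarith) (by positivity)
    have h7 : (1 + ν) * (R ^ 2 / 2) ≤ 1 :=
      (half_aux hν1).trans (pow_le_one₀ hR.le (by linarith))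
    rcases le_total 0 c with h | h
    · have : (1 + ν) * (R ^ 2 / 2) * c ≤ 1 * c := mul_le_mul_of_nonneg_right h7 h
      linarith
    · have : (1 + ν) * (R ^ 2 / 2) * c ≤ 0 :=
        mul_nonpos_of_nonneg_of_nonpos (by positivity) h
      linarith
  linarith

end V3

end Pool.Agent.Lib.MP_af3a4a_an.P1.H74
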